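import Pool.Agent.Run7.h520.Defs

/-!
# A lower bound for the length of a curve by a potential
-/

namespace Run7.h520

open Set
open scoped ENNReal

/-- A monotone `1`-Lipschitz function that is constant near each point of a finite set and
loses little. -/
theorem exists_flatten (S : Finset ℝ) (ε : ℝ) (hε : 0 < ε) :
    ∃ ψ : ℝ → ℝ, (∀ x y, x ≤ y → 0 ≤ ψ y - ψ x ∧ ψ y - ψ x ≤ y - x ∧
        y - x - 2 * ε * S.card ≤ ψ y - ψ x) ∧
      (∀ z ∈ S, ∀ x ∈ Icc (z - ε) (z + ε), ψ x = ψ z) := by
  classical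
  induction S using Finset.induction_on with
  | empty =>
    refine ⟨fun x => x, fun x y hxy => ⟨by linarith, le_rfl, by simp⟩, ?_⟩
    intro z hz
    simp at hz
  | insert z S hz ih =>
    obtain ⟨ψ, h1, h2⟩ := ih
    let cl : ℝ → ℝ := fun x => max (z - ε) (min x (z + ε))
    have hcl : ∀ x y, x ≤ y → cl x ≤ cl y ∧
        (cl x = cl y ∨ (x ≤ cl x ∧ cl y ≤ y)) ∧ cl y - cl x ≤ 2 * ε := by
      intro x y hxy
      have h3 : cl x ≤ cl y := max_le_max le_rfl (min_le_min hxy le_rfl)
      refine ⟨h3, ?_, ?_⟩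
      · by_cases hx : x ≤ z + ε
        · by_cases hy : z - ε ≤ y
          · right
            constructor
            · simp only [cl, min_eq_left hx]; exact le_max_right _ _
            · simp only [cl]; exact max_le hy (min_le_left _ _)
          · left
            push Not at hy
            simp only [cl]
            rw [min_eq_left (by linarith), min_eq_left (by linarith), max_eq_left (by linarith),
              max_eq_left (by linarith)]
        · left
          push Not at hx
          simp only [cl]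
          rw [min_eq_right (by linarith), min_eq_right (by linarith)]
      · have e1 : cl y ≤ z + ε := max_le (by linarith) (min_le_right _ _)
        have e2 : z - ε ≤ cl x := le_max_left _ _
        linarith
    have hmain : ∀ x y, x ≤ y → 0 ≤ ψ (cl y) - ψ (cl x) ∧
        ψ (cl y) - ψ (cl x) ≤ ψ y - ψ x ∧ ψ (cl y) - ψ (cl x) ≤ 2 * ε := by
      intro x y hxy
      obtain ⟨h3, h4, h5⟩ := hcl x y hxy
      have h6 := h1 _ _ h3
      refine ⟨h6.1, ?_, by linarith [h6.2.1]⟩
      rcases h4 with h4 | h4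
      · rw [h4, sub_self]
        exact (h1 x y hxy).1
      · have h7 := (h1 _ _ h4.1).1
        have h8 := (h1 _ _ h4.2).1
        linarith
    refine ⟨fun x => ψ x - ψ (cl x), ?_, ?_⟩
    · intro x y hxy
      obtain ⟨h3, h4, h5⟩ := hmain x y hxy
      obtain ⟨h6, h7, h8⟩ := h1 x y hxy
      refine ⟨by linarith, by linarith, ?_⟩
      rw [Finset.card_insert_of_notMem hz]
      push_cast
      nlinarith
    · intro w hw x hx
      rcases Finset.mem_insert.mp hw with rfl | hw
      · have e1 : cl x = x := by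
          simp only [cl]
          rw [min_eq_left hx.2, max_eq_right hx.1]
        have e2 : cl w = w := by
          simp only [cl]
          rw [min_eq_left (by linarith), max_eq_right (by linarith)]
        simp only [e1, e2, sub_self]
      · have h9 := h2 w hw x hx
        rcases le_total x w with hxw | hxw
        · obtain ⟨h3, h4, _⟩ := hmain x w hxw
          have : ψ (cl w) - ψ (cl x) = 0 := by linarith
          simp only
          linarith
        · obtain ⟨h3, h4, _⟩ := hmain w x hxw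
          have : ψ (cl x) - ψ (cl w) = 0 := by linarith
          simp only
          linarith

/-- Local control of increments gives global control by the length. -/
theorem increment_le_of_local {t₁ t₂ : ℝ} (h12 : t₁ ≤ t₂) (γ : ℝ → Plane) (g : ℝ → ℝ)
    (hloc : ∀ t ∈ Icc t₁ t₂, ∃ δ > 0, ∀ u ∈ Icc t₁ t₂, ∀ v ∈ Icc t₁ t₂, |u - t| < δ → |v - t| < δ →
      |g u - g v| ≤ dist (γ u) (γ v)) :
    ENNReal.ofReal |g t₂ - g t₁| ≤ eVariationOn γ (Icc t₁ t₂) := by
  have hloc' : ∀ t : Icc t₁ t₂, ∃ δ > 0, ∀ u ∈ Icc t₁ t₂, ∀ v ∈ Icc t₁ t₂, |u - t| < δ →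
      |v - t| < δ → |g u - g v| ≤ dist (γ u) (γ v) := fun t => hloc t t.2
  choose δ hδ hδ' using hloc'
  obtain ⟨t, ht0, htm, ⟨M, hM⟩, htc⟩ := exists_monotone_Icc_subset_open_cover_Icc h12
    (c := fun t : Icc t₁ t₂ => {u : Icc t₁ t₂ | |(u : ℝ) - t| < δ t})
    (fun t => by
      apply isOpen_lt
      · fun_prop
      · exact continuous_const)
    (fun u _ => by
      rw [mem_iUnion]
      refine ⟨u, ?_⟩
      rw [mem_ofPred_eq, sub_self, abs_zero]
      exact hδ u)
  have h1 : ∀ k : ℕ, |g (t (k + 1)) - g (t k)| ≤ dist (γ (t (k + 1))) (γ (t k)) := by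
    intro k
    obtain ⟨i, hi⟩ := htc k
    have hk1 : (t k) ∈ Icc (t k) (t (k + 1)) := ⟨le_rfl, htm (Nat.le_succ k)⟩
    have hk2 : (t (k + 1)) ∈ Icc (t k) (t (k + 1)) := ⟨htm (Nat.le_succ k), le_rfl⟩
    exact hδ' i _ (t (k + 1)).2 _ (t k).2 (hi hk2) (hi hk1)
  have h2 : |g t₂ - g t₁| ≤ ∑ k ∈ Finset.range M, |g (t (k + 1)) - g (t k)| := by
    have e : g t₂ - g t₁ = ∑ k ∈ Finset.range M, (g (t (k + 1)) - g (t k)) := by
      rw [Finset.sum_range_sub (fun k => g (t k))]
      rw [hM M le_rfl, ht0]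
    rw [e]
    exact Finset.abs_sum_le_sum_abs _ _
  have h3 : ENNReal.ofReal (∑ k ∈ Finset.range M, |g (t (k + 1)) - g (t k)|) ≤
      ∑ k ∈ Finset.range M, edist (γ (t (k + 1))) (γ (t k)) := by
    rw [ENNReal.ofReal_sum_of_nonneg (fun _ _ => abs_nonneg _)]
    apply Finset.sum_le_sum
    intro k _
    rw [edist_dist]
    exact ENNReal.ofReal_le_ofReal (h1 k)
  have h4 := eVariationOn.sum_le (f := γ) (s := Icc t₁ t₂) (n := M) (u := fun k => (t k : ℝ))
    (fun i j hij => htm hij) (fun i => (t i).2)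
  exact (ENNReal.ofReal_le_ofReal h2).trans (h3.trans h4)

/-- The version with finitely many special values. -/
theorem increment_le_of_special {t₁ t₂ : ℝ} (h12 : t₁ ≤ t₂) (γ : ℝ → Plane) (g : ℝ → ℝ)
    (hg : ContinuousOn g (Icc t₁ t₂)) (S : Finset ℝ)
    (hloc : ∀ t ∈ Icc t₁ t₂, g t ∉ S → ∃ δ > 0, ∀ u ∈ Icc t₁ t₂, ∀ v ∈ Icc t₁ t₂,
      |u - t| < δ → |v - t| < δ → |g u - g v| ≤ dist (γ u) (γ v)) :
    ENNReal.ofReal (g t₂ - g t₁) ≤ eVariationOn γ (Icc t₁ t₂) := by
  rcases le_total (g t₂) (g t₁) with hle | hle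
  · rw [ENNReal.ofReal_of_nonpos (by linarith)]
    exact zero_le
  by_cases hv : eVariationOn γ (Icc t₁ t₂) = ⊤
  · rw [hv]; exact le_top
  rw [ENNReal.ofReal_le_iff_le_toReal hv]
  apply le_of_forall_pos_le_add
  intro η hη
  set ε := η / (2 * (S.card + 1)) with hε
  have hcard : (0 : ℝ) < S.card + 1 := by positivity
  have hε0 : 0 < ε := by rw [hε]; positivity
  obtain ⟨ψ, hψ1, hψ2⟩ := exists_flatten S ε hε0
  have hψ3 : ∀ x y, |ψ x - ψ y| ≤ |x - y| := by
    intro x y
    rcases le_total x y with hxy | hxy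
    · obtain ⟨h1, h2, _⟩ := hψ1 x y hxy
      rw [abs_sub_comm, abs_sub_comm x y, abs_of_nonneg h1, abs_of_nonneg (by linarith)]
      exact h2
    · obtain ⟨h1, h2, _⟩ := hψ1 y x hxy
      rw [abs_of_nonneg h1, abs_of_nonneg (by linarith)]
      exact h2
  have key := increment_le_of_local h12 γ (fun t => ψ (g t)) (by
    intro t ht
    by_cases hS : g t ∈ S
    · -- near a special value the composite is constant
      have hc := hg t ht
      rw [Metric.continuousWithinAt_iff] at hc
      obtain ⟨δ, hδ, hδ'⟩ := hc ε hε0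
      refine ⟨δ, hδ, ?_⟩
      intro u hu v hv' hut hvt
      have hu' := hδ' hu (by rw [Real.dist_eq]; exact hut)
      have hv'' := hδ' hv' (by rw [Real.dist_eq]; exact hvt)
      rw [Real.dist_eq, abs_lt] at hu' hv''
      have e1 := hψ2 (g t) hS (g u) ⟨by linarith [hu'.1], by linarith [hu'.2]⟩
      have e2 := hψ2 (g t) hS (g v) ⟨by linarith [hv''.1], by linarith [hv''.2]⟩
      simp only [e1, e2, sub_self, abs_zero]
      exact dist_nonneg
    · obtain ⟨δ, hδ, hδ'⟩ := hloc t ht hS
      exact ⟨δ, hδ, fun u hu v hv' hut hvt => (hψ3 _ _).trans (hδ' u hu v hv' hut hvt)⟩)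
  rw [ENNReal.ofReal_le_iff_le_toReal hv] at key
  obtain ⟨h1, h2, h3⟩ := hψ1 (g t₁) (g t₂) hle
  simp only [abs_of_nonneg h1] at key
  have h4 : 2 * ε * S.card ≤ η := by
    rw [hε]
    have : 2 * (η / (2 * ((S.card : ℝ) + 1))) * S.card = η * (S.card / (S.card + 1)) := by
      field_simp
    rw [this]
    have h5 : (S.card : ℝ) / (S.card + 1) ≤ 1 := by
      rw [div_le_one hcard]; linarith
    nlinarith
  linarith

end Run7.h520
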