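import Mathlib

/-!
# The zigzag function
-/

namespace Run7.h520

open Set

/-- The zigzag function with value `-s ξ` at the odd integers and slopes `±1`. -/
noncomputable def wave (s ξ : ℝ) : ℝ := ⨅ j : ℤ, (-s * (2 * j + 1) + |ξ - (2 * j + 1)|)

theorem wave_term_ge {s ξ : ℝ} (hs : |s| ≤ 1) (j : ℤ) :
    -s * ξ ≤ -s * (2 * j + 1) + |ξ - (2 * j + 1)| := by
  have h1 : s * ((2 * j + 1) - ξ) ≤ |ξ - (2 * j + 1)| := by
    calc s * ((2 * j + 1) - ξ) ≤ |s * ((2 * j + 1) - ξ)| := le_abs_self _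
      _ = |s| * |ξ - (2 * j + 1)| := by rw [abs_mul, abs_sub_comm]
      _ ≤ 1 * |ξ - (2 * j + 1)| := mul_le_mul_of_nonneg_right hs (abs_nonneg _)
      _ = |ξ - (2 * j + 1)| := one_mul _
  linarith

theorem wave_bddBelow {s : ℝ} (hs : |s| ≤ 1) (ξ : ℝ) :
    BddBelow (range fun j : ℤ => (-s * (2 * j + 1) + |ξ - (2 * j + 1)|)) :=
  ⟨-s * ξ, by rintro _ ⟨j, rfl⟩; exact wave_term_ge hs j⟩

theorem wave_le {s : ℝ} (hs : |s| ≤ 1) (ξ : ℝ) (j : ℤ) :
    wave s ξ ≤ -s * (2 * j + 1) + |ξ - (2 * j + 1)| := ciInf_le (wave_bddBelow hs ξ) j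

theorem wave_ge {s : ℝ} (hs : |s| ≤ 1) (ξ : ℝ) : -s * ξ ≤ wave s ξ :=
  le_ciInf fun j => wave_term_ge hs j

theorem wave_lip {s : ℝ} (hs : |s| ≤ 1) (ξ ξ' : ℝ) : |wave s ξ - wave s ξ'| ≤ |ξ - ξ'| := by
  have key : ∀ x y : ℝ, wave s x - |x - y| ≤ wave s y := by
    intro x y
    apply le_ciInf
    intro j
    have h1 := wave_le hs x j
    have h2 : |x - (2 * j + 1)| ≤ |x - y| + |y - (2 * j + 1)| := abs_sub_le _ _ _
    linarith
  rw [abs_le]
  have h1 := key ξ ξ'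
  have h2 := key ξ' ξ
  rw [abs_sub_comm ξ' ξ] at h2
  exact ⟨by linarith, by linarith⟩

theorem wave_odd {s : ℝ} (hs : |s| ≤ 1) (j : ℤ) : wave s (2 * j + 1) = -s * (2 * j + 1) := by
  apply le_antisymm
  · have := wave_le hs (2 * j + 1) j
    simpa using this
  · exact wave_ge hs _

theorem wave_upper {s : ℝ} (hs : |s| ≤ 1) (ξ : ℝ) : wave s ξ ≤ -s * ξ + 2 := by
  set j : ℤ := ⌊ξ / 2⌋ with hj
  have h1 := Int.floor_le (ξ / 2)
  have h2 := Int.lt_floor_add_one (ξ / 2)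
  rw [← hj] at h1 h2
  have h3 : |ξ - (2 * j + 1)| ≤ 1 := by
    rw [abs_le]; constructor <;> linarith
  have h4 := wave_le hs ξ j
  have h5 : -s * ((2 * j + 1) - ξ) ≤ 1 := by
    calc -s * ((2 * j + 1) - ξ) ≤ |(-s) * ((2 * j + 1) - ξ)| := le_abs_self _
      _ = |s| * |ξ - (2 * j + 1)| := by rw [abs_mul, abs_neg, abs_sub_comm]
      _ ≤ 1 * 1 := mul_le_mul hs h3 (abs_nonneg _) zero_le_one
      _ = 1 := one_mul _
  linarith

/-- The value at the local maxima. -/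
theorem wave_max {s : ℝ} (hs : |s| ≤ 1) (j : ℤ) : wave s (2 * j - s) = 1 - 2 * j * s := by
  have hs' := abs_le.mp hs
  apply le_antisymm
  · have h := wave_le hs (2 * j - s) j
    have e : |2 * (j : ℝ) - s - (2 * j + 1)| = 1 + s := by
      rw [show 2 * (j : ℝ) - s - (2 * j + 1) = -(1 + s) by ring, abs_neg, abs_of_nonneg (by linarith)]
    rw [e] at h
    linarith
  · apply le_ciInf
    intro i
    rcases le_or_gt j i with hij | hij
    · have hij' : (j : ℝ) ≤ i := by exact_mod_cast hij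
      have e : 2 * (i : ℝ) + 1 - (2 * j - s) ≤ |2 * (j : ℝ) - s - (2 * i + 1)| := by
        rw [abs_sub_comm]; exact le_abs_self _
      nlinarith [mul_nonneg (sub_nonneg.mpr hij') (by linarith : (0:ℝ) ≤ 1 - s)]
    · have hij' : (i : ℝ) + 1 ≤ j := by exact_mod_cast hij
      have e : (2 * (j : ℝ) - s) - (2 * i + 1) ≤ |2 * (j : ℝ) - s - (2 * i + 1)| := le_abs_self _
      nlinarith [mul_nonneg (sub_nonneg.mpr hij') (by linarith : (0:ℝ) ≤ 1 + s)]

/-- The odd integers form a closed set. -/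
theorem isClosed_odd : IsClosed {ξ : ℝ | ∃ j : ℤ, ξ = 2 * j + 1} := by
  have h : {ξ : ℝ | ∃ j : ℤ, ξ = 2 * j + 1} = (fun ξ : ℝ => (ξ - 1) / 2) ⁻¹' (range ((↑) : ℤ → ℝ)) := by
    ext ξ
    constructor
    · rintro ⟨j, rfl⟩
      exact ⟨j, by ring⟩
    · rintro ⟨j, hj⟩
      refine ⟨j, ?_⟩
      simp only at hj
      linarith
  rw [h]
  exact Int.isClosedEmbedding_coe_real.isClosed_range.preimage (by fun_prop)

/-- A number at distance at least one from all even integers is odd. -/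
theorem odd_of_far {ξ : ℝ} (h : ∀ j : ℤ, 1 ≤ |ξ - 2 * j|) : ∃ j : ℤ, ξ = 2 * j + 1 := by
  set j := round (ξ / 2) with hj
  have h1 := abs_sub_round (ξ / 2)
  rw [← hj] at h1
  have h2 := h j
  rw [abs_le] at h1
  rcases le_or_gt 0 (ξ - 2 * j) with h3 | h3
  · rw [abs_of_nonneg h3] at h2
    exact ⟨j, by linarith [h1.2]⟩
  · rw [abs_of_neg h3] at h2
    refine ⟨j - 1, ?_⟩
    push_cast
    linarith [h1.1]

end Run7.h520
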