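import Pool.Agent.Run7.h520.PgramGeom
import Pool.Agent.Run7.h520.Variation
import Pool.Agent.Run7.h520.Wave

/-!
# The staggered lattice tiling by parallelograms and its potential
-/

namespace Run7.h520

open Set
open scoped ENNReal

/-- Linear coordinates with respect to the basis `(A, B)`. -/
structure Coord (A B : Plane) (X Y : Plane →L[ℝ] ℝ) : Prop where
  XA : X A = 1
  XB : X B = 0
  YA : Y A = 0
  YB : Y B = 1
  dec : ∀ z, z = X z • A + Y z • B

theorem exists_coord {m n A B : Plane} (hf : Frame m n)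
    (hκ : (inner ℝ m A : ℝ) * inner ℝ n B - inner ℝ n A * inner ℝ m B ≠ 0) :
    ∃ X Y : Plane →L[ℝ] ℝ, Coord A B X Y := by
  set α : ℝ := inner ℝ m A with hα
  set α' : ℝ := inner ℝ n A with hα'
  set β : ℝ := inner ℝ m B with hβ
  set β' : ℝ := inner ℝ n B with hβ'
  set κ : ℝ := α * β' - α' * β with hκd
  refine ⟨(1 / κ) • (β' • innerSL ℝ m - β • innerSL ℝ n),
    (1 / κ) • (α • innerSL ℝ n - α' • innerSL ℝ m), ?_, ?_, ?_, ?_, ?_⟩
  · simp only [smul_apply, sub_apply, innerSL_apply_apply,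
      smul_eq_mul, ← hα, ← hα']
    have : β' * α - β * α' = κ := by rw [hκd]; ring
    rw [this]; field_simp
  · simp only [smul_apply, sub_apply, innerSL_apply_apply,
      smul_eq_mul, ← hβ, ← hβ']
    ring
  · simp only [smul_apply, sub_apply, innerSL_apply_apply,
      smul_eq_mul, ← hα, ← hα']
    ring
  · simp only [smul_apply, sub_apply, innerSL_apply_apply,
      smul_eq_mul, ← hβ, ← hβ']
    have : α * β' - α' * β = κ := hκd.symm
    rw [this]; field_simp
  · intro z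
    set x : ℝ := inner ℝ m z with hx
    set y : ℝ := inner ℝ n z with hy
    have e1 : z = x • m + y • n := hf.dec z
    have e2 : A = α • m + α' • n := hf.dec A
    have e3 : B = β • m + β' • n := hf.dec B
    simp only [smul_apply, sub_apply, innerSL_apply_apply,
      smul_eq_mul, ← hx, ← hy]
    have h1 : 1 / κ * (β' * x - β * y) * α + 1 / κ * (α * y - α' * x) * β = x := by
      field_simp
      rw [hκd]; ring
    have h2 : 1 / κ * (β' * x - β * y) * α' + 1 / κ * (α * y - α' * x) * β' = y := by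
      field_simp
      rw [hκd]; ring
    calc z = x • m + y • n := e1
      _ = (1 / κ * (β' * x - β * y) * α + 1 / κ * (α * y - α' * x) * β) • m +
          (1 / κ * (β' * x - β * y) * α' + 1 / κ * (α * y - α' * x) * β') • n := by rw [h1, h2]
      _ = (1 / κ * (β' * x - β * y)) • (α • m + α' • n) +
          (1 / κ * (α * y - α' * x)) • (β • m + β' • n) := by module
      _ = _ := by rw [← e2, ← e3]

namespace Coord

variable {A B : Plane} {X Y : Plane →L[ℝ] ℝ} (C : Coord A B X Y)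

include C

theorem mem_pgram_iff {c₀ z : Plane} : z ∈ pgram c₀ A B ↔
    |X z - X c₀| ≤ 1 ∧ |Y z - Y c₀| ≤ 1 := by
  constructor
  · rintro ⟨s, t, hs, ht, rfl⟩
    simp only [map_add, map_smul, C.XA, C.XB, C.YA, C.YB, smul_eq_mul]
    constructor
    · rwa [show X c₀ + s * 1 + t * 0 - X c₀ = s by ring]
    · rwa [show Y c₀ + s * 0 + t * 1 - Y c₀ = t by ring]
  · rintro ⟨h1, h2⟩
    refine ⟨X z - X c₀, Y z - Y c₀, h1, h2, ?_⟩
    have e1 := C.dec z
    have e2 := C.dec c₀
    calc z = X z • A + Y z • B := e1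
      _ = (X c₀ • A + Y c₀ • B) + (X z - X c₀) • A + (Y z - Y c₀) • B := by module
      _ = _ := by rw [← e2]

theorem mem_interior_iff {m n : Plane} (hf : Frame m n)
    (hκ : (inner ℝ m A : ℝ) * inner ℝ n B - inner ℝ n A * inner ℝ m B ≠ 0) {c₀ z : Plane} :
    z ∈ interior (pgram c₀ A B) ↔ |X z - X c₀| < 1 ∧ |Y z - Y c₀| < 1 := by
  rw [pgram_interior hf hκ]
  constructor
  · rintro ⟨s, t, hs, ht, rfl⟩
    simp only [map_add, map_smul, C.XA, C.XB, C.YA, C.YB, smul_eq_mul]
    constructor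
    · rwa [show X c₀ + s * 1 + t * 0 - X c₀ = s by ring]
    · rwa [show Y c₀ + s * 0 + t * 1 - Y c₀ = t by ring]
  · rintro ⟨h1, h2⟩
    refine ⟨X z - X c₀, Y z - Y c₀, h1, h2, ?_⟩
    have e1 := C.dec z
    have e2 := C.dec c₀
    calc z = X z • A + Y z • B := e1
      _ = (X c₀ • A + Y c₀ • B) + (X z - X c₀) • A + (Y z - Y c₀) • B := by module
      _ = _ := by rw [← e2]

theorem dist_of_Y_eq {z z' : Plane} (h : Y z = Y z') : dist z z' = ‖A‖ * |X z - X z'| := by
  rw [dist_eq_norm]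
  have e1 := C.dec z
  have e2 := C.dec z'
  have : z - z' = (X z - X z') • A := by
    calc z - z' = (X z • A + Y z • B) - (X z' • A + Y z' • B) := by rw [← e1, ← e2]
      _ = _ := by rw [h]; module
  rw [this, norm_smul, Real.norm_eq_abs, mul_comm]

theorem dist_of_X_eq {z z' : Plane} (h : X z = X z') : dist z z' = ‖B‖ * |Y z - Y z'| := by
  rw [dist_eq_norm]
  have e1 := C.dec z
  have e2 := C.dec z'
  have : z - z' = (Y z - Y z') • B := by
    calc z - z' = (X z • A + Y z • B) - (X z' • A + Y z' • B) := by rw [← e1, ← e2]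
      _ = _ := by rw [h]; module
  rw [this, norm_smul, Real.norm_eq_abs, mul_comm]

end Coord

/-- The centre of the tile `(j, k)`. -/
noncomputable def centre (A B : Plane) (s : ℝ) (j k : ℤ) : Plane :=
  (2 * (j : ℝ) - (1 + s) * k) • A + (2 * (k : ℝ)) • B

/-- The complement of the interiors of the tiles, in coordinates. -/
def net (X Y : Plane →L[ℝ] ℝ) (s : ℝ) : Set Plane :=
  {z | ∀ j k : ℤ, ¬ (|X z - (2 * (j : ℝ) - (1 + s) * k)| < 1 ∧ |Y z - 2 * (k : ℝ)| < 1)}

/-- The potential. -/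
noncomputable def brickPot (a b s : ℝ) (X Y : Plane →L[ℝ] ℝ) (z : Plane) : ℝ :=
  b * Y z + a * ((1 + s) * (⌈(Y z - 1) / 2⌉ : ℝ) + wave s (X z + (1 + s) * (⌈(Y z - 1) / 2⌉ : ℝ)))

section Net

variable {A B : Plane} {X Y : Plane →L[ℝ] ℝ} {s : ℝ}

/-- In the open row `k`, the points of the net have odd coordinate. -/
theorem net_row {z : Plane} (hz : z ∈ net X Y s) {k : ℤ} (hk : |Y z - 2 * (k : ℝ)| < 1) :
    ∃ j : ℤ, X z + (1 + s) * k = 2 * j + 1 := by
  apply odd_of_far
  intro j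
  by_contra hcon
  push Not at hcon
  apply hz j k
  refine ⟨?_, hk⟩
  rw [show X z - (2 * (j : ℝ) - (1 + s) * k) = X z + (1 + s) * k - 2 * j by ring]
  exact hcon

theorem ceil_eq_of {y : ℝ} {k : ℤ} (h1 : 2 * (k : ℝ) - 1 < y) (h2 : y ≤ 2 * k + 1) :
    ⌈(y - 1) / 2⌉ = k := by
  rw [Int.ceil_eq_iff]
  constructor <;> linarith

/-- The potential near row `k`. -/
theorem brickPot_eq {a b : ℝ} (hs : |s| ≤ 1) {z : Plane} (hz : z ∈ net X Y s) {k : ℤ}
    (h1 : 2 * (k : ℝ) - 1 < Y z) (h2 : Y z < 2 * k + 3) :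
    brickPot a b s X Y z = b * Y z + a * ((1 + s) * k + wave s (X z + (1 + s) * k)) := by
  rcases le_or_gt (Y z) (2 * k + 1) with h3 | h3
  · unfold brickPot
    rw [ceil_eq_of h1 h3]
  · unfold brickPot
    have h4 : ⌈(Y z - 1) / 2⌉ = k + 1 := by
      apply ceil_eq_of
      · push_cast; linarith
      · push_cast; linarith
    rw [h4]
    obtain ⟨j, hj⟩ := net_row (k := k + 1) hz (by
      rw [abs_lt]; push_cast; constructor <;> linarith)
    have e1 : X z + (1 + s) * ((k : ℝ)) = 2 * j - s := by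
      push_cast at hj
      linarith
    rw [hj, e1, wave_odd hs, wave_max hs]
    push_cast
    ring

/-- The potential is continuous on the net. -/
theorem brickPot_continuousOn {a b : ℝ} (hs : |s| ≤ 1) :
    ContinuousOn (brickPot a b s X Y) (net X Y s) := by
  intro z₀ hz₀
  set k := ⌈(Y z₀ - 1) / 2⌉ with hk
  have hk1 : 2 * (k : ℝ) - 1 < Y z₀ := by
    have := Int.ceil_lt_add_one ((Y z₀ - 1) / 2)
    rw [← hk] at this
    linarith
  have hk2 : Y z₀ ≤ 2 * k + 1 := by
    have := Int.le_ceil ((Y z₀ - 1) / 2)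
    rw [← hk] at this
    linarith
  have hw : Continuous (wave s) := by
    have : LipschitzWith 1 (wave s) := LipschitzWith.of_dist_le_mul (fun x y => by
      rw [Real.dist_eq, Real.dist_eq, NNReal.coe_one, one_mul]
      exact wave_lip hs x y)
    exact this.continuous
  have hcont : Continuous (fun z => b * Y z + a * ((1 + s) * (k : ℝ) + wave s (X z + (1 + s) * k))) := by
    fun_prop
  have hopen : IsOpen {z : Plane | 2 * (k : ℝ) - 1 < Y z ∧ Y z < 2 * k + 3} := by
    apply IsOpen.inter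
    · exact isOpen_lt continuous_const Y.continuous
    · exact isOpen_lt Y.continuous continuous_const
  have h1 : ContinuousWithinAt
      (fun z => b * Y z + a * ((1 + s) * (k : ℝ) + wave s (X z + (1 + s) * k))) (net X Y s) z₀ :=
    hcont.continuousWithinAt
  apply h1.congr_of_eventuallyEq
  · have h2 : {z : Plane | 2 * (k : ℝ) - 1 < Y z ∧ Y z < 2 * k + 3} ∈ nhds z₀ :=
      hopen.mem_nhds ⟨hk1, by linarith⟩
    filter_upwards [mem_nhdsWithin_of_mem_nhds h2, self_mem_nhdsWithin] with z hz hzn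
    exact brickPot_eq hs hzn hz.1 hz.2
  · exact brickPot_eq hs hz₀ hk1 (by linarith)

/-- The special values of the potential. -/
noncomputable def specials (a b s : ℝ) (M : ℕ) : Finset ℝ :=
  ((Finset.Icc (-(M : ℤ)) M ×ˢ Finset.Icc (-(M : ℤ)) M).image
    (fun p : ℤ × ℤ => b * (2 * (p.2 : ℝ) + 1) + a * ((1 + s) * p.2 - s * (2 * p.1 + 1)))) ∪
  ((Finset.Icc (-(M : ℤ)) M ×ˢ Finset.Icc (-(M : ℤ)) M).image
    (fun p : ℤ × ℤ => b * (2 * (p.2 : ℝ) + 1) + a * ((1 + s) * p.2 + (1 - 2 * p.1 * s))))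

/-- Away from the special values, the potential is locally `1`-Lipschitz on the net. -/
theorem brickPot_local (C : Coord A B X Y) (hs : |s| ≤ 1) {R : ℝ} {M : ℕ}
    (hM : 3 * R + 5 ≤ M) {z₀ : Plane} (hz₀ : z₀ ∈ net X Y s) (hX : |X z₀| ≤ R) (hY : |Y z₀| ≤ R)
    (hS : brickPot ‖A‖ ‖B‖ s X Y z₀ ∉ specials ‖A‖ ‖B‖ s M) :
    ∃ ρ > 0, ∀ z ∈ net X Y s, ∀ z' ∈ net X Y s, dist z z₀ < ρ → dist z' z₀ < ρ →
      |brickPot ‖A‖ ‖B‖ s X Y z - brickPot ‖A‖ ‖B‖ s X Y z'| ≤ dist z z' := by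
  have hs' := abs_le.mp hs
  set k := ⌈(Y z₀ - 1) / 2⌉ with hk
  have hk1 : 2 * (k : ℝ) - 1 < Y z₀ := by
    have := Int.ceil_lt_add_one ((Y z₀ - 1) / 2)
    rw [← hk] at this
    linarith
  have hk2 : Y z₀ ≤ 2 * k + 1 := by
    have := Int.le_ceil ((Y z₀ - 1) / 2)
    rw [← hk] at this
    linarith
  have hYab := abs_le.mp hY
  have hXab := abs_le.mp hX
  rcases lt_or_eq_of_le hk2 with hlt | heq
  · -- inside a joint
    have hrow : |Y z₀ - 2 * (k : ℝ)| < 1 := by rw [abs_lt]; constructor <;> linarith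
    obtain ⟨j, hj⟩ := net_row hz₀ hrow
    have hopen : IsOpen {z : Plane | |Y z - 2 * (k : ℝ)| < 1 ∧ |X z - X z₀| < 1} := by
      refine IsOpen.and ?_ ?_
      · exact isOpen_lt (by fun_prop) continuous_const
      · exact isOpen_lt (by fun_prop) continuous_const
    obtain ⟨ρ, hρ, hball⟩ := Metric.isOpen_iff.mp hopen z₀ ⟨hrow, by simp⟩
    refine ⟨ρ, hρ, ?_⟩
    have key : ∀ z ∈ net X Y s, dist z z₀ < ρ → X z = X z₀ ∧
        brickPot ‖A‖ ‖B‖ s X Y z =
          ‖B‖ * Y z + ‖A‖ * ((1 + s) * k + wave s (X z₀ + (1 + s) * k)) := by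
      intro z hz hd
      obtain ⟨h1, h2⟩ := hball (Metric.mem_ball.mpr hd)
      obtain ⟨i, hi⟩ := net_row hz h1
      have h3 : X z - X z₀ = 2 * ((i : ℝ) - j) := by linarith
      rw [h3] at h2
      have h4 : i = j := by
        have h5 : |((i - j : ℤ) : ℝ)| < 1 := by
          rw [abs_mul, abs_two] at h2
          push_cast
          linarith [abs_nonneg ((i : ℝ) - j)]
        have h6 : |i - j| < 1 := by exact_mod_cast h5
        rw [Int.abs_lt_one_iff] at h6
        linarith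
      have h5 : X z = X z₀ := by rw [h4] at h3; linarith
      refine ⟨h5, ?_⟩
      rw [abs_lt] at h1
      rw [brickPot_eq hs hz (k := k) (by linarith [h1.1]) (by linarith [h1.2]), h5]
    intro z hz z' hz' hd hd'
    obtain ⟨h1, h2⟩ := key z hz hd
    obtain ⟨h3, h4⟩ := key z' hz' hd'
    rw [h2, h4, C.dist_of_X_eq (by rw [h1, h3])]
    rw [show ‖B‖ * Y z + ‖A‖ * ((1 + s) * k + wave s (X z₀ + (1 + s) * k)) -
      (‖B‖ * Y z' + ‖A‖ * ((1 + s) * k + wave s (X z₀ + (1 + s) * k))) = ‖B‖ * (Y z - Y z') by ring,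
      abs_mul, abs_norm]
  · -- on a row line
    have hpot := brickPot_eq (a := ‖A‖) (b := ‖B‖) hs hz₀ (k := k) hk1 (by linarith)
    have hkM : |(k : ℝ)| ≤ M := by
      rw [abs_le]; constructor <;> linarith
    have hkM' : k ∈ Finset.Icc (-(M : ℤ)) M := by
      rw [abs_le] at hkM
      rw [Finset.mem_Icc]
      constructor
      · exact_mod_cast hkM.1
      · exact_mod_cast hkM.2
    have hkR : |(k : ℝ)| ≤ (R + 1) / 2 := by
      rw [abs_le]; constructor <;> linarith
    have hskR : |(1 + s) * (k : ℝ)| ≤ R + 1 := by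
      rw [abs_mul, abs_of_nonneg (by linarith : 0 ≤ 1 + s)]
      calc (1 + s) * |(k : ℝ)| ≤ 2 * ((R + 1) / 2) :=
            mul_le_mul (by linarith) hkR (abs_nonneg _) (by norm_num)
        _ = R + 1 := by ring
    rw [abs_le] at hskR
    have hne1 : X z₀ + (1 + s) * k ∉ {ξ : ℝ | ∃ j : ℤ, ξ = 2 * j + 1} := by
      rintro ⟨j, hj⟩
      apply hS
      unfold specials
      rw [Finset.mem_union]
      left
      rw [Finset.mem_image]
      have hjM : j ∈ Finset.Icc (-(M : ℤ)) M := by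
        rw [Finset.mem_Icc]
        constructor
        · have : -(M : ℝ) ≤ j := by linarith
          exact_mod_cast this
        · have : (j : ℝ) ≤ M := by linarith
          exact_mod_cast this
      refine ⟨(j, k), Finset.mem_product.mpr ⟨hjM, hkM'⟩, ?_⟩
      rw [hpot, hj, wave_odd hs, heq]
      ring
    have hne2 : X z₀ + (1 + s) * ((k : ℝ) + 1) ∉ {ξ : ℝ | ∃ j : ℤ, ξ = 2 * j + 1} := by
      rintro ⟨j, hj⟩
      apply hS
      unfold specials
      rw [Finset.mem_union]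
      right
      rw [Finset.mem_image]
      have hjM : j ∈ Finset.Icc (-(M : ℤ)) M := by
        rw [Finset.mem_Icc]
        constructor
        · have : -(M : ℝ) ≤ j := by linarith
          exact_mod_cast this
        · have : (j : ℝ) ≤ M := by linarith
          exact_mod_cast this
      refine ⟨(j, k), Finset.mem_product.mpr ⟨hjM, hkM'⟩, ?_⟩
      have e1 : X z₀ + (1 + s) * ((k : ℝ)) = 2 * j - s := by linarith
      rw [hpot, e1, wave_max hs, heq]
    have hopen : IsOpen {z : Plane | (X z + (1 + s) * k ∈ {ξ : ℝ | ∃ j : ℤ, ξ = 2 * j + 1}ᶜ) ∧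
        (X z + (1 + s) * ((k : ℝ) + 1) ∈ {ξ : ℝ | ∃ j : ℤ, ξ = 2 * j + 1}ᶜ) ∧
        |Y z - (2 * k + 1)| < 1} := by
      refine IsOpen.and ?_ ?_
      · exact isClosed_odd.isOpen_compl.preimage
          (by fun_prop : Continuous fun z : Plane => X z + (1 + s) * (k : ℝ))
      refine IsOpen.and ?_ ?_
      · exact isClosed_odd.isOpen_compl.preimage
          (by fun_prop : Continuous fun z : Plane => X z + (1 + s) * ((k : ℝ) + 1))
      · exact isOpen_lt (by fun_prop) continuous_const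
    obtain ⟨ρ, hρ, hball⟩ := Metric.isOpen_iff.mp hopen z₀ ⟨hne1, hne2, by rw [heq]; simp⟩
    refine ⟨ρ, hρ, ?_⟩
    have key : ∀ z ∈ net X Y s, dist z z₀ < ρ → Y z = 2 * k + 1 := by
      intro z hz hd
      obtain ⟨h1, h2, h3⟩ := hball (Metric.mem_ball.mpr hd)
      rw [abs_lt] at h3
      by_contra hne
      rcases lt_or_gt_of_ne hne with h4 | h4
      · exact h1 (net_row hz (by rw [abs_lt]; constructor <;> linarith))
      · apply h2
        have := net_row (k := k + 1) hz (by rw [abs_lt]; push_cast; constructor <;> linarith)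
        push_cast at this
        exact this
    intro z hz z' hz' hd hd'
    have h1 := key z hz hd
    have h2 := key z' hz' hd'
    rw [brickPot_eq hs hz (k := k) (by linarith) (by linarith),
      brickPot_eq hs hz' (k := k) (by linarith) (by linarith),
      C.dist_of_Y_eq (by rw [h1, h2]), h1, h2]
    rw [show ‖B‖ * (2 * (k : ℝ) + 1) + ‖A‖ * ((1 + s) * k + wave s (X z + (1 + s) * k)) -
      (‖B‖ * (2 * (k : ℝ) + 1) + ‖A‖ * ((1 + s) * k + wave s (X z' + (1 + s) * k))) =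
      ‖A‖ * (wave s (X z + (1 + s) * k) - wave s (X z' + (1 + s) * k)) by ring, abs_mul, abs_norm]
    apply mul_le_mul_of_nonneg_left _ (norm_nonneg _)
    refine (wave_lip hs _ _).trans ?_
    rw [add_sub_add_right_eq_sub]

/-- Lower bound for the length of a curve in the net. -/
theorem net_increment (C : Coord A B X Y) (hs : |s| ≤ 1) {t₁ t₂ : ℝ} (h12 : t₁ ≤ t₂)
    (γ : ℝ → Plane) (hγ : ContinuousOn γ (Icc t₁ t₂)) (hN : ∀ t ∈ Icc t₁ t₂, γ t ∈ net X Y s) :
    ENNReal.ofReal (brickPot ‖A‖ ‖B‖ s X Y (γ t₂) - brickPot ‖A‖ ‖B‖ s X Y (γ t₁)) ≤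
      eVariationOn γ (Icc t₁ t₂) := by
  have hXc : ContinuousOn (fun t => X (γ t)) (Icc t₁ t₂) := X.continuous.comp_continuousOn hγ
  have hYc : ContinuousOn (fun t => Y (γ t)) (Icc t₁ t₂) := Y.continuous.comp_continuousOn hγ
  obtain ⟨R₁, hR₁⟩ := isCompact_Icc.exists_bound_of_continuousOn hXc
  obtain ⟨R₂, hR₂⟩ := isCompact_Icc.exists_bound_of_continuousOn hYc
  set R := max R₁ R₂ with hR
  obtain ⟨M, hM⟩ := exists_nat_ge (3 * R + 5)
  apply increment_le_of_special h12 γ (fun t => brickPot ‖A‖ ‖B‖ s X Y (γ t)) _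
    (specials ‖A‖ ‖B‖ s M)
  · intro t ht hS
    obtain ⟨ρ, hρ, hloc⟩ := brickPot_local C hs hM (hN t ht)
      ((hR₁ t ht).trans (le_max_left _ _)) ((hR₂ t ht).trans (le_max_right _ _)) hS
    have hc := hγ t ht
    rw [Metric.continuousWithinAt_iff] at hc
    obtain ⟨δ, hδ, hδ'⟩ := hc ρ hρ
    refine ⟨δ, hδ, ?_⟩
    intro u hu v hv hut hvt
    exact hloc _ (hN u hu) _ (hN v hv) (hδ' hu (by rw [Real.dist_eq]; exact hut))
      (hδ' hv (by rw [Real.dist_eq]; exact hvt))
  · exact (brickPot_continuousOn hs).comp hγ hN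

/-- The potential is close to a linear function. -/
theorem brickPot_linear {a b : ℝ} (ha : 0 ≤ a) (hs : |s| ≤ 1) (z : Plane) :
    |brickPot a b s X Y z - ((-s * a) * X z + (b + a * (1 - s ^ 2) / 2) * Y z)| ≤ 3 * a := by
  set k : ℤ := ⌈(Y z - 1) / 2⌉ with hk
  have hk1 : 2 * (k : ℝ) - 1 < Y z := by
    have := Int.ceil_lt_add_one ((Y z - 1) / 2)
    rw [← hk] at this
    linarith
  have hk2 : Y z ≤ 2 * k + 1 := by
    have := Int.le_ceil ((Y z - 1) / 2)
    rw [← hk] at this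
    linarith
  unfold brickPot
  rw [← hk]
  set w := wave s (X z + (1 + s) * k) with hw
  have h1 := wave_ge hs (X z + (1 + s) * k)
  have h2 := wave_upper hs (X z + (1 + s) * k)
  rw [← hw] at h1 h2
  have e : b * Y z + a * ((1 + s) * k + w) - ((-s * a) * X z + (b + a * (1 - s ^ 2) / 2) * Y z) =
      a * ((w - -s * (X z + (1 + s) * k)) + (1 - s ^ 2) * (k - Y z / 2)) := by ring
  rw [e, abs_mul, abs_of_nonneg ha, mul_comm]
  apply mul_le_mul_of_nonneg_right _ ha
  have hs2 : 0 ≤ 1 - s ^ 2 := by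
    have := (sq_le_one_iff_abs_le_one s).mpr hs
    linarith
  have hs3 : 1 - s ^ 2 ≤ 1 := by nlinarith [sq_nonneg s]
  have h3 : |(k : ℝ) - Y z / 2| ≤ 1 / 2 := by rw [abs_le]; constructor <;> linarith
  have h4 : |(1 - s ^ 2) * ((k : ℝ) - Y z / 2)| ≤ 1 / 2 := by
    rw [abs_mul, abs_of_nonneg hs2]
    calc (1 - s ^ 2) * |(k : ℝ) - Y z / 2| ≤ 1 * (1 / 2) :=
          mul_le_mul hs3 h3 (abs_nonneg _) zero_le_one
      _ = 1 / 2 := by norm_num
  rw [abs_le] at h4 ⊢
  constructor <;> linarith [h4.1, h4.2]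

end Net

end Run7.h520
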