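import Pool.Agent.Run7.h520.Brick

/-!
# Layers cut out of the staggered lattice tiling
-/

namespace Run7.h520

open Set
open scoped ENNReal

/-- The tiles that lie in the strip `0 ≤ ⟨n, z⟩ ≤ D`. -/
def brickLayer (A B : Plane) (s : ℝ) (n : Plane) (D : ℝ) : Set (Set Plane) :=
  {K | ∃ j k : ℤ, K = pgram (centre A B s j k) A B ∧
    ∀ z ∈ K, 0 ≤ inner ℝ n z ∧ inner ℝ n z ≤ 0 + D}

/-- Extraction of the part of a crossing curve in an inner strip. -/
theorem exists_inner_part {φ : ℝ → ℝ} (hφ : ContinuousOn φ (Icc 0 1)) {u v : ℝ}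
    (h0 : φ 0 ≤ u) (huv : u ≤ v) (h1 : v ≤ φ 1) :
    ∃ t₁ t₂ : ℝ, 0 ≤ t₁ ∧ t₁ ≤ t₂ ∧ t₂ ≤ 1 ∧ φ t₁ ≤ u ∧ v ≤ φ t₂ ∧
      ∀ t ∈ Ioo t₁ t₂, u ≤ φ t ∧ φ t ≤ v := by
  -- the first time with `v ≤ φ`
  have hc1 : IsCompact (Icc (0:ℝ) 1 ∩ φ ⁻¹' (Ici v)) := by
    apply isCompact_Icc.of_isClosed_subset _ inter_subset_left
    exact hφ.preimage_isClosed_of_isClosed isClosed_Icc isClosed_Ici
  obtain ⟨t₂, ht₂, hmin⟩ := hc1.exists_isLeast ⟨1, ⟨by norm_num, by norm_num⟩, h1⟩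
  have hsub : Icc 0 t₂ ⊆ Icc (0:ℝ) 1 := Icc_subset_Icc le_rfl ht₂.1.2
  have hc2 : IsCompact (Icc (0:ℝ) t₂ ∩ φ ⁻¹' (Iic u)) := by
    apply isCompact_Icc.of_isClosed_subset _ inter_subset_left
    exact (hφ.mono hsub).preimage_isClosed_of_isClosed isClosed_Icc isClosed_Iic
  obtain ⟨t₁, ht₁, hmax⟩ := hc2.exists_isGreatest ⟨0, ⟨le_rfl, ht₂.1.1⟩, h0⟩
  refine ⟨t₁, t₂, ht₁.1.1, ht₁.1.2, ht₂.1.2, ht₁.2, ht₂.2, ?_⟩
  intro t ht
  constructor
  · by_contra hcon
    push Not at hcon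
    have := hmax ⟨⟨by linarith [ht.1, ht₁.1.1], ht.2.le⟩, hcon.le⟩
    linarith [ht.1]
  · by_contra hcon
    push Not at hcon
    have := hmin ⟨⟨by linarith [ht.1, ht₁.1.1], by linarith [ht.2, ht₂.1.2]⟩, hcon.le⟩
    linarith [ht.2]

section

variable {A B : Plane} {X Y : Plane →L[ℝ] ℝ} {s : ℝ} {m n : Plane}

theorem pgram_isCompact (c₀ A B : Plane) : IsCompact (pgram c₀ A B) := by
  have : pgram c₀ A B = (fun p : ℝ × ℝ => c₀ + p.1 • A + p.2 • B) ''
      (Icc (-1) 1 ×ˢ Icc (-1) 1) := by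
    ext z
    constructor
    · rintro ⟨s, t, hs, ht, rfl⟩
      exact ⟨(s, t), ⟨abs_le.mp hs, abs_le.mp ht⟩, rfl⟩
    · rintro ⟨⟨s, t⟩, ⟨hs, ht⟩, rfl⟩
      exact ⟨s, t, abs_le.mpr hs, abs_le.mpr ht, rfl⟩
  rw [this]
  exact (isCompact_Icc.prod isCompact_Icc).image (by fun_prop)

theorem pgram_convex (c₀ A B : Plane) : Convex ℝ (pgram c₀ A B) := by
  rintro _ ⟨s, t, hs, ht, rfl⟩ _ ⟨s', t', hs', ht', rfl⟩ a b ha hb hab
  refine ⟨a * s + b * s', a * t + b * t', ?_, ?_, ?_⟩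
  · rw [abs_le] at *
    constructor <;> nlinarith
  · rw [abs_le] at *
    constructor <;> nlinarith
  · have : a = 1 - b := by linarith
    subst this
    module

theorem pgram_isConvexBody (hf : Frame m n)
    (hκ : (inner ℝ m A : ℝ) * inner ℝ n B - inner ℝ n A * inner ℝ m B ≠ 0) (c₀ : Plane) :
    IsConvexBody (pgram c₀ A B) := by
  refine ⟨pgram_isCompact _ _ _, pgram_convex _ _ _, c₀, ?_⟩
  rw [pgram_interior hf hκ]
  exact ⟨0, 0, by simp, by simp, by simp⟩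

theorem Coord.X_centre (C : Coord A B X Y) (j k : ℤ) :
    X (centre A B s j k) = 2 * (j : ℝ) - (1 + s) * k := by
  unfold centre
  rw [map_add, map_smul, map_smul, C.XA, C.XB]
  simp

theorem Coord.Y_centre (C : Coord A B X Y) (j k : ℤ) :
    Y (centre A B s j k) = 2 * (k : ℝ) := by
  unfold centre
  rw [map_add, map_smul, map_smul, C.YA, C.YB]
  simp

theorem brickLayer_isLayer (C : Coord A B X Y) (hf : Frame m n)
    (hκ : (inner ℝ m A : ℝ) * inner ℝ n B - inner ℝ n A * inner ℝ m B ≠ 0)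
    {n' : Plane} (hn' : ‖n'‖ = 1) {D : ℝ} (hD : 0 < D) :
    IsLayer (brickLayer A B s n' D) n' 0 D := by
  refine ⟨hn', hD, ?_, ?_, ?_, ?_⟩
  · rintro K ⟨j, k, rfl, _⟩
    exact pgram_isConvexBody hf hκ _
  · rintro K ⟨j, k, rfl, _⟩ K' ⟨j', k', rfl, _⟩ hne
    rw [Set.disjoint_left]
    intro z hz hz'
    rw [C.mem_interior_iff hf hκ, C.X_centre, C.Y_centre] at hz hz'
    apply hne
    have hk : k = k' := by
      have h1 := abs_lt.mp hz.2
      have h2 := abs_lt.mp hz'.2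
      have h3 : |((k - k' : ℤ) : ℝ)| < 1 := by
        push_cast
        rw [abs_lt]
        constructor <;> linarith
      have h4 : |k - k'| < 1 := by exact_mod_cast h3
      rw [Int.abs_lt_one_iff] at h4
      linarith
    subst hk
    have hj : j = j' := by
      have h1 := abs_lt.mp hz.1
      have h2 := abs_lt.mp hz'.1
      have h3 : |((j - j' : ℤ) : ℝ)| < 1 := by
        push_cast
        rw [abs_lt]
        constructor <;> linarith
      have h4 : |j - j'| < 1 := by exact_mod_cast h3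
      rw [Int.abs_lt_one_iff] at h4
      linarith
    rw [hj]
  · rintro K ⟨j, k, _, hK⟩ z hz
    exact hK z hz
  · intro R
    obtain ⟨M, hM⟩ := exists_nat_ge (‖X‖ * |R| + ‖Y‖ * |R| * 2 + 10)
    apply Set.Finite.subset (Set.Finite.image
        (fun p : ℤ × ℤ => pgram (centre A B s p.1 p.2) A B)
        ((finite_Icc (-(M : ℤ) * (1 + ⌈|1 + s|⌉)) (M * (1 + ⌈|1 + s|⌉))).prod
          (finite_Icc (-(M : ℤ)) M)))
    · rintro K ⟨⟨j, k, rfl, _⟩, z, hz, hzR⟩
      rw [C.mem_pgram_iff, C.X_centre, C.Y_centre] at hz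
      rw [mem_closedBall_zero_iff] at hzR
      have hzR' : ‖z‖ ≤ |R| := hzR.trans (le_abs_self _)
      have hX : |X z| ≤ ‖X‖ * |R| := (X.le_opNorm z).trans
        (mul_le_mul_of_nonneg_left hzR' (norm_nonneg _))
      have hY : |Y z| ≤ ‖Y‖ * |R| := (Y.le_opNorm z).trans
        (mul_le_mul_of_nonneg_left hzR' (norm_nonneg _))
      have hX0 : 0 ≤ ‖X‖ * |R| := by positivity
      have hY0 : 0 ≤ ‖Y‖ * |R| := by positivity
      obtain ⟨h1, h2⟩ := hz
      rw [abs_le] at h1 h2 hX hY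
      have hkM : |(k : ℝ)| ≤ M - 1 := by rw [abs_le]; constructor <;> linarith
      have hkM1 := abs_le.mp hkM
      have hce : |1 + s| ≤ (⌈|1 + s|⌉ : ℝ) := Int.le_ceil _
      have hce0 : (0 : ℝ) ≤ (⌈|1 + s|⌉ : ℝ) := (abs_nonneg _).trans hce
      have hM0 : (0 : ℝ) ≤ M := Nat.cast_nonneg _
      have hprod : |(1 + s) * (k : ℝ)| ≤ (⌈|1 + s|⌉ : ℝ) * M := by
        rw [abs_mul]
        exact mul_le_mul hce (by linarith) (abs_nonneg _) hce0
      rw [abs_le] at hprod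
      refine ⟨(j, k), ⟨⟨?_, ?_⟩, ⟨?_, ?_⟩⟩, rfl⟩
      · have : -(M : ℝ) * (1 + (⌈|1 + s|⌉ : ℝ)) ≤ j := by nlinarith
        exact_mod_cast this
      · have : (j : ℝ) ≤ (M : ℝ) * (1 + (⌈|1 + s|⌉ : ℝ)) := by nlinarith
        exact_mod_cast this
      · have : -(M : ℝ) ≤ k := by linarith
        exact_mod_cast this
      · have : (k : ℝ) ≤ M := by linarith
        exact_mod_cast this

/-- The distance of two points of a parallelogram. -/
theorem pgram_dist_le {c₀ A B z w : Plane} (hz : z ∈ pgram c₀ A B) (hw : w ∈ pgram c₀ A B) :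
    ‖z - w‖ ≤ 2 * (‖A‖ + ‖B‖) := by
  obtain ⟨s, t, hs, ht, rfl⟩ := hz
  obtain ⟨s', t', hs', ht', rfl⟩ := hw
  have e : c₀ + s • A + t • B - (c₀ + s' • A + t' • B) = (s - s') • A + (t - t') • B := by module
  rw [e]
  refine (norm_add_le _ _).trans ?_
  rw [norm_smul, norm_smul, Real.norm_eq_abs, Real.norm_eq_abs]
  have h1 : |s - s'| ≤ 2 := by
    have := abs_sub s s'
    linarith
  have h2 : |t - t'| ≤ 2 := by
    have := abs_sub t t'
    linarith
  nlinarith [norm_nonneg A, norm_nonneg B, abs_nonneg (s - s'), abs_nonneg (t - t')]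

/-- Lower bound for the crossing length of the layer. -/
theorem brickLayer_crossing (C : Coord A B X Y) (hf : Frame m n)
    (hκ : (inner ℝ m A : ℝ) * inner ℝ n B - inner ℝ n A * inner ℝ m B ≠ 0)
    (hs : |s| ≤ 1) {G : Plane} (hGA : inner ℝ G A = -s * ‖A‖)
    (hGB : inner ℝ G B = ‖B‖ + ‖A‖ * (1 - s ^ 2) / 2) {n' : Plane} (hn' : ‖n'‖ = 1)
    (hG : G = ‖G‖ • n') {D : ℝ} (hD : 4 * (‖A‖ + ‖B‖) ≤ D) :
    ENNReal.ofReal (‖G‖ * (D - 4 * (‖A‖ + ‖B‖)) - 6 * ‖A‖) ≤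
      crossingLength (brickLayer A B s n' D) n' 0 D := by
  apply le_iInf₂
  rintro γ ⟨hγ, h0, h1, hfree⟩
  set ρ := 2 * (‖A‖ + ‖B‖) with hρ
  have hρ0 : 0 ≤ ρ := by positivity
  have hφ : ContinuousOn (fun t => (inner ℝ n' (γ t) : ℝ)) (Icc 0 1) :=
    (innerSL ℝ n').continuous.comp_continuousOn hγ
  obtain ⟨t₁, t₂, ht1, ht12, ht2, hu, hv, hin⟩ := exists_inner_part hφ (u := ρ) (v := D - ρ)
    (by rw [h0]; exact hρ0) (by linarith) (by rw [h1]; linarith)
  have hsub : Icc t₁ t₂ ⊆ Icc (0:ℝ) 1 := Icc_subset_Icc ht1 ht2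
  -- points in the inner strip are in the net
  have hinner : ∀ z : Plane, ρ ≤ inner ℝ n' z → inner ℝ n' z ≤ D - ρ →
      (∀ K ∈ brickLayer A B s n' D, z ∉ interior K) → z ∈ net X Y s := by
    intro z hz1 hz2 hz3 j k hjk
    have hzint : z ∈ interior (pgram (centre A B s j k) A B) := by
      rw [C.mem_interior_iff hf hκ, C.X_centre, C.Y_centre]
      exact hjk
    apply hz3 (pgram (centre A B s j k) A B) _ hzint
    refine ⟨j, k, rfl, ?_⟩
    intro w hw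
    have hd := pgram_dist_le hw (interior_subset hzint)
    have hi : |(inner ℝ n' (w - z) : ℝ)| ≤ ‖w - z‖ := by
      have := abs_real_inner_le_norm n' (w - z)
      rwa [hn', one_mul] at this
    rw [inner_sub_right, abs_le] at hi
    constructor <;> linarith [hi.1, hi.2]
  rcases eq_or_lt_of_le ht12 with heq | hlt
  · -- degenerate case: impossible or trivial
    subst heq
    have : D - ρ ≤ ρ := hv.trans hu
    have h2 : ‖G‖ * (D - 4 * (‖A‖ + ‖B‖)) - 6 * ‖A‖ ≤ 0 := by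
      have h3 : D - 4 * (‖A‖ + ‖B‖) ≤ 0 := by rw [hρ] at this; linarith
      have h4 := mul_nonneg (norm_nonneg G) (neg_nonneg.mpr h3)
      have := norm_nonneg A
      linarith
    rw [ENNReal.ofReal_of_nonpos h2]
    exact zero_le
  · -- the closed interval is also in the inner strip
    have hcl : ∀ t ∈ Icc t₁ t₂, ρ ≤ inner ℝ n' (γ t) ∧ inner ℝ n' (γ t) ≤ D - ρ := by
      intro t ht
      have hcw : ContinuousWithinAt (fun t => (inner ℝ n' (γ t) : ℝ)) (Ioo t₁ t₂) t :=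
        (hφ t (hsub ht)).mono (Ioo_subset_Icc_self.trans hsub)
      have hmem : t ∈ closure (Ioo t₁ t₂) := by rw [closure_Ioo hlt.ne]; exact ht
      have hmaps : MapsTo (fun t => (inner ℝ n' (γ t) : ℝ)) (Ioo t₁ t₂) (Icc ρ (D - ρ)) :=
        fun u hu => ⟨(hin u hu).1, (hin u hu).2⟩
      have := hcw.mem_closure hmem hmaps
      rwa [isClosed_Icc.closure_eq] at this
    have hN : ∀ t ∈ Icc t₁ t₂, γ t ∈ net X Y s := by
      intro t ht
      exact hinner _ (hcl t ht).1 (hcl t ht).2 (fun K hK => hfree t (hsub ht) K hK)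
    have key := net_increment C hs ht12 γ (hγ.mono hsub) hN
    refine le_trans ?_ (key.trans (eVariationOn.mono _ hsub))
    apply ENNReal.ofReal_le_ofReal
    have hlin : ∀ z : Plane, (-s * ‖A‖) * X z + (‖B‖ + ‖A‖ * (1 - s ^ 2) / 2) * Y z =
        ‖G‖ * inner ℝ n' z := by
      intro z
      have e1 : (inner ℝ G z : ℝ) = ‖G‖ * inner ℝ n' z := by
        conv_lhs => rw [hG]
        rw [inner_smul_left]
        simp
      have e2 : (inner ℝ G z : ℝ) = X z * inner ℝ G A + Y z * inner ℝ G B := by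
        conv_lhs => rw [C.dec z]
        rw [inner_add_right, inner_smul_right, inner_smul_right]
      rw [← e1, e2, hGA, hGB]
      ring
    have b1 := brickPot_linear (a := ‖A‖) (b := ‖B‖) (X := X) (Y := Y) (norm_nonneg A) hs (γ t₁)
    have b2 := brickPot_linear (a := ‖A‖) (b := ‖B‖) (X := X) (Y := Y) (norm_nonneg A) hs (γ t₂)
    rw [hlin, abs_le] at b1 b2
    have hg := norm_nonneg G
    have e3 : ‖G‖ * (D - ρ - ρ) ≤ ‖G‖ * (inner ℝ n' (γ t₂) - inner ℝ n' (γ t₁)) :=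
      mul_le_mul_of_nonneg_left (by linarith) hg
    have e4 : ‖G‖ * (D - 4 * (‖A‖ + ‖B‖)) = ‖G‖ * (D - ρ - ρ) := by rw [hρ]; ring
    rw [e4]
    linarith [b1.1, b1.2, b2.1, b2.2]

end

end Run7.h520
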