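import Mathlib

/-!
# Layers of convex bodies in the plane and their permeability: definitions
-/

namespace Run7.h520

open Set
open scoped ENNReal

/-- The Euclidean plane. -/
abbrev Plane := EuclideanSpace ℝ (Fin 2)

/-- A plane convex body: compact, convex, with nonempty interior. -/
def IsConvexBody (K : Set Plane) : Prop :=
  IsCompact K ∧ Convex ℝ K ∧ (interior K).Nonempty

/-- `𝒞` is a layer in the closed strip `a ≤ ⟨n, z⟩ ≤ a + d` (with `‖n‖ = 1`), of width `d > 0`:
a locally finite family of convex bodies lying in the strip, with pairwise disjoint interiors. -/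
structure IsLayer (𝒞 : Set (Set Plane)) (n : Plane) (a d : ℝ) : Prop where
  unit : ‖n‖ = 1
  width_pos : 0 < d
  body : ∀ K ∈ 𝒞, IsConvexBody K
  packing : ∀ K ∈ 𝒞, ∀ K' ∈ 𝒞, K ≠ K' → Disjoint (interior K) (interior K')
  in_strip : ∀ K ∈ 𝒞, ∀ z ∈ K, a ≤ inner ℝ n z ∧ inner ℝ n z ≤ a + d
  locallyFinite : ∀ R : ℝ, {K | K ∈ 𝒞 ∧ (K ∩ Metric.closedBall 0 R).Nonempty}.Finite

/-- A curve (a continuous map on `[0,1]`) that joins the two boundary lines of the strip and
does not meet the interior of any member of `𝒞`. -/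
def IsCrossing (𝒞 : Set (Set Plane)) (n : Plane) (a d : ℝ) (γ : ℝ → Plane) : Prop :=
  ContinuousOn γ (Icc 0 1) ∧ inner ℝ n (γ 0) = a ∧ inner ℝ n (γ 1) = a + d ∧
    ∀ t ∈ Icc (0 : ℝ) 1, ∀ K ∈ 𝒞, γ t ∉ interior K

/-- The infimum of the lengths (total variations) of the crossing curves. -/
noncomputable def crossingLength (𝒞 : Set (Set Plane)) (n : Plane) (a d : ℝ) : ℝ≥0∞ :=
  ⨅ (γ : ℝ → Plane) (_ : IsCrossing 𝒞 n a d γ), eVariationOn γ (Icc 0 1)

/-- The permeability: width divided by the infimum of the lengths of crossing curves. -/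
noncomputable def permeability (𝒞 : Set (Set Plane)) (n : Plane) (a d : ℝ) : ℝ≥0∞ :=
  ENNReal.ofReal d / crossingLength 𝒞 n a d

/-- `K` is similar to `C`: the image of `C` under `z ↦ r φ(z) + v`, with `r > 0` and `φ` a linear
isometry (a rotation or a reflection). -/
def IsSimilarTo (C K : Set Plane) : Prop :=
  ∃ (r : ℝ) (φ : Plane ≃ₗᵢ[ℝ] Plane) (v : Plane), 0 < r ∧ K = (fun z => r • φ z + v) '' C

/-- `K` is a translate of `C`. -/
def IsTranslateOf (C K : Set Plane) : Prop :=
  ∃ v : Plane, K = (fun z => z + v) '' C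

/-- Property (S): for every layer of bodies similar to `C` there is a layer of translates of `C`
whose permeability is at most that of the given layer. -/
def PropertyS (C : Set Plane) : Prop :=
  ∀ (𝒞 : Set (Set Plane)) (n : Plane) (a d : ℝ), IsLayer 𝒞 n a d →
    (∀ K ∈ 𝒞, IsSimilarTo C K) →
    ∃ (𝒯 : Set (Set Plane)) (n' : Plane) (a' d' : ℝ), IsLayer 𝒯 n' a' d' ∧
      (∀ K ∈ 𝒯, IsTranslateOf C K) ∧
      permeability 𝒯 n' a' d' ≤ permeability 𝒞 n a d

/-- The parallelogram with centre `c` and half-edge vectors `A`, `B`. -/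
def pgram (c A B : Plane) : Set Plane :=
  {z | ∃ s t : ℝ, |s| ≤ 1 ∧ |t| ≤ 1 ∧ z = c + s • A + t • B}

end Run7.h520
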