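import Pool.Agent.Run7.h540.A4
import Pool.Agent.Run7.h540.MDef

/-! Piece E: explicit finite structures. -/

set_option linter.unusedSectionVars false
set_option linter.constructorNameAsVariable false

namespace Run7.h540
open Classical

section frame

variable {V : Type} [DecidableEq V] {G : Str V} {Z : Set V} {A S : Finset V}

/-- Structures with at most one line, all points on it, at most 101 vertices attached to a point. -/
structure Fr (G : Str V) : Prop where
  fE : ∀ v x x', G.E v x → G.E v x' → x = x'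
  bE : ∀ (S : Finset V) (x : V), (S.filter fun a => G.E a x).card ≤ 101
  fL : ∀ l l', G.col l = Col.L → G.col l' = Col.L → l = l'
  aL : ∀ x l, G.col x = Col.X → G.col l = Col.L → G.adj x l

/-- number of points -/
noncomputable def nX (G : Str V) (S : Finset V) : ℕ := (S.filter fun v => G.col v = Col.X).card
/-- number of free `D`-vertices -/
noncomputable def nF (G : Str V) (S : Finset V) : ℕ :=
  (S.filter fun v => G.col v = Col.D ∧ ¬ ∃ x ∈ S, G.E v x).card
/-- number of attached `D`-vertices -/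
noncomputable def nA (G : Str V) (S : Finset V) : ℕ :=
  (S.filter fun v => ∃ x ∈ S, G.E v x).card
/-- number of lines -/
noncomputable def nL (G : Str V) (S : Finset V) : ℕ := (S.filter fun v => G.col v = Col.L).card

theorem ind_split (v : V) : ((if G.col v = Col.X then 1 else 0) +
    ((if (G.col v = Col.D ∧ ¬ ∃ x ∈ S, G.E v x) then 1 else 0) +
    ((if (∃ x ∈ S, G.E v x) then 1 else 0) + (if G.col v = Col.L then 1 else 0)))) = 1 := by
  by_cases h : ∃ x ∈ S, G.E v x
  · have hD : G.col v = Col.D := by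
      obtain ⟨x, _, hx⟩ := h
      exact hx.1
    simp [h, hD]
  · cases hc : G.col v <;> simp [h]

theorem card_split (G : Str V) (S : Finset V) :
    S.card = nX G S + (nF G S + (nA G S + nL G S)) := by
  unfold nX nF nA nL
  rw [Finset.card_filter, Finset.card_filter, Finset.card_filter, Finset.card_filter,
    ← Finset.sum_add_distrib, ← Finset.sum_add_distrib, ← Finset.sum_add_distrib]
  rw [Finset.card_eq_sum_ones]
  apply Finset.sum_congr rfl
  intro v _
  exact (ind_split v).symm

theorem wt_split (G : Str V) (S : Finset V) :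
    (∑ v ∈ S, G.wt v) = 101 * (nX G S : ℤ) + nF G S + nA G S + 201 * nL G S := by
  unfold nX nF nA nL
  rw [Finset.card_filter, Finset.card_filter, Finset.card_filter, Finset.card_filter]
  push_cast
  rw [Finset.mul_sum, Finset.mul_sum, ← Finset.sum_add_distrib, ← Finset.sum_add_distrib,
    ← Finset.sum_add_distrib]
  apply Finset.sum_congr rfl
  intro v _
  by_cases h : ∃ x ∈ S, G.E v x
  · have hD : G.col v = Col.D := by
      obtain ⟨x, _, hx⟩ := h
      exact hx.1
    simp [h, hD, Str.wt, Str.thr]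
  · cases hc : G.col v <;> simp [h, Str.wt, Str.thr, hc]

theorem Fr.eE (F : Fr G) (S : Finset V) : G.eE S = nA G S := by
  unfold Str.eE nA
  have h : (S.filter fun v => ∃ x ∈ S, G.E v x) =
      ((S ×ˢ S).filter fun p => G.E p.1 p.2).image Prod.fst := by
    ext v
    simp only [Finset.mem_filter, Finset.mem_image, Finset.mem_product, Prod.exists]
    constructor
    · rintro ⟨hv, x, hx, hE⟩
      exact ⟨v, x, ⟨⟨hv, hx⟩, hE⟩, rfl⟩
    · rintro ⟨a, x, ⟨⟨ha, hx⟩, hE⟩, rfl⟩
      exact ⟨ha, x, hx, hE⟩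
  rw [h, Finset.card_image_of_injOn]
  rintro ⟨a, x⟩ ha ⟨b, y⟩ hb hab
  simp only [Finset.coe_filter, Finset.mem_product, Set.mem_ofPred_eq] at ha hb hab
  subst hab
  rw [F.fE a x y ha.2 hb.2]

theorem Fr.nA_le (F : Fr G) (S : Finset V) : nA G S ≤ 101 * nX G S := by
  rw [← F.eE]
  unfold Str.eE
  have h : ((S ×ˢ S).filter fun p => G.E p.1 p.2).card =
      ∑ x ∈ S.filter (fun v => G.col v = Col.X), (S.filter fun a => G.E a x).card := by
    rw [Finset.card_eq_sum_card_fiberwise (f := Prod.snd)
      (t := S.filter (fun v => G.col v = Col.X))]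
    · apply Finset.sum_congr rfl
      intro x hx
      rw [Finset.mem_filter] at hx
      apply Finset.card_bij (fun p _ => p.1)
      · rintro ⟨a, y⟩ h
        simp only [Finset.mem_filter, Finset.mem_product] at h ⊢
        rw [← h.2]
        exact ⟨h.1.1.1, h.1.2⟩
      · rintro ⟨a, y⟩ h ⟨b, z⟩ h' hab
        simp only [Finset.mem_filter, Finset.mem_product] at h h' hab
        rw [hab, h.2, h'.2]
      · intro a ha
        rw [Finset.mem_filter] at ha
        exact ⟨(a, x), by simp [ha.1, ha.2, hx.1], rfl⟩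
    · rintro ⟨a, y⟩ h
      simp only [Finset.coe_filter, Finset.mem_product, Set.mem_ofPred_eq] at h ⊢
      exact ⟨h.1.2, h.2.2.1⟩
  rw [h]
  calc _ ≤ ∑ x ∈ S.filter (fun v => G.col v = Col.X), 101 :=
        Finset.sum_le_sum fun x _ => F.bE S x
    _ = 101 * nX G S := by rw [Finset.sum_const, smul_eq_mul, nX, mul_comm]

theorem nL_zero (h : ∀ v ∈ S, G.col v ≠ Col.L) : nL G S = 0 := by
  unfold nL
  rw [Finset.card_eq_zero, Finset.filter_eq_empty_iff]
  exact h

theorem Fr.dl_noline (F : Fr G) (h : ∀ v ∈ S, G.col v ≠ Col.L) :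
    G.dl S = 101 * nX G S + nF G S - G.eR S := by
  have hQ : G.eQ S = 0 := by
    unfold Str.eQ
    rw [Finset.card_eq_zero, Finset.filter_eq_empty_iff]
    rintro ⟨a, l⟩ h' hq
    exact h l (Finset.mem_product.1 h').2 hq.2.1
  have hT : G.tr S = 0 := by
    unfold Str.tr
    rw [Finset.card_eq_zero, Finset.filter_eq_empty_iff]
    rintro ⟨a, b, l⟩ h' hq
    simp only [Finset.mem_product] at h'
    exact h l h'.2.2 hq.2.1.2.1
  unfold Str.dl
  rw [wt_split, F.eE, hQ, hT, nL_zero h]
  push_cast
  ring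

theorem Fr.dl_line (F : Fr G) {c : V} (hc : c ∈ S) (hcL : G.col c = Col.L) :
    G.dl S = 201 + nX G S + nF G S := by
  have hLc : (S.filter fun v => G.col v = Col.L) = {c} := by
    ext v
    simp only [Finset.mem_filter, Finset.mem_singleton]
    exact ⟨fun h => F.fL _ _ h.2 hcL, fun h => by rw [h]; exact ⟨hc, hcL⟩⟩
  have hL : nL G S = 1 := by
    unfold nL
    rw [hLc, Finset.card_singleton]
  have hQ : G.eQ S = nX G S := by
    unfold Str.eQ nX
    apply Finset.card_bij (fun p _ => p.1)
    · rintro ⟨a, l⟩ h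
      simp only [Finset.mem_filter, Finset.mem_product] at h ⊢
      exact ⟨h.1.1, h.2.1⟩
    · rintro ⟨a, l⟩ h ⟨b, l'⟩ h' hab
      simp only [Finset.mem_filter, Finset.mem_product] at h h' hab
      rw [hab, F.fL l l' h.2.2.1 h'.2.2.1]
    · intro a ha
      rw [Finset.mem_filter] at ha
      exact ⟨(a, c), Finset.mem_filter.2 ⟨Finset.mem_product.2 ⟨ha.1, hc⟩, ha.2, hcL,
        F.aL a c ha.2 hcL⟩, rfl⟩
  have hT : G.tr S = G.eR S := by
    unfold Str.tr Str.eR
    apply Finset.card_bij (fun p _ => (p.1, p.2.1))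
    · rintro ⟨a, b, l⟩ h
      simp only [Finset.mem_filter, Finset.mem_product] at h ⊢
      exact ⟨⟨h.1.1, h.1.2.1⟩, h.2.1⟩
    · rintro ⟨a, b, l⟩ h ⟨a', b', l'⟩ h' hab
      simp only [Finset.mem_filter, Finset.mem_product, Prod.mk.injEq] at h h' hab
      rw [hab.1, hab.2, F.fL l l' h.2.2.1.2.1 h'.2.2.1.2.1]
    · rintro ⟨a, b⟩ ha
      simp only [Finset.mem_filter, Finset.mem_product] at ha
      refine ⟨(a, b, c), ?_, rfl⟩
      simp only [Finset.mem_filter, Finset.mem_product]
      exact ⟨⟨ha.1.1, ha.1.2, hc⟩, ha.2, ⟨ha.2.1, hcL, F.aL a c ha.2.1 hcL⟩,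
        ⟨ha.2.2.1, hcL, F.aL b c ha.2.2.1 hcL⟩⟩
  unfold Str.dl
  rw [wt_split, F.eE, hQ, hT, hL]
  push_cast
  ring

theorem eR_two (h : 1 ≤ G.eR S) : 2 ≤ nX G S := by
  unfold Str.eR at h
  obtain ⟨⟨a, b⟩, hp⟩ := Finset.card_pos.1 h
  simp only [Finset.mem_filter, Finset.mem_product] at hp
  unfold nX
  apply Nat.succ_le_of_lt
  apply Finset.one_lt_card.2
  exact ⟨a, Finset.mem_filter.2 ⟨hp.1.1, hp.2.1⟩, b, Finset.mem_filter.2 ⟨hp.1.2, hp.2.2.1⟩,
    hp.2.2.2.1⟩

theorem three_pow (n : ℕ) : 2 * n + 1 ≤ 3 ^ n := by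
  induction n with
  | zero => norm_num
  | succ n ih => rw [pow_succ]; omega

theorem Fr.a1 (F : Fr G) (Z : Set V) : G.A1 Z := by
  intro l _ l' _ hne S _ h
  have : S = ∅ := by
    rw [Finset.eq_empty_iff_forall_notMem]
    intro a ha
    exact hne (F.fL l l' (h a ha).1.2.1 (h a ha).2.2.1)
  rw [this]
  simp

theorem Fr.a2 (F : Fr G) (Z : Set V) : G.A2 Z := by
  intro S _ hne
  by_cases h : ∃ v ∈ S, G.col v ≠ Col.L
  · obtain ⟨v, hv, hvL⟩ := h
    refine ⟨v, hv, ?_⟩
    cases hc : G.col v with
    | D => rw [Str.qd_D hc]; norm_num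
    | L => exact absurd hc hvL
    | X =>
      rw [Str.qd_X hc]
      have : (S.filter fun l => G.Q v l).card ≤ 1 := by
        rw [Finset.card_le_one]
        intro l hl l' hl'
        rw [Finset.mem_filter] at hl hl'
        exact F.fL l l' hl.2.2.1 hl'.2.2.1
      omega
  · push Not at h
    obtain ⟨v, hv⟩ := hne
    refine ⟨v, hv, ?_⟩
    rw [Str.qd_L (h v hv)]
    have : (S.filter fun a => G.Q a v) = ∅ := by
      rw [Finset.filter_eq_empty_iff]
      intro a ha hq
      have := (h a ha).symm.trans hq.1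
      cases this
    rw [this]
    simp

theorem Fr.k (F : Fr G) (hR : ∀ B, G.PC B Z → (∀ v ∈ B, G.col v ≠ Col.L) → G.eR B ≤ 1) :
    G.K Z := by
  refine ⟨F.a1 Z, F.a2 Z, ?_⟩
  intro S hS
  have hcard := card_split G S
  have hA := F.nA_le S
  by_cases h : ∀ v ∈ S, G.col v ≠ Col.L
  · have hd := F.dl_noline h
    have hr := hR S hS h
    have h2 : 1 ≤ G.eR S → 2 ≤ nX G S := eR_two
    rw [nL_zero h] at hcard
    have h0 : 0 ≤ G.dl S := by omega
    refine ⟨h0, ?_⟩
    have h3 := three_pow (G.dl S).toNat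
    have h4 : (((G.dl S).toNat : ℕ) : ℤ) = G.dl S := Int.toNat_of_nonneg h0
    refine le_trans ?_ h3
    omega
  · push Not at h
    obtain ⟨c, hc, hcL⟩ := h
    have hd := F.dl_line hc hcL
    have hL : nL G S ≤ 1 := by
      unfold nL
      rw [Finset.card_le_one]
      intro l hl l' hl'
      rw [Finset.mem_filter] at hl hl'
      exact F.fL l l' hl.2 hl'.2
    refine ⟨by omega, ?_⟩
    have h4 : (G.dl S).toNat = 201 + (nX G S + nF G S) := by omega
    rw [h4, pow_add]
    have h5 := three_pow (nX G S + nF G S)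
    have h6 : (102 : ℕ) ≤ 3 ^ 201 := by norm_num
    calc S.card ≤ 102 * (2 * (nX G S + nF G S) + 1) := by omega
      _ ≤ 3 ^ 201 * 3 ^ (nX G S + nF G S) := Nat.mul_le_mul h6 h5

theorem nX_mono {B : Finset V} (h : A ⊆ B) : nX G A ≤ nX G B :=
  Finset.card_le_card (Finset.filter_subset_filter _ h)

/-- a criterion for closed sets -/
theorem Fr.cl (F : Fr G) (hPC : G.PC A Z)
    (hR : ∀ B, G.PC B Z → (∀ v ∈ B, G.col v ≠ Col.L) → G.eR B ≤ 1)
    (hline : (∃ l ∈ Z, G.col l = Col.L) → nX G A = 2) (hnoL : ∀ v ∈ A, G.col v ≠ Col.L)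
    (hf : ∀ v ∈ A, G.col v = Col.D → ∃ x ∈ A, G.E v x)
    (hsat : ∀ x ∈ A, ∀ v ∈ Z, G.E v x → v ∈ A) : G.Cl A Z := by
  refine ⟨hPC, ?_⟩
  intro B hB hAB
  have hF : nF G A = 0 := by
    unfold nF
    rw [Finset.card_eq_zero, Finset.filter_eq_empty_iff]
    intro v hv h
    exact h.2 (hf v hv h.1)
  have hdA := F.dl_noline hnoL
  have hX := nX_mono (G := G) hAB.1
  by_cases h : ∀ v ∈ B, G.col v ≠ Col.L
  · have hdB := F.dl_noline h
    have hr := hR B hB h
    by_cases hXX : nX G B = nX G A
    · have hXeq : (A.filter fun v => G.col v = Col.X) = (B.filter fun v => G.col v = Col.X) :=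
        Finset.eq_of_subset_of_card_le (Finset.filter_subset_filter _ hAB.1) hXX.le
      have hRR : G.eR B = G.eR A := by
        unfold Str.eR
        congr 1
        ext ⟨a, b⟩
        simp only [Finset.mem_filter, Finset.mem_product]
        constructor
        · rintro ⟨⟨ha, hb⟩, hr⟩
          have h1 : a ∈ A.filter fun v => G.col v = Col.X := by
            rw [hXeq]; exact Finset.mem_filter.2 ⟨ha, hr.1⟩
          have h2 : b ∈ A.filter fun v => G.col v = Col.X := by
            rw [hXeq]; exact Finset.mem_filter.2 ⟨hb, hr.2.1⟩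
          exact ⟨⟨(Finset.mem_filter.1 h1).1, (Finset.mem_filter.1 h2).1⟩, hr⟩
        · rintro ⟨⟨ha, hb⟩, hr⟩
          exact ⟨⟨hAB.1 ha, hAB.1 hb⟩, hr⟩
      have hFB : 1 ≤ nF G B := by
        obtain ⟨v, hvB, hvA⟩ := Finset.exists_of_ssubset hAB
        apply Finset.card_pos.2
        refine ⟨v, Finset.mem_filter.2 ⟨hvB, ?_, ?_⟩⟩
        · cases hc : G.col v with
          | D => rfl
          | L => exact absurd hc (h v hvB)
          | X =>
            exfalso
            have h1 : v ∈ A.filter fun v => G.col v = Col.X := by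
              rw [hXeq]; exact Finset.mem_filter.2 ⟨hvB, hc⟩
            exact hvA (Finset.mem_filter.1 h1).1
        · rintro ⟨x, hx, hE⟩
          have h1 : x ∈ A.filter fun v => G.col v = Col.X := by
            rw [hXeq]; exact Finset.mem_filter.2 ⟨hx, hE.2.1⟩
          exact hvA (hsat x (Finset.mem_filter.1 h1).1 v (hB.1 hvB) hE)
      omega
    · omega
  · push Not at h
    obtain ⟨c, hc, hcL⟩ := h
    have hdB := F.dl_line hc hcL
    have h2 := hline ⟨c, hB.1 hc, hcL⟩
    omega

/-- a closed set which contains 101 vertices attached to a point contains the point -/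
theorem Fr.pt_mem (F : Fr G) (hA : G.Cl A Z) {x : V} (hx : x ∈ Z) (hXx : G.col x = Col.X)
    (hnoL : ∀ v ∈ A, G.col v ≠ Col.L) (h101 : 101 ≤ (A.filter fun a => G.E a x).card)
    (hline : ∀ l ∈ Z, G.col l ≠ Col.L) : x ∈ A := by
  by_contra hxA
  have hPC : G.PC (insert x A) Z := by
    refine ⟨?_, ?_⟩
    · intro v hv
      rcases Finset.mem_insert.1 hv with rfl | hv
      · exact hx
      · exact hA.1.1 hv
    · intro v hv hvA
      have hcol := hline v hv
      cases hc : G.col v with
      | D => rw [Str.qd_D hc]; exact Nat.zero_le _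
      | L => exact absurd hc hcol
      | X =>
        rw [Str.qd_X hc]
        have : ((insert x A).filter fun l => G.Q v l) = ∅ := by
          rw [Finset.filter_eq_empty_iff]
          intro l hl hq
          rcases Finset.mem_insert.1 hl with rfl | hl
          · have := hXx.symm.trans hq.2.1; cases this
          · exact hnoL l hl hq.2.1
        rw [this]
        simp
  have h1 := hA.2 _ hPC (Finset.ssubset_insert hxA)
  have h2 := F.dl_noline hnoL
  have hno' : ∀ v ∈ insert x A, G.col v ≠ Col.L := by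
    intro v hv
    rcases Finset.mem_insert.1 hv with rfl | hv
    · rw [hXx]; exact fun h => by cases h
    · exact hnoL v hv
  have h3 := F.dl_noline hno'
  have h4 : nX G (insert x A) = nX G A + 1 := by
    unfold nX
    rw [Finset.filter_insert, if_pos hXx, Finset.card_insert_of_notMem]
    intro h
    exact hxA (Finset.mem_filter.1 h).1
  have h5 : G.eR A ≤ G.eR (insert x A) := by
    unfold Str.eR
    apply Finset.card_le_card
    apply Finset.filter_subset_filter
    exact Finset.product_subset_product (Finset.subset_insert _ _) (Finset.subset_insert _ _)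
  have h6 : nF G (insert x A) + 101 ≤ nF G A := by
    have hsub : (insert x A).filter (fun v => G.col v = Col.D ∧ ¬ ∃ y ∈ insert x A, G.E v y) ∪
        (A.filter fun a => G.E a x) ⊆ A.filter (fun v => G.col v = Col.D ∧ ¬ ∃ y ∈ A, G.E v y) := by
      intro v hv
      rcases Finset.mem_union.1 hv with hv | hv
      · rw [Finset.mem_filter] at hv
        rw [Finset.mem_filter]
        refine ⟨?_, hv.2.1, ?_⟩
        · rcases Finset.mem_insert.1 hv.1 with rfl | h
          · have := hXx.symm.trans hv.2.1; cases this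
          · exact h
        · rintro ⟨y, hy, hE⟩
          exact hv.2.2 ⟨y, Finset.mem_insert_of_mem hy, hE⟩
      · rw [Finset.mem_filter] at hv
        rw [Finset.mem_filter]
        refine ⟨hv.1, hv.2.1, ?_⟩
        rintro ⟨y, hy, hE⟩
        rw [F.fE v y x hE hv.2] at hy
        exact hxA hy
    have hdisj : Disjoint ((insert x A).filter
        (fun v => G.col v = Col.D ∧ ¬ ∃ y ∈ insert x A, G.E v y)) (A.filter fun a => G.E a x) := by
      rw [Finset.disjoint_left]
      intro v h1 h2
      rw [Finset.mem_filter] at h1 h2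
      exact h1.2.2 ⟨x, Finset.mem_insert_self _ _, h2.2⟩
    have h7 := Finset.card_le_card hsub
    rw [Finset.card_union_of_disjoint hdisj] at h7
    unfold nF
    omega
  omega

/-- without lines every set is P-closed -/
theorem pc_noline (hA : ↑A ⊆ Z) (hnoL : ∀ v ∈ A, G.col v ≠ Col.L)
    (hline : ∀ l ∈ Z, G.col l ≠ Col.L) : G.PC A Z := by
  refine ⟨hA, ?_⟩
  intro v hv _
  cases hc : G.col v with
  | D => rw [Str.qd_D hc]; exact Nat.zero_le _
  | L => exact absurd hc (hline v hv)
  | X =>
    rw [Str.qd_X hc]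
    have : (A.filter fun l => G.Q v l) = ∅ := by
      rw [Finset.filter_eq_empty_iff]
      intro l hl hq
      exact hnoL l hl hq.2.1
    rw [this]
    simp

end frame

/-! ### Pairs -/

theorem pair_colX {r : Prop} {v : Bool × Option (Fin 101)} (h : (PairS r).col v = Col.X) :
    v = (v.1, none) := by
  obtain ⟨s, o⟩ := v
  cases o with
  | none => rfl
  | some k => exact absurd h (fun h => by cases h)

theorem pair_noL {r : Prop} (v : Bool × Option (Fin 101)) : (PairS r).col v ≠ Col.L := by
  obtain ⟨s, o⟩ := v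
  cases o <;> exact fun h => by cases h

theorem pair_E {r : Prop} (v x : Bool × Option (Fin 101)) : (PairS r).E v x ↔
    ∃ s k, v = (s, some k) ∧ x = (s, none) := by
  constructor
  · rintro ⟨h1, h2, h3 | h3⟩
    · exact h3
    · rw [h3.2.1] at h1
      cases h1
  · rintro ⟨s, k, rfl, rfl⟩
    exact ⟨rfl, rfl, Or.inl ⟨s, k, rfl, rfl⟩⟩

theorem pair_R {r : Prop} (v x : Bool × Option (Fin 101)) : (PairS r).R v x ↔
    r ∧ v = (false, none) ∧ x = (true, none) := by
  constructor
  · rintro ⟨h1, h2, h3, h4 | h4⟩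
    · obtain ⟨s, k, rfl, rfl⟩ := h4
      cases h1
    · exact h4
  · rintro ⟨hr, rfl, rfl⟩
    exact ⟨rfl, rfl, by simp, Or.inr ⟨hr, rfl, rfl⟩⟩

theorem pair_fr (r : Prop) : Fr (PairS r) where
  fE := by
    intro v x x' h h'
    rw [pair_E] at h h'
    obtain ⟨s, k, rfl, rfl⟩ := h
    obtain ⟨s', k', h1, rfl⟩ := h'
    simp only [Prod.mk.injEq] at h1
    rw [h1.1]
  bE := by
    intro S x
    have hsub : (S.filter fun a => (PairS r).E a x) ⊆
        (Finset.univ : Finset (Fin 101)).image fun k => (x.1, some k) := by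
      intro a ha
      rw [Finset.mem_filter, pair_E] at ha
      obtain ⟨_, s, k, rfl, rfl⟩ := ha
      exact Finset.mem_image.2 ⟨k, Finset.mem_univ _, rfl⟩
    refine (Finset.card_le_card hsub).trans (Finset.card_image_le.trans ?_)
    simp
  fL := fun l _ h => absurd h (pair_noL l)
  aL := fun _ l _ h => absurd h (pair_noL l)

theorem pair_eR {r : Prop} (B : Finset (Bool × Option (Fin 101))) : (PairS r).eR B ≤ 1 := by
  unfold Str.eR
  rw [Finset.card_le_one]
  rintro ⟨a, b⟩ h ⟨a', b'⟩ h'
  rw [Finset.mem_filter, pair_R] at h h'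
  obtain ⟨_, _, h1, h2⟩ := h
  obtain ⟨_, _, h1', h2'⟩ := h'
  simp only at h1 h2 h1' h2'
  rw [h1, h2, h1', h2']

theorem pair_k (r : Prop) : (PairS r).K (Finset.univ : Finset (Bool × Option (Fin 101))) :=
  (pair_fr r).k fun B _ _ => pair_eR B

theorem pair_pt {r : Prop} {A : Finset (Bool × Option (Fin 101))}
    (hA : (PairS r).Cl A ↑(Finset.univ : Finset (Bool × Option (Fin 101)))) (s : Bool)
    (h : ∀ k, (s, some k) ∈ A) : ((s, none) : Bool × Option (Fin 101)) ∈ A := by
  apply (pair_fr r).pt_mem hA (by simp) rfl (fun v _ => pair_noL v) _ (fun v _ => pair_noL v)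
  have hsub : ((Finset.univ : Finset (Fin 101)).image fun k => (s, some k)) ⊆
      (A.filter fun a => (PairS r).E a (s, none)) := by
    intro a ha
    obtain ⟨k, _, rfl⟩ := Finset.mem_image.1 ha
    rw [Finset.mem_filter, pair_E]
    exact ⟨h k, s, k, rfl, rfl⟩
  have h2 := Finset.card_le_card hsub
  rw [Finset.card_image_of_injective] at h2
  · simpa using h2
  · intro k k' hk
    simpa using hk

/-- the closure of all `D`-vertices is everything, of predimension 202 or 201 -/
theorem pair_cl (r : Prop) : (PairS r).IsC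
    ((Finset.univ : Finset (Bool × Fin 101)).image fun x => (x.1, some x.2)) Finset.univ
    ↑(Finset.univ : Finset (Bool × Option (Fin 101))) := by
  refine ⟨Str.Cl.self _, Finset.subset_univ _, ?_⟩
  intro C' hC' hS
  have h1 : ∀ s k, ((s, some k) : Bool × Option (Fin 101)) ∈ C' := fun s k =>
    hS (Finset.mem_image.2 ⟨(s, k), Finset.mem_univ _, rfl⟩)
  rintro ⟨s, o⟩ _
  cases o with
  | none => exact pair_pt hC' s (h1 s)
  | some k => exact h1 s k

theorem pair_dl : (PairS False).dl Finset.univ = 202 := by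
  rw [(pair_fr False).dl_noline (fun v _ => pair_noL v)]
  have h1 : nX (PairS False) Finset.univ = 2 := by
    unfold nX
    have : (Finset.univ.filter fun v => (PairS False).col v = Col.X) =
        {(false, none), (true, none)} := by
      ext v
      simp only [Finset.mem_filter, Finset.mem_univ, true_and, Finset.mem_insert,
        Finset.mem_singleton]
      constructor
      · intro h
        obtain ⟨s, o⟩ := v
        have := pair_colX h
        cases s <;> simp_all
      · rintro (rfl | rfl) <;> rfl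
    rw [this]
    rfl
  have h2 : nF (PairS False) Finset.univ = 0 := by
    unfold nF
    rw [Finset.card_eq_zero, Finset.filter_eq_empty_iff]
    rintro ⟨s, o⟩ _ ⟨h3, h4⟩
    cases o with
    | none => cases h3
    | some k => exact h4 ⟨(s, none), Finset.mem_univ _, (pair_E _ _).2 ⟨s, k, rfl, rfl⟩⟩
  have h3 : (PairS False).eR Finset.univ = 0 := by
    unfold Str.eR
    rw [Finset.card_eq_zero, Finset.filter_eq_empty_iff]
    rintro ⟨a, b⟩ _ h
    exact ((pair_R _ _).1 h).1
  rw [h1, h2, h3]
  norm_num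

theorem mem_half {s : Bool} {v : Bool × Option (Fin 101)} :
    v ∈ (Finset.univ : Finset (Option (Fin 101))).image (fun x => (s, x)) ↔ v.1 = s := by
  simp only [Finset.mem_image, Finset.mem_univ, true_and]
  constructor
  · rintro ⟨x, rfl⟩
    rfl
  · rintro rfl
    exact ⟨v.2, rfl⟩

/-- the closure of one half -/
theorem pair_half (r : Prop) (s : Bool) : (PairS r).IsC
    ((Finset.univ : Finset (Fin 101)).image fun x => (s, some x))
    ((Finset.univ : Finset (Option (Fin 101))).image fun x => (s, x))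
    ↑(Finset.univ : Finset (Bool × Option (Fin 101))) := by
  refine ⟨?_, ?_, ?_⟩
  · apply (pair_fr r).cl
    · exact pc_noline (by simp) (fun v _ => pair_noL v) (fun v _ => pair_noL v)
    · exact fun B _ _ => pair_eR B
    · rintro ⟨l, _, hl⟩
      exact absurd hl (pair_noL l)
    · exact fun v _ => pair_noL v
    · rintro ⟨s', o⟩ hv hc
      rw [mem_half] at hv
      cases o with
      | none => cases hc
      | some k => exact ⟨(s, none), mem_half.2 rfl, (pair_E _ _).2 ⟨s, k, by rw [← hv], rfl⟩⟩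
    · intro x hx v _ hE
      rw [mem_half] at hx ⊢
      obtain ⟨s', k, rfl, rfl⟩ := (pair_E _ _).1 hE
      exact hx
  · intro v hv
    obtain ⟨k, _, rfl⟩ := Finset.mem_image.1 hv
    exact mem_half.2 rfl
  · intro C' hC' hS
    have h1 : ∀ k, ((s, some k) : Bool × Option (Fin 101)) ∈ C' := fun k =>
      hS (Finset.mem_image.2 ⟨k, Finset.mem_univ _, rfl⟩)
    rintro ⟨s', o⟩ hv
    rw [mem_half] at hv
    simp only at hv
    subst hv
    cases o with
    | none => exact pair_pt hC' s' h1
    | some k => exact h1 k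

theorem pair_half_dl (r : Prop) (s : Bool) :
    (PairS r).dl ((Finset.univ : Finset (Option (Fin 101))).image fun x => (s, x)) = 101 := by
  rw [(pair_fr r).dl_noline (fun v _ => pair_noL v)]
  have h1 : nX (PairS r) ((Finset.univ : Finset (Option (Fin 101))).image fun x => (s, x)) = 1 := by
    unfold nX
    rw [Finset.card_eq_one]
    refine ⟨(s, none), ?_⟩
    ext v
    rw [Finset.mem_filter, mem_half, Finset.mem_singleton]
    constructor
    · rintro ⟨h, h'⟩
      rw [pair_colX h', h]
    · rintro rfl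
      exact ⟨rfl, rfl⟩
  have h2 : nF (PairS r) ((Finset.univ : Finset (Option (Fin 101))).image fun x => (s, x)) = 0 := by
    unfold nF
    rw [Finset.card_eq_zero, Finset.filter_eq_empty_iff]
    rintro ⟨s', o⟩ hv ⟨h3, h4⟩
    rw [mem_half] at hv
    simp only at hv
    subst hv
    cases o with
    | none => cases h3
    | some k => exact h4 ⟨(s', none), mem_half.2 rfl, (pair_E _ _).2 ⟨s', k, rfl, rfl⟩⟩
  have h3 : (PairS r).eR ((Finset.univ : Finset (Option (Fin 101))).image fun x => (s, x)) = 0 := by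
    unfold Str.eR
    rw [Finset.card_eq_zero, Finset.filter_eq_empty_iff]
    rintro ⟨a, b⟩ hab h
    rw [Finset.mem_product, mem_half, mem_half] at hab
    obtain ⟨_, h4, h5⟩ := (pair_R _ _).1 h
    simp only at h4 h5 hab
    rw [h4, h5] at hab
    rw [← hab.1] at hab
    exact absurd hab.2 (by simp)
  rw [h1, h2, h3]
  norm_num

/-! ### Copies -/

/-- disjoint unions of copies of one half of a pair -/
def CopS (m : ℕ) : Str (Fin m × Option (Fin 101)) where
  col := fun x => match x with
    | (_, none) => Col.X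
    | (_, some _) => Col.D
  adj := fun x y => ∃ s k, x = (s, some k) ∧ y = (s, none)

theorem cop_noL {m : ℕ} (v : Fin m × Option (Fin 101)) : (CopS m).col v ≠ Col.L := by
  obtain ⟨s, o⟩ := v
  cases o <;> exact fun h => by cases h

theorem cop_E {m : ℕ} (v x : Fin m × Option (Fin 101)) : (CopS m).E v x ↔
    ∃ s k, v = (s, some k) ∧ x = (s, none) := by
  constructor
  · rintro ⟨_, _, h3⟩
    exact h3
  · rintro ⟨s, k, rfl, rfl⟩
    exact ⟨rfl, rfl, s, k, rfl, rfl⟩

theorem cop_R {m : ℕ} (v x : Fin m × Option (Fin 101)) : ¬ (CopS m).R v x := by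
  rintro ⟨h1, _, _, s, k, rfl, rfl⟩
  cases h1

theorem cop_fr (m : ℕ) : Fr (CopS m) where
  fE := by
    intro v x x' h h'
    rw [cop_E] at h h'
    obtain ⟨s, k, rfl, rfl⟩ := h
    obtain ⟨s', k', h1, rfl⟩ := h'
    simp only [Prod.mk.injEq] at h1
    rw [h1.1]
  bE := by
    intro S x
    have hsub : (S.filter fun a => (CopS m).E a x) ⊆
        (Finset.univ : Finset (Fin 101)).image fun k => (x.1, some k) := by
      intro a ha
      rw [Finset.mem_filter, cop_E] at ha
      obtain ⟨_, s, k, rfl, rfl⟩ := ha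
      exact Finset.mem_image.2 ⟨k, Finset.mem_univ _, rfl⟩
    refine (Finset.card_le_card hsub).trans (Finset.card_image_le.trans ?_)
    simp
  fL := fun l _ h => absurd h (cop_noL l)
  aL := fun _ l _ h => absurd h (cop_noL l)

theorem cop_eR {m : ℕ} (B : Finset (Fin m × Option (Fin 101))) : (CopS m).eR B = 0 := by
  unfold Str.eR
  rw [Finset.card_eq_zero, Finset.filter_eq_empty_iff]
  rintro ⟨a, b⟩ _ h
  exact cop_R _ _ h

theorem cop_k (m : ℕ) : (CopS m).K (Finset.univ : Finset (Fin m × Option (Fin 101))) :=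
  (cop_fr m).k fun B _ _ => (cop_eR B).le.trans zero_le_one

theorem cop_cl (m : ℕ) (s : Finset (Fin m)) :
    (CopS m).Cl ((s ×ˢ (Finset.univ : Finset (Option (Fin 101)))))
      ↑(Finset.univ : Finset (Fin m × Option (Fin 101))) := by
  apply (cop_fr m).cl
  · exact pc_noline (by simp) (fun v _ => cop_noL v) (fun v _ => cop_noL v)
  · exact fun B _ _ => (cop_eR B).le.trans zero_le_one
  · rintro ⟨l, _, hl⟩
    exact absurd hl (cop_noL l)
  · exact fun v _ => cop_noL v
  · rintro ⟨s', o⟩ hv hc
    rw [Finset.mem_product] at hv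
    cases o with
    | none => cases hc
    | some k =>
      exact ⟨(s', none), Finset.mem_product.2 ⟨hv.1, Finset.mem_univ _⟩,
        (cop_E _ _).2 ⟨s', k, rfl, rfl⟩⟩
  · intro x hx v _ hE
    obtain ⟨s', k, rfl, rfl⟩ := (cop_E _ _).1 hE
    rw [Finset.mem_product] at hx ⊢
    exact ⟨hx.1, Finset.mem_univ _⟩

/-! ### Ladders -/

/-- a line with points `a_i = (false, i)` and `b_j = (true, j)`, with `R (a_i) (b_j)` iff
`i < j` -/
def LadS (m : ℕ) : Str (Option ((Bool × Fin m) × Option (Fin 101))) where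
  col := fun x => match x with
    | none => Col.L
    | some (_, none) => Col.X
    | some (_, some _) => Col.D
  adj := fun x y => (∃ s k, x = some (s, some k) ∧ y = some (s, none)) ∨
    (∃ i j, i < j ∧ x = some ((false, i), none) ∧ y = some ((true, j), none)) ∨
    (∃ s, x = some (s, none) ∧ y = none)

theorem lad_X {m : ℕ} {v : Option ((Bool × Fin m) × Option (Fin 101))}
    (h : (LadS m).col v = Col.X) : ∃ s, v = some (s, none) := by
  rcases v with _ | ⟨s, _ | k⟩
  · cases h
  · exact ⟨s, rfl⟩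
  · cases h

theorem lad_L {m : ℕ} {v : Option ((Bool × Fin m) × Option (Fin 101))}
    (h : (LadS m).col v = Col.L) : v = none := by
  rcases v with _ | ⟨s, _ | k⟩
  · rfl
  · cases h
  · cases h

theorem lad_E {m : ℕ} (v x : Option ((Bool × Fin m) × Option (Fin 101))) : (LadS m).E v x ↔
    ∃ s k, v = some (s, some k) ∧ x = some (s, none) := by
  constructor
  · rintro ⟨h1, h2, h3 | h3 | h3⟩
    · exact h3
    · obtain ⟨i, j, _, rfl, rfl⟩ := h3
      cases h1
    · obtain ⟨s, rfl, rfl⟩ := h3
      cases h1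
  · rintro ⟨s, k, rfl, rfl⟩
    exact ⟨rfl, rfl, Or.inl ⟨s, k, rfl, rfl⟩⟩

theorem lad_R {m : ℕ} (v x : Option ((Bool × Fin m) × Option (Fin 101))) : (LadS m).R v x ↔
    ∃ i j, i < j ∧ v = some ((false, i), none) ∧ x = some ((true, j), none) := by
  constructor
  · rintro ⟨h1, h2, _, h3 | h3 | h3⟩
    · obtain ⟨s, k, rfl, rfl⟩ := h3
      cases h1
    · exact h3
    · obtain ⟨s, rfl, rfl⟩ := h3
      cases h2
  · rintro ⟨i, j, hij, rfl, rfl⟩
    exact ⟨rfl, rfl, by simp, Or.inr (Or.inl ⟨i, j, hij, rfl, rfl⟩)⟩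

theorem lad_fr (m : ℕ) : Fr (LadS m) where
  fE := by
    intro v x x' h h'
    rw [lad_E] at h h'
    obtain ⟨s, k, rfl, rfl⟩ := h
    obtain ⟨s', k', h1, rfl⟩ := h'
    simp only [Option.some.injEq, Prod.mk.injEq] at h1
    rw [h1.1]
  bE := by
    intro S x
    rcases x with _ | ⟨s0, o⟩
    · have : (S.filter fun a => (LadS m).E a none) = ∅ := by
        rw [Finset.filter_eq_empty_iff]
        intro a _ h
        obtain ⟨s, k, _, h⟩ := (lad_E _ _).1 h
        cases h
      rw [this]
      simp
    · have hsub : (S.filter fun a => (LadS m).E a (some (s0, o))) ⊆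
          (Finset.univ : Finset (Fin 101)).image fun k => some (s0, some k) := by
        intro a ha
        rw [Finset.mem_filter, lad_E] at ha
        obtain ⟨_, s, k, rfl, h⟩ := ha
        simp only [Option.some.injEq, Prod.mk.injEq] at h
        rw [h.1]
        exact Finset.mem_image.2 ⟨k, Finset.mem_univ _, rfl⟩
      refine (Finset.card_le_card hsub).trans (Finset.card_image_le.trans ?_)
      simp
  fL := fun l l' h h' => (lad_L h).trans (lad_L h').symm
  aL := by
    intro x l h h'
    obtain ⟨s, rfl⟩ := lad_X h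
    obtain rfl := lad_L h'
    exact Or.inr (Or.inr ⟨s, rfl, rfl⟩)

theorem lad_eR {m : ℕ} (B : Finset (Option ((Bool × Fin m) × Option (Fin 101))))
    (hB : (LadS m).PC B ↑(Finset.univ : Finset (Option ((Bool × Fin m) × Option (Fin 101)))))
    (hno : ∀ v ∈ B, (LadS m).col v ≠ Col.L) : (LadS m).eR B ≤ 1 := by
  have hX : (B.filter fun v => (LadS m).col v = Col.X).card ≤ 2 := by
    have hc : (none : Option ((Bool × Fin m) × Option (Fin 101))) ∉ B := fun h => hno _ h rfl
    have h1 := hB.2 none (by simp) hc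
    rw [Str.qd_L (rfl : (LadS m).col none = Col.L)] at h1
    have h2 : (LadS m).thr none = 2 := rfl
    rw [h2] at h1
    refine le_trans (Finset.card_le_card ?_) h1
    intro v hv
    rw [Finset.mem_filter] at hv ⊢
    exact ⟨hv.1, hv.2, rfl, (lad_fr m).aL v none hv.2 rfl⟩
  unfold Str.eR
  rw [Finset.card_le_one]
  rintro ⟨a, b⟩ h ⟨a', b'⟩ h'
  rw [Finset.mem_filter, Finset.mem_product] at h h'
  obtain ⟨⟨ha, hb⟩, hR⟩ := h
  obtain ⟨⟨ha', hb'⟩, hR'⟩ := h'
  have mX : ∀ x ∈ B, (LadS m).col x = Col.X → x ∈ B.filter fun v => (LadS m).col v = Col.X :=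
    fun x h1 h2 => Finset.mem_filter.2 ⟨h1, h2⟩
  obtain ⟨i, j, _, h1, h2⟩ := (lad_R _ _).1 hR
  obtain ⟨i', j', _, h1', h2'⟩ := (lad_R _ _).1 hR'
  simp only at h1 h2 h1' h2' ha hb ha' hb'
  subst h1 h2 h1' h2'
  by_contra hne
  have hij : ¬ (i = i' ∧ j = j') := by
    rintro ⟨rfl, rfl⟩
    exact hne rfl
  by_cases hi : i = i'
  · have hj : j ≠ j' := fun h => hij ⟨hi, h⟩
    have : ({some ((false, i), none), some ((true, j), none), some ((true, j'), none)} :
        Finset (Option ((Bool × Fin m) × Option (Fin 101)))).card ≤ 2 := by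
      refine le_trans (Finset.card_le_card ?_) hX
      intro x hx
      simp only [Finset.mem_insert, Finset.mem_singleton] at hx
      rcases hx with rfl | rfl | rfl
      · exact mX _ ha rfl
      · exact mX _ hb rfl
      · exact mX _ hb' rfl
    rw [Finset.card_insert_of_notMem, Finset.card_insert_of_notMem, Finset.card_singleton] at this
    · omega
    · simp [hj]
    · simp
  · have : ({some ((false, i), none), some ((false, i'), none), some ((true, j), none)} :
        Finset (Option ((Bool × Fin m) × Option (Fin 101)))).card ≤ 2 := by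
      refine le_trans (Finset.card_le_card ?_) hX
      intro x hx
      simp only [Finset.mem_insert, Finset.mem_singleton] at hx
      rcases hx with rfl | rfl | rfl
      · exact mX _ ha rfl
      · exact mX _ ha' rfl
      · exact mX _ hb rfl
    rw [Finset.card_insert_of_notMem, Finset.card_insert_of_notMem, Finset.card_singleton] at this
    · omega
    · simp
    · simp [hi]

/-- the embedding of a pair -/
def ladE {m : ℕ} (i j : Fin m) (x : Bool × Option (Fin 101)) :
    Option ((Bool × Fin m) × Option (Fin 101)) := some ((x.1, if x.1 then j else i), x.2)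

theorem ladE_emb {m : ℕ} (i j : Fin m) : Emb (PairS (i < j)) (LadS m) Finset.univ (ladE i j) where
  inj := by
    rintro ⟨s, o⟩ _ ⟨s', o'⟩ _ h
    simp only [ladE, Option.some.injEq, Prod.mk.injEq] at h
    rw [h.1.1, h.2]
  col := by
    rintro ⟨s, _ | k⟩ _ <;> rfl
  adj := by
    rintro ⟨s, o⟩ _ ⟨s', o'⟩ _
    simp only [ladE, LadS, PairS, Option.some.injEq, Prod.mk.injEq, reduceCtorEq, and_false,
      exists_false, or_false]
    constructor
    · rintro (⟨p, k, ⟨h1, h3⟩, h4, h6⟩ | ⟨i', j', hij, ⟨⟨h1, h2⟩, h3⟩, ⟨h4, h5⟩, h6⟩)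
      · exact Or.inl ⟨s, k, ⟨rfl, h3⟩, (congrArg Prod.fst (h1.trans h4.symm)).symm, h6⟩
      · subst h1 h4
        simp only [Bool.false_eq_true, if_false, if_true] at h2 h5
        subst h2 h5
        exact Or.inr ⟨hij, ⟨rfl, h3⟩, rfl, h6⟩
    · rintro (⟨a, k, ⟨h1, h3⟩, h4, h6⟩ | ⟨hij, ⟨h1, h3⟩, h4, h6⟩)
      · refine Or.inl ⟨(s, if s then j else i), k, ⟨rfl, h3⟩, ?_, h6⟩
        rw [h4, h1]
      · refine Or.inr ⟨i, j, hij, ⟨⟨h1, by rw [h1]; simp⟩, h3⟩, ⟨h4, by rw [h4]; simp⟩, h6⟩

theorem mem_ladE {m : ℕ} {i j : Fin m} {v : Option ((Bool × Fin m) × Option (Fin 101))} :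
    v ∈ (Finset.univ : Finset (Bool × Option (Fin 101))).image (ladE i j) ↔
      ∃ s o, v = some ((s, if s then j else i), o) := by
  simp only [Finset.mem_image, Finset.mem_univ, true_and, Prod.exists, ladE]
  constructor
  · rintro ⟨a, b, h⟩
    exact ⟨a, b, h.symm⟩
  · rintro ⟨a, b, h⟩
    exact ⟨a, b, h.symm⟩

theorem lad_pc {m : ℕ} (i j : Fin m) : (LadS m).PC
    ((Finset.univ : Finset (Bool × Option (Fin 101))).image (ladE i j))
    ↑(Finset.univ : Finset (Option ((Bool × Fin m) × Option (Fin 101)))) := by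
  refine ⟨by simp, ?_⟩
  intro v _ _
  cases hc : (LadS m).col v with
  | D => rw [Str.qd_D hc]; exact Nat.zero_le _
  | X =>
    rw [Str.qd_X hc]
    have : (((Finset.univ : Finset (Bool × Option (Fin 101))).image (ladE i j)).filter
        fun l => (LadS m).Q v l) = ∅ := by
      rw [Finset.filter_eq_empty_iff]
      intro l hl hq
      obtain ⟨s, o, rfl⟩ := mem_ladE.1 hl
      have := lad_L hq.2.1
      cases this
    rw [this]
    simp
  | L =>
    rw [Str.qd_L hc, Str.thr_L hc]
    have hsub : (((Finset.univ : Finset (Bool × Option (Fin 101))).image (ladE i j)).filter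
        fun a => (LadS m).Q a v) ⊆ {some ((false, i), none), some ((true, j), none)} := by
      intro a ha
      rw [Finset.mem_filter, mem_ladE] at ha
      obtain ⟨⟨s, o, rfl⟩, hq⟩ := ha
      obtain ⟨s', hs'⟩ := lad_X hq.1
      simp only [Option.some.injEq, Prod.mk.injEq] at hs'
      rw [hs'.2]
      cases s <;> simp
    exact (Finset.card_le_card hsub).trans Finset.card_le_two

theorem lad_cl {m : ℕ} (i j : Fin m) : (LadS m).Cl
    ((Finset.univ : Finset (Bool × Option (Fin 101))).image (ladE i j))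
    ↑(Finset.univ : Finset (Option ((Bool × Fin m) × Option (Fin 101)))) := by
  apply (lad_fr m).cl (lad_pc i j) (fun B hB h => lad_eR B hB h)
  · intro _
    unfold nX
    have : (((Finset.univ : Finset (Bool × Option (Fin 101))).image (ladE i j)).filter
        fun v => (LadS m).col v = Col.X) = {some ((false, i), none), some ((true, j), none)} := by
      ext v
      rw [Finset.mem_filter, mem_ladE]
      simp only [Finset.mem_insert, Finset.mem_singleton]
      constructor
      · rintro ⟨⟨s, o, rfl⟩, hc⟩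
        obtain ⟨s', hs'⟩ := lad_X hc
        simp only [Option.some.injEq, Prod.mk.injEq] at hs'
        rw [hs'.2]
        cases s <;> simp
      · rintro (rfl | rfl)
        · exact ⟨⟨false, none, by simp⟩, rfl⟩
        · exact ⟨⟨true, none, by simp⟩, rfl⟩
    rw [this, Finset.card_pair]
    simp
  · intro v hv hc
    obtain ⟨s, o, rfl⟩ := mem_ladE.1 hv
    have := lad_L hc
    cases this
  · intro v hv hc
    obtain ⟨s, o, rfl⟩ := mem_ladE.1 hv
    cases o with
    | none => cases hc
    | some k =>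
      exact ⟨some ((s, if s then j else i), none), mem_ladE.2 ⟨s, none, rfl⟩,
        (lad_E _ _).2 ⟨_, k, rfl, rfl⟩⟩
  · intro x hx v _ hE
    obtain ⟨s, k, rfl, rfl⟩ := (lad_E _ _).1 hE
    obtain ⟨s', o', h⟩ := mem_ladE.1 hx
    simp only [Option.some.injEq, Prod.mk.injEq] at h
    rw [h.1]
    exact mem_ladE.2 ⟨s', some k, rfl⟩

/-- finite ladders -/
theorem ladder_fin (m : ℕ) : ∃ (W : Type) (_ : DecidableEq W) (H : Str W) (Z : Finset W)
    (u v : Fin m → Fin 101 → W), H.K Z ∧ ∀ i j : Fin m,
      ∃ e : Bool × Option (Fin 101) → W, Emb (PairS (i < j)) H Finset.univ e ∧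
        H.Cl (Finset.univ.image e) Z ∧ (∀ k, e (false, some k) = u i k) ∧
        ∀ k, e (true, some k) = v j k := by
  refine ⟨Option ((Bool × Fin m) × Option (Fin 101)), inferInstance, LadS m, Finset.univ,
    fun i k => some ((false, i), some k), fun j k => some ((true, j), some k),
    (lad_fr m).k (fun B hB h => lad_eR B hB h), ?_⟩
  intro i j
  exact ⟨ladE i j, ladE_emb i j, lad_cl i j, fun k => rfl, fun k => rfl⟩

end Run7.h540
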