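import Pool.Agent.Run7.h520.FS1

/-! Geometries with free amalgamation over the empty set. -/

namespace Run7.h540

/-- A geometry with relative rank and a notion of freeness (free amalgamation over the empty
set), which is existing, unique and monotone. -/
structure FGeo (D : Type) extends RGeo D where
  rk_add : ∀ {α β γ : Type} [Finite α] [Finite β] [Finite γ] (u : α → D) (v : β → D)
    (t : γ → D), rk (Sum.elim u v) t = rk v t + rk u (Sum.elim v t)
  rk_equiv : ∀ {α α' β β' : Type} [Finite α] [Finite α'] [Finite β] [Finite β'] (e : α ≃ α')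
    (f : β ≃ β') (u : α' → D) (t : β' → D), rk (u ∘ e) (t ∘ f) = rk u t
  gen_rk : ∀ {α β : Type} [Finite α] [Finite β] (u : α → D) (t : β → D),
    Gen u t ↔ rk u t = Nat.card α
  Free : ∀ {α β : Type}, (α → D) → (β → D) → Prop
  free_ext : ∀ {α β : Type} [Finite α] [Finite β] (s : α → D) (t : β → D),
    ∃ s' : α → D, Sim s' s ∧ Free s' t
  free_uniq : ∀ {α β : Type} [Finite α] [Finite β] {s s' : α → D} {t t' : β → D},
    Free s t → Free s' t' → Sim s s' → Sim t t' → Sim (Sum.elim s t) (Sum.elim s' t')
  free_comp : ∀ {α β α' β' : Type} [Finite α] [Finite β] [Finite α'] [Finite β'] {s : α → D}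
    {t : β → D} (g : α' → α) (g' : β' → β), Free s t → Free (s ∘ g) (t ∘ g')
  free_rk : ∀ {α β : Type} [Finite α] [Finite β] {s : α → D} {t : β → D},
    Free s t → ∀ e : Fin 0 → D, rk s t = rk s e

end Run7.h540
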