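import Pool.Agent.Run7.h520.FKdef

/-! The theory of a geometry with relative rank is NSOP₁. -/

namespace Run7.h540

open FirstOrder FirstOrder.Language

section

variable {D : Type} (P : RGeo D) {α β γ : Type}

/-- the rank of the tuple `x` over the tuple `a`, as a relation -/
def RGeo.RkN {N : Type} [(lang D).Structure N] {n : ℕ} (x : Fin n → N) (a : γ → N) (r : ℕ) :
    Prop :=
  ∃ (u : Fin n → P.Car) (a' : γ → P.Car),
    STp (L := lang D) (Sum.elim u a') (Sum.elim x a) ∧ P.rk u a' = r

theorem RGeo.rkN_ex [Finite γ] {N : Type} [(lang D).Structure N] (hN : N ⊨ P.T) {n : ℕ}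
    (x : Fin n → N) (a : γ → N) : ∃ r, P.RkN x a r := by
  obtain ⟨s, hs⟩ := P.cov hN (Sum.elim x a)
  obtain ⟨u, b', rfl⟩ : ∃ (u : Fin n → P.Car) (b' : γ → P.Car), s = Sum.elim u b' :=
    ⟨s ∘ Sum.inl, s ∘ Sum.inr, (Sum.elim_comp_inl_inr s).symm⟩
  exact ⟨_, u, b', hs, rfl⟩

theorem RGeo.rkN_le [Finite γ] {N : Type} [(lang D).Structure N] {n : ℕ}
    {x : Fin n → N} {a : γ → N} {r : ℕ} (h : P.RkN x a r) : r ≤ n := by
  obtain ⟨u, a', _, rfl⟩ := h
  have := P.rk_le u a'
  rwa [Nat.card_fin] at this

/-- dividing drops the rank -/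
theorem RGeo.drop [Finite γ] {N : Type} [(lang D).Structure N] (hN : N ⊨ P.T) {n m : ℕ}
    (A : Set N) (φ : (lang D).Formula (Fin n ⊕ Fin m)) (b : Fin m → N) (a : γ → N)
    (ha : ∀ i, a i ∈ A) (hd : Divides A φ b) (x : Fin n → N) (hφ : φ.Realize (Sum.elim x b))
    {r : ℕ} (hr : P.RkN x a r) : ∃ r', P.RkN x (Sum.elim b a) r' ∧ r' + 1 ≤ r := by
  obtain ⟨u, a', hua, hr⟩ := hr
  obtain ⟨b', hb'⟩ := P.stp_ext hN P.model hua.symm b
  have h1 : STp (L := lang D) (Sum.elim u (Sum.elim b' a')) (Sum.elim x (Sum.elim b a)) := by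
    have := hb'.symm.comp (Sum.elim (fun y => Sum.inl (Sum.inl y))
      (Sum.elim (fun y => Sum.inr y) (fun y => Sum.inl (Sum.inr y))) : Fin n ⊕ (Fin m ⊕ γ) → _)
    convert this using 1
    · funext y
      rcases y with y | y | y <;> rfl
    · funext y
      rcases y with y | y | y <;> rfl
  refine ⟨P.rk u (Sum.elim b' a'), ⟨u, _, h1, rfl⟩, ?_⟩
  have h2 : P.rk u (Sum.elim b' a') ≤ P.rk u a' := by
    have := P.rk_comp u (Sum.elim b' a') (Sum.inr : γ → Fin m ⊕ γ)
    exact this
  have h3 : P.rk u (Sum.elim b' a') ≠ P.rk u a' := by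
    intro h4
    have h5 : STp (L := lang D) (Sum.elim u b') (Sum.elim x b) := by
      have := h1.comp (Sum.map id Sum.inl)
      convert this using 1
      · funext y
        rcases y with y | y <;> rfl
      · funext y
        rcases y with y | y <;> rfl
    exact P.not_divides hN A φ b a ha u b' a' (h1.comp Sum.inr) h4 ((h5 φ).2 hφ) hd
  omega

/-- an infinite sequence of pairwise inconsistent instances contains a dividing instance -/
theorem RGeo.divides_of_seq {N : Type} [(lang D).Structure N] (hN : N ⊨ P.T) {n m : ℕ}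
    [Finite γ] (a : γ → N) (φ : (lang D).Formula (Fin n ⊕ Fin m)) (c : ℕ → Fin m → N)
    (hc : ∀ i j, i < j → ¬ ∃ x : Fin n → N, φ.Realize (Sum.elim x (c i)) ∧
      φ.Realize (Sum.elim x (c j))) : ∃ i, Divides (Set.range a) φ (c i) := by
  choose s hs using fun i => P.cov hN (Sum.elim (c i) a)
  obtain ⟨g, hg, hg2⟩ := P.toGeo.same_class s
  refine ⟨g 0, N, inferInstance, ElementaryEmbedding.refl (lang D) N, fun i => c (g i), 2, ?_, ?_⟩
  · intro i p ψ e he
    have h1 : STp (L := lang D) (Sum.elim (c (g 0)) a) (Sum.elim (c (g i)) a) :=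
      (hs (g 0)).symm.trans ((P.inv (show P.S (s (g 0)) (s (g i)) from P.symm (hg2 i))).trans
        (hs (g i)))
    have he' : ∀ k, ∃ l, a l = e k := by
      intro k
      obtain ⟨y, ⟨l, rfl⟩, h⟩ := he k
      exact ⟨l, h⟩
    choose o ho using he'
    obtain rfl : a ∘ o = e := funext ho
    have h2 := h1.comp (Sum.map id o)
    have e1 : ∀ (u : Fin m → N), Sum.elim u a ∘ (Sum.map id o) = Sum.elim u (a ∘ o) := by
      intro u
      funext y
      rcases y with y | y <;> rfl
    rw [e1, e1] at h2
    exact h2 ψ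
  · rintro σ hσ ⟨x, hx⟩
    obtain ⟨i, j, hne, rfl⟩ := Finset.card_eq_two.1 hσ
    rcases lt_or_gt_of_ne hne with h | h
    · exact hc (g i) (g j) (hg h) ⟨x, hx i (by simp), hx j (by simp)⟩
    · exact hc (g j) (g i) (hg h) ⟨x, hx j (by simp), hx i (by simp)⟩

theorem RGeo.nsop_aux {N : Type} [(lang D).Structure N] (hN : N ⊨ P.T) {n m : ℕ}
    (φ : (lang D).Formula (Fin n ⊕ Fin m)) (b : List Bool → Fin m → N)
    (hb : ∀ η ν : List Bool, (η ++ [false]) <+: ν →
        ¬ ∃ x : Fin n → N, φ.Realize (Sum.elim x (b (η ++ [true]))) ∧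
          φ.Realize (Sum.elim x (b ν))) (K : ℕ) :
    ∀ (η : List Bool) (γ : Type) [Finite γ] (a : γ → N), ∃ η' : List Bool, η <+: η' ∧
      ∀ x : Fin n → N, (∀ ν : List Bool, η.length < ν.length → ν <+: η' →
        φ.Realize (Sum.elim x (b ν))) → ∀ r, P.RkN x a r → K ≤ r := by
  induction K with
  | zero =>
    intro η γ _ a
    exact ⟨η, List.prefix_rfl, fun _ _ _ _ => Nat.zero_le _⟩
  | succ K ih =>
    intro η γ _ a
    obtain ⟨i, hi⟩ := P.divides_of_seq hN a φ
      (fun i => b ((η ++ List.replicate i false) ++ [true])) (by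
        intro i j hij
        apply hb (η ++ List.replicate i false)
        refine ⟨List.replicate (j - i - 1) false ++ [true], ?_⟩
        have h1 : List.replicate j false = List.replicate i false ++ ([false] ++
            List.replicate (j - i - 1) false) := by
          rw [show ([false] : List Bool) = List.replicate 1 false from rfl,
            List.replicate_append_replicate, List.replicate_append_replicate]
          congr 1
          omega
        rw [h1]
        simp only [List.append_assoc])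
    obtain ⟨η', h1, h2⟩ := ih ((η ++ List.replicate i false) ++ [true]) (Fin m ⊕ γ)
      (Sum.elim (b ((η ++ List.replicate i false) ++ [true])) a)
    refine ⟨η', ?_, ?_⟩
    · refine List.IsPrefix.trans ?_ h1
      rw [List.append_assoc]
      exact List.prefix_append _ _
    · intro x hx r hr
      have hlen : η.length < ((η ++ List.replicate i false) ++ [true]).length := by
        simp only [List.length_append, List.length_replicate, List.length_singleton]
        omega
      obtain ⟨r', hr', hr''⟩ := P.drop hN (Set.range a) φ _ a (fun i => ⟨i, rfl⟩) hi x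
        (hx _ hlen h1) hr
      have h3 := h2 x (fun ν hν hν' => hx ν (hlen.trans hν) hν') r' hr'
      omega

theorem RGeo.nsop1 : NSOP1 P.T := by
  rintro N _ hN n m φ ⟨b, hb1, hb2⟩
  obtain ⟨η, _, hη⟩ := P.nsop_aux hN φ b hb2 (n + 1) [] (Fin 0) (fun i => i.elim0)
  obtain ⟨x, hx⟩ := hb1 (fun i => η.getD i false) η.length
  obtain ⟨r, hr⟩ := P.rkN_ex hN x (fun i : Fin 0 => i.elim0)
  have h1 := hη x (by
    intro ν _ hν
    have h2 := hx ν.length hν.length_le
    have h3 : (List.ofFn fun j : Fin ν.length => η.getD j false) = ν := by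
      obtain ⟨ρ, rfl⟩ := hν
      apply List.ext_getElem
      · simp
      · intro i h4 h5
        rw [List.getElem_ofFn]
        simp only
        rw [List.getD_eq_getElem _ _ (by rw [List.length_append]; omega), List.getElem_append_left h5]
    rwa [h3] at h2) r hr
  have h2 := P.rkN_le hr
  omega

end

end Run7.h540
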