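import Pool.Agent.Run7.h520.FK1

/-! Kim-dividing: indiscernibility of Morley sequences, and generic tuples do not Kim-fork. -/

namespace Run7.h540

open FirstOrder FirstOrder.Language

section general

variable {L : FirstOrder.Language.{0, 0}} {M N : Type} [L.Structure M] [L.Structure N]
  {α β γ δ : Type}

theorem tpOver_comp {N' : Type} [L.Structure N'] {j : M ↪ₑ[L] N} {j' : M ↪ₑ[L] N'}
    {c : γ → N} {c' : γ → N'} (h : tpOver j c = tpOver j' c') (g : δ → γ) :
    tpOver j (c ∘ g) = tpOver j' (c' ∘ g) := by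
  ext ⟨p, ψ, e⟩
  have h1 : (⟨p, ψ.relabel (Sum.map g id), e⟩ : Σ p : ℕ, L.Formula (γ ⊕ Fin p) × (Fin p → M)) ∈
      tpOver j c ↔ (⟨p, ψ.relabel (Sum.map g id), e⟩ :
      Σ p : ℕ, L.Formula (γ ⊕ Fin p) × (Fin p → M)) ∈ tpOver j' c' := by rw [h]
  simp only [tpOver, Set.mem_ofPred_eq, Formula.realize_relabel] at h1 ⊢
  have e1 : ∀ {N : Type} (c : γ → N) (f : Fin p → N),
      Sum.elim c f ∘ Sum.map g id = Sum.elim (c ∘ g) f := by
    intro N c f
    funext y
    rcases y with y | y <;> rfl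
  rwa [e1, e1] at h1

/-- types over `M` and parameters from `M` -/
theorem tpOver_params {N' : Type} [L.Structure N'] {j : M ↪ₑ[L] N} {j' : M ↪ₑ[L] N'}
    {c : γ → N} {c' : γ → N'} (h : tpOver j c = tpOver j' c') {q : ℕ} (f : Fin q → M) :
    tpOver j (Sum.elim c (j ∘ f)) = tpOver j' (Sum.elim c' (j' ∘ f)) := by
  ext ⟨p, ψ, e⟩
  have h1 : (⟨q + p, ψ.relabel (Sum.elim (Sum.elim (fun y => Sum.inl y)
      (fun y => Sum.inr (Fin.castAdd p y))) (fun y => Sum.inr (Fin.natAdd q y))),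
      Fin.append f e⟩ : Σ p : ℕ, L.Formula (γ ⊕ Fin p) × (Fin p → M)) ∈
      tpOver j c ↔ (⟨q + p, ψ.relabel (Sum.elim (Sum.elim (fun y => Sum.inl y)
      (fun y => Sum.inr (Fin.castAdd p y))) (fun y => Sum.inr (Fin.natAdd q y))),
      Fin.append f e⟩ : Σ p : ℕ, L.Formula (γ ⊕ Fin p) × (Fin p → M)) ∈ tpOver j' c' := by
    rw [h]
  simp only [tpOver, Set.mem_ofPred_eq, Formula.realize_relabel] at h1 ⊢
  have e1 : ∀ {N : Type} (c : γ → N) (i : M → N),
      Sum.elim c (i ∘ Fin.append f e) ∘ (Sum.elim (Sum.elim (fun y => Sum.inl y)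
      (fun y => Sum.inr (Fin.castAdd p y))) (fun y => Sum.inr (Fin.natAdd q y))) =
      Sum.elim (Sum.elim c (i ∘ f)) (i ∘ e) := by
    intro N c i
    funext y
    rcases y with (y | y) | y
    · rfl
    · simp
    · simp
  rwa [e1, e1] at h1

/-- Morley sequences are indiscernible. -/
theorem Morley.indisc [Finite β] {q : InvType (L := L) M β} {j : M ↪ₑ[L] N} {b : ℕ → β → N}
    (h : q.Morley j b) {f : ℕ → ℕ} (hf : StrictMono f) (k : ℕ) :
    tpOver j (fun p : Fin k × β => b (f p.1) p.2) = tpOver j (fun p : Fin k × β => b p.1 p.2) := by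
  induction k with
  | zero =>
    congr 1
    funext p
    exact p.1.elim0
  | succ k ih =>
    ext ⟨p, ψ, e⟩
    simp only [tpOver, Set.mem_ofPred_eq]
    -- the formula with the last tuple in front
    let ρ : (Fin (k + 1) × β) ⊕ Fin p → β ⊕ ((Fin k × β) ⊕ Fin p) :=
      Sum.elim (fun y => Fin.lastCases (motive := fun _ => β ⊕ ((Fin k × β) ⊕ Fin p))
        (Sum.inl y.2) (fun i => Sum.inr (Sum.inl (i, y.2))) y.1)
        (fun y => Sum.inr (Sum.inr y))
    have key : ∀ (g : ℕ → ℕ), Sum.elim (fun p : Fin (k + 1) × β => b (g p.1) p.2) (j ∘ e) =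
        Sum.elim (b (g k)) (Sum.elim (fun p : Fin k × β => b (g p.1) p.2) (j ∘ e)) ∘ ρ := by
      intro g
      funext y
      rcases y with ⟨y, z⟩ | y
      · refine Fin.lastCases ?_ (fun i => ?_) y
        · simp [ρ]
        · simp [ρ]
      · rfl
    have h1 := h (f k) ((Fin k × β) ⊕ Fin p) (ψ.relabel ρ)
      (Sum.elim (fun p : Fin k × β => b (f p.1) p.2) (j ∘ e)) (by
        rintro (⟨i, y⟩ | y)
        · exact Or.inr ⟨f i, hf i.2, ⟨y, rfl⟩⟩
        · exact Or.inl ⟨e y, rfl⟩)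
    have h2 := h k ((Fin k × β) ⊕ Fin p) (ψ.relabel ρ)
      (Sum.elim (fun p : Fin k × β => b p.1 p.2) (j ∘ e)) (by
        rintro (⟨i, y⟩ | y)
        · exact Or.inr ⟨i, i.2, ⟨y, rfl⟩⟩
        · exact Or.inl ⟨e y, rfl⟩)
    rw [Formula.realize_relabel] at h1 h2
    have k1 := key f
    have k2 := key id
    simp only [id] at k2
    rw [k1, k2, h1, h2, tpOver_params ih]

end general

section

variable {D : Type} (P : Geo D) {α β γ : Type}

theorem Geo.not_kimdivides [Finite β] {M N : Type} [(lang D).Structure M] [(lang D).Structure N]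
    (hM : M ⊨ P.T) (j : M ↪ₑ[lang D] N) {n : ℕ}
    (φ : (lang D).Formula (Fin n ⊕ β)) (b : β → N) (u : Fin n → P.Car)
    (b' : β → P.Car) (hb : STp (L := lang D) b' b) (hu : P.Gen u b')
    (hφ : φ.Realize (Sum.elim u b')) : ¬ KimDivides j φ b := by
  rintro ⟨q, hq, N', _, j', c, hc, k, hk⟩
  have hN' := P.model_of_emb hM j'
  -- all members of the sequence have the type of `b`
  have hc1 : ∀ i, STp (L := lang D) b' (c i) := by
    intro i ψ
    have h1 := hc i (Fin 0) (ψ.relabel (Sum.inl : β → β ⊕ Fin 0)) (j' ∘ (fun x : Fin 0 => x.elim0))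
      (fun r => r.elim0)
    have h2 := hq 0 (ψ.relabel (Sum.inl : β → β ⊕ Fin 0)) (fun x : Fin 0 => x.elim0)
    have h3 : tpOver j (j ∘ (fun x : Fin 0 => x.elim0)) =
        tpOver j' (j' ∘ (fun x : Fin 0 => x.elim0)) := by
      ext ⟨p, χ, e⟩
      simp only [tpOver, Set.mem_ofPred_eq]
      rw [← Sum.comp_elim, ← Sum.comp_elim, j.map_formula, j'.map_formula]
    rw [Formula.realize_relabel, Sum.elim_comp_inl] at h1 h2
    rw [hb ψ, h2, h3, ← h1]
  obtain ⟨c', hc'⟩ := P.seq_transfer hN' c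
  have hc'1 : ∀ i, STp (L := lang D) (c' i) (c i) := by
    intro i
    exact (hc' (i + 1)).comp (fun x => ((⟨i, Nat.lt_succ_self i⟩ : Fin (i + 1)), x))
  have hc'2 : ∀ i, P.Sim (c' i) b' := fun i =>
    (P.sim_iff _ _).2 ((hc'1 i).trans (hc1 i).symm)
  obtain ⟨u0, hu0⟩ : ∃ u0 : Fin n → P.Car, P.Sim (Sum.elim u b') (Sum.elim u0 (c' 0)) :=
    P.forth' (P.symm (hc'2 0)) u
  obtain ⟨s, hs, u', hu'⟩ : ∃ s : Finset ℕ, s.card = k ∧ ∃ u' : Fin n → P.Car,
      ∀ i ∈ s, P.Sim (Sum.elim u' (c' i)) (Sum.elim u0 (c' 0)) :=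
    P.gen_seq c' (fun i => P.trans (hc'2 i) (P.symm (hc'2 0))) u0 (P.gen_inv hu0 hu) k
  obtain ⟨x, hx⟩ := P.stp_ext P.model hN' (hc' (s.sup id + 1)) u'
  have hxs : ∀ i ∈ s, φ.Realize (Sum.elim x (c i)) := by
    intro i hi
    have hi' : i < s.sup id + 1 := Nat.lt_succ_of_le (Finset.le_sup (f := id) hi)
    have h1 := hx.comp (Sum.elim (fun a => Sum.inr a) (fun y => Sum.inl
      ((⟨i, hi'⟩ : Fin (s.sup id + 1)), y)) : Fin n ⊕ β → _)
    have e1 : Sum.elim (fun p : Fin (s.sup id + 1) × β => c' p.1 p.2) u' ∘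
        (Sum.elim (fun a => Sum.inr a) (fun y => Sum.inl
        ((⟨i, hi'⟩ : Fin (s.sup id + 1)), y)) : Fin n ⊕ β → _) = Sum.elim u' (c' i) := by
      funext y
      rcases y with y | y <;> rfl
    have e2 : Sum.elim (fun p : Fin (s.sup id + 1) × β => c p.1 p.2) x ∘
        (Sum.elim (fun a => Sum.inr a) (fun y => Sum.inl
        ((⟨i, hi'⟩ : Fin (s.sup id + 1)), y)) : Fin n ⊕ β → _) = Sum.elim x (c i) := by
      funext y
      rcases y with y | y <;> rfl
    rw [e1, e2] at h1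
    have h2 : P.S (Sum.elim u' (c' i)) (Sum.elim u b') := P.trans (hu' i hi) (P.symm hu0)
    exact (h1 φ).1 ((P.inv h2 φ).2 hφ)
  -- an increasing enumeration of `s`, continued to infinity
  let f : ℕ → ℕ := fun i => if h : i < k then s.orderEmbOfFin hs ⟨i, h⟩ else s.sup id + 1 + i
  have hf : StrictMono f := by
    intro i i' hii
    by_cases h' : i' < k
    · have h : i < k := hii.trans h'
      simp only [f, h, h', dif_pos]
      exact (s.orderEmbOfFin hs).strictMono hii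
    · by_cases h : i < k
      · simp only [f, h, h', dif_pos, dif_neg, not_false_eq_true]
        have h1 : s.orderEmbOfFin hs ⟨i, h⟩ ∈ s := s.orderEmbOfFin_mem hs _
        have h2 := Finset.le_sup (f := id) h1
        simp only [id] at h2
        omega
      · simp only [f, h, h', dif_neg, not_false_eq_true]
        omega
  have h3 := Morley.indisc hc hf k
  -- the formula saying that there is a common solution
  let Φ : (lang D).Formula ((Fin k × β) ⊕ Fin n) := Formula.iInf (fun i : Fin k =>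
    φ.relabel (Sum.elim (fun y => Sum.inr y) (fun y => Sum.inl (i, y))))
  have hΦ : ∀ (y : Fin k × β → N') (x : Fin n → N'), Φ.Realize (Sum.elim y x) ↔
      ∀ i : Fin k, φ.Realize (Sum.elim x (fun z => y (i, z))) := by
    intro y x
    rw [Formula.realize_iInf]
    refine forall_congr' fun i => ?_
    rw [Formula.realize_relabel]
    have e1 : Sum.elim y x ∘ (Sum.elim (fun y => Sum.inr y) (fun y => Sum.inl (i, y))) =
        Sum.elim x (fun z => y (i, z)) := by
      funext z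
      rcases z with z | z <;> rfl
    rw [e1]
  have h4 : (⟨0, (Φ.iExs (Fin n)).relabel (Sum.inl : Fin k × β → (Fin k × β) ⊕ Fin 0),
      fun i => i.elim0⟩ : Σ p : ℕ, (lang D).Formula ((Fin k × β) ⊕ Fin p) × (Fin p → M)) ∈
      tpOver j' (fun p : Fin k × β => c (f p.1) p.2) := by
    simp only [tpOver, Set.mem_ofPred_eq, Formula.realize_relabel, Sum.elim_comp_inl,
      Formula.realize_iExs]
    refine ⟨x, ?_⟩
    rw [hΦ]
    intro i
    have h5 : f i = s.orderEmbOfFin hs i := by simp [f, i.2]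
    have h6 : f i ∈ s := by
      rw [h5]
      exact s.orderEmbOfFin_mem hs _
    exact hxs _ h6
  rw [h3] at h4
  simp only [tpOver, Set.mem_ofPred_eq, Formula.realize_relabel, Sum.elim_comp_inl,
    Formula.realize_iExs] at h4
  obtain ⟨x', hx'⟩ := h4
  rw [hΦ] at hx'
  exact hk ⟨x', fun i hi => hx' ⟨i, hi⟩⟩

theorem Geo.not_kimforks [Finite β] {M N : Type} [(lang D).Structure M] [(lang D).Structure N]
    (hM : M ⊨ P.T) (j : M ↪ₑ[lang D] N) {n : ℕ}
    (φ : (lang D).Formula (Fin n ⊕ β)) (b : β → N) (u : Fin n → P.Car)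
    (b' : β → P.Car) (hb : STp (L := lang D) b' b) (hu : P.Gen u b')
    (hφ : φ.Realize (Sum.elim u b')) : ¬ KimForks j φ b := by
  rintro ⟨N', _, j1, r, l, ψ, c, hcov, hdiv⟩
  have hN' := P.model_of_emb (P.model_of_emb hM j) j1
  let cc : (Σ i : Fin r, Fin (l i)) → N' := fun p => c p.1 p.2
  obtain ⟨bc, hbc⟩ := P.cov hN' (Sum.elim (j1 ∘ b) cc)
  obtain ⟨b1, c1, rfl⟩ : ∃ (b1 : β → P.Car) (c1 : (Σ i : Fin r, Fin (l i)) → P.Car),
      bc = Sum.elim b1 c1 := ⟨bc ∘ Sum.inl, bc ∘ Sum.inr, (Sum.elim_comp_inl_inr bc).symm⟩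
  have hb1 : STp (L := lang D) b1 (j1 ∘ b) := hbc.comp Sum.inl
  have hb1' : P.Sim b' b1 := (P.sim_iff _ _).2 ((hb.trans (STp.map j1 b)).trans hb1.symm)
  obtain ⟨u1, hu1⟩ : ∃ u1 : Fin n → P.Car, P.Sim (Sum.elim u b') (Sum.elim u1 b1) :=
    P.forth' hb1' u
  obtain ⟨u2, hu2, hu2'⟩ : ∃ u2 : Fin n → P.Car, P.Gen u2 (Sum.elim b1 c1) ∧
      P.Sim (Sum.elim u2 b1) (Sum.elim u1 b1) := P.ext (P.gen_inv hu1 hu) c1
  obtain ⟨x, hx⟩ := P.stp_ext P.model hN' hbc u2
  have h3 : P.S (Sum.elim u2 b1) (Sum.elim u b') := P.trans hu2' (P.symm hu1)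
  have h4 : STp (L := lang D) (Sum.elim u2 b1) (Sum.elim x (j1 ∘ b)) := by
    have := hx.comp (Sum.elim (fun a => Sum.inr a) (fun y => Sum.inl (Sum.inl y)) :
      Fin n ⊕ β → _)
    convert this using 1
    · funext y
      rcases y with y | y <;> rfl
    · funext y
      rcases y with y | y <;> rfl
  obtain ⟨i, hi⟩ := hcov x ((h4 φ).1 ((P.inv h3 φ).2 hφ))
  have h5 : STp (L := lang D) (Sum.elim u2 (fun y => c1 ⟨i, y⟩)) (Sum.elim x (c i)) := by
    have := hx.comp (Sum.elim (fun a => Sum.inr a) (fun y => Sum.inl (Sum.inr ⟨i, y⟩)) :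
      Fin n ⊕ Fin (l i) → _)
    convert this using 1
    · funext y
      rcases y with y | y <;> rfl
    · funext y
      rcases y with y | y <;> rfl
  have h6 : P.Gen u2 (fun y : Fin (l i) => c1 ⟨i, y⟩) :=
    P.gen_comp (fun y : Fin (l i) => (Sum.inr ⟨i, y⟩ : β ⊕ (Σ i : Fin r, Fin (l i)))) hu2
  exact P.not_kimdivides hM (j1.comp j) (ψ i) (c i) u2 (fun y => c1 ⟨i, y⟩) (h5.comp Sum.inr) h6
    ((h5 (ψ i)).2 hi) (hdiv i)

end

end Run7.h540
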