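import Pool.Agent.Run7.h520.FK2

/-! The free invariant types and their Morley sequences. -/

namespace Run7.h540

open FirstOrder FirstOrder.Language Filter

section

variable {D : Type} (P : FGeo D) {α β γ : Type}

/-- freeness on the carrier -/
def FGeo.F {α β : Type} (s : α → P.Car) (t : β → P.Car) : Prop := P.Free s t

variable {P} in
theorem FGeo.F.right {α β γ : Type} [Finite α] [Finite β] [Finite γ] {s : α → P.Car}
    {t : β → P.Car} (h : P.F s t) (g : γ → β) : P.F s (t ∘ g) := P.free_comp id g h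

variable {P} in
theorem FGeo.F.left {α β γ : Type} [Finite α] [Finite β] [Finite γ] {s : α → P.Car}
    {t : β → P.Car} (h : P.F s t) (g : γ → α) : P.F (s ∘ g) t := P.free_comp g id h

/-- the type of the tuple over the empty set, read off from a type over `M` -/
def emptyTp {L : FirstOrder.Language.{0, 0}} {M : Type} {γ : Type}
    (r : Set (Σ p : ℕ, L.Formula (γ ⊕ Fin p) × (Fin p → M))) (ψ : L.Formula γ) : Prop :=
  (⟨0, ψ.relabel Sum.inl, fun i => i.elim0⟩ : Σ p : ℕ, L.Formula (γ ⊕ Fin p) × (Fin p → M)) ∈ r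

theorem emptyTp_iff {L : FirstOrder.Language.{0, 0}} {M N : Type} [L.Structure M] [L.Structure N]
    (j : M ↪ₑ[L] N) (c : γ → N) (ψ : L.Formula γ) : emptyTp (tpOver j c) ψ ↔ ψ.Realize c := by
  simp only [emptyTp, tpOver, Set.mem_ofPred_eq, Formula.realize_relabel, Sum.elim_comp_inl]

/-- membership in the free extension of the type of `v` -/
def FGeo.fmem (v : β → P.Car) {M : Type} {γ : Type} (φ : (lang D).Formula (β ⊕ γ))
    (r : Set (Σ p : ℕ, (lang D).Formula (γ ⊕ Fin p) × (Fin p → M))) : Prop :=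
  ∃ (s : β → P.Car) (c : γ → P.Car), P.S s v ∧ P.F s c ∧ (∀ ψ, emptyTp r ψ ↔ ψ.Realize c) ∧
    φ.Realize (Sum.elim s c)

theorem FGeo.fmem_iff [Finite β] [Finite γ] {M N : Type} [(lang D).Structure M]
    [(lang D).Structure N] (j : M ↪ₑ[lang D] N) {v : β → P.Car}
    (φ : (lang D).Formula (β ⊕ γ)) {s : β → P.Car} {c' : γ → P.Car} {c : γ → N}
    (hs : P.S s v) (hf : P.F s c') (hc : STp (L := lang D) c' c) :
    P.fmem v φ (tpOver j c) ↔ φ.Realize (Sum.elim s c') := by
  constructor
  · rintro ⟨s1, c1, h1, h2, h3, h4⟩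
    have h5 : STp (L := lang D) c1 c' := fun ψ => by
      rw [← h3 ψ, emptyTp_iff, hc ψ]
    have h6 : P.S (Sum.elim s1 c1) (Sum.elim s c') :=
      P.free_uniq h2 hf (P.trans h1 (P.symm hs)) ((P.sim_iff _ _).2 h5)
    exact (P.inv h6 φ).1 h4
  · intro h
    exact ⟨s, c', hs, hf, fun ψ => by rw [emptyTp_iff, hc ψ], h⟩

theorem FGeo.free_copy [Finite β] [Finite γ] {N : Type} [(lang D).Structure N] (hN : N ⊨ P.T)
    (v : β → P.Car) (c : γ → N) : ∃ (s : β → P.Car) (c' : γ → P.Car), P.S s v ∧ P.F s c' ∧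
      STp (L := lang D) c' c := by
  obtain ⟨c', hc'⟩ := P.cov hN c
  obtain ⟨s, h1, h2⟩ := P.free_ext v c'
  exact ⟨s, c', h1, h2, hc'⟩

/-- the global free extension of the type of `v` -/
def FGeo.q [Finite β] (v : β → P.Car) {M : Type} [(lang D).Structure M] (hM : M ⊨ P.T) :
    InvType (L := lang D) M β where
  mem := fun φ r => P.fmem v φ r
  complete := by
    intro N _ j γ _ φ c
    obtain ⟨s, c', h1, h2, h3⟩ := P.free_copy (P.model_of_emb hM j) v c
    rw [P.fmem_iff j φ.not h1 h2 h3, P.fmem_iff j φ h1 h2 h3, Formula.realize_not]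
  consistent := by
    intro N _ j l γ _ φ c hall
    have hN := P.model_of_emb hM j
    let cc : (Σ i : Fin l, γ i) → N := fun p => c p.1 p.2
    obtain ⟨s, c', h1, h2, h3⟩ := P.free_copy hN v cc
    obtain ⟨y, hy⟩ := P.stp_ext P.model hN h3 s
    refine ⟨y, fun i => ?_⟩
    have h4 : P.F s (c' ∘ fun z : γ i => (⟨i, z⟩ : Σ i : Fin l, γ i)) := h2.right _
    have h5 : STp (L := lang D) (c' ∘ fun z : γ i => (⟨i, z⟩ : Σ i : Fin l, γ i)) (c i) :=
      h3.comp _
    have h6 := (P.fmem_iff j (φ i) h1 h4 h5).1 (hall i)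
    have h7 := hy.comp (Sum.elim (fun z => Sum.inr z)
      (fun z => Sum.inl (⟨i, z⟩ : Σ i : Fin l, γ i)) : β ⊕ γ i → _)
    have e1 : Sum.elim c' s ∘ (Sum.elim (fun z => Sum.inr z)
        (fun z => Sum.inl (⟨i, z⟩ : Σ i : Fin l, γ i)) : β ⊕ γ i → _) =
        Sum.elim s (c' ∘ fun z : γ i => (⟨i, z⟩ : Σ i : Fin l, γ i)) := by
      funext z
      rcases z with z | z <;> rfl
    have e2 : Sum.elim cc y ∘ (Sum.elim (fun z => Sum.inr z)
        (fun z => Sum.inl (⟨i, z⟩ : Σ i : Fin l, γ i)) : β ⊕ γ i → _) = Sum.elim y (c i) := by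
      funext z
      rcases z with z | z <;> rfl
    rw [e1, e2] at h7
    exact (h7 (φ i)).1 h6

/-- a sequence of free copies over a finite set -/
theorem FGeo.free_seq [Finite β] [Finite γ] (v : β → P.Car) (e : γ → P.Car) (K : ℕ) :
    ∃ s : ℕ → β → P.Car, ∀ i < K, P.S (s i) v ∧
      P.F (s i) (Sum.elim e (fun p : Fin i × β => s p.1 p.2)) := by
  induction K with
  | zero => exact ⟨fun _ => v, fun i hi => absurd hi (Nat.not_lt_zero i)⟩
  | succ K ih =>
    obtain ⟨s, hs⟩ := ih
    obtain ⟨t, h1, h2⟩ : ∃ t : β → P.Car, P.S t v ∧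
        P.F t (Sum.elim e (fun p : Fin K × β => s p.1 p.2)) := P.free_ext v _
    refine ⟨fun i => if i = K then t else s i, ?_⟩
    intro i hi
    change P.S (if i = K then t else s i) v ∧ P.F (if i = K then t else s i)
      (Sum.elim e (fun p : Fin i × β => (if (p.1 : ℕ) = K then t else s p.1) p.2))
    have e1 : ∀ i ≤ K, (Sum.elim e (fun p : Fin i × β => (if (p.1 : ℕ) = K then t else s p.1) p.2)) =
        (Sum.elim e (fun p : Fin i × β => s p.1 p.2)) := by
      intro i hi
      funext y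
      rcases y with y | y
      · rfl
      · have : (y.1 : ℕ) ≠ K := (lt_of_lt_of_le y.1.2 hi).ne
        simp [this]
    rcases Nat.lt_succ_iff_lt_or_eq.1 hi with h | h
    · rw [e1 i h.le, if_neg h.ne]
      exact hs i h
    · subst h
      rw [e1 i le_rfl, if_pos rfl]
      exact ⟨h1, h2⟩

/-- Morley sequences in the free types exist, in an ultrapower. -/
theorem FGeo.morley [Finite β] (v : β → P.Car) : ∃ (N : Type) (_ : (lang D).Structure N)
    (j : P.Car ↪ₑ[lang D] N) (b : ℕ → β → N), (P.q v P.model).Morley j b := by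
  classical
  have := P.nonempty
  let I : Type := Finset P.Car × ℕ
  let U : Ultrafilter I := Ultrafilter.of atTop
  have hU : (U : Filter I) ≤ atTop := Ultrafilter.of_le _
  choose s hs using fun p : I => P.free_seq v (fun x : p.1 => (x : P.Car)) p.2
  let b : ℕ → β → UP U P.Car := fun i y => cls U (fun p => s p i y)
  refine ⟨UP U P.Car, inferInstance, diag U, b, ?_⟩
  have hN : UP U P.Car ⊨ P.T := P.model_of_emb P.model (diag U)
  intro i γ _ φ c hc
  -- representatives of `c`
  have hc' : ∀ r, ∃ f : I → P.Car, cls U f = c r ∧ ((∃ m : P.Car, ∀ p, f p = m) ∨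
      ∃ i' < i, ∃ y, ∀ p, f p = s p i' y) := by
    intro r
    rcases hc r with ⟨m, hm⟩ | ⟨i', hi', y, hy⟩
    · exact ⟨fun _ => m, hm, Or.inl ⟨m, fun _ => rfl⟩⟩
    · exact ⟨fun p => s p i' y, hy, Or.inr ⟨i', hi', y, fun _ => rfl⟩⟩
  choose f hf1 hf2 using hc'
  obtain rfl : (fun r => cls U (f r)) = c := funext hf1
  -- the type of `c`
  obtain ⟨c0, hc0⟩ := P.cov hN (fun r => cls U (f r))
  have h1 : ∀ᶠ p : I in (U : Filter I), P.S c0 (fun r => f r p) := by
    have h2 : (P.rho c0).Realize (fun r => cls U (f r)) := (P.rho_iff c0 hN _).2 hc0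
    rw [los] at h2
    filter_upwards [h2] with p hp
    exact (P.rho_car _ _).1 hp
  -- freeness
  have h2 : ∀ᶠ p : I in (U : Filter I), i < p.2 ∧ ∀ r, ∀ m, (∀ p, f r p = m) → m ∈ p.1 := by
    have h3 : ∀ᶠ p : I in (U : Filter I), ∀ r, ∀ m, (∀ p, f r p = m) → m ∈ p.1 := by
      rw [eventually_all]
      intro r
      by_cases h : ∃ m, ∀ p, f r p = m
      · obtain ⟨m, hm⟩ := h
        apply hU
        filter_upwards [eventually_ge_atTop (({m}, 0) : I)] with p hp m' hm'
        have : m' = m := (hm' p).symm.trans (hm p)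
        rw [this]
        exact hp.1 (Finset.mem_singleton_self m)
      · exact Eventually.of_forall fun p m hm => absurd ⟨m, hm⟩ h
    have h4 : ∀ᶠ p : I in (U : Filter I), i < p.2 := by
      apply hU
      filter_upwards [eventually_ge_atTop ((∅, i + 1) : I)] with p hp
      exact hp.2
    exact h4.and h3
  have h3 : ∀ᶠ p : I in (U : Filter I), P.S (s p i) v ∧ P.F (s p i) (fun r => f r p) := by
    filter_upwards [h2] with p hp
    obtain ⟨h4, h5⟩ := hs p i hp.1
    refine ⟨h4, ?_⟩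
    have h6 : ∀ r, ∃ z : p.1 ⊕ (Fin i × β), (Sum.elim (fun x : p.1 => (x : P.Car))
        (fun q : Fin i × β => s p q.1 q.2)) z = f r p := by
      intro r
      rcases hf2 r with ⟨m, hm⟩ | ⟨i', hi', y, hy⟩
      · exact ⟨Sum.inl ⟨m, hp.2 r m hm⟩, (hm p).symm⟩
      · exact ⟨Sum.inr (⟨i', hi'⟩, y), (hy p).symm⟩
    choose z hz using h6
    have h7 := h5.right z
    have e1 : (Sum.elim (fun x : p.1 => (x : P.Car))
        (fun q : Fin i × β => s p q.1 q.2)) ∘ z = fun r => f r p := funext hz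
    rw [e1] at h7
    exact h7
  have e1 : Sum.elim (b i) (fun r => cls U (f r)) =
      fun z => cls U ((Sum.elim (fun y p => s p i y) f : β ⊕ γ → I → P.Car) z) := by
    funext z
    rcases z with z | z <;> rfl
  rw [e1, los]
  have h4 : ∀ᶠ p : I in (U : Filter I),
      (φ.Realize (fun z => (Sum.elim (fun y p => s p i y) f : β ⊕ γ → I → P.Car) z p) ↔
        (P.q v P.model).mem φ (tpOver (diag (L := lang D) U) (fun r => cls U (f r)))) := by
    filter_upwards [h1, h3] with p hp1 hp3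
    have e2 : (fun z => (Sum.elim (fun y p => s p i y) f : β ⊕ γ → I → P.Car) z p) =
        Sum.elim (s p i) (fun r => f r p) := by
      funext z
      rcases z with z | z <;> rfl
    rw [e2]
    exact (P.fmem_iff (diag U) φ hp3.1 hp3.2 ((P.inv hp1.symm).trans hc0)).symm
  rw [eventually_congr h4, eventually_const]

end

end Run7.h540
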