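import Pool.Agent.Run7.h520.FK3

/-! Stable Kim-forking fails. -/

namespace Run7.h540

open FirstOrder FirstOrder.Language Filter

section general

variable {L : FirstOrder.Language.{0, 0}} {M : Type} [L.Structure M]

/-- finite ladders with fixed parameters give an infinite ladder -/
theorem not_stableOver [Nonempty M] {n m p : ℕ} (φ : L.Formula (Fin n ⊕ (Fin m ⊕ Fin p)))
    (e : Fin p → M)
    (h : ∀ K : ℕ, ∃ (a : Fin K → Fin n → M) (b : Fin K → Fin m → M),
      ∀ i j, φ.Realize (Sum.elim (a i) (Sum.elim (b j) e)) ↔ i < j) :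
    ¬ StableOver φ e := by
  classical
  intro hst
  choose a b hab using h
  obtain ⟨z⟩ := ‹Nonempty M›
  let U : Ultrafilter ℕ := Ultrafilter.of atTop
  have hU : (U : Filter ℕ) ≤ atTop := Ultrafilter.of_le _
  let A : ℕ → Fin n → ℕ → M := fun i r K => if hi : i < K then a K ⟨i, hi⟩ r else z
  let B : ℕ → Fin m → ℕ → M := fun i r K => if hi : i < K then b K ⟨i, hi⟩ r else z
  refine hst (UP U M) (diag U) ⟨fun i r => cls U (A i r), fun i r => cls U (B i r), ?_⟩
  intro i j
  have e1 : Sum.elim (fun r => cls U (A i r)) (Sum.elim (fun r => cls U (B j r))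
      (diag (L := L) U ∘ e)) =
      fun s => cls U ((Sum.elim (A i) (Sum.elim (B j) (fun r _ => e r)) :
        (Fin n ⊕ (Fin m ⊕ Fin p)) → ℕ → M) s) := by
    funext s
    rcases s with s | s | s <;> rfl
  change φ.Realize (Sum.elim (fun r => cls U (A i r)) (Sum.elim (fun r => cls U (B j r))
      (diag (L := L) U ∘ e))) ↔ _
  rw [e1, los]
  have hev : ∀ᶠ K : ℕ in (U : Filter ℕ), (φ.Realize
      (fun s => (Sum.elim (A i) (Sum.elim (B j) (fun r _ => e r)) :
        (Fin n ⊕ (Fin m ⊕ Fin p)) → ℕ → M) s K) ↔ i < j) := by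
    apply hU
    filter_upwards [eventually_gt_atTop i, eventually_gt_atTop j] with K hi hj
    have e : (fun s => (Sum.elim (A i) (Sum.elim (B j) (fun r _ => e r)) :
        (Fin n ⊕ (Fin m ⊕ Fin p)) → ℕ → M) s K) =
        Sum.elim (a K ⟨i, hi⟩) (Sum.elim (b K ⟨j, hj⟩) e) := by
      funext s
      rcases s with s | s | s
      · simp [A, hi]
      · simp [B, hj]
      · rfl
    rw [e, hab]
    exact Iff.rfl
  rw [eventually_congr hev, eventually_const]

end general

section

variable {D : Type} (P : FGeo D) {α β γ : Type}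

/-- the rank on the carrier -/
def FGeo.R (u : α → P.Car) (t : β → P.Car) : ℕ := P.rk u t

theorem FGeo.R_inv [Finite α] [Finite β] {u u' : α → P.Car} {t t' : β → P.Car}
    (h : P.S (Sum.elim u t) (Sum.elim u' t')) : P.R u t = P.R u' t' := P.rk_inv h

theorem FGeo.R_comp [Finite α] [Finite β] [Finite γ] (u : α → P.Car) (t : β → P.Car)
    (g : γ → β) : P.R u t ≤ P.R u (t ∘ g) := P.rk_comp u t g

theorem FGeo.R_add [Finite α] [Finite β] [Finite γ] (u : α → P.Car) (v : β → P.Car)
    (t : γ → P.Car) : P.R (Sum.elim u v) t = P.R v t + P.R u (Sum.elim v t) := P.rk_add u v t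

theorem FGeo.R_swap [Finite α] [Finite β] [Finite γ] (u : α → P.Car) (v : β → P.Car)
    (t : γ → P.Car) : P.R (Sum.elim u v) t = P.R (Sum.elim v u) t := by
  have h := P.rk_equiv (Equiv.sumComm α β) (Equiv.refl γ) (Sum.elim v u) t
  have e1 : (Sum.elim v u : β ⊕ α → P.Car) ∘ (Equiv.sumComm α β) = Sum.elim u v := by
    funext y
    rcases y with y | y <;> rfl
  have h2 : P.R ((Sum.elim v u : β ⊕ α → P.Car) ∘ (Equiv.sumComm α β)) (t ∘ (Equiv.refl γ)) =
      P.R (Sum.elim v u) t := h
  rw [e1] at h2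
  exact h2

theorem FGeo.R_empty [Finite α] [Finite β] (u : α → P.Car) (t : β → P.Car) (e : Fin 0 → P.Car) :
    P.R u (Sum.elim t e) = P.R u t := by
  apply le_antisymm
  · exact P.R_comp u (Sum.elim t e) (Sum.inl : β → β ⊕ Fin 0)
  · have h := P.R_comp u t (Sum.elim id (fun i => i.elim0) : β ⊕ Fin 0 → β)
    have e1 : t ∘ (Sum.elim id (fun i => i.elim0) : β ⊕ Fin 0 → β) = Sum.elim t e := by
      funext y
      rcases y with y | y
      · rfl
      · exact y.elim0
    rwa [e1] at h

/-- the crucial drop of rank along an independent sequence -/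
theorem FGeo.rank_drop [Finite α] [Finite β] (x : α → P.Car) (c : ℕ → β → P.Car) (K r : ℕ)
    (h1 : ∀ i < K, P.R x (c i) + 1 ≤ P.R x (fun i : Fin 0 => i.elim0))
    (h2 : ∀ i < K, P.R (c i) (fun p : Fin i × β => c p.1 p.2) =
      P.R (c i) (fun i : Fin 0 => i.elim0)) :
    ∀ k ≤ K, P.R x (fun p : Fin k × β => c p.1 p.2) + k ≤ P.R x (fun i : Fin 0 => i.elim0) := by
  intro k
  induction k with
  | zero =>
    intro _
    have h := P.R_comp x (fun p : Fin 0 × β => c p.1 p.2) (fun i : Fin 0 => i.elim0)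
    have e : (fun p : Fin 0 × β => c p.1 p.2) ∘ (fun i : Fin 0 => i.elim0) =
        (fun i : Fin 0 => i.elim0) := by
      funext i
      exact i.elim0
    rw [e] at h
    exact h
  | succ k ih =>
    intro hk
    have ih := ih (Nat.le_of_succ_le hk)
    have hk' : k < K := hk
    set t : Fin k × β → P.Car := fun p => c p.1 p.2 with ht
    set e0 : Fin 0 → P.Car := fun i => i.elim0 with he0
    have a1 : P.R x (fun p : Fin (k + 1) × β => c p.1 p.2) ≤ P.R x (Sum.elim (c k) t) := by
      have h := P.R_comp x (fun p : Fin (k + 1) × β => c p.1 p.2)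
        (Sum.elim (fun y => (Fin.last k, y)) (fun p => (p.1.castSucc, p.2)) :
          β ⊕ (Fin k × β) → Fin (k + 1) × β)
      have e : (fun p : Fin (k + 1) × β => c p.1 p.2) ∘
          (Sum.elim (fun y => (Fin.last k, y)) (fun p => (p.1.castSucc, p.2)) :
          β ⊕ (Fin k × β) → Fin (k + 1) × β) = Sum.elim (c k) t := by
        funext y
        rcases y with y | y <;> rfl
      rwa [e] at h
    have a2 := P.R_add x (c k) t
    have a3 := P.R_add (c k) x t
    have a4 := P.R_swap x (c k) t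
    have a5 : P.R (c k) (Sum.elim x t) ≤ P.R (c k) x :=
      P.R_comp (c k) (Sum.elim x t) Sum.inl
    have a6 := P.R_add x (c k) e0
    have a7 := P.R_add (c k) x e0
    have a8 := P.R_swap x (c k) e0
    rw [P.R_empty] at a6 a7
    have a9 : P.R x (c k) + 1 ≤ P.R x e0 := h1 k hk'
    have a10 : P.R (c k) t = P.R (c k) e0 := h2 k hk'
    omega

end

section

variable {D : Type} (P : FGeo D)

theorem FGeo.kim_fails : ¬ StableKimForking P.T := by
  classical
  intro hSK
  have hne := P.nonempty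
  obtain ⟨pu, hpu⟩ : ∃ pu : Fin 101 → P.Car, pu = P.pu := ⟨_, rfl⟩
  obtain ⟨pv, hpv⟩ : ∃ pv : Fin 101 → P.Car, pv = P.pv := ⟨_, rfl⟩
  obtain ⟨qu, hqu⟩ : ∃ qu : Fin 101 → P.Car, qu = P.qu := ⟨_, rfl⟩
  obtain ⟨qv, hqv⟩ : ∃ qv : Fin 101 → P.Car, qv = P.qv := ⟨_, rfl⟩
  have hgen : P.Gen qu qv := by rw [hqu, hqv]; exact P.gen_q
  have hladder : ∀ m : ℕ, ∃ u v : Fin m → Fin 101 → P.Car, ∀ i j : Fin m,
      (i < j → P.S (Sum.elim (u i) (v j)) (Sum.elim pu pv)) ∧
      (j ≤ i → P.S (Sum.elim (u i) (v j)) (Sum.elim qu qv)) := by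
    rw [hpu, hpv, hqu, hqv]
    exact P.ladder
  have hdiv : ∀ m : ℕ, ∃ v : Fin m → Fin 101 → P.Car, (∀ i, P.S (v i) pv) ∧
      ∀ s : Finset (Fin m), s.card = 102 →
      ¬ ∃ u : Fin 101 → P.Car, ∀ i ∈ s, P.S (Sum.elim u (v i)) (Sum.elim pu pv) := by
    rw [hpu, hpv]
    exact P.div
  have hqp : P.S qv pv ∧ P.S qu pu := by
    obtain ⟨u, v, huv⟩ := hladder 2
    have h1 := ((huv 0 1).1 (by decide)).comp Sum.inr
    have h2 := ((huv 1 1).2 le_rfl).comp Sum.inr
    have h3 := ((huv 0 1).1 (by decide)).comp Sum.inl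
    have h4 := ((huv 0 0).2 le_rfl).comp Sum.inl
    exact ⟨h2.symm.trans h1, h4.symm.trans h3⟩
  set e0 : Fin 0 → P.Car := fun i => i.elim0 with he0
  -- ranks
  have hRq : P.R qu qv = 101 := by
    have := (P.gen_rk qu qv).1 hgen
    rw [Nat.card_fin] at this
    exact this
  have hRle : ∀ (x : Fin 101 → P.Car) {β : Type} [Finite β] (t : β → P.Car), P.R x t ≤ 101 := by
    intro x β _ t
    have := P.rk_le x t
    rw [Nat.card_fin] at this
    exact this
  have hRqu : P.R qu e0 = 101 := by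
    have h1 := P.R_comp qu qv (fun i : Fin 0 => i.elim0)
    have e : qv ∘ (fun i : Fin 0 => i.elim0) = e0 := by
      funext i
      exact i.elim0
    rw [e] at h1
    have := hRle qu e0
    omega
  have hSe0 : ∀ {α : Type} [Finite α] {x y : α → P.Car}, P.S x y → P.R x e0 = P.R y e0 := by
    intro α _ x y h
    apply P.R_inv
    have h1 := h.comp (Sum.elim id (fun i => i.elim0) : α ⊕ Fin 0 → α)
    have e : ∀ x : α → P.Car, x ∘ (Sum.elim id (fun i => i.elim0) : α ⊕ Fin 0 → α) =
        Sum.elim x e0 := by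
      intro x
      funext y
      rcases y with y | y
      · rfl
      · exact y.elim0
    rwa [e, e] at h1
  have hRpu : P.R pu e0 = 101 := by rw [← hSe0 hqp.2, hRqu]
  -- dividing over the empty set
  have hD : Divides ∅ (P.rho (Sum.elim pu pv)) pv := by
    apply div_crit ∅ _ pv 102
    intro p a ha M
    obtain ⟨v, hv1, hv2⟩ := hdiv M
    refine ⟨v, ?_, ?_⟩
    · intro i
      have hp : IsEmpty (Fin p) := ⟨fun i => ha i⟩
      have h1 := (P.inv (hv1 i)).comp (Sum.elim id (fun i => (hp.false i).elim) :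
        Fin 101 ⊕ Fin p → Fin 101)
      convert h1 using 1
      · funext y
        rcases y with y | y
        · rfl
        · exact (hp.false y).elim
      · funext y
        rcases y with y | y
        · rfl
        · exact (hp.false y).elim
    · rintro s hs ⟨x, hx⟩
      exact hv2 s hs ⟨x, fun i hi => ((P.rho_car _ _).1 (hx i hi)).symm⟩
  have hRp : P.R pu pv + 1 ≤ 101 := by
    have h1 := hRle pu pv
    have h2 : P.R pu pv ≠ 101 := by
      intro h3
      have h4 : P.Gen pu pv := (P.gen_rk pu pv).2 (by rw [Nat.card_fin]; exact h3)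
      exact P.toGeo.not_divides P.model ∅ _ pv pu pv (STp.rfl' _) h4
        ((P.rho_car _ _).2 (Geo.S.rfl' P.toGeo _)) hD
    omega
  -- the free realisation of the pair over the model
  obtain ⟨N, _, j, bb, hbb⟩ := P.morley (Sum.elim pu pv)
  obtain ⟨u, v, huv⟩ : ∃ u v : Fin 101 → N, bb 0 = Sum.elim u v :=
    ⟨bb 0 ∘ Sum.inl, bb 0 ∘ Sum.inr, (Sum.elim_comp_inl_inr _).symm⟩
  have hw : ∀ {γ : Type} [Finite γ] (e : γ → P.Car) (s : Fin 101 ⊕ Fin 101 → P.Car),
      P.S s (Sum.elim pu pv) → P.F s e →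
      STp (L := lang D) (Sum.elim s e) (Sum.elim (Sum.elim u v) (j ∘ e)) := by
    intro γ _ e s h1 h2 φ
    have h3 := hbb 0 γ φ (j ∘ e) (fun r => Or.inl ⟨e r, rfl⟩)
    rw [huv] at h3
    have h4 := P.fmem_iff j φ h1 h2 (STp.map j e)
    exact (h3.trans h4).symm
  -- the type forks
  have hKD : KimDivides j (P.rho (Sum.elim pu pv)) v := by
    refine ⟨P.q pv P.model, ?_, ?_⟩
    · intro p ψ e
      obtain ⟨s, h1, h2⟩ : ∃ s, P.S s (Sum.elim pu pv) ∧ P.F s e := P.free_ext _ e
      have h3 : P.S (s ∘ Sum.inr) pv := h1.comp Sum.inr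
      have h4 := P.fmem_iff j ψ h3 (h2.left Sum.inr) (STp.map j e)
      have h5 := (hw e s h1 h2).comp (Sum.map Sum.inr id)
      have e1 : Sum.elim s e ∘ (Sum.map Sum.inr id) = Sum.elim (s ∘ Sum.inr) e := by
        funext y
        rcases y with y | y <;> rfl
      have e2 : Sum.elim (Sum.elim u v) (j ∘ e) ∘ (Sum.map Sum.inr id) =
          Sum.elim v (j ∘ e) := by
        funext y
        rcases y with y | y <;> rfl
      rw [e1, e2] at h5
      exact (h5 ψ).symm.trans h4.symm
    · obtain ⟨N', _, j', c, hc⟩ := P.morley pv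
      refine ⟨N', inferInstance, j', c, hc, 102, ?_⟩
      rintro ⟨x, hx⟩
      have hN' := P.model_of_emb P.model j'
      obtain ⟨y, hy⟩ := P.cov hN' (Sum.elim x (fun p : Fin 102 × Fin 101 => c p.1 p.2))
      obtain ⟨x', c1, rfl⟩ : ∃ (x' : Fin 101 → P.Car) (c1 : Fin 102 × Fin 101 → P.Car),
          y = Sum.elim x' c1 := ⟨y ∘ Sum.inl, y ∘ Sum.inr, (Sum.elim_comp_inl_inr y).symm⟩
      let c' : ℕ → Fin 101 → P.Car := fun i r => if h : i < 102 then c1 (⟨i, h⟩, r) else c1 (0, r)
      have hc'1 : ∀ i < 102, P.S (Sum.elim x' (c' i)) (Sum.elim pu pv) := by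
        intro i hi
        have h1 := (P.rho_iff (Sum.elim pu pv) hN' _).1 (hx i hi)
        have h2 := hy.comp (Sum.elim (fun r => Sum.inl r) (fun r => Sum.inr (⟨i, hi⟩, r)) :
          Fin 101 ⊕ Fin 101 → _)
        have e1 : Sum.elim x' c1 ∘ (Sum.elim (fun r => Sum.inl r)
            (fun r => Sum.inr (⟨i, hi⟩, r)) : Fin 101 ⊕ Fin 101 → _) = Sum.elim x' (c' i) := by
          funext z
          rcases z with z | z
          · rfl
          · simp [c', hi]
        have e2 : Sum.elim x (fun p : Fin 102 × Fin 101 => c p.1 p.2) ∘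
            (Sum.elim (fun r => Sum.inl r)
            (fun r => Sum.inr (⟨i, hi⟩, r)) : Fin 101 ⊕ Fin 101 → _) = Sum.elim x (c i) := by
          funext z
          rcases z with z | z <;> rfl
        rw [e1, e2] at h2
        exact (P.sim_iff _ _).2 (h2.trans h1.symm)
      have hc'2 : ∀ i < 102, P.R (c' i) (fun p : Fin i × Fin 101 => c' p.1 p.2) =
          P.R (c' i) e0 := by
        intro i hi
        obtain ⟨s, t, h1, h2, h3⟩ := P.free_copy hN' pv (fun p : Fin i × Fin 101 => c p.1 p.2)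
        have h4 : STp (L := lang D) (Sum.elim s t)
            (Sum.elim (c i) (fun p : Fin i × Fin 101 => c p.1 p.2)) := by
          intro φ
          have h5 := hc i (Fin i × Fin 101) φ (fun p : Fin i × Fin 101 => c p.1 p.2)
            (fun r => Or.inr ⟨r.1, r.1.2, r.2, rfl⟩)
          exact (P.fmem_iff j' φ h1 h2 h3).symm.trans h5.symm
        have h5 := hy.comp (Sum.elim (fun r => Sum.inr (⟨i, hi⟩, r))
          (fun p => Sum.inr (⟨p.1, p.1.2.trans hi⟩, p.2)) : Fin 101 ⊕ (Fin i × Fin 101) → _)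
        have e1 : Sum.elim x' c1 ∘ (Sum.elim (fun r => Sum.inr (⟨i, hi⟩, r))
            (fun p => Sum.inr (⟨p.1, p.1.2.trans hi⟩, p.2)) :
            Fin 101 ⊕ (Fin i × Fin 101) → _) =
            Sum.elim (c' i) (fun p : Fin i × Fin 101 => c' p.1 p.2) := by
          funext z
          rcases z with z | z
          · simp [c', hi]
          · have h6 : (z.1 : ℕ) < 102 := z.1.2.trans hi
            simp [c', h6]
        have e2 : Sum.elim x (fun p : Fin 102 × Fin 101 => c p.1 p.2) ∘
            (Sum.elim (fun r => Sum.inr (⟨i, hi⟩, r))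
            (fun p => Sum.inr (⟨p.1, p.1.2.trans hi⟩, p.2)) :
            Fin 101 ⊕ (Fin i × Fin 101) → _) =
            Sum.elim (c i) (fun p : Fin i × Fin 101 => c p.1 p.2) := by
          funext z
          rcases z with z | z <;> rfl
        rw [e1, e2] at h5
        have h7 : P.S (Sum.elim s t) (Sum.elim (c' i) (fun p : Fin i × Fin 101 => c' p.1 p.2)) :=
          (P.sim_iff _ _).2 (h4.trans h5.symm)
        have h8 := P.R_inv h7
        have h9 : P.R s t = P.R s e0 := P.free_rk h2 e0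
        rw [← h8, h9]
        exact hSe0 (h7.comp Sum.inl)
      have hx'0 : P.R x' e0 = 101 := by
        have k1 : P.R x' e0 = P.R pu e0 := hSe0 ((hc'1 0 (by norm_num)).comp Sum.inl)
        rw [k1]
        exact hRpu
      have h1 := P.rank_drop x' c' 102 0 (by
        intro i hi
        rw [hx'0, P.R_inv (hc'1 i hi)]
        exact hRp) hc'2 102 le_rfl
      rw [hx'0] at h1
      omega
  have hKF : KimForks j (P.rho (Sum.elim pu pv)) v := by
    refine ⟨N, inferInstance, ElementaryEmbedding.refl (lang D) N, 1, fun _ => 101, fun _ => P.rho (Sum.elim pu pv),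
      fun _ => v, ?_, ?_⟩
    · intro x hx
      exact ⟨0, hx⟩
    · intro _
      have e : (ElementaryEmbedding.refl (lang D) N).comp j = j := by
        ext x
        rfl
      rw [e]
      exact hKD
  have hρ : (P.rho (Sum.elim pu pv)).Realize (Sum.elim u v) := by
    obtain ⟨s, h1, h2⟩ : ∃ s, P.S s (Sum.elim pu pv) ∧ P.F s e0 := P.free_ext _ e0
    have h3 := (hw e0 s h1 h2).comp Sum.inl
    rw [Sum.elim_comp_inl, Sum.elim_comp_inl] at h3
    exact (h3 _).1 ((P.rho_car _ _).2 h1.symm)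
  obtain ⟨m, p, φ, e, b, hst, hb, hφ, hf⟩ := hSK P.Car P.model N j (Set.range j ∪ Set.range v)
    Set.subset_union_left 101 u ⟨101, P.rho (Sum.elim pu pv), v, fun i => Or.inr ⟨i, rfl⟩,
      hρ, hKF⟩
  -- the parameters
  have hb' : ∀ r, ∃ (f : P.Car) (o : Fin 101 ⊕ Unit), Sum.elim v (fun _ => j f) o = b r := by
    intro r
    rcases hb r with ⟨m, hm⟩ | ⟨i, hi⟩
    · exact ⟨m, Sum.inr (), hm⟩
    · exact ⟨hne.some, Sum.inl i, hi⟩
  choose f o0 ho0 using hb'
  let o : Fin m → Fin 101 ⊕ Fin m := fun r => Sum.elim Sum.inl (fun _ => Sum.inr r) (o0 r)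
  have hbo : b = Sum.elim v (j ∘ f) ∘ o := by
    funext r
    rw [← ho0 r]
    simp only [o, Function.comp]
    rcases o0 r with z | z <;> rfl
  subst hbo
  set ep : Fin m ⊕ Fin p → P.Car := Sum.elim f e with hep
  -- the substitution
  let G : Fin 101 ⊕ (Fin m ⊕ Fin p) → (Fin 101 ⊕ Fin 101) ⊕ (Fin m ⊕ Fin p) :=
    Sum.elim (fun r => Sum.inl (Sum.inl r)) (Sum.elim (fun r => Sum.elim
      (fun z => Sum.inl (Sum.inr z)) (fun z => Sum.inr (Sum.inl z)) (o r))
      (fun r => Sum.inr (Sum.inr r)))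
  have hG : ∀ {N : Type} (x y : Fin 101 → N) (g : Fin m → N) (h : Fin p → N),
      Sum.elim (Sum.elim x y) (Sum.elim g h) ∘ G =
        Sum.elim x (Sum.elim (Sum.elim y g ∘ o) h) := by
    intro N x y g h
    funext z
    rcases z with z | z | z
    · rfl
    · simp only [G, Function.comp, Sum.elim_inr, Sum.elim_inl]
      rcases o z with w | w <;> rfl
    · rfl
  have hjep : j ∘ ep = Sum.elim (j ∘ f) (j ∘ e) := by
    rw [hep, Sum.comp_elim]
  -- the generic pair
  obtain ⟨t, ht1, ht2⟩ : ∃ t, P.S t (Sum.elim qu qv) ∧ P.F t ep := P.free_ext _ ep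
  obtain ⟨qu', qv', rfl⟩ : ∃ qu' qv' : Fin 101 → P.Car, t = Sum.elim qu' qv' :=
    ⟨t ∘ Sum.inl, t ∘ Sum.inr, (Sum.elim_comp_inl_inr t).symm⟩
  by_cases hq : φ.Realize (Sum.elim qu' (Sum.elim (Sum.elim qv' f ∘ o) e))
  · -- the formula does not Kim-fork
    refine P.not_kimforks P.model j φ (Sum.elim (Sum.elim v (j ∘ f) ∘ o) (j ∘ e)) qu'
      (Sum.elim (Sum.elim qv' f ∘ o) e) ?_ ?_ hq hf
    · -- same type
      obtain ⟨s, hs1, hs2⟩ : ∃ s, P.S s (Sum.elim pu pv) ∧ P.F s ep := P.free_ext _ ep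
      have k1 := (hw ep s hs1 hs2).comp (Sum.map Sum.inr id)
      have k2 : P.S (Sum.elim qv' ep) (Sum.elim (s ∘ Sum.inr) ep) := by
        apply P.free_uniq (ht2.left Sum.inr) (hs2.left Sum.inr)
        · exact ((ht1.comp Sum.inr).trans hqp.1).trans (hs1.comp Sum.inr).symm
        · exact P.refl ep
      have e1 : Sum.elim s ep ∘ (Sum.map Sum.inr id) = Sum.elim (s ∘ Sum.inr) ep := by
        funext y
        rcases y with y | y <;> rfl
      have e2 : Sum.elim (Sum.elim u v) (j ∘ ep) ∘ (Sum.map Sum.inr id) =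
          Sum.elim v (j ∘ ep) := by
        funext y
        rcases y with y | y <;> rfl
      rw [e1, e2, hjep] at k1
      have k3 := ((P.inv k2).trans k1).comp (Sum.elim (fun r => Sum.elim
        (fun z => Sum.inl z) (fun z => Sum.inr (Sum.inl z)) (o r))
        (fun r => Sum.inr (Sum.inr r)) : Fin m ⊕ Fin p → Fin 101 ⊕ (Fin m ⊕ Fin p))
      have e3 : ∀ {N : Type} (y : Fin 101 → N) (g : Fin m → N) (h : Fin p → N),
          Sum.elim y (Sum.elim g h) ∘ (Sum.elim (fun r => Sum.elim
          (fun z => Sum.inl z) (fun z => Sum.inr (Sum.inl z)) (o r))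
          (fun r => Sum.inr (Sum.inr r)) : Fin m ⊕ Fin p → Fin 101 ⊕ (Fin m ⊕ Fin p)) =
          Sum.elim (Sum.elim y g ∘ o) h := by
        intro N y g h
        funext z
        rcases z with z | z
        · simp only [Function.comp, Sum.elim_inl]
          rcases o z with w | w <;> rfl
        · rfl
      rw [hep, e3, e3] at k3
      exact k3
    · -- genericity
      have r1 := P.R_add qu' qv' ep
      have r2 : P.R (Sum.elim qu' qv') ep = P.R (Sum.elim qu' qv') e0 := P.free_rk ht2 e0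
      have r3 : P.R qv' ep = P.R qv' e0 :=
        P.free_rk (show P.Free ((Sum.elim qu' qv' : Fin 101 ⊕ Fin 101 → P.Car) ∘ Sum.inr) ep from
          ht2.left Sum.inr) e0
      have r4 := P.R_add qu' qv' e0
      rw [P.R_empty] at r4
      have r5 : P.R qu' qv' = 101 := by rw [P.R_inv ht1, hRq]
      have r6 : P.R qu' (Sum.elim qv' ep) = 101 := by omega
      have r7 := P.R_comp qu' (Sum.elim qv' ep) (Sum.elim (fun r => Sum.elim
        (fun z => Sum.inl z) (fun z => Sum.inr (Sum.inl z)) (o r))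
        (fun r => Sum.inr (Sum.inr r)) : Fin m ⊕ Fin p → Fin 101 ⊕ (Fin m ⊕ Fin p))
      have e3 : Sum.elim qv' ep ∘ (Sum.elim (fun r => Sum.elim
          (fun z => Sum.inl z) (fun z => Sum.inr (Sum.inl z)) (o r))
          (fun r => Sum.inr (Sum.inr r)) : Fin m ⊕ Fin p → Fin 101 ⊕ (Fin m ⊕ Fin p)) =
          Sum.elim (Sum.elim qv' f ∘ o) e := by
        funext z
        rcases z with z | z
        · simp only [Function.comp, Sum.elim_inl]
          rcases o z with w | w <;> rfl
        · rfl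
      rw [e3, r6] at r7
      have r8 := hRle qu' (Sum.elim (Sum.elim qv' f ∘ o) e)
      refine (P.gen_rk _ _).2 ?_
      rw [Nat.card_fin]
      exact le_antisymm r8 r7
  · -- the formula is not stable
    refine not_stableOver φ e ?_ hst
    intro K
    obtain ⟨lu, lv, hl⟩ := hladder K
    obtain ⟨s, hs1, hs2⟩ : ∃ s : (Fin K × (Fin 101 ⊕ Fin 101)) → P.Car,
        P.S s (fun p => Sum.elim (lu p.1) (lv p.1) p.2) ∧ P.F s ep := P.free_ext _ ep
    have hsub : ∀ i i' : Fin K, P.S (Sum.elim (fun r => s (i, Sum.inl r))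
        (fun r => s (i', Sum.inr r))) (Sum.elim (lu i) (lv i')) ∧
        P.F (Sum.elim (fun r => s (i, Sum.inl r)) (fun r => s (i', Sum.inr r))) ep := by
      intro i i'
      have k1 := hs1.comp (Sum.elim (fun r => (i, Sum.inl r)) (fun r => (i', Sum.inr r)) :
        Fin 101 ⊕ Fin 101 → _)
      have k2 := hs2.left (Sum.elim (fun r => (i, Sum.inl r)) (fun r => (i', Sum.inr r)) :
        Fin 101 ⊕ Fin 101 → _)
      have e1 : s ∘ (Sum.elim (fun r => (i, Sum.inl r)) (fun r => (i', Sum.inr r)) :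
          Fin 101 ⊕ Fin 101 → _) = Sum.elim (fun r => s (i, Sum.inl r))
          (fun r => s (i', Sum.inr r)) := by
        funext z
        rcases z with z | z <;> rfl
      have e2 : (fun p : Fin K × (Fin 101 ⊕ Fin 101) => Sum.elim (lu p.1) (lv p.1) p.2) ∘
          (Sum.elim (fun r => (i, Sum.inl r)) (fun r => (i', Sum.inr r)) :
          Fin 101 ⊕ Fin 101 → _) = Sum.elim (lu i) (lv i') := by
        funext z
        rcases z with z | z <;> rfl
      rw [e1] at k1 k2
      rw [e2] at k1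
      exact ⟨k1, k2⟩
    refine ⟨fun i r => s (i, Sum.inl r), fun i => Sum.elim (fun r => s (i, Sum.inr r)) f ∘ o, ?_⟩
    intro i i'
    obtain ⟨k1, k2⟩ := hsub i i'
    constructor
    · intro h
      by_contra hlt
      have k3 := k1.trans ((hl i i').2 (not_lt.1 hlt))
      have k4 : P.S (Sum.elim (Sum.elim (fun r => s (i, Sum.inl r))
          (fun r => s (i', Sum.inr r))) ep) (Sum.elim (Sum.elim qu' qv') ep) :=
        P.free_uniq k2 ht2 (k3.trans ht1.symm) (P.refl ep)
      have k5 := k4.comp G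
      rw [hep, hG, hG] at k5
      exact hq ((P.inv k5 φ).1 h)
    · intro hlt
      have k3 := k1.trans ((hl i i').1 hlt)
      have k4 := (hw ep _ k3 k2).comp G
      rw [hjep, hep, hG, hG] at k4
      exact (k4 φ).2 hφ

include P in
/-- the stable Kim-forking conjecture fails -/
theorem FGeo.main : ∃ (L : FirstOrder.Language.{0, 0}) (T : L.Theory), T.IsComplete ∧
    Supersimple T ∧ NSOP1 T ∧ ¬ StableKimForking T :=
  ⟨lang D, P.T, P.isComplete, P.supersimple, P.nsop1, P.kim_fails⟩

end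

end Run7.h540
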