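import Pool.Agent.Run7.h520.FK0

/-! Definitions: NSOP₁, Kim-dividing, Kim-forking, stable Kim-forking. -/

namespace Run7.h540

open FirstOrder FirstOrder.Language

section

variable {L : FirstOrder.Language.{0, 0}}

/-- `T` is NSOP₁: no formula `φ(x, y)` and tree `b η`, `η ∈ 2^{<ω}`, in a model of `T` such that
`φ(x, b (σ|i))`, `i < ω`, is consistent for every `σ ∈ 2^ω`, and `φ(x, b (η⌢1))`, `φ(x, b ν)` are
inconsistent whenever `ν` extends `η⌢0`. -/
def NSOP1 (T : L.Theory) : Prop :=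
  ∀ (N : Type) [L.Structure N], N ⊨ T → ∀ (n m : ℕ) (φ : L.Formula (Fin n ⊕ Fin m)),
    ¬ ∃ b : List Bool → Fin m → N,
      (∀ (σ : ℕ → Bool) (k : ℕ), ∃ x : Fin n → N, ∀ i ≤ k,
        φ.Realize (Sum.elim x (b (List.ofFn fun j : Fin i => σ j)))) ∧
      ∀ η ν : List Bool, (η ++ [false]) <+: ν →
        ¬ ∃ x : Fin n → N, φ.Realize (Sum.elim x (b (η ++ [true]))) ∧
          φ.Realize (Sum.elim x (b ν))

/-- The type of the tuple `c` over the elementary submodel `M`. -/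
def tpOver {M N : Type} [L.Structure M] [L.Structure N] (j : M ↪ₑ[L] N) {γ : Type}
    (c : γ → N) : Set (Σ p : ℕ, L.Formula (γ ⊕ Fin p) × (Fin p → M)) :=
  {x | x.2.1.Realize (Sum.elim c (j ∘ x.2.2))}

/-- A global `M`-invariant type `q(y)`, `y` indexed by `β`, given by its defining function: for a
formula `φ(y, z)` and a complete type `r(z)` over `M` it says whether `φ(y, c) ∈ q` for the
realisations `c` of `r` (by invariance this depends only on `r`). -/
structure InvType (M : Type) [L.Structure M] (β : Type) where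
  mem : ∀ {γ : Type} [Finite γ], L.Formula (β ⊕ γ) →
    Set (Σ p : ℕ, L.Formula (γ ⊕ Fin p) × (Fin p → M)) → Prop
  complete : ∀ (N : Type) [L.Structure N] (j : M ↪ₑ[L] N) (γ : Type) [Finite γ]
    (φ : L.Formula (β ⊕ γ)) (c : γ → N), mem φ.not (tpOver j c) ↔ ¬ mem φ (tpOver j c)
  consistent : ∀ (N : Type) [L.Structure N] (j : M ↪ₑ[L] N) (l : ℕ) (γ : Fin l → Type)
    [∀ i, Finite (γ i)] (φ : ∀ i, L.Formula (β ⊕ γ i)) (c : ∀ i, γ i → N),
    (∀ i, mem (φ i) (tpOver j (c i))) → ∃ y : β → N, ∀ i, (φ i).Realize (Sum.elim y (c i))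

/-- `b 0, b 1, ...` is a Morley sequence in the global `M`-invariant type `q` over `M`: `b i`
realises the restriction of `q` to `M ∪ {b i' : i' < i}`. -/
def InvType.Morley {M N : Type} [L.Structure M] [L.Structure N] {β : Type} (q : InvType (L := L) M β)
    (j : M ↪ₑ[L] N) (b : ℕ → β → N) : Prop :=
  ∀ (i : ℕ) (γ : Type) [Finite γ] (φ : L.Formula (β ⊕ γ)) (c : γ → N),
    (∀ r, c r ∈ Set.range j ∨ ∃ i' < i, c r ∈ Set.range (b i')) →
      (φ.Realize (Sum.elim (b i) c) ↔ q.mem φ (tpOver j c))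

/-- The formula `φ(x, b)` Kim-divides over `M`: for some global `M`-invariant type `q` extending
the type of `b` over `M` and some Morley sequence `c 0, c 1, ...` in `q` over `M`, the set of the
`φ(x, c i)` is inconsistent. -/
def KimDivides {M N : Type} [L.Structure M] [L.Structure N] (j : M ↪ₑ[L] N) {n : ℕ} {β : Type}
    (φ : L.Formula (Fin n ⊕ β)) (b : β → N) : Prop :=
  ∃ q : InvType (L := L) M β,
    (∀ (p : ℕ) (ψ : L.Formula (β ⊕ Fin p)) (e : Fin p → M),
      ψ.Realize (Sum.elim b (j ∘ e)) ↔ q.mem ψ (tpOver j (j ∘ e))) ∧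
    ∃ (N' : Type) (_ : L.Structure N') (j' : M ↪ₑ[L] N') (c : ℕ → β → N'), q.Morley j' c ∧
      ∃ k : ℕ, ¬ ∃ x : Fin n → N', ∀ i < k, φ.Realize (Sum.elim x (c i))

/-- The formula `φ(x, b)` Kim-forks over `M`: in some elementary extension it implies a finite
disjunction of formulas each of which Kim-divides over `M`. -/
def KimForks {M N : Type} [L.Structure M] [L.Structure N] (j : M ↪ₑ[L] N) {n : ℕ} {β : Type}
    (φ : L.Formula (Fin n ⊕ β)) (b : β → N) : Prop :=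
  ∃ (N' : Type) (_ : L.Structure N') (j' : N ↪ₑ[L] N') (r : ℕ) (l : Fin r → ℕ)
    (ψ : ∀ i, L.Formula (Fin n ⊕ Fin (l i))) (c : ∀ i, Fin (l i) → N'),
    (∀ x : Fin n → N', φ.Realize (Sum.elim x (j' ∘ b)) →
      ∃ i, (ψ i).Realize (Sum.elim x (c i))) ∧
    ∀ i, KimDivides (j'.comp j) (ψ i) (c i)

/-- The formula `φ(x, y, e)` with parameters `e` from `M` is stable. -/
def StableOver {M : Type} [L.Structure M] {n m p : ℕ} (φ : L.Formula (Fin n ⊕ (Fin m ⊕ Fin p)))
    (e : Fin p → M) : Prop :=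
  ∀ (N : Type) [L.Structure N] (j : M ↪ₑ[L] N), ¬ ∃ (a : ℕ → Fin n → N) (b : ℕ → Fin m → N),
    ∀ i i', φ.Realize (Sum.elim (a i) (Sum.elim (b i') (j ∘ e))) ↔ i < i'

/-- `T` has the stable Kim-forking property over models. -/
def StableKimForking (T : L.Theory) : Prop :=
  ∀ (M : Type) [L.Structure M], M ⊨ T → ∀ (N : Type) [L.Structure N] (j : M ↪ₑ[L] N) (B : Set N),
    Set.range j ⊆ B → ∀ (n : ℕ) (a : Fin n → N),
    (∃ (m : ℕ) (φ : L.Formula (Fin n ⊕ Fin m)) (b : Fin m → N),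
      (∀ i, b i ∈ B) ∧ φ.Realize (Sum.elim a b) ∧ KimForks j φ b) →
    ∃ (m p : ℕ) (φ : L.Formula (Fin n ⊕ (Fin m ⊕ Fin p))) (e : Fin p → M) (b : Fin m → N),
      StableOver φ e ∧ (∀ i, b i ∈ B) ∧ φ.Realize (Sum.elim a (Sum.elim b (j ∘ e))) ∧
        KimForks j φ (Sum.elim b (j ∘ e))

end

end Run7.h540
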