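import Pool.Agent.Run7.h520.FM2
import Pool.Agent.Run7.h520.FM3

/-! Piece M5: stable forking fails for 101-types. -/

namespace Run7.h540

open FirstOrder FirstOrder.Language

section

variable {D : Type} (P : Geo D) {α β γ : Type}

/-- the tuple `pu` and the failure of stable forking over the empty set -/
theorem Geo.witness : ∃ pu pv : Fin 101 → P.Car,
    (∃ φ : (lang D).Formula (Fin 101 ⊕ Fin 101), φ.Realize (Sum.elim pu pv) ∧ Divides ∅ φ pv) ∧
    ∀ (m : ℕ) (φ : (lang D).Formula (Fin 101 ⊕ Fin m)) (b : Fin m → P.Car),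
      (∀ i, b i ∈ Set.range pv) → Stable P.T φ → φ.Realize (Sum.elim pu b) → ¬ Forks ∅ φ b := by
  have := P.nonempty
  obtain ⟨pu, hpu⟩ : ∃ pu : Fin 101 → P.Car, pu = P.pu := ⟨_, rfl⟩
  obtain ⟨pv, hpv⟩ : ∃ pv : Fin 101 → P.Car, pv = P.pv := ⟨_, rfl⟩
  obtain ⟨qu, hqu⟩ : ∃ qu : Fin 101 → P.Car, qu = P.qu := ⟨_, rfl⟩
  obtain ⟨qv, hqv⟩ : ∃ qv : Fin 101 → P.Car, qv = P.qv := ⟨_, rfl⟩
  have hgen : P.Gen qu qv := by rw [hqu, hqv]; exact P.gen_q
  have hladder : ∀ m : ℕ, ∃ u v : Fin m → Fin 101 → P.Car, ∀ i j : Fin m,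
      (i < j → P.S (Sum.elim (u i) (v j)) (Sum.elim pu pv)) ∧
      (j ≤ i → P.S (Sum.elim (u i) (v j)) (Sum.elim qu qv)) := by
    rw [hpu, hpv, hqu, hqv]
    exact P.ladder
  have hdiv : ∀ m : ℕ, ∃ v : Fin m → Fin 101 → P.Car, (∀ i, P.S (v i) pv) ∧
      ∀ s : Finset (Fin m), s.card = 102 →
      ¬ ∃ u : Fin 101 → P.Car, ∀ i ∈ s, P.S (Sum.elim u (v i)) (Sum.elim pu pv) := by
    rw [hpu, hpv]
    exact P.div
  have hqp : P.S qv pv := by
    obtain ⟨u, v, huv⟩ := hladder 2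
    have h1 := ((huv 0 1).1 (by decide)).comp Sum.inr
    have h2 := ((huv 1 1).2 le_rfl).comp Sum.inr
    exact h2.symm.trans h1
  refine ⟨pu, pv, ⟨P.rho (Sum.elim pu pv), (P.rho_car _ _).2 (Geo.S.rfl' P _), ?_⟩, ?_⟩
  · apply div_crit ∅ _ pv 102
    intro p a ha M
    obtain ⟨v, hv1, hv2⟩ := hdiv M
    refine ⟨v, ?_, ?_⟩
    · intro i
      have hp : IsEmpty (Fin p) := ⟨fun i => ha i⟩
      have h1 := (P.inv (hv1 i)).comp (Sum.elim id (fun i => (hp.false i).elim) :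
        Fin 101 ⊕ Fin p → Fin 101)
      convert h1 using 1
      · funext y
        rcases y with y | y
        · rfl
        · exact (hp.false y).elim
      · funext y
        rcases y with y | y
        · rfl
        · exact (hp.false y).elim
    · rintro s hs ⟨x, hx⟩
      exact hv2 s hs ⟨x, fun i hi => ((P.rho_car _ _).1 (hx i hi)).symm⟩
  intro m φ b hb hst hφ hf
  choose o ho using hb
  obtain rfl : pv ∘ o = b := funext ho
  by_cases hq : φ.Realize (Sum.elim qu (qv ∘ o))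
  · refine P.not_forks P.model ∅ φ (pv ∘ o) qu (qv ∘ o) ((P.inv hqp).comp o)
      (P.gen_comp o hgen) hq hf
  · refine not_stable φ ?_ hst
    intro M
    obtain ⟨u, v, huv⟩ := hladder M
    refine ⟨u, fun j => v j ∘ o, ?_⟩
    have e : ∀ (u v : Fin 101 → P.Car), Sum.elim u v ∘ (Sum.map id o) = Sum.elim u (v ∘ o) := by
      intro u v
      funext y
      rcases y with y | y <;> rfl
    intro i j
    constructor
    · intro h
      by_contra hij
      have h1 := ((huv i j).2 (not_lt.1 hij)).comp (Sum.map id o)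
      rw [e, e] at h1
      exact hq ((P.inv h1 φ).1 h)
    · intro hij
      have h1 := ((huv i j).1 hij).comp (Sum.map id o)
      rw [e, e] at h1
      exact (P.inv h1 φ).2 hφ

theorem Geo.fails : ¬ StableForking P.T 101 := by
  intro hSF
  obtain ⟨pu, pv, ⟨φ, h1, h2⟩, h3⟩ := P.witness
  obtain ⟨m, ψ, b, hst, hb, hψ, hf⟩ := hSF P.Car P.model ∅ (Set.range pv) (Set.empty_subset _) pu
    ⟨101, φ, pv, fun i => ⟨i, rfl⟩, h1, h2.forks⟩
  exact h3 m ψ b hb hst hψ hf

end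

end Run7.h540
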