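import Pool.Agent.Run7.h520.FM4
import Pool.Agent.Run7.h520.FM5

/-! Pieces M1 .. M5 together. -/

namespace Run7.h540

open FirstOrder FirstOrder.Language

section

variable {D : Type} (P : Geo D)

include P in
theorem Geo.main : ∃ (L : FirstOrder.Language.{0, 0}) (T : L.Theory), T.IsComplete ∧
    StableForking T 1 ∧ ¬ ∀ n, StableForking T n :=
  ⟨lang D, P.T, P.isComplete, P.one_types, fun h => P.fails (h 101)⟩

end

end Run7.h540
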