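import Pool.Agent.Run7.h520.FM1

/-! Piece M2: generic tuples do not fork. -/

namespace Run7.h540

open FirstOrder FirstOrder.Language

section

variable {D : Type} (P : Geo D) {α β γ : Type}

/-- infinitely many tuples fall in one class -/
theorem Geo.same_class [Finite α] (t : ℕ → α → D) :
    ∃ f : ℕ → ℕ, StrictMono f ∧ ∀ n, P.Sim (t (f n)) (t (f 0)) := by
  obtain ⟨F, hF, hF2⟩ := P.fin α
  choose g hg hg' using fun n => hF2 (t n)
  have : Finite F := hF
  obtain ⟨y, hy⟩ := Finite.exists_infinite_fiber (fun n : ℕ => (⟨g n, hg n⟩ : F))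
  have hinf : (Set.ofPred fun n => (⟨g n, hg n⟩ : F) = y).Infinite := by
    have := Set.infinite_coe_iff.1 hy
    exact this
  refine ⟨Nat.nth (fun n => (⟨g n, hg n⟩ : F) = y), Nat.nth_strictMono hinf, ?_⟩
  intro n
  have h1 : ∀ n, (⟨g (Nat.nth (fun n => (⟨g n, hg n⟩ : F) = y) n),
      hg (Nat.nth (fun n => (⟨g n, hg n⟩ : F) = y) n)⟩ : F) = y := fun n =>
    Nat.nth_mem_of_infinite hinf n
  have h2 : ∀ n, g (Nat.nth (fun n => (⟨g n, hg n⟩ : F) = y) n) = y := fun n => by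
    have := congrArg Subtype.val (h1 n)
    exact this
  have h3 := hg' (Nat.nth (fun n => (⟨g n, hg n⟩ : F) = y) n)
  have h4 := hg' (Nat.nth (fun n => (⟨g n, hg n⟩ : F) = y) 0)
  rw [h2] at h3 h4
  exact P.trans (P.symm h3) h4

theorem Geo.swap {s s' : α → D} {t t' : β → D}
    (h : P.Sim (Sum.elim s t) (Sum.elim s' t')) : P.Sim (Sum.elim t s) (Sum.elim t' s') := by
  have h2 := P.comp Sum.swap h
  have e : ∀ (s : α → D) (t : β → D), Sum.elim s t ∘ Sum.swap = Sum.elim t s := by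
    intro s t
    funext i
    rcases i with i | i <;> rfl
  rwa [e, e] at h2

theorem Geo.left {s s' : α → D} {t t' : β → D}
    (h : P.Sim (Sum.elim s t) (Sum.elim s' t')) : P.Sim s s' := P.comp Sum.inl h

theorem Geo.right {s s' : α → D} {t t' : β → D}
    (h : P.Sim (Sum.elim s t) (Sum.elim s' t')) : P.Sim t t' := P.comp Sum.inr h

/-- extending a similarity on the left -/
theorem Geo.forth' [Finite α] [Finite β] {s t : α → D} (h : P.Sim s t) (x : β → D) :
    ∃ y : β → D, P.Sim (Sum.elim x s) (Sum.elim y t) := by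
  obtain ⟨y, hy⟩ := P.forth h x
  exact ⟨y, P.swap hy⟩

theorem Geo.gen_seq_aux [Finite α] (m : ℕ) : ∀ (β : Type) [Finite β] (c : ℕ → β → D)
    (_ : ∀ i, P.Sim (c i) (c 0)) (u : α → D) (_ : P.Gen u (c 0)),
    ∃ s : Finset ℕ, s.card = 2 ^ m ∧ ∃ u' : α → D,
      ∀ i ∈ s, P.Sim (Sum.elim u' (c i)) (Sum.elim u (c 0)) := by
  induction m with
  | zero =>
    intro β _ c _ u _
    refine ⟨{0}, by simp, u, ?_⟩
    intro i hi
    rw [Finset.mem_singleton.1 hi]
    exact P.refl _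
  | succ m ih =>
    intro β _ c hc u hu
    choose v hv using fun i => P.forth' (P.symm (hc i)) u
    -- pairs inside the blocks
    have hblock : ∀ b : ℕ, ∃ i j : ℕ, i ≠ j ∧ ∃ u' : α → D,
        P.Gen u' (Sum.elim (c (Nat.pair b i)) (c (Nat.pair b j))) ∧
        P.Sim (Sum.elim u' (c (Nat.pair b i))) (Sum.elim u (c 0)) ∧
        P.Sim (Sum.elim u' (c (Nat.pair b j))) (Sum.elim u (c 0)) := by
      intro b
      obtain ⟨i, j, hij, u', h1, h2, h3⟩ := P.pair (fun i => v (Nat.pair b i))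
        (fun i => c (Nat.pair b i)) (P.gen_inv (hv _) hu)
        (fun i => P.trans (P.symm (hv _)) (hv _))
      exact ⟨i, j, hij, u', h1, P.trans h2 (P.symm (hv _)), P.trans h3 (P.symm (hv _))⟩
    choose I J hIJ w hw1 hw2 hw3 using hblock
    obtain ⟨f, hf, hf2⟩ := P.same_class (fun b => Sum.elim (w b)
      (Sum.elim (c (Nat.pair b (I b))) (c (Nat.pair b (J b)))))
    obtain ⟨s, hs, u', hu'⟩ := ih (β ⊕ β)
      (fun n => Sum.elim (c (Nat.pair (f n) (I (f n)))) (c (Nat.pair (f n) (J (f n)))))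
      (fun n => P.right (hf2 n)) (w (f 0)) (hw1 (f 0))
    let i1 : ℕ → ℕ := fun n => Nat.pair (f n) (I (f n))
    let i2 : ℕ → ℕ := fun n => Nat.pair (f n) (J (f n))
    have hi1 : Function.Injective i1 := fun a b hab => hf.injective (Nat.pair_eq_pair.1 hab).1
    have hi2 : Function.Injective i2 := fun a b hab => hf.injective (Nat.pair_eq_pair.1 hab).1
    refine ⟨s.map ⟨i1, hi1⟩ ∪ s.map ⟨i2, hi2⟩, ?_, u', ?_⟩
    · rw [Finset.card_union_of_disjoint, Finset.card_map, Finset.card_map, hs, pow_succ, mul_two]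
      rw [Finset.disjoint_left]
      intro x hx hx'
      obtain ⟨a, _, rfl⟩ := Finset.mem_map.1 hx
      obtain ⟨b, _, hb⟩ := Finset.mem_map.1 hx'
      have h1 : Nat.pair (f b) (J (f b)) = Nat.pair (f a) (I (f a)) := hb
      obtain ⟨h2, h3⟩ := Nat.pair_eq_pair.1 h1
      have h4 := hf.injective h2
      subst h4
      exact hIJ _ h3.symm
    · intro i hi
      rcases Finset.mem_union.1 hi with hi | hi
      · obtain ⟨a, ha, rfl⟩ := Finset.mem_map.1 hi
        have h1 := P.comp (Sum.map id Sum.inl) (hu' a ha)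
        have e : ∀ (u : α → D) (x y : β → D), Sum.elim u (Sum.elim x y) ∘ (Sum.map id Sum.inl) =
            Sum.elim u x := by
          intro u x y
          funext i
          rcases i with i | i <;> rfl
        rw [e, e] at h1
        exact P.trans h1 (hw2 _)
      · obtain ⟨a, ha, rfl⟩ := Finset.mem_map.1 hi
        have h1 := P.comp (Sum.map id Sum.inr) (hu' a ha)
        have e : ∀ (u : α → D) (x y : β → D), Sum.elim u (Sum.elim x y) ∘ (Sum.map id Sum.inr) =
            Sum.elim u y := by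
          intro u x y
          funext i
          rcases i with i | i <;> rfl
        rw [e, e] at h1
        exact P.trans h1 (hw3 _)

theorem Geo.gen_seq [Finite α] [Finite β] (c : ℕ → β → D) (hc : ∀ i, P.Sim (c i) (c 0))
    (u : α → D) (hu : P.Gen u (c 0)) (k : ℕ) :
    ∃ s : Finset ℕ, s.card = k ∧ ∃ u' : α → D,
      ∀ i ∈ s, P.Sim (Sum.elim u' (c i)) (Sum.elim u (c 0)) := by
  obtain ⟨s, hs, u', hu'⟩ := P.gen_seq_aux k β c hc u hu
  obtain ⟨s', hs', hs''⟩ := Finset.exists_subset_card_eq (s := s) (n := k)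
    (by rw [hs]; exact Nat.lt_two_pow_self.le)
  exact ⟨s', hs'', u', fun i hi => hu' i (hs' hi)⟩

theorem Geo.seq_transfer [Finite β] {N : Type} [(lang D).Structure N] (hN : N ⊨ P.T)
    (c : ℕ → β → N) : ∃ c' : ℕ → β → P.Car, ∀ m : ℕ,
      STp (L := lang D) (fun p : Fin m × β => c' p.1 p.2) (fun p : Fin m × β => c p.1 p.2) := by
  classical
  have step : ∀ m (f : ℕ → β → P.Car),
      STp (L := lang D) (fun p : Fin m × β => f p.1 p.2) (fun p : Fin m × β => c p.1 p.2) →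
      ∃ g : ℕ → β → P.Car, (∀ i < m, g i = f i) ∧
        STp (L := lang D) (fun p : Fin (m + 1) × β => g p.1 p.2)
          (fun p : Fin (m + 1) × β => c p.1 p.2) := by
    intro m f hf
    obtain ⟨t', ht'⟩ := P.stp_ext hN P.model hf.symm (c m)
    refine ⟨Function.update f m t', fun i hi => by simp [Function.update, hi.ne], ?_⟩
    have h2 := ht'.symm.comp (fun p : Fin (m + 1) × β =>
      if h : (p.1 : ℕ) < m then (Sum.inl (⟨p.1, h⟩, p.2) : (Fin m × β) ⊕ β) else Sum.inr p.2)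
    convert h2 using 1
    · funext p
      by_cases h : (p.1 : ℕ) < m
      · simp [h, Function.update, h.ne]
      · have h' : (p.1 : ℕ) = m := by omega
        simp [h', Function.update]
    · funext p
      by_cases h : (p.1 : ℕ) < m
      · simp [h]
      · have h' : (p.1 : ℕ) = m := by omega
        simp [h']
  obtain ⟨z⟩ := P.nonempty
  have h0 : STp (L := lang D) (fun p : Fin 0 × β => (fun _ _ => z : ℕ → β → P.Car) p.1 p.2)
      (fun p : Fin 0 × β => c p.1 p.2) := by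
    obtain ⟨s, hs⟩ := P.cov hN (fun p : Fin 0 × β => c p.1 p.2)
    convert hs using 1
    funext p
    exact p.1.elim0
  let X : ℕ → Type := fun m => {f : ℕ → β → P.Car //
    STp (L := lang D) (fun p : Fin m × β => f p.1 p.2) (fun p : Fin m × β => c p.1 p.2)}
  let F : ∀ m, X m := fun m => Nat.rec (motive := X) ⟨fun _ _ => z, h0⟩
    (fun m f => ⟨(step m f.1 f.2).choose, (step m f.1 f.2).choose_spec.2⟩) m
  have hF : ∀ m, ∀ i < m, (F (m + 1)).1 i = (F m).1 i := fun m i hi =>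
    (step m (F m).1 (F m).2).choose_spec.1 i hi
  have hF2 : ∀ n m, m ≤ n → ∀ i < m, (F n).1 i = (F m).1 i := by
    intro n m hmn
    induction hmn with
    | refl => intro i _; rfl
    | step h ih =>
      intro i hi
      rw [hF _ i (lt_of_lt_of_le hi h), ih i hi]
  refine ⟨fun m => (F (m + 1)).1 m, fun m => ?_⟩
  have h1 := (F m).2
  convert h1 using 1
  funext p
  rw [hF2 m (p.1 + 1) p.1.2 p.1 (Nat.lt_succ_self _)]

theorem Geo.not_divides {N : Type} [(lang D).Structure N] (hN : N ⊨ P.T) {n m : ℕ}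
    (A : Set N) (φ : (lang D).Formula (Fin n ⊕ Fin m)) (b : Fin m → N) (u : Fin n → P.Car)
    (b' : Fin m → P.Car) (hb : STp (L := lang D) b' b) (hu : P.Gen u b')
    (hφ : φ.Realize (Sum.elim u b')) : ¬ Divides A φ b := by
  rintro ⟨N'', _, j, c, k, hc, hk⟩
  have hN'' := P.model_of_emb hN j
  have hc1 : ∀ i, STp (L := lang D) b' (c i) := by
    intro i
    have h1 := (sameType_iff (j ∘ b) (c i)).1 (hc i) 0 (fun x => x.elim0) (fun x => x.elim0)
    have h2 : STp (L := lang D) (j ∘ b) (c i) := h1.comp Sum.inl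
    exact (hb.trans (STp.map j b)).trans h2
  obtain ⟨c', hc'⟩ := P.seq_transfer hN'' c
  have hc'1 : ∀ i, STp (L := lang D) (c' i) (c i) := by
    intro i
    exact (hc' (i + 1)).comp (fun x => ((⟨i, Nat.lt_succ_self i⟩ : Fin (i + 1)), x))
  have hc'2 : ∀ i, P.Sim (c' i) b' := fun i =>
    (P.sim_iff _ _).2 ((hc'1 i).trans (hc1 i).symm)
  obtain ⟨u0, hu0⟩ : ∃ u0 : Fin n → P.Car, P.Sim (Sum.elim u b') (Sum.elim u0 (c' 0)) :=
    P.forth' (P.symm (hc'2 0)) u
  obtain ⟨s, hs, u', hu'⟩ : ∃ s : Finset ℕ, s.card = k ∧ ∃ u' : Fin n → P.Car,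
      ∀ i ∈ s, P.Sim (Sum.elim u' (c' i)) (Sum.elim u0 (c' 0)) :=
    P.gen_seq c' (fun i => P.trans (hc'2 i) (P.symm (hc'2 0))) u0 (P.gen_inv hu0 hu) k
  obtain ⟨x, hx⟩ := P.stp_ext P.model hN'' (hc' (s.sup id + 1)) u'
  refine hk s hs ⟨x, ?_⟩
  intro i hi
  have hi' : i < s.sup id + 1 := Nat.lt_succ_of_le (Finset.le_sup (f := id) hi)
  have h1 := hx.comp (Sum.elim (fun a => Sum.inr a) (fun y => Sum.inl
    ((⟨i, hi'⟩ : Fin (s.sup id + 1)), y)) : Fin n ⊕ Fin m → _)
  have e1 : Sum.elim (fun p : Fin (s.sup id + 1) × Fin m => c' p.1 p.2) u' ∘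
      (Sum.elim (fun a => Sum.inr a) (fun y => Sum.inl
      ((⟨i, hi'⟩ : Fin (s.sup id + 1)), y)) : Fin n ⊕ Fin m → _) = Sum.elim u' (c' i) := by
    funext y
    rcases y with y | y <;> rfl
  have e2 : Sum.elim (fun p : Fin (s.sup id + 1) × Fin m => c p.1 p.2) x ∘
      (Sum.elim (fun a => Sum.inr a) (fun y => Sum.inl
      ((⟨i, hi'⟩ : Fin (s.sup id + 1)), y)) : Fin n ⊕ Fin m → _) = Sum.elim x (c i) := by
    funext y
    rcases y with y | y <;> rfl
  rw [e1, e2] at h1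
  have h2 : P.S (Sum.elim u' (c' i)) (Sum.elim u b') := P.trans (hu' i hi) (P.symm hu0)
  exact (h1 φ).1 ((P.inv h2 φ).2 hφ)

theorem Geo.not_forks {N : Type} [(lang D).Structure N] (hN : N ⊨ P.T) {n m : ℕ}
    (A : Set N) (φ : (lang D).Formula (Fin n ⊕ Fin m)) (b : Fin m → N) (u : Fin n → P.Car)
    (b' : Fin m → P.Car) (hb : STp (L := lang D) b' b) (hu : P.Gen u b')
    (hφ : φ.Realize (Sum.elim u b')) : ¬ Forks A φ b := by
  rintro ⟨N', _, j, r, l, ψ, c, hcov, hdiv⟩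
  have hN' := P.model_of_emb hN j
  let cc : (Σ i : Fin r, Fin (l i)) → N' := fun p => c p.1 p.2
  obtain ⟨bc, hbc⟩ := P.cov hN' (Sum.elim (j ∘ b) cc)
  obtain ⟨b1, c1, rfl⟩ : ∃ (b1 : Fin m → P.Car) (c1 : (Σ i : Fin r, Fin (l i)) → P.Car),
      bc = Sum.elim b1 c1 := ⟨bc ∘ Sum.inl, bc ∘ Sum.inr, (Sum.elim_comp_inl_inr bc).symm⟩
  have hb1 : STp (L := lang D) b1 (j ∘ b) := hbc.comp Sum.inl
  have hb1' : P.Sim b' b1 := (P.sim_iff _ _).2 ((hb.trans (STp.map j b)).trans hb1.symm)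
  obtain ⟨u1, hu1⟩ : ∃ u1 : Fin n → P.Car, P.Sim (Sum.elim u b') (Sum.elim u1 b1) :=
    P.forth' hb1' u
  obtain ⟨u2, hu2, hu2'⟩ : ∃ u2 : Fin n → P.Car, P.Gen u2 (Sum.elim b1 c1) ∧
      P.Sim (Sum.elim u2 b1) (Sum.elim u1 b1) := P.ext (P.gen_inv hu1 hu) c1
  obtain ⟨x, hx⟩ := P.stp_ext P.model hN' hbc u2
  have h3 : P.S (Sum.elim u2 b1) (Sum.elim u b') := P.trans hu2' (P.symm hu1)
  have h4 : STp (L := lang D) (Sum.elim u2 b1) (Sum.elim x (j ∘ b)) := by
    have := hx.comp (Sum.elim (fun a => Sum.inr a) (fun y => Sum.inl (Sum.inl y)) :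
      Fin n ⊕ Fin m → _)
    convert this using 1
    · funext y
      rcases y with y | y <;> rfl
    · funext y
      rcases y with y | y <;> rfl
  obtain ⟨i, hi⟩ := hcov x ((h4 φ).1 ((P.inv h3 φ).2 hφ))
  have h5 : STp (L := lang D) (Sum.elim u2 (fun y => c1 ⟨i, y⟩)) (Sum.elim x (c i)) := by
    have := hx.comp (Sum.elim (fun a => Sum.inr a) (fun y => Sum.inl (Sum.inr ⟨i, y⟩)) :
      Fin n ⊕ Fin (l i) → _)
    convert this using 1
    · funext y
      rcases y with y | y <;> rfl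
    · funext y
      rcases y with y | y <;> rfl
  have h6 : P.Gen u2 (fun y : Fin (l i) => c1 ⟨i, y⟩) :=
    P.gen_comp (fun y : Fin (l i) => (Sum.inr ⟨i, y⟩ : Fin m ⊕ (Σ i : Fin r, Fin (l i)))) hu2
  exact P.not_divides hN' (j '' A) (ψ i) (c i) u2 (fun y => c1 ⟨i, y⟩) (h5.comp Sum.inr) h6
    ((h5 (ψ i)).2 hi) (hdiv i)

end

end Run7.h540
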