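import Pool.Agent.Run7.h520.FM2
import Pool.Agent.Run7.h520.FM3

/-! Piece M4: one-types have stable forking. -/

namespace Run7.h540

open FirstOrder FirstOrder.Language

section

variable {D : Type} (P : Geo D) {α β γ : Type}

/-- the element `x` is algebraic over the tuple `b` -/
def Geo.Alg {N : Type} [(lang D).Structure N] (x : Fin 1 → N) (b : β → N) : Prop :=
  ∃ (u : Fin 1 → P.Car) (b' : β → P.Car),
    STp (L := lang D) (Sum.elim u b') (Sum.elim x b) ∧ ¬ P.Gen u b'

variable {P}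

theorem Geo.Alg.of_stp {N N' : Type} [(lang D).Structure N] [(lang D).Structure N']
    {x : Fin 1 → N} {b : β → N} {x' : Fin 1 → N'} {b' : β → N'} (h : P.Alg x b)
    (h' : STp (L := lang D) (Sum.elim x b) (Sum.elim x' b')) : P.Alg x' b' := by
  obtain ⟨u, b1, h1, h2⟩ := h
  exact ⟨u, b1, h1.trans h', h2⟩

theorem Geo.Alg.not_gen [Finite β] {N : Type} [(lang D).Structure N]
    {x : Fin 1 → N} {b : β → N} (h : P.Alg x b) {u : Fin 1 → P.Car} {b' : β → P.Car}
    (h' : STp (L := lang D) (Sum.elim u b') (Sum.elim x b)) : ¬ P.Gen u b' := by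
  obtain ⟨u1, b1, h1, h2⟩ := h
  intro hg
  exact h2 (P.gen_inv ((P.sim_iff _ _).2 (h'.trans h1.symm)) hg)

theorem Geo.Alg.comp [Finite β] [Finite γ] {N : Type} [(lang D).Structure N] (hN : N ⊨ P.T)
    {x : Fin 1 → N} {b : β → N} (g : γ → β) (h : P.Alg x (b ∘ g)) : P.Alg x b := by
  obtain ⟨s, hs⟩ := P.cov hN (Sum.elim x b)
  obtain ⟨u, b', rfl⟩ : ∃ (u : Fin 1 → P.Car) (b' : β → P.Car), s = Sum.elim u b' :=
    ⟨s ∘ Sum.inl, s ∘ Sum.inr, (Sum.elim_comp_inl_inr s).symm⟩
  refine ⟨u, b', hs, fun hg => ?_⟩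
  have h1 := hs.comp (Sum.map id g)
  have e : ∀ {N : Type} (u : Fin 1 → N) (v : β → N),
      Sum.elim u v ∘ (Sum.map id g) = Sum.elim u (v ∘ g) := by
    intro N u v
    funext y
    rcases y with y | y <;> rfl
  rw [e, e] at h1
  exact h.not_gen h1 (P.gen_comp g hg)

theorem Geo.Alg.bound [Finite β] {N : Type} [(lang D).Structure N]
    {x : Fin 1 → N} {b : β → N} (h : P.Alg x b) :
    ∃ r : ℕ, ∀ (N1 : Type) [(lang D).Structure N1] (_ : N1 ⊨ P.T) (b1 : β → N1)
      (y : Fin (r + 1) → Fin 1 → N1), Function.Injective y →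
      ¬ ∀ i, STp (L := lang D) (Sum.elim x b) (Sum.elim (y i) b1) := by
  obtain ⟨u, b', h1, h2⟩ := h
  have hfin : {x : Fin 1 → P.Car | P.S (Sum.elim x b') (Sum.elim u b')}.Finite := P.alg u b' h2
  refine ⟨hfin.toFinset.card, ?_⟩
  intro N1 _ hN1 b1 y hy hst
  have h3 : STp (L := lang D) b1 b' := ((h1.trans (hst 0)).comp Sum.inr).symm
  obtain ⟨t', ht'⟩ := P.stp_ext hN1 P.model h3
    (fun q : Fin (hfin.toFinset.card + 1) × Fin 1 => y q.1 q.2)
  let z : Fin (hfin.toFinset.card + 1) → Fin 1 → P.Car := fun i r => t' (i, r)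
  have hz : ∀ i, z i ∈ hfin.toFinset := by
    intro i
    rw [Set.Finite.mem_toFinset]
    change P.S (Sum.elim (z i) b') (Sum.elim u b')
    have h4 := ht'.comp (Sum.elim (fun r => Sum.inr (i, r)) (fun s => Sum.inl s) :
      Fin 1 ⊕ β → _)
    have e1 : Sum.elim b1 (fun q : Fin (hfin.toFinset.card + 1) × Fin 1 => y q.1 q.2) ∘
        (Sum.elim (fun r => Sum.inr (i, r)) (fun s => Sum.inl s) : Fin 1 ⊕ β → _) =
        Sum.elim (y i) b1 := by
      funext s
      rcases s with s | s <;> rfl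
    have e2 : Sum.elim b' t' ∘
        (Sum.elim (fun r => Sum.inr (i, r)) (fun s => Sum.inl s) : Fin 1 ⊕ β → _) =
        Sum.elim (z i) b' := by
      funext s
      rcases s with s | s <;> rfl
    rw [e1, e2] at h4
    exact (P.sim_iff _ _).2 (h4.symm.trans (h1.trans (hst i)).symm)
  have hzi : Function.Injective z := by
    intro i i' hii
    apply hy
    funext r
    have h5 : (Sum.elim b' t') (Sum.inr (i, r)) = (Sum.elim b' t') (Sum.inr (i', r)) :=
      congrFun hii r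
    exact ht'.symm.eq h5
  have h6 := Finset.card_le_card_of_injOn (s := (Finset.univ : Finset
    (Fin (hfin.toFinset.card + 1)))) (t := hfin.toFinset) z (fun i _ => hz i) (hzi.injOn)
  rw [Finset.card_univ, Fintype.card_fin] at h6
  omega

theorem Geo.Alg.finite [Finite β] {N : Type} [(lang D).Structure N]
    {x : Fin 1 → N} {b : β → N} (h : P.Alg x b) {N1 : Type} [(lang D).Structure N1]
    (hN1 : N1 ⊨ P.T) (b1 : β → N1) :
    {y : Fin 1 → N1 | STp (L := lang D) (Sum.elim x b) (Sum.elim y b1)}.Finite := by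
  obtain ⟨r, hr⟩ := h.bound
  by_contra hinf
  have hinf' : {y : Fin 1 → N1 | STp (L := lang D) (Sum.elim x b) (Sum.elim y b1)}.Infinite :=
    hinf
  refine hr N1 hN1 b1 (fun i => (hinf'.natEmbedding _ i : Fin 1 → N1)) ?_ ?_
  · intro i i' hii
    have := (hinf'.natEmbedding _).injective (Subtype.ext hii)
    exact Fin.ext this
  · intro i
    exact (hinf'.natEmbedding _ i).2

/-- (c) a type which forks over `A` is not algebraic over `A` -/
theorem Geo.not_alg {N : Type} [(lang D).Structure N] (hN : N ⊨ P.T) {m : ℕ}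
    (A : Set N) (φ : (lang D).Formula (Fin 1 ⊕ Fin m)) (b : Fin m → N) (x : Fin 1 → N)
    (hφ : φ.Realize (Sum.elim x b)) (hf : Forks A φ b) {p : ℕ} (a : Fin p → N)
    (ha : ∀ i, a i ∈ A) (halg : P.Alg x a) : False := by
  obtain ⟨N', _, j, r, l, ψ, c, hcov, hdiv⟩ := hf
  have h1 : φ.Realize (Sum.elim (j ∘ x) (j ∘ b)) := by
    rw [← Sum.comp_elim, j.map_formula]
    exact hφ
  obtain ⟨i, hi⟩ := hcov _ h1
  obtain ⟨N'', _, j', cs, k, hcs, hk⟩ := hdiv i
  have hN' := P.model_of_emb hN j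
  have hN'' := P.model_of_emb hN' j'
  have h2 : ∀ t, ∃ xt : Fin 1 → N'', STp (L := lang D)
      (Sum.elim (Sum.elim (j' ∘ c i) (j' ∘ j ∘ a)) (j' ∘ j ∘ x))
      (Sum.elim (Sum.elim (cs t) (j' ∘ j ∘ a)) xt) := by
    intro t
    apply P.stp_ext hN'' hN''
    exact (sameType_iff _ _).1 (hcs t) p (j' ∘ j ∘ a)
      (fun r => ⟨j (a r), ⟨a r, ha r, rfl⟩, rfl⟩)
  choose xs hxs using h2
  have hψ : (ψ i).Realize (Sum.elim (j' ∘ j ∘ x) (j' ∘ c i)) := by
    rw [← Sum.comp_elim, j'.map_formula]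
    exact hi
  have e1 : ∀ {N : Type} (x : Fin 1 → N) (y : Fin (l i) → N) (z : Fin p → N),
      Sum.elim (Sum.elim y z) x ∘ (Sum.elim (fun r => Sum.inr r) (fun r => Sum.inl (Sum.inl r)) :
        Fin 1 ⊕ Fin (l i) → _) = Sum.elim x y := by
    intro N x y z
    funext s
    rcases s with s | s <;> rfl
  have e2 : ∀ {N : Type} (x : Fin 1 → N) (y : Fin (l i) → N) (z : Fin p → N),
      Sum.elim (Sum.elim y z) x ∘ (Sum.elim (fun r => Sum.inr r) (fun r => Sum.inl (Sum.inr r)) :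
        Fin 1 ⊕ Fin p → _) = Sum.elim x z := by
    intro N x y z
    funext s
    rcases s with s | s <;> rfl
  have h3 : ∀ t, (ψ i).Realize (Sum.elim (xs t) (cs t)) := by
    intro t
    have h4 := (hxs t).comp (Sum.elim (fun r => Sum.inr r) (fun r => Sum.inl (Sum.inl r)) :
        Fin 1 ⊕ Fin (l i) → _)
    rw [e1, e1] at h4
    exact (h4 _).1 hψ
  have h5 : ∀ t, STp (L := lang D) (Sum.elim x a) (Sum.elim (xs t) (j' ∘ j ∘ a)) := by
    intro t
    have h4 := (hxs t).comp (Sum.elim (fun r => Sum.inr r) (fun r => Sum.inl (Sum.inr r)) :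
        Fin 1 ⊕ Fin p → _)
    rw [e2, e2] at h4
    have h6 : STp (L := lang D) (Sum.elim x a) (Sum.elim (j' ∘ j ∘ x) (j' ∘ j ∘ a)) := by
      have h7 := (STp.map j (Sum.elim x a)).trans (STp.map j' (j ∘ Sum.elim x a))
      rwa [Sum.comp_elim, Sum.comp_elim] at h7
    exact h6.trans h4
  have hfin := halg.finite hN'' (j' ∘ j ∘ a)
  have : Finite {y : Fin 1 → N'' | STp (L := lang D) (Sum.elim x a)
    (Sum.elim y (j' ∘ j ∘ a))} := hfin
  obtain ⟨y, hy⟩ := Finite.exists_infinite_fiber (fun t : ℕ => (⟨xs t, h5 t⟩ :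
    {y : Fin 1 → N'' | STp (L := lang D) (Sum.elim x a) (Sum.elim y (j' ∘ j ∘ a))}))
  obtain ⟨s, hs, hs2⟩ := (Set.infinite_coe_iff.1 hy).exists_subset_card_eq k
  refine hk s hs2 ⟨y.1, ?_⟩
  intro t ht
  have h6 : (⟨xs t, h5 t⟩ : {y : Fin 1 → N'' | STp (L := lang D) (Sum.elim x a)
    (Sum.elim y (j' ∘ j ∘ a))}) = y := hs ht
  rw [← h6]
  exact h3 t

/-- free copies -/
theorem Geo.copies [Finite α] [Finite β] (a : α → P.Car) (b : β → P.Car) (M : ℕ) :
    ∃ c : Fin M → β → P.Car, (∀ i, P.S (Sum.elim (c i) a) (Sum.elim b a)) ∧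
      ∀ i j : Fin M, i < j → ∀ y : Fin 1 → P.Car, ¬ P.Gen y (Sum.elim (c j) a) →
        ¬ P.Gen y (Sum.elim (c i) a) → ¬ P.Gen y a := by
  induction M with
  | zero => exact ⟨fun i => i.elim0, fun i => i.elim0, fun i => i.elim0⟩
  | succ M ih =>
    obtain ⟨c, hc1, hc2⟩ := ih
    obtain ⟨t', ht1, ht2⟩ : ∃ t' : β → P.Car, P.S (Sum.elim t' a) (Sum.elim b a) ∧
        ∀ x : Fin 1 → P.Car, ¬ P.Gen x (Sum.elim t' a) →
        ¬ P.Gen x (Sum.elim (fun q : Fin M × β => c q.1 q.2) a) → ¬ P.Gen x a := P.free a b _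
    refine ⟨Fin.snoc c t', ?_, ?_⟩
    · intro i
      refine Fin.lastCases ?_ (fun i => ?_) i
      · rw [Fin.snoc_last]
        exact ht1
      · rw [Fin.snoc_castSucc]
        exact hc1 i
    · intro i j hij y
      revert hij
      refine Fin.lastCases ?_ (fun j => ?_) j
      · refine Fin.lastCases ?_ (fun i => ?_) i
        · intro h
          exact absurd h (lt_irrefl _)
        · intro _ h1 h2
          rw [Fin.snoc_last] at h1
          rw [Fin.snoc_castSucc] at h2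
          refine ht2 y h1 (fun hg => h2 ?_)
          have h3 := P.gen_comp (u := y) (t := Sum.elim (fun q : Fin M × β => c q.1 q.2) a)
            (Sum.map (fun r => (i, r)) id : β ⊕ α → (Fin M × β) ⊕ α) hg
          convert h3 using 1
          funext s
          rcases s with s | s <;> rfl
      · refine Fin.lastCases ?_ (fun i => ?_) i
        · intro h
          exact absurd (h.trans (Fin.castSucc_lt_last j)) (lt_irrefl _)
        · intro h h1 h2
          rw [Fin.snoc_castSucc] at h1 h2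
          exact hc2 i j (Fin.castSucc_lt_castSucc_iff.1 h) y h1 h2

variable (P)

theorem Geo.one_types : StableForking P.T 1 := by
  classical
  intro N _ hN A B hAB x ⟨m, φ, b, hb, hφ, hf⟩
  have hne : Nonempty N := ⟨x 0⟩
  -- (b) algebraic over b
  have halg : P.Alg x b := by
    obtain ⟨s, hs⟩ := P.cov hN (Sum.elim x b)
    obtain ⟨u, b', rfl⟩ : ∃ (u : Fin 1 → P.Car) (b' : Fin m → P.Car), s = Sum.elim u b' :=
      ⟨s ∘ Sum.inl, s ∘ Sum.inr, (Sum.elim_comp_inl_inr s).symm⟩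
    refine ⟨u, b', hs, fun hg => ?_⟩
    exact P.not_forks hN A φ b u b' (hs.comp Sum.inr) hg ((hs φ).2 hφ) hf
  -- (d) the tuple b''
  have hch : ∀ y : Fin 1 → N, ∃ (p : ℕ) (a : Fin p → N), (∀ i, a i ∈ A) ∧
      ((∃ (p : ℕ) (a : Fin p → N), (∀ i, a i ∈ A) ∧ P.Alg y a) → P.Alg y a) := by
    intro y
    by_cases h : ∃ (p : ℕ) (a : Fin p → N), (∀ i, a i ∈ A) ∧ P.Alg y a
    · obtain ⟨p, a, h1, h2⟩ := h
      exact ⟨p, a, h1, fun _ => h2⟩
    · exact ⟨0, fun i => i.elim0, fun i => i.elim0, fun h' => absurd h' h⟩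
  choose p a ha ha' using hch
  let S : Set (Fin 1 → N) := {y | STp (L := lang D) (Sum.elim x b) (Sum.elim y b)}
  have hS : S.Finite := halg.finite hN b
  have : Finite S := hS
  let ι : Type := Fin m ⊕ (Σ y : S, Fin (p y))
  let e : ι ≃ Fin (Nat.card ι) := Finite.equivFin ι
  let bb : Fin (Nat.card ι) → N := (Sum.elim b (fun q : Σ y : S, Fin (p y) => a q.1 q.2)) ∘ e.symm
  have hbb : b = bb ∘ (fun i => e (Sum.inl i)) := by
    funext i
    simp [bb]
  have hba : ∀ y : S, a y = bb ∘ (fun i => e (Sum.inr ⟨y, i⟩)) := by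
    intro y
    funext i
    simp [bb]
  have hbB : ∀ i, bb i ∈ B := by
    intro i
    have h1 : ∀ q : ι, (Sum.elim b (fun q : Σ y : S, Fin (p y) => a q.1 q.2)) q ∈ B := by
      intro q
      rcases q with q | q
      · exact hb q
      · exact hAB (ha _ _)
    exact h1 _
  have F1 : P.Alg x bb := by
    apply Geo.Alg.comp hN (fun i => e (Sum.inl i))
    rw [← hbb]
    exact halg
  have ecomp : ∀ {N : Type} {k : ℕ} (g : Fin k → Fin (Nat.card ι)) (x : Fin 1 → N)
      (y : Fin (Nat.card ι) → N), Sum.elim x y ∘ (Sum.map id g) = Sum.elim x (y ∘ g) := by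
    intro N k g x y
    funext s
    rcases s with s | s <;> rfl
  have F2 : ∀ x' : Fin 1 → N, STp (L := lang D) (Sum.elim x bb) (Sum.elim x' bb) →
      ∀ (q : ℕ) (a' : Fin q → N), (∀ i, a' i ∈ A) → ¬ P.Alg x' a' := by
    intro x' hx' q a' ha2 halg'
    have h1 : x' ∈ S := by
      have h2 := hx'.comp (Sum.map id (fun i => e (Sum.inl i)))
      rw [ecomp, ecomp, ← hbb] at h2
      exact h2
    have h2 : P.Alg x' (a x') := ha' x' ⟨q, a', ha2, halg'⟩
    have h3 := hx'.comp (Sum.map id (fun i => e (Sum.inr ⟨⟨x', h1⟩, i⟩)))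
    rw [ecomp, ecomp, ← hba ⟨x', h1⟩] at h3
    have h4 : P.Alg x (a x') := h2.of_stp h3.symm
    exact Geo.not_alg hN A φ b x hφ hf (a x') (ha x') h4
  obtain ⟨s, hs⟩ := P.cov hN (Sum.elim x bb)
  refine ⟨Nat.card ι, P.rho s, bb, ?_, hbB, (P.rho_iff s hN _).2 hs, Divides.forks ?_⟩
  · -- (e)
    intro N1 _ hN1 ⟨as, bs, hab⟩
    obtain ⟨r, hr⟩ := F1.bound
    refine hr N1 hN1 (bs (r + 1)) (fun i => as i) ?_ ?_
    · intro i i' hii
      by_contra hne
      rcases lt_or_gt_of_ne hne with h | h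
      · have h1 := (hab i i').2 h
        have hii' : as i = as i' := hii
        rw [hii'] at h1
        exact lt_irrefl _ ((hab i' i').1 h1)
      · have h1 := (hab i' i).2 h
        have hii' : as i = as i' := hii
        rw [← hii'] at h1
        exact lt_irrefl _ ((hab i i).1 h1)
    · intro i
      have h1 := (P.rho_iff s hN1 _).1 ((hab i (r + 1)).2 i.2)
      exact hs.symm.trans h1
  · -- (f)
    apply div_crit A _ bb 2
    intro q a0 ha0 M
    obtain ⟨s0, hs0⟩ := P.cov hN (Sum.elim bb a0)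
    obtain ⟨b1, a1, rfl⟩ : ∃ (b1 : Fin (Nat.card ι) → P.Car) (a1 : Fin q → P.Car),
        s0 = Sum.elim b1 a1 := ⟨s0 ∘ Sum.inl, s0 ∘ Sum.inr, (Sum.elim_comp_inl_inr s0).symm⟩
    obtain ⟨c1, hc1, hc2⟩ := Geo.copies (P := P) a1 b1 M
    obtain ⟨t', ht'⟩ := P.stp_ext P.model hN (hs0.comp Sum.inr : STp (L := lang D) a1 a0)
      (fun r : Fin M × Fin (Nat.card ι) => c1 r.1 r.2)
    let c : Fin M → Fin (Nat.card ι) → N := fun i r => t' (i, r)
    have hc : ∀ i, STp (L := lang D) (Sum.elim (c1 i) a1) (Sum.elim (c i) a0) := by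
      intro i
      have h1 := ht'.comp (Sum.elim (fun r => Sum.inr (i, r)) (fun s => Sum.inl s) :
        Fin (Nat.card ι) ⊕ Fin q → _)
      convert h1 using 1
      · funext r
        rcases r with r | r <;> rfl
      · funext r
        rcases r with r | r <;> rfl
    have hc' : ∀ i, STp (L := lang D) (Sum.elim (c i) a0) (Sum.elim bb a0) := fun i =>
      ((hc i).symm.trans (P.inv (hc1 i))).trans hs0
    refine ⟨c, hc', ?_⟩
    rintro σ hσ ⟨x1, hx1⟩
    obtain ⟨i, j, hij, hi, hj⟩ : ∃ i j : Fin M, i < j ∧ i ∈ σ ∧ j ∈ σ := by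
      obtain ⟨i, j, hne, rfl⟩ := Finset.card_eq_two.1 hσ
      rcases lt_or_gt_of_ne hne with h | h
      · exact ⟨i, j, h, by simp, by simp⟩
      · exact ⟨j, i, h, by simp, by simp⟩
    obtain ⟨y1, hy1⟩ := P.stp_ext hN P.model ht'.symm x1
    have key : ∀ i ∈ σ, ¬ P.Gen y1 (Sum.elim (c1 i) a1) := by
      intro i hi
      have h1 : STp (L := lang D) (Sum.elim x bb) (Sum.elim x1 (c i)) :=
        hs.symm.trans ((P.rho_iff s hN _).1 (hx1 i hi))
      have h2 : P.Alg x1 (c i) := F1.of_stp h1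
      have h3 : P.Alg x1 (Sum.elim (c i) a0) := Geo.Alg.comp hN Sum.inl h2
      refine h3.not_gen ?_
      have h4 := hy1.symm.comp (Sum.elim (fun r => Sum.inr r)
        (Sum.elim (fun r => Sum.inl (Sum.inr (i, r))) (fun r => Sum.inl (Sum.inl r))) :
        Fin 1 ⊕ (Fin (Nat.card ι) ⊕ Fin q) → _)
      convert h4 using 1
      · funext r
        rcases r with r | r | r <;> rfl
      · funext r
        rcases r with r | r | r <;> rfl
    have h5 : ¬ P.Gen y1 a1 := hc2 i j hij y1 (key j hj) (key i hi)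
    have h6 : P.Alg x1 a0 := by
      refine ⟨y1, a1, ?_, h5⟩
      have h4 := hy1.symm.comp (Sum.elim (fun r => Sum.inr r)
        (fun r => Sum.inl (Sum.inl r)) : Fin 1 ⊕ Fin q → _)
      convert h4 using 1
      · funext r
        rcases r with r | r <;> rfl
      · funext r
        rcases r with r | r <;> rfl
    obtain ⟨x', hx'⟩ := P.stp_ext hN hN (hc' i) x1
    have h7 : STp (L := lang D) (Sum.elim x1 (c i)) (Sum.elim x' bb) := by
      have h4 := hx'.comp (Sum.elim (fun r => Sum.inr r)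
        (fun r => Sum.inl (Sum.inl r)) : Fin 1 ⊕ Fin (Nat.card ι) → _)
      convert h4 using 1
      · funext r
        rcases r with r | r <;> rfl
      · funext r
        rcases r with r | r <;> rfl
    have h8 : STp (L := lang D) (Sum.elim x1 a0) (Sum.elim x' a0) := by
      have h4 := hx'.comp (Sum.elim (fun r => Sum.inr r)
        (fun r => Sum.inl (Sum.inr r)) : Fin 1 ⊕ Fin q → _)
      convert h4 using 1
      · funext r
        rcases r with r | r <;> rfl
      · funext r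
        rcases r with r | r <;> rfl
    have h9 : STp (L := lang D) (Sum.elim x bb) (Sum.elim x1 (c i)) :=
      hs.symm.trans ((P.rho_iff s hN _).1 (hx1 i hi))
    exact F2 x' (h9.trans h7) q a0 ha0 (h6.of_stp h8)

end

end Run7.h540
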