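import Pool.Agent.Run7.h520.FM

/-! Simplicity: geometries with a relative rank, and local character of forking. -/

namespace Run7.h540

open FirstOrder FirstOrder.Language

/-- A geometry with a relative rank of tuples. -/
structure RGeo (D : Type) extends Geo D where
  rk : ∀ {α β : Type}, (α → D) → (β → D) → ℕ
  rk_le : ∀ {α β : Type} [Finite α] [Finite β] (u : α → D) (t : β → D), rk u t ≤ Nat.card α
  rk_inv : ∀ {α β : Type} [Finite α] [Finite β] {u u' : α → D} {t t' : β → D},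
    Sim (Sum.elim u t) (Sum.elim u' t') → rk u t = rk u' t'
  rk_comp : ∀ {α β γ : Type} [Finite α] [Finite β] [Finite γ] (u : α → D) (t : β → D)
    (g : γ → β), rk u t ≤ rk u (t ∘ g)
  rk_ext : ∀ {α β γ : Type} [Finite α] [Finite β] [Finite γ] (u : α → D) (t : β → D)
    (e : γ → D), ∃ u' : α → D, rk u' (Sum.elim t e) = rk u t ∧
      Sim (Sum.elim u' t) (Sum.elim u t)
  rk_pair : ∀ {α β γ : Type} [Finite α] [Finite β] [Finite γ] (u : ℕ → α → D) (t : ℕ → β → D)
    (o : γ → β), (∀ n k, t n (o k) = t 0 (o k)) → rk (u 0) (t 0) = rk (u 0) (t 0 ∘ o) →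
    (∀ i, Sim (Sum.elim (u i) (t i)) (Sum.elim (u 0) (t 0))) →
      ∃ i j : ℕ, i ≠ j ∧ ∃ u' : α → D, rk u' (Sum.elim (t i) (t j)) = rk (u 0) (t 0) ∧
        Sim (Sum.elim u' (t i)) (Sum.elim (u 0) (t 0)) ∧
        Sim (Sum.elim u' (t j)) (Sum.elim (u 0) (t 0))

/-- `T` is supersimple: every type of a finite tuple does not fork over a finite subset of its
domain. -/
def Supersimple {L : FirstOrder.Language.{0, 0}} (T : L.Theory) : Prop :=
  ∀ (N : Type) [L.Structure N], N ⊨ T → ∀ (n : ℕ) (x : Fin n → N) (B : Set N),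
    ∃ B0 ⊆ B, B0.Finite ∧ ∀ (m : ℕ) (φ : L.Formula (Fin n ⊕ Fin m)) (b : Fin m → N),
      (∀ i, b i ∈ B) → φ.Realize (Sum.elim x b) → ¬ Forks B0 φ b

section

variable {D : Type} (P : RGeo D) {α β γ : Type}

theorem RGeo.gen_seq_aux [Finite α] [Finite γ] (m : ℕ) : ∀ (β : Type) [Finite β]
    (c : ℕ → β → D) (o : γ → β) (_ : ∀ n k, c n (o k) = c 0 (o k))
    (_ : ∀ i, P.Sim (c i) (c 0)) (u : α → D) (_ : P.rk u (c 0) = P.rk u (c 0 ∘ o)),
    ∃ s : Finset ℕ, s.card = 2 ^ m ∧ ∃ u' : α → D,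
      ∀ i ∈ s, P.Sim (Sum.elim u' (c i)) (Sum.elim u (c 0)) := by
  induction m with
  | zero =>
    intro β _ c _ _ _ u _
    refine ⟨{0}, by simp, u, ?_⟩
    intro i hi
    rw [Finset.mem_singleton.1 hi]
    exact P.refl _
  | succ m ih =>
    intro β _ c o ho hc u hu
    choose v hv using fun i => P.toGeo.forth' (P.symm (hc i)) u
    have ecomp : ∀ (u : α → D) (t : β → D), Sum.elim u t ∘ (Sum.map id o) = Sum.elim u (t ∘ o) := by
      intro u t
      funext i
      rcases i with i | i <;> rfl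
    have hvo : ∀ p, P.rk (v p) (c p) = P.rk (v p) (c p ∘ o) := by
      intro p
      have h1 := P.rk_inv (hv p)
      have h2 := P.comp (Sum.map id o) (hv p)
      rw [ecomp, ecomp] at h2
      have h3 := P.rk_inv h2
      rw [← h1, ← h3, hu]
    -- pairs inside the blocks
    have hblock : ∀ b : ℕ, ∃ i j : ℕ, i ≠ j ∧ ∃ u' : α → D,
        P.rk u' (Sum.elim (c (Nat.pair b i)) (c (Nat.pair b j))) = P.rk u (c 0) ∧
        P.Sim (Sum.elim u' (c (Nat.pair b i))) (Sum.elim u (c 0)) ∧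
        P.Sim (Sum.elim u' (c (Nat.pair b j))) (Sum.elim u (c 0)) := by
      intro b
      obtain ⟨i, j, hij, u', h1, h2, h3⟩ := P.rk_pair (fun i => v (Nat.pair b i))
        (fun i => c (Nat.pair b i)) o (fun n k => (ho _ k).trans (ho _ k).symm) (hvo _)
        (fun i => P.trans (P.symm (hv _)) (hv _))
      refine ⟨i, j, hij, u', ?_, P.trans h2 (P.symm (hv _)), P.trans h3 (P.symm (hv _))⟩
      rw [h1]
      exact (P.rk_inv (hv _)).symm
    choose I J hIJ w hw1 hw2 hw3 using hblock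
    obtain ⟨f, hf, hf2⟩ := P.toGeo.same_class (fun b => Sum.elim (w b)
      (Sum.elim (c (Nat.pair b (I b))) (c (Nat.pair b (J b)))))
    have hbase : P.rk (w (f 0)) (Sum.elim (c (Nat.pair (f 0) (I (f 0))))
        (c (Nat.pair (f 0) (J (f 0))))) = P.rk (w (f 0)) (Sum.elim (c (Nat.pair (f 0) (I (f 0))))
        (c (Nat.pair (f 0) (J (f 0)))) ∘ (Sum.inl ∘ o)) := by
      rw [hw1, hu]
      have h2 := P.comp (Sum.map id o) (hw2 (f 0))
      rw [ecomp, ecomp] at h2
      exact (P.rk_inv h2).symm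
    obtain ⟨s, hs, u', hu'⟩ := ih (β ⊕ β)
      (fun n => Sum.elim (c (Nat.pair (f n) (I (f n)))) (c (Nat.pair (f n) (J (f n)))))
      (Sum.inl ∘ o) (fun n k => (ho _ k).trans (ho _ k).symm)
      (fun n => P.toGeo.right (hf2 n)) (w (f 0)) hbase
    let i1 : ℕ → ℕ := fun n => Nat.pair (f n) (I (f n))
    let i2 : ℕ → ℕ := fun n => Nat.pair (f n) (J (f n))
    have hi1 : Function.Injective i1 := fun a b hab => hf.injective (Nat.pair_eq_pair.1 hab).1
    have hi2 : Function.Injective i2 := fun a b hab => hf.injective (Nat.pair_eq_pair.1 hab).1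
    refine ⟨s.map ⟨i1, hi1⟩ ∪ s.map ⟨i2, hi2⟩, ?_, u', ?_⟩
    · rw [Finset.card_union_of_disjoint, Finset.card_map, Finset.card_map, hs, pow_succ, mul_two]
      rw [Finset.disjoint_left]
      intro x hx hx'
      obtain ⟨a, _, rfl⟩ := Finset.mem_map.1 hx
      obtain ⟨b, _, hb⟩ := Finset.mem_map.1 hx'
      have h1 : Nat.pair (f b) (J (f b)) = Nat.pair (f a) (I (f a)) := hb
      obtain ⟨h2, h3⟩ := Nat.pair_eq_pair.1 h1
      have h4 := hf.injective h2
      subst h4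
      exact hIJ _ h3.symm
    · intro i hi
      rcases Finset.mem_union.1 hi with hi | hi
      · obtain ⟨a, ha, rfl⟩ := Finset.mem_map.1 hi
        have h1 := P.comp (Sum.map id Sum.inl) (hu' a ha)
        have e : ∀ (u : α → D) (x y : β → D), Sum.elim u (Sum.elim x y) ∘ (Sum.map id Sum.inl) =
            Sum.elim u x := by
          intro u x y
          funext i
          rcases i with i | i <;> rfl
        rw [e, e] at h1
        exact P.trans h1 (hw2 _)
      · obtain ⟨a, ha, rfl⟩ := Finset.mem_map.1 hi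
        have h1 := P.comp (Sum.map id Sum.inr) (hu' a ha)
        have e : ∀ (u : α → D) (x y : β → D), Sum.elim u (Sum.elim x y) ∘ (Sum.map id Sum.inr) =
            Sum.elim u y := by
          intro u x y
          funext i
          rcases i with i | i <;> rfl
        rw [e, e] at h1
        exact P.trans h1 (hw3 _)

theorem RGeo.gen_seq [Finite α] [Finite β] [Finite γ] (c : ℕ → β → D) (o : γ → β)
    (ho : ∀ n k, c n (o k) = c 0 (o k)) (hc : ∀ i, P.Sim (c i) (c 0))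
    (u : α → D) (hu : P.rk u (c 0) = P.rk u (c 0 ∘ o)) (k : ℕ) :
    ∃ s : Finset ℕ, s.card = k ∧ ∃ u' : α → D,
      ∀ i ∈ s, P.Sim (Sum.elim u' (c i)) (Sum.elim u (c 0)) := by
  obtain ⟨s, hs, u', hu'⟩ := P.gen_seq_aux k β c o ho hc u hu
  obtain ⟨s', hs', hs''⟩ := Finset.exists_subset_card_eq (s := s) (n := k)
    (by rw [hs]; exact Nat.lt_two_pow_self.le)
  exact ⟨s', hs'', u', fun i hi => hu' i (hs' hi)⟩

theorem sameType_stp {L : FirstOrder.Language.{0, 0}} {N : Type} [L.Structure N] [Finite β]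
    {A : Set N} {m : ℕ} {b c : Fin m → N} (h : SameType (L := L) A b c) (a : β → N)
    (ha : ∀ i, a i ∈ A) : STp (L := L) (Sum.elim b a) (Sum.elim c a) := by
  have h1 := (sameType_iff b c).1 h (Nat.card β) (a ∘ (Finite.equivFin β).symm)
    (fun i => ha _)
  have h2 := h1.comp (Sum.map id (Finite.equivFin β))
  have e : ∀ b : Fin m → N, Sum.elim b (a ∘ (Finite.equivFin β).symm) ∘
      (Sum.map id (Finite.equivFin β)) = Sum.elim b a := by
    intro b
    funext i
    rcases i with i | i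
    · rfl
    · simp
  rwa [e, e] at h2

theorem RGeo.not_divides [Finite γ] {N : Type} [(lang D).Structure N] (hN : N ⊨ P.T) {n m : ℕ}
    (A : Set N) (φ : (lang D).Formula (Fin n ⊕ Fin m)) (b : Fin m → N) (a : γ → N)
    (ha : ∀ i, a i ∈ A) (u : Fin n → P.Car) (b' : Fin m → P.Car) (a' : γ → P.Car)
    (hb : STp (L := lang D) (Sum.elim b' a') (Sum.elim b a))
    (hu : P.rk u (Sum.elim b' a') = P.rk u a')
    (hφ : φ.Realize (Sum.elim u b')) : ¬ Divides A φ b := by
  rintro ⟨N'', _, j, c, k, hc, hk⟩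
  have hN'' := P.model_of_emb hN j
  let cp : ℕ → Fin m ⊕ γ → N'' := fun i => Sum.elim (c i) (j ∘ a)
  have hc1 : ∀ i, STp (L := lang D) (Sum.elim b' a') (cp i) := by
    intro i
    have h1 := sameType_stp (hc i) (j ∘ a) (fun i => ⟨a i, ha i, rfl⟩)
    have h2 := STp.map (L := lang D) j (Sum.elim b a)
    rw [Sum.comp_elim] at h2
    exact (hb.trans h2).trans h1
  obtain ⟨c', hc'⟩ := P.seq_transfer hN'' cp
  have hc'1 : ∀ i, STp (L := lang D) (c' i) (cp i) := by
    intro i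
    exact (hc' (i + 1)).comp (fun x => ((⟨i, Nat.lt_succ_self i⟩ : Fin (i + 1)), x))
  have hc'2 : ∀ i, P.Sim (c' i) (Sum.elim b' a') := fun i =>
    (P.sim_iff _ _).2 ((hc'1 i).trans (hc1 i).symm)
  have hbase : ∀ n k, c' n (Sum.inr k) = c' 0 (Sum.inr k) := by
    intro n k
    exact (hc' (n + 1)).symm.eq
      (i := ((⟨n, Nat.lt_succ_self n⟩ : Fin (n + 1)), (Sum.inr k : Fin m ⊕ γ)))
      (j := ((⟨0, Nat.succ_pos n⟩ : Fin (n + 1)), (Sum.inr k : Fin m ⊕ γ))) rfl
  obtain ⟨u0, hu0⟩ : ∃ u0 : Fin n → P.Car,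
      P.Sim (Sum.elim u (Sum.elim b' a')) (Sum.elim u0 (c' 0)) :=
    P.toGeo.forth' (P.symm (hc'2 0)) u
  have hu0' : P.rk u0 (c' 0) = P.rk u0 (c' 0 ∘ Sum.inr) := by
    have h1 := P.rk_inv hu0
    have h2 := (show P.S (Sum.elim u (Sum.elim b' a')) (Sum.elim u0 (c' 0)) from hu0).comp
      (Sum.map id Sum.inr : Fin n ⊕ γ → Fin n ⊕ (Fin m ⊕ γ))
    have e1 : Sum.elim u (Sum.elim b' a') ∘ (Sum.map id Sum.inr) = Sum.elim u a' := by
      funext i
      rcases i with i | i <;> rfl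
    have e2 : Sum.elim u0 (c' 0) ∘ (Sum.map id Sum.inr) = Sum.elim u0 (c' 0 ∘ Sum.inr) := by
      funext i
      rcases i with i | i <;> rfl
    rw [e1, e2] at h2
    have h3 := P.rk_inv h2
    exact h1.symm.trans (hu.trans h3)
  obtain ⟨s, hs, u', hu'⟩ : ∃ s : Finset ℕ, s.card = k ∧ ∃ u' : Fin n → P.Car,
      ∀ i ∈ s, P.Sim (Sum.elim u' (c' i)) (Sum.elim u0 (c' 0)) :=
    P.gen_seq c' Sum.inr hbase (fun i => P.trans (hc'2 i) (P.symm (hc'2 0))) u0 hu0' k
  obtain ⟨x, hx⟩ := P.stp_ext P.model hN'' (hc' (s.sup id + 1)) u'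
  refine hk s hs ⟨x, ?_⟩
  intro i hi
  have hi' : i < s.sup id + 1 := Nat.lt_succ_of_le (Finset.le_sup (f := id) hi)
  have h1 := hx.comp (Sum.elim (fun a => Sum.inr a) (fun y => Sum.inl
    ((⟨i, hi'⟩ : Fin (s.sup id + 1)), (Sum.inl y : Fin m ⊕ γ))) : Fin n ⊕ Fin m → _)
  have e1 : Sum.elim (fun p : Fin (s.sup id + 1) × (Fin m ⊕ γ) => c' p.1 p.2) u' ∘
      (Sum.elim (fun a => Sum.inr a) (fun y => Sum.inl
      ((⟨i, hi'⟩ : Fin (s.sup id + 1)), (Sum.inl y : Fin m ⊕ γ))) : Fin n ⊕ Fin m → _) =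
      Sum.elim u' (c' i ∘ Sum.inl) := by
    funext y
    rcases y with y | y <;> rfl
  have e2 : Sum.elim (fun p : Fin (s.sup id + 1) × (Fin m ⊕ γ) => cp p.1 p.2) x ∘
      (Sum.elim (fun a => Sum.inr a) (fun y => Sum.inl
      ((⟨i, hi'⟩ : Fin (s.sup id + 1)), (Sum.inl y : Fin m ⊕ γ))) : Fin n ⊕ Fin m → _) =
      Sum.elim x (c i) := by
    funext y
    rcases y with y | y <;> rfl
  rw [e1, e2] at h1
  have h2 : P.S (Sum.elim u' (c' i)) (Sum.elim u (Sum.elim b' a')) :=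
    P.trans (hu' i hi) (P.symm hu0)
  have h3 := h2.comp (Sum.map id Sum.inl)
  have e3 : Sum.elim u' (c' i) ∘ (Sum.map id Sum.inl) = Sum.elim u' (c' i ∘ Sum.inl) := by
    funext y
    rcases y with y | y <;> rfl
  have e4 : Sum.elim u (Sum.elim b' a') ∘ (Sum.map id Sum.inl) = Sum.elim u b' := by
    funext y
    rcases y with y | y <;> rfl
  rw [e3, e4] at h3
  exact (h1 φ).1 ((P.inv h3 φ).2 hφ)

theorem RGeo.not_forks [Finite γ] {N : Type} [(lang D).Structure N] (hN : N ⊨ P.T) {n m : ℕ}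
    (A : Set N) (φ : (lang D).Formula (Fin n ⊕ Fin m)) (b : Fin m → N) (a : γ → N)
    (ha : ∀ i, a i ∈ A) (u : Fin n → P.Car) (b' : Fin m → P.Car) (a' : γ → P.Car)
    (hb : STp (L := lang D) (Sum.elim b' a') (Sum.elim b a))
    (hu : P.rk u (Sum.elim b' a') = P.rk u a')
    (hφ : φ.Realize (Sum.elim u b')) : ¬ Forks A φ b := by
  rintro ⟨N', _, j, r, l, ψ, c, hcov, hdiv⟩
  have hN' := P.model_of_emb hN j
  let cc : (Σ i : Fin r, Fin (l i)) → N' := fun p => c p.1 p.2
  have h0 : STp (L := lang D) (Sum.elim b' a') (Sum.elim (j ∘ b) (j ∘ a)) := by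
    have h2 := STp.map (L := lang D) j (Sum.elim b a)
    rw [Sum.comp_elim] at h2
    exact hb.trans h2
  obtain ⟨c1, hc1⟩ := P.stp_ext hN' P.model h0.symm cc
  obtain ⟨u2, hu2, hu2'⟩ : ∃ u2 : Fin n → P.Car,
      P.rk u2 (Sum.elim (Sum.elim b' a') c1) = P.rk u (Sum.elim b' a') ∧
      P.Sim (Sum.elim u2 (Sum.elim b' a')) (Sum.elim u (Sum.elim b' a')) :=
    P.rk_ext u (Sum.elim b' a') c1
  obtain ⟨x, hx⟩ := P.stp_ext P.model hN' hc1.symm u2
  have h3 : P.S (Sum.elim u2 (Sum.elim b' a')) (Sum.elim u (Sum.elim b' a')) := hu2'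
  have h3b := h3.comp (Sum.map id Sum.inl)
  have h3a := h3.comp (Sum.map id Sum.inr)
  have e1 : ∀ (u : Fin n → P.Car), Sum.elim u (Sum.elim b' a') ∘ (Sum.map id Sum.inl) =
      Sum.elim u b' := by
    intro u
    funext y
    rcases y with y | y <;> rfl
  have e2 : ∀ (u : Fin n → P.Car), Sum.elim u (Sum.elim b' a') ∘ (Sum.map id Sum.inr) =
      Sum.elim u a' := by
    intro u
    funext y
    rcases y with y | y <;> rfl
  rw [e1, e1] at h3b
  rw [e2, e2] at h3a
  have h4 : STp (L := lang D) (Sum.elim u2 b') (Sum.elim x (j ∘ b)) := by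
    have := hx.comp (Sum.elim (fun a => Sum.inr a) (fun y => Sum.inl (Sum.inl (Sum.inl y))) :
      Fin n ⊕ Fin m → _)
    convert this using 1
    · funext y
      rcases y with y | y <;> rfl
    · funext y
      rcases y with y | y <;> rfl
  obtain ⟨i, hi⟩ := hcov x ((h4 φ).1 ((P.inv h3b φ).2 hφ))
  have h5 : STp (L := lang D) (Sum.elim u2 (Sum.elim (fun y => c1 ⟨i, y⟩) a'))
      (Sum.elim x (Sum.elim (c i) (j ∘ a))) := by
    have := hx.comp (Sum.elim (fun a => Sum.inr a)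
      (Sum.elim (fun y => Sum.inl (Sum.inr ⟨i, y⟩)) (fun y => Sum.inl (Sum.inl (Sum.inr y)))) :
      Fin n ⊕ (Fin (l i) ⊕ γ) → _)
    convert this using 1
    · funext y
      rcases y with y | y | y <;> rfl
    · funext y
      rcases y with y | y | y <;> rfl
  have h6 : P.rk u2 (Sum.elim (fun y : Fin (l i) => c1 ⟨i, y⟩) a') = P.rk u2 a' := by
    apply le_antisymm
    · have := P.rk_comp u2 (Sum.elim (fun y : Fin (l i) => c1 ⟨i, y⟩) a')
        (Sum.inr : γ → Fin (l i) ⊕ γ)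
      exact this
    · have h7 := P.rk_comp u2 (Sum.elim (Sum.elim b' a') c1) (Sum.elim
        (fun y => Sum.inr ⟨i, y⟩) (fun y => Sum.inl (Sum.inr y)) : Fin (l i) ⊕ γ → _)
      have e3 : Sum.elim (Sum.elim b' a') c1 ∘ (Sum.elim
          (fun y => Sum.inr ⟨i, y⟩) (fun y => Sum.inl (Sum.inr y)) : Fin (l i) ⊕ γ → _) =
          Sum.elim (fun y : Fin (l i) => c1 ⟨i, y⟩) a' := by
        funext y
        rcases y with y | y <;> rfl
      have h8 : P.rk u2 a' = P.rk u a' := P.rk_inv h3a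
      have h7' : P.rk u2 (Sum.elim (Sum.elim b' a') c1) ≤
          P.rk u2 (Sum.elim (fun y : Fin (l i) => c1 ⟨i, y⟩) a') :=
        h7.trans_eq (congrArg (P.rk u2) e3)
      exact (h8.trans (hu.symm.trans hu2.symm)).trans_le h7'
  have h9 : STp (L := lang D) (Sum.elim u2 (fun y => c1 ⟨i, y⟩)) (Sum.elim x (c i)) := by
    have := h5.comp (Sum.map id Sum.inl)
    convert this using 1
    · funext y
      rcases y with y | y <;> rfl
    · funext y
      rcases y with y | y <;> rfl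
  exact P.not_divides hN' (j '' A) (ψ i) (c i) (j ∘ a) (fun k => ⟨a k, ha k, rfl⟩) u2
    (fun y => c1 ⟨i, y⟩) a' (h5.comp Sum.inr) h6 ((h9 (ψ i)).2 hi) (hdiv i)

/-- the rank of a tuple in a model -/
theorem RGeo.supersimple : Supersimple P.T := by
  intro N _ hN n x B
  -- the ranks which occur
  let Rk : ℕ → Prop := fun r => ∃ (β : Type) (_ : Finite β) (a : β → N) (_ : ∀ i, a i ∈ B)
    (u : Fin n → P.Car) (a' : β → P.Car),
    STp (L := lang D) (Sum.elim u a') (Sum.elim x a) ∧ P.rk u a' = r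
  have hex : ∃ r, Rk r := by
    obtain ⟨s, hs⟩ := P.cov hN (Sum.elim x (fun i : Fin 0 => i.elim0))
    obtain ⟨u, b', rfl⟩ : ∃ (u : Fin n → P.Car) (b' : Fin 0 → P.Car), s = Sum.elim u b' :=
      ⟨s ∘ Sum.inl, s ∘ Sum.inr, (Sum.elim_comp_inl_inr s).symm⟩
    exact ⟨_, Fin 0, inferInstance, fun i => i.elim0, fun i => i.elim0, u, b', hs, rfl⟩
  classical
  obtain ⟨β, hβ, a, ha, u, a', hua, hr⟩ := Nat.find_spec hex
  refine ⟨Set.range a, ?_, Set.finite_range a, ?_⟩
  · rintro _ ⟨i, rfl⟩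
    exact ha i
  intro m φ b hb hφ
  obtain ⟨b', hb'⟩ := P.stp_ext hN P.model hua.symm b
  have h1 : STp (L := lang D) (Sum.elim u (Sum.elim b' a')) (Sum.elim x (Sum.elim b a)) := by
    have := hb'.symm.comp (Sum.elim (fun y => Sum.inl (Sum.inl y))
      (Sum.elim (fun y => Sum.inr y) (fun y => Sum.inl (Sum.inr y))) : Fin n ⊕ (Fin m ⊕ β) → _)
    convert this using 1
    · funext y
      rcases y with y | y | y <;> rfl
    · funext y
      rcases y with y | y | y <;> rfl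
  have h2 : P.rk u (Sum.elim b' a') = P.rk u a' := by
    apply le_antisymm
    · have := P.rk_comp u (Sum.elim b' a') (Sum.inr : β → Fin m ⊕ β)
      exact this
    · rw [hr]
      apply Nat.find_min' hex
      refine ⟨Fin m ⊕ β, inferInstance, Sum.elim b a, ?_, u, Sum.elim b' a', h1, rfl⟩
      rintro (i | i)
      · exact hb i
      · exact ha i
  have h3 : STp (L := lang D) (Sum.elim u b') (Sum.elim x b) := by
    have := h1.comp (Sum.map id Sum.inl)
    convert this using 1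
    · funext y
      rcases y with y | y <;> rfl
    · funext y
      rcases y with y | y <;> rfl
  exact P.not_forks hN (Set.range a) φ b a (fun i => ⟨i, rfl⟩) u b' a' (h1.comp Sum.inr) h2
    ((h3 φ).2 hφ)

end

end Run7.h540
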