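import Pool.Agent.Run7.h520.FS1

/-! The stable forking conjecture fails. -/

namespace Run7.h540

open FirstOrder FirstOrder.Language

theorem RGeo.main {D : Type} (P : RGeo D) :
    ∃ (L : FirstOrder.Language.{0, 0}) (T : L.Theory), T.IsComplete ∧ Supersimple T ∧
      ∃ (N : Type) (_ : L.Structure N), N ⊨ T ∧ ∃ a b : Fin 101 → N,
        (∃ φ : L.Formula (Fin 101 ⊕ Fin 101), φ.Realize (Sum.elim a b) ∧ Forks ∅ φ b) ∧
        ∀ φ : L.Formula (Fin 101 ⊕ Fin 101), Stable T φ → φ.Realize (Sum.elim a b) →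
          ¬ Forks ∅ φ b := by
  obtain ⟨pu, pv, ⟨φ, h1, h2⟩, h3⟩ := P.toGeo.witness
  exact ⟨lang D, P.T, P.isComplete, P.supersimple, P.Car, inferInstance, P.model, pu, pv,
    ⟨φ, h1, h2.forks⟩, fun φ hst hφ => h3 101 φ pv (fun i => ⟨i, rfl⟩) hst hφ⟩

end Run7.h540
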