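import Pool.Agent.Run7.h520.Travel

/-!
# Orthonormal frames and profiles of bodies
-/

namespace Run7.h520

open Set

/-- An orthonormal frame of the plane. -/
structure Frame (m n : Plane) : Prop where
  mm : inner ℝ m m = (1 : ℝ)
  nn : inner ℝ n n = (1 : ℝ)
  mn : inner ℝ m n = (0 : ℝ)
  dec : ∀ z : Plane, z = (inner ℝ m z : ℝ) • m + (inner ℝ n z : ℝ) • n

/-- The point with coordinates `x`, `y` in the frame `(m, n)`. -/
noncomputable def pt (m n : Plane) (x y : ℝ) : Plane := x • m + y • n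

theorem exists_frame {n : Plane} (hn : ‖n‖ = 1) : ∃ m : Plane, Frame m n := by
  have hn2 : n 0 ^ 2 + n 1 ^ 2 = 1 := by
    have := EuclideanSpace.norm_sq_eq n
    rw [hn] at this
    simp [Fin.sum_univ_two] at this
    linarith
  refine ⟨!₂[n 1, - n 0], ?_, ?_, ?_, ?_⟩
  · rw [real_inner_self_eq_norm_sq, EuclideanSpace.norm_sq_eq]
    simp [Fin.sum_univ_two]
    linarith
  · rw [real_inner_self_eq_norm_sq, hn]
    norm_num
  · simp [PiLp.inner_apply, Fin.sum_univ_two]
    ring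
  · intro z
    ext i
    fin_cases i
    · simp [PiLp.inner_apply, Fin.sum_univ_two]
      linear_combination (-(z 0)) * hn2
    · simp [PiLp.inner_apply, Fin.sum_univ_two]
      linear_combination (-(z 1)) * hn2

namespace Frame

variable {m n : Plane} (h : Frame m n)

include h

theorem neg_left : Frame (-m) n := by
  refine ⟨by simpa using h.mm, h.nn, by simpa using h.mn, fun z => ?_⟩
  have := h.dec z
  simpa using this

theorem neg_right : Frame m (-n) := by
  refine ⟨h.mm, by simpa using h.nn, by simpa using h.mn, fun z => ?_⟩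
  have := h.dec z
  simpa using this

theorem nm : inner ℝ n m = (0 : ℝ) := by rw [real_inner_comm]; exact h.mn

theorem inner_m_pt (x y : ℝ) : inner ℝ m (pt m n x y) = x := by
  rw [pt, inner_add_right, inner_smul_right, inner_smul_right, h.mn, h.mm]
  ring

theorem inner_n_pt (x y : ℝ) : inner ℝ n (pt m n x y) = y := by
  rw [pt, inner_add_right, inner_smul_right, inner_smul_right, h.nm, h.nn]
  ring

theorem eq_pt (z : Plane) : z = pt m n (inner ℝ m z) (inner ℝ n z) := h.dec z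

theorem norm_sq_pt (x y : ℝ) : ‖pt m n x y‖ ^ 2 = x ^ 2 + y ^ 2 := by
  rw [← real_inner_self_eq_norm_sq]
  simp only [pt, inner_add_right, inner_add_left, inner_smul_right, inner_smul_left, h.mn, h.mm,
    h.nn, h.nm]
  simp
  ring

theorem norm_m : ‖m‖ = 1 := by
  have := real_inner_self_eq_norm_sq m
  rw [h.mm] at this
  nlinarith [norm_nonneg m]

theorem norm_n : ‖n‖ = 1 := by
  have := real_inner_self_eq_norm_sq n
  rw [h.nn] at this
  nlinarith [norm_nonneg n]

theorem norm_pt_le (x y : ℝ) : ‖pt m n x y‖ ≤ |x| + |y| := by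
  unfold pt
  refine (norm_add_le _ _).trans ?_
  rw [norm_smul, norm_smul, h.norm_m, h.norm_n]
  simp

theorem dist_pt (x y x' y' : ℝ) :
    dist (pt m n x y) (pt m n x' y') ^ 2 = (x - x') ^ 2 + (y - y') ^ 2 := by
  rw [dist_eq_norm]
  have : pt m n x y - pt m n x' y' = pt m n (x - x') (y - y') := by
    simp only [pt, sub_smul]; abel
  rw [this, h.norm_sq_pt]

theorem dist_vert (x y y' : ℝ) : dist (pt m n x y) (pt m n x y') = |y - y'| := by
  have := h.dist_pt x y x y'
  rw [sub_self, zero_pow two_ne_zero, zero_add, ← sq_abs (y - y')] at this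
  exact (pow_left_inj₀ dist_nonneg (abs_nonneg _) two_ne_zero).mp this

theorem segment_vert (x y₁ y₂ : ℝ) (z : Plane) (hz : z ∈ segment ℝ (pt m n x y₂) (pt m n x y₁))
    (h12 : y₁ ≤ y₂) : ∃ y ∈ Icc y₁ y₂, z = pt m n x y := by
  obtain ⟨a, b, ha, hb, hab, rfl⟩ := hz
  have hab' : a = 1 - b := by linarith
  subst hab'
  refine ⟨(1 - b) * y₂ + b * y₁, ⟨?_, ?_⟩, ?_⟩
  · nlinarith
  · nlinarith
  · skip
    simp only [pt]
    module

/-- Free travelling along a vertical line. -/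
theorem reach_vert {F : Set Plane} (x : ℝ) : ∀ y₁ y₂ : ℝ, y₁ ≤ y₂ →
    (∀ y ∈ Icc y₁ y₂, pt m n x y ∈ F) → Reach F (pt m n x y₂) (pt m n x y₁) (y₂ - y₁) := by
  intro y₁ y₂ h12 hF
  have : Reach F (pt m n x y₂) (pt m n x y₁) (dist (pt m n x y₂) (pt m n x y₁)) := by
    apply Reach.of_segment
    intro z hz
    obtain ⟨y, hy, rfl⟩ := h.segment_vert x y₁ y₂ z hz h12
    exact hF y hy
  rwa [h.dist_vert, abs_of_nonneg (by linarith)] at this

omit h in
theorem continuous_pt (m n : Plane) : Continuous (fun p : ℝ × ℝ => pt m n p.1 p.2) := by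
  unfold pt
  fun_prop

end Frame

/-- The data about a body `K` in the frame `(m, n)` that the averaging argument uses: the chords
on the lines parallel to `n`, and lengths of polygonal paths in the boundary of `K` that join the
ends of the chords. -/
structure Profile (m n : Plane) (L : ℝ) (K : Set Plane) where
  c : ℝ
  e : ℝ
  lo : ℝ → ℝ
  hi : ℝ → ℝ
  af : ℝ → ℝ
  cf : ℝ → ℝ
  e_pos : 0 < e
  af_cont : Continuous af
  cf_cont : Continuous cf
  lt : ∀ x ∈ Ioo (c - e) (c + e), lo x < hi x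
  chord : ∀ x ∈ Ioo (c - e) (c + e), hi x - lo x = cf |x - c|
  int_iff : ∀ x y : ℝ, pt m n x y ∈ interior K ↔ x ∈ Ioo (c - e) (c + e) ∧ lo x < y ∧ y < hi x
  ext : ∀ x y : ℝ, pt m n x y ∈ K → x ∈ Icc (c - e) (c + e)
  range : ∀ x y : ℝ, pt m n x y ∈ K → x ∈ Ioo (c - e) (c + e) → lo x ≤ y ∧ y ≤ hi x
  reachL : ∀ x' ∈ Ioo (c - e) (c + e), ∀ x ∈ Ioo (c - e) (c + e), x' ≤ x → x ≤ c →
    ∃ l ≤ af |x - c| - (x - x'), Reach (K \ interior K) (pt m n x' (hi x')) (pt m n x (lo x)) l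
  reachR : ∀ x' ∈ Ioo (c - e) (c + e), ∀ x ∈ Ioo (c - e) (c + e), x ≤ x' → c ≤ x →
    ∃ l ≤ af |x - c| - (x' - x), Reach (K \ interior K) (pt m n x' (hi x')) (pt m n x (lo x)) l
  bound : ∫ t in (0 : ℝ)..e, af t ≤ L * ∫ t in (0 : ℝ)..e, cf t

namespace Profile

variable {m n : Plane} {L : ℝ} {K : Set Plane} (P : Profile m n L K)

theorem reach (x : ℝ) (hx : x ∈ Ioo (P.c - P.e) (P.c + P.e)) :
    ∃ l ≤ P.af |x - P.c|, Reach (K \ interior K) (pt m n x (P.hi x)) (pt m n x (P.lo x)) l := by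
  rcases le_total x P.c with h | h
  · obtain ⟨l, hl, hR⟩ := P.reachL x hx x hx le_rfl h
    exact ⟨l, by linarith, hR⟩
  · obtain ⟨l, hl, hR⟩ := P.reachR x hx x hx le_rfl h
    exact ⟨l, by linarith, hR⟩

theorem mem_hi (x : ℝ) (hx : x ∈ Ioo (P.c - P.e) (P.c + P.e)) : pt m n x (P.hi x) ∈ K := by
  obtain ⟨l, _, hR⟩ := P.reach x hx
  exact hR.left_mem.1

theorem mem_lo (x : ℝ) (hx : x ∈ Ioo (P.c - P.e) (P.c + P.e)) : pt m n x (P.lo x) ∈ K := by
  obtain ⟨l, _, hR⟩ := P.reach x hx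
  exact hR.right_mem.1

end Profile

end Run7.h520
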