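import Mathlib

/-!
# A compactly supported weight with small second differences
-/

namespace Run7.h520

open Set MeasureTheory

/-- The weight `max(0, 1 - u²)²`. -/
noncomputable def bump (u : ℝ) : ℝ := (max 0 (1 - u ^ 2)) ^ 2

theorem bump_nonneg (u : ℝ) : 0 ≤ bump u := by unfold bump; positivity

theorem bump_continuous : Continuous bump := by unfold bump; fun_prop

theorem bump_eq_zero {u : ℝ} (h : 1 ≤ |u|) : bump u = 0 := by
  have : 1 ≤ u ^ 2 := by
    rw [← sq_abs]; nlinarith [abs_nonneg u]
  unfold bump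
  rw [max_eq_left (by linarith)]
  norm_num

theorem bump_half {u : ℝ} (h : |u| ≤ 1 / 2) : 1 / 2 ≤ bump u := by
  have : u ^ 2 ≤ 1 / 4 := by
    rw [← sq_abs]; nlinarith [abs_nonneg u]
  unfold bump
  rw [max_eq_right (by linarith)]
  nlinarith

private theorem sq_pos_part_upper (a q : ℝ) :
    (max 0 (a - q)) ^ 2 + (max 0 (a + q)) ^ 2 ≤ 2 * (max 0 a) ^ 2 + 2 * q ^ 2 := by
  rcases le_total 0 (a - q) with h1 | h1 <;> rcases le_total 0 (a + q) with h2 | h2 <;>
    rcases le_total 0 a with h3 | h3 <;>
    simp only [max_eq_left, max_eq_right, h1, h2, h3] <;> nlinarith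

private theorem sq_pos_part_lower (a q : ℝ) :
    2 * (max 0 a) ^ 2 ≤ (max 0 (a - q)) ^ 2 + (max 0 (a + q)) ^ 2 := by
  rcases le_total 0 (a - q) with h1 | h1 <;> rcases le_total 0 (a + q) with h2 | h2 <;>
    rcases le_total 0 a with h3 | h3 <;>
    simp only [max_eq_left, max_eq_right, h1, h2, h3] <;> nlinarith [sq_nonneg q, sq_nonneg a]

theorem bump_second_upper (c t : ℝ) (ht : |t| ≤ 1) :
    bump (c + t) + bump (c - t) ≤ 2 * bump c + 32 * t ^ 2 := by
  have ht2 : t ^ 2 ≤ 1 := by rw [← sq_abs]; nlinarith [abs_nonneg t]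
  by_cases hc : 2 ≤ |c|
  · have h1 : 1 ≤ |c + t| := by
      have := abs_sub_abs_le_abs_sub c (-t)
      rw [sub_neg_eq_add, abs_neg] at this
      linarith
    have h2 : 1 ≤ |c - t| := by
      have := abs_sub_abs_le_abs_sub c t
      linarith
    rw [bump_eq_zero h1, bump_eq_zero h2]
    have := bump_nonneg c
    nlinarith [sq_nonneg t]
  · push Not at hc
    have hc2 : c ^ 2 ≤ 4 := by rw [← sq_abs]; nlinarith [abs_nonneg c]
    have h := sq_pos_part_upper (1 - c ^ 2 - t ^ 2) (2 * c * t)
    have e1 : bump (c + t) = (max 0 (1 - c ^ 2 - t ^ 2 - 2 * c * t)) ^ 2 := by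
      unfold bump; congr 2; ring
    have e2 : bump (c - t) = (max 0 (1 - c ^ 2 - t ^ 2 + 2 * c * t)) ^ 2 := by
      unfold bump; congr 2; ring
    have e3 : (max 0 (1 - c ^ 2 - t ^ 2)) ^ 2 ≤ bump c := by
      unfold bump
      apply pow_le_pow_left₀ (le_max_left _ _)
      exact max_le_max le_rfl (by nlinarith [sq_nonneg t])
    rw [e1, e2]
    nlinarith [sq_nonneg t, mul_le_mul_of_nonneg_right hc2 (sq_nonneg t)]

theorem bump_second_lower (c t : ℝ) :
    2 * bump c - 4 * t ^ 2 ≤ bump (c + t) + bump (c - t) := by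
  have h := sq_pos_part_lower (1 - c ^ 2 - t ^ 2) (2 * c * t)
  have e1 : bump (c + t) = (max 0 (1 - c ^ 2 - t ^ 2 - 2 * c * t)) ^ 2 := by
    unfold bump; congr 2; ring
  have e2 : bump (c - t) = (max 0 (1 - c ^ 2 - t ^ 2 + 2 * c * t)) ^ 2 := by
    unfold bump; congr 2; ring
  have e3 : bump c - 2 * t ^ 2 ≤ (max 0 (1 - c ^ 2 - t ^ 2)) ^ 2 := by
    unfold bump
    rcases le_total 0 (1 - c ^ 2) with h1 | h1 <;>
      rcases le_total 0 (1 - c ^ 2 - t ^ 2) with h2 | h2 <;>
      simp only [max_eq_left, max_eq_right, h1, h2] <;> nlinarith [sq_nonneg t, sq_nonneg c]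
  rw [e1, e2]
  linarith

/-- The weighted integral of an even profile centred at `c`. -/
theorem integral_even_profile {X c e : ℝ} {g : ℝ → ℝ} (hg : Continuous g) :
    ∫ x in (c - e)..(c + e), bump (x / X) * g |x - c| =
      ∫ t in (0 : ℝ)..e, (bump (c / X + t / X) + bump (c / X - t / X)) * g |t| := by
  have hcont : Continuous (fun t : ℝ => bump ((c + t) / X) * g |t|) := by
    have := bump_continuous
    fun_prop
  have h1 : ∫ x in (c - e)..(c + e), bump (x / X) * g |x - c| =
      ∫ t in (-e)..e, bump ((c + t) / X) * g |t| := by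
    have := intervalIntegral.integral_comp_add_left (a := -e) (b := e)
      (fun x => bump (x / X) * g |x - c|) c
    simp only [add_sub_cancel_left] at this
    rw [this]
    congr 1
  rw [h1]
  have h2 : ∫ t in (-e)..e, bump ((c + t) / X) * g |t| =
      (∫ t in (-e)..0, bump ((c + t) / X) * g |t|) + ∫ t in (0 : ℝ)..e, bump ((c + t) / X) * g |t| :=
    (intervalIntegral.integral_add_adjacent_intervals (hcont.intervalIntegrable _ _)
      (hcont.intervalIntegrable _ _)).symm
  have h3 : ∫ t in (-e)..0, bump ((c + t) / X) * g |t| =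
      ∫ t in (0 : ℝ)..e, bump ((c - t) / X) * g |t| := by
    have := intervalIntegral.integral_comp_neg (a := 0) (b := e)
      (fun t => bump ((c + t) / X) * g |t|)
    simp only [abs_neg, neg_zero, ← sub_eq_add_neg] at this
    rw [this]
  have hcont' : Continuous (fun t : ℝ => bump ((c - t) / X) * g |t|) := by
    have := bump_continuous
    fun_prop
  rw [h2, h3, ← intervalIntegral.integral_add (hcont'.intervalIntegrable _ _)
    (hcont.intervalIntegrable _ _)]
  apply intervalIntegral.integral_congr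
  intro t _
  simp only
  rw [add_div, sub_div]
  ring

/-- Main estimate for one body. -/
theorem body_estimate {X W L c e : ℝ} {af cf : ℝ → ℝ} (haf : Continuous af) (hcf : Continuous cf)
    (he : 0 < e) (heW : e ≤ W) (hWX : W ≤ X) (hL : 0 ≤ L)
    (haf0 : ∀ t ∈ Icc 0 e, 0 ≤ af t) (hcf0 : ∀ t ∈ Icc 0 e, 0 ≤ cf t)
    (hb : ∫ t in (0 : ℝ)..e, af t ≤ L * ∫ t in (0 : ℝ)..e, cf t) :
    ∫ x in (c - e)..(c + e), bump (x / X) * (af |x - c| - L * cf |x - c|) ≤
      36 * (W / X) ^ 2 * (L * ∫ t in (0 : ℝ)..e, cf t) := by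
  have hX : 0 < X := by linarith
  have hW : 0 < W := by linarith
  have hgc : Continuous (fun t : ℝ => af t - L * cf t) := by fun_prop
  have h1 := integral_even_profile (X := X) (c := c) (e := e) hgc
  rw [h1]
  have hbc := bump_continuous
  -- pointwise bound
  have hpt : ∀ t ∈ Icc 0 e, (bump (c / X + t / X) + bump (c / X - t / X)) *
      (af |t| - L * cf |t|) ≤
      2 * bump (c / X) * (af t - L * cf t) +
        (32 * (W / X) ^ 2 * af t + 4 * (W / X) ^ 2 * (L * cf t)) := by
    intro t ht
    rw [abs_of_nonneg ht.1]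
    have htX : |t / X| ≤ 1 := by
      rw [abs_of_nonneg (div_nonneg ht.1 hX.le), div_le_one hX]
      linarith [ht.2]
    have hu := bump_second_upper (c / X) (t / X) htX
    have hl := bump_second_lower (c / X) (t / X)
    have htW : (t / X) ^ 2 ≤ (W / X) ^ 2 := by
      apply pow_le_pow_left₀ (div_nonneg ht.1 hX.le)
      exact div_le_div_of_nonneg_right (by linarith [ht.2]) hX.le
    have ha := haf0 t ht
    have hc := mul_nonneg hL (hcf0 t ht)
    set B := bump (c / X + t / X) + bump (c / X - t / X)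
    have e1 : B * af t ≤ (2 * bump (c / X) + 32 * (W / X) ^ 2) * af t :=
      mul_le_mul_of_nonneg_right (by linarith) ha
    have e2 : (2 * bump (c / X) - 4 * (W / X) ^ 2) * (L * cf t) ≤ B * (L * cf t) :=
      mul_le_mul_of_nonneg_right (by linarith) hc
    nlinarith
  have hint1 : IntervalIntegrable (fun t => (bump (c / X + t / X) + bump (c / X - t / X)) *
      (af |t| - L * cf |t|)) volume 0 e := by
    apply Continuous.intervalIntegrable
    fun_prop
  have hint2 : IntervalIntegrable (fun t => 2 * bump (c / X) * (af t - L * cf t) +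
        (32 * (W / X) ^ 2 * af t + 4 * (W / X) ^ 2 * (L * cf t))) volume 0 e := by
    apply Continuous.intervalIntegrable
    fun_prop
  have h2 := intervalIntegral.integral_mono_on he.le hint1 hint2 hpt
  refine h2.trans ?_
  have ia : IntervalIntegrable af volume 0 e := haf.intervalIntegrable _ _
  have ic : IntervalIntegrable cf volume 0 e := hcf.intervalIntegrable _ _
  rw [intervalIntegral.integral_add, intervalIntegral.integral_add,
    intervalIntegral.integral_const_mul, intervalIntegral.integral_sub,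
    intervalIntegral.integral_const_mul, intervalIntegral.integral_const_mul,
    intervalIntegral.integral_const_mul, intervalIntegral.integral_const_mul]
  · set IA := ∫ t in (0 : ℝ)..e, af t
    set IC := ∫ t in (0 : ℝ)..e, cf t
    have hb0 := bump_nonneg (c / X)
    have hq : 0 ≤ (W / X) ^ 2 := sq_nonneg _
    nlinarith [mul_nonneg hb0 (sub_nonneg.mpr hb), mul_nonneg hq (sub_nonneg.mpr hb)]
  all_goals first
    | exact ia
    | exact ic
    | (apply Continuous.intervalIntegrable; fun_prop)

end Run7.h520
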