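import Pool.Agent.Run7.h520.Frame
import Pool.Agent.Run7.h520.Weight

/-!
# The averaging argument, part A: paths along a vertical line
-/

namespace Run7.h520

open Set
open scoped ENNReal

/-- The complement of the interiors of the members of `𝒞`. -/
def freeSet (𝒞 : Set (Set Plane)) : Set Plane := {z | ∀ K ∈ 𝒞, z ∉ interior K}

theorem IsLayer.boundary_subset {𝒞 : Set (Set Plane)} {n : Plane} {a d : ℝ}
    (h : IsLayer 𝒞 n a d) {K : Set Plane} (hK : K ∈ 𝒞) : K \ interior K ⊆ freeSet 𝒞 := by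
  intro z hz K' hK' hzK'
  by_cases hKK' : K = K'
  · subst hKK'; exact hz.2 hzK'
  · have hb := h.body K hK
    have h1 : z ∈ closure (interior K) := by
      rw [hb.2.1.closure_interior_eq_closure_of_nonempty_interior hb.2.2]
      exact subset_closure hz.1
    obtain ⟨w, hw1, hw2⟩ := mem_closure_iff.mp h1 (interior K') isOpen_interior hzK'
    exact (Set.disjoint_left.mp (h.packing K hK K' hK' hKK')) hw2 hw1

/-- A path from the top line to the bottom line bounds the crossing length. -/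
theorem crossingLength_le_of_reach {𝒞 : Set (Set Plane)} {n : Plane} {a d : ℝ} {p q : Plane}
    {l : ℝ} (hp : inner ℝ n p = a + d) (hq : inner ℝ n q = a) (h : Reach (freeSet 𝒞) p q l) :
    crossingLength 𝒞 n a d ≤ ENNReal.ofReal l := by
  obtain ⟨γ, hc, h0, h1, hF, hv⟩ := h.symm.exists_curve
  refine (iInf₂_le γ ?_).trans hv
  refine ⟨hc, by rw [h0, hq], by rw [h1, hp], fun t ht K hK => hF t ht K hK⟩

section Setup

variable {𝒞 : Set (Set Plane)} {m n : Plane} {a d L W : ℝ}

/-- The members of `𝒞` that may meet the part `|x| ≤ X` of the strip. -/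
noncomputable def IsLayer.members (h : IsLayer 𝒞 n a d) (X : ℝ) : Finset 𝒞 :=
  ((h.locallyFinite (X + (|a| + |a + d|))).preimage
    (f := fun K : 𝒞 => (K : Set Plane)) Subtype.coe_injective.injOn).toFinset

theorem IsLayer.mem_members (h : IsLayer 𝒞 n a d) (hf : Frame m n) {X x y : ℝ} (hx : |x| ≤ X)
    (K : 𝒞) (hK : pt m n x y ∈ (K : Set Plane)) : K ∈ h.members X := by
  unfold IsLayer.members
  rw [Set.Finite.mem_toFinset]
  refine ⟨K.2, pt m n x y, hK, ?_⟩
  rw [mem_closedBall_zero_iff]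
  have h1 := h.in_strip K K.2 _ hK
  rw [hf.inner_n_pt] at h1
  refine (hf.norm_pt_le x y).trans ?_
  have h2 : |y| ≤ |a| + |a + d| := by
    rw [abs_le]
    constructor
    · have := neg_abs_le a
      have := abs_nonneg (a + d)
      linarith
    · have := le_abs_self (a + d)
      have := abs_nonneg a
      linarith
  linarith

variable (h : IsLayer 𝒞 n a d) (hf : Frame m n) (prof : ∀ K : 𝒞, Profile m n L (K : Set Plane))

include h hf prof

theorem chord_disjoint (x : ℝ) (K K' : 𝒞) (hne : K ≠ K')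
    (hK : x ∈ Ioo ((prof K).c - (prof K).e) ((prof K).c + (prof K).e))
    (hK' : x ∈ Ioo ((prof K').c - (prof K').e) ((prof K').c + (prof K').e)) :
    (prof K).hi x ≤ (prof K').lo x ∨ (prof K').hi x ≤ (prof K).lo x := by
  by_contra hcon
  push Not at hcon
  obtain ⟨h1, h2⟩ := hcon
  have h3 := (prof K).lt x hK
  have h4 := (prof K').lt x hK'
  have hne' : (K : Set Plane) ≠ (K' : Set Plane) := fun he => hne (Subtype.ext he)
  have hmm : max ((prof K).lo x) ((prof K').lo x) < min ((prof K).hi x) ((prof K').hi x) := by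
    simp only [max_lt_iff, lt_min_iff]
    exact ⟨⟨h3, h1⟩, ⟨h2, h4⟩⟩
  obtain ⟨y, hy1, hy2⟩ := exists_between hmm
  have i1 : pt m n x y ∈ interior (K : Set Plane) :=
    ((prof K).int_iff x y).mpr ⟨hK, (le_max_left _ _).trans_lt hy1, hy2.trans_le (min_le_left _ _)⟩
  have i2 : pt m n x y ∈ interior (K' : Set Plane) :=
    ((prof K').int_iff x y).mpr
      ⟨hK', (le_max_right _ _).trans_lt hy1, hy2.trans_le (min_le_right _ _)⟩
  exact (Set.disjoint_left.mp (h.packing K K.2 K' K'.2 hne')) i1 i2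

theorem lo_ge (x : ℝ) (K : 𝒞) (hK : x ∈ Ioo ((prof K).c - (prof K).e) ((prof K).c + (prof K).e)) :
    a ≤ (prof K).lo x := by
  have := h.in_strip K K.2 _ ((prof K).mem_lo x hK)
  rw [hf.inner_n_pt] at this
  exact this.1

theorem hi_le (x : ℝ) (K : 𝒞) (hK : x ∈ Ioo ((prof K).c - (prof K).e) ((prof K).c + (prof K).e)) :
    (prof K).hi x ≤ a + d := by
  have := h.in_strip K K.2 _ ((prof K).mem_hi x hK)
  rw [hf.inner_n_pt] at this
  exact this.2

/-- Travelling down a vertical line from height `y₂` to the bottom line. -/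
theorem travel_down (x y₂ : ℝ) (hy₂ : a ≤ y₂) (hy₂' : y₂ ≤ a + d) (T : Finset 𝒞)
    (hT : ∀ K ∈ T, x ∈ Ioo ((prof K).c - (prof K).e) ((prof K).c + (prof K).e) ∧
      (prof K).hi x ≤ y₂)
    (hT' : ∀ K : 𝒞, x ∈ Ioo ((prof K).c - (prof K).e) ((prof K).c + (prof K).e) →
      (prof K).lo x < y₂ → K ∈ T) :
    (∃ l ≤ (y₂ - a) + ∑ K ∈ T, ((prof K).af |x - (prof K).c| - ((prof K).hi x - (prof K).lo x)),
      Reach (freeSet 𝒞) (pt m n x y₂) (pt m n x a) l) ∧
      ∑ K ∈ T, ((prof K).hi x - (prof K).lo x) ≤ y₂ - a := by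
  classical
  have hex : ∀ K : 𝒞, ∃ l : ℝ, x ∈ Ioo ((prof K).c - (prof K).e) ((prof K).c + (prof K).e) →
      l ≤ (prof K).af |x - (prof K).c| ∧
      Reach (freeSet 𝒞) (pt m n x ((prof K).hi x)) (pt m n x ((prof K).lo x)) l := by
    intro K
    by_cases hK : x ∈ Ioo ((prof K).c - (prof K).e) ((prof K).c + (prof K).e)
    · obtain ⟨l, hl, hR⟩ := (prof K).reach x hK
      exact ⟨l, fun _ => ⟨hl, hR.mono (h.boundary_subset K.2)⟩⟩
    · exact ⟨0, fun hK' => absurd hK' hK⟩
  choose arc harc using hex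
  have key := line_travel (freeSet 𝒞) (fun y => pt m n x y) (hf.reach_vert x)
    (fun K : 𝒞 => (prof K).lo x) (fun K => (prof K).hi x) arc a T y₂ hy₂
    (fun K hK => (prof K).lt x (hT K hK).1)
    (fun K hK K' hK' hne => chord_disjoint h hf prof x K K' hne (hT K hK).1 (hT K' hK').1)
    (fun K hK => (harc K (hT K hK).1).2)
    (fun K hK => ⟨lo_ge h hf prof x K (hT K hK).1, (hT K hK).2⟩)
    (by
      intro y hy hyF
      simp only [freeSet, mem_ofPred_eq, not_forall, not_not] at hyF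
      obtain ⟨K, hK, hKy⟩ := hyF
      have := ((prof ⟨K, hK⟩).int_iff x y).mp hKy
      exact ⟨⟨K, hK⟩, hT' ⟨K, hK⟩ this.1 (this.2.1.trans_le hy.2), this.2⟩)
  refine ⟨⟨_, ?_, key.1⟩, key.2⟩
  have : ∑ K ∈ T, (arc K - ((prof K).hi x - (prof K).lo x)) ≤
      ∑ K ∈ T, ((prof K).af |x - (prof K).c| - ((prof K).hi x - (prof K).lo x)) :=
    Finset.sum_le_sum fun K hK => by linarith [(harc K (hT K hK).1).1]
  linarith

open Classical in
/-- The members whose open shadow contains `x`. -/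
noncomputable def shadow (X x : ℝ) : Finset 𝒞 :=
  (h.members X).filter
    (fun K => x ∈ Ioo ((prof K).c - (prof K).e) ((prof K).c + (prof K).e))

omit hf in
theorem mem_shadow {X x : ℝ} {K : 𝒞} : K ∈ shadow h prof X x ↔ K ∈ h.members X ∧
    x ∈ Ioo ((prof K).c - (prof K).e) ((prof K).c + (prof K).e) := by
  classical
  unfold shadow
  rw [Finset.mem_filter]

theorem mem_shadow' {X x : ℝ} (hx : |x| ≤ X) {K : 𝒞} : K ∈ shadow h prof X x ↔
    x ∈ Ioo ((prof K).c - (prof K).e) ((prof K).c + (prof K).e) := by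
  rw [mem_shadow]
  exact ⟨fun hK => hK.2, fun hK => ⟨h.mem_members hf hx K ((prof K).mem_lo x hK), hK⟩⟩

/-- The sum of the chords. -/
theorem sum_chord_le {X x : ℝ} (hx : |x| ≤ X) (y₂ : ℝ) (hy₂ : a ≤ y₂) (hy₂' : y₂ ≤ a + d)
    (hT : ∀ K ∈ shadow h prof X x, (prof K).hi x ≤ y₂) :
    ∑ K ∈ shadow h prof X x, ((prof K).hi x - (prof K).lo x) ≤ y₂ - a := by
  refine (travel_down h hf prof x y₂ hy₂ hy₂' (shadow h prof X x)
    (fun K hK => ⟨(mem_shadow h prof).mp hK |>.2, hT K hK⟩)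
    (fun K hK _ => (mem_shadow' h hf prof hx).mpr hK)).2

/-- If all crossing curves are long, then so are the paths along the vertical lines. -/
theorem pointwise {X x : ℝ} (hx : |x| ≤ X) (hL : 0 < L)
    (hlong : ENNReal.ofReal (L * d) ≤ crossingLength 𝒞 n a d) :
    L * d ≤ d + ∑ K ∈ shadow h prof X x,
      ((prof K).af |x - (prof K).c| - ((prof K).hi x - (prof K).lo x)) := by
  have hd := h.width_pos
  obtain ⟨⟨l, hl, hR⟩, _⟩ := travel_down h hf prof x (a + d) (by linarith) le_rfl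
    (shadow h prof X x)
    (fun K hK => ⟨(mem_shadow h prof).mp hK |>.2,
      hi_le h hf prof x K ((mem_shadow h prof).mp hK).2⟩)
    (fun K hK _ => (mem_shadow' h hf prof hx).mpr hK)
  have h1 := hlong.trans (crossingLength_le_of_reach (hf.inner_n_pt _ _) (hf.inner_n_pt _ _) hR)
  rw [ENNReal.ofReal_le_ofReal_iff'] at h1
  rcases h1 with h1 | h1
  · linarith
  · nlinarith [mul_pos hL hd]

/-- A saving at the top. -/
theorem pointwise_save {X x σ l₀ : ℝ} {p : Plane} (hx : |x| ≤ X) (hL : 0 < L)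
    (hlong : ENNReal.ofReal (L * d) ≤ crossingLength 𝒞 n a d) (K₀ : 𝒞)
    (hK₀ : x ∈ Ioo ((prof K₀).c - (prof K₀).e) ((prof K₀).c + (prof K₀).e))
    (htop : (prof K₀).hi x = a + d) (hp : inner ℝ n p = a + d)
    (hR₀ : Reach ((K₀ : Set Plane) \ interior (K₀ : Set Plane)) p (pt m n x ((prof K₀).lo x)) l₀)
    (hl₀ : l₀ ≤ (prof K₀).af |x - (prof K₀).c| - σ) :
    L * d + σ ≤ d + ∑ K ∈ shadow h prof X x,
      ((prof K).af |x - (prof K).c| - ((prof K).hi x - (prof K).lo x)) := by
  classical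
  have hd := h.width_pos
  have hlo := lo_ge h hf prof x K₀ hK₀
  have hlt := (prof K₀).lt x hK₀
  have hmem : K₀ ∈ shadow h prof X x := (mem_shadow' h hf prof hx).mpr hK₀
  obtain ⟨⟨l, hl, hR⟩, _⟩ := travel_down h hf prof x ((prof K₀).lo x) hlo (by linarith)
    ((shadow h prof X x).erase K₀)
    (fun K hK => by
      rw [Finset.mem_erase] at hK
      have hK2 := ((mem_shadow h prof).mp hK.2).2
      refine ⟨hK2, ?_⟩
      rcases chord_disjoint h hf prof x K K₀ hK.1 hK2 hK₀ with h1 | h1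
      · exact h1
      · have := (prof K).lt x hK2
        have := hi_le h hf prof x K hK2
        linarith)
    (fun K hK hlt' => by
      rw [Finset.mem_erase]
      refine ⟨?_, (mem_shadow' h hf prof hx).mpr hK⟩
      rintro rfl
      exact absurd hlt' (lt_irrefl _))
  have hR' := (hR₀.mono (h.boundary_subset K₀.2)).trans hR
  have h1 := hlong.trans (crossingLength_le_of_reach hp (hf.inner_n_pt _ _) hR')
  rw [ENNReal.ofReal_le_ofReal_iff'] at h1
  rw [← Finset.add_sum_erase _ _ hmem]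
  rcases h1 with h1 | h1
  · linarith
  · nlinarith [mul_pos hL hd]

end Setup

end Run7.h520
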