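import Pool.Agent.Run7.h520.LowerA

/-!
# The averaging argument, part B: pointwise lower bounds
-/

namespace Run7.h520

open Set
open scoped ENNReal

section Setup

variable {𝒞 : Set (Set Plane)} {m n : Plane} {a d L W : ℝ}

/-- The contribution of one body. -/
noncomputable def contrib (prof : ∀ K : 𝒞, Profile m n L (K : Set Plane)) (K : 𝒞) : ℝ → ℝ :=
  indicator (Ioo ((prof K).c - (prof K).e) ((prof K).c + (prof K).e))
    (fun x => (prof K).af |x - (prof K).c| - L * (prof K).cf |x - (prof K).c|)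

variable (h : IsLayer 𝒞 n a d) (hf : Frame m n) (prof : ∀ K : 𝒞, Profile m n L (K : Set Plane))

include h hf prof

omit hf in
theorem sum_contrib_eq (X x : ℝ) : ∑ K ∈ h.members X, contrib prof K x =
    ∑ K ∈ shadow h prof X x,
      ((prof K).af |x - (prof K).c| - ((prof K).hi x - (prof K).lo x)) -
    (L - 1) * ∑ K ∈ shadow h prof X x, ((prof K).hi x - (prof K).lo x) := by
  classical
  have h1 : ∑ K ∈ h.members X, contrib prof K x =
      ∑ K ∈ shadow h prof X x, ((prof K).af |x - (prof K).c| - L * (prof K).cf |x - (prof K).c|) := by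
    unfold shadow contrib
    rw [Finset.sum_filter]
    apply Finset.sum_congr rfl
    intro K _
    rw [indicator_apply]
  rw [h1, Finset.mul_sum, ← Finset.sum_sub_distrib]
  apply Finset.sum_congr rfl
  intro K hK
  rw [← (prof K).chord x ((mem_shadow h prof).mp hK).2]
  ring

theorem sum_contrib_nonneg {X x : ℝ} (hx : |x| ≤ X) (hL : 1 < L)
    (hlong : ENNReal.ofReal (L * d) ≤ crossingLength 𝒞 n a d) :
    0 ≤ ∑ K ∈ h.members X, contrib prof K x := by
  have hd := h.width_pos
  rw [sum_contrib_eq]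
  have h1 := pointwise h hf prof hx (by linarith) hlong
  have h2 := sum_chord_le h hf prof hx (a + d) (by linarith) le_rfl
    (fun K hK => hi_le h hf prof x K ((mem_shadow h prof).mp hK).2)
  nlinarith

/-- In every layer without short crossing curves there is an interval on which the
contributions have a positive lower bound. -/
theorem exists_gap (hL : 1 < L) (hlong : ENNReal.ofReal (L * d) ≤ crossingLength 𝒞 n a d) :
    ∃ j₁ j₂ σ : ℝ, j₁ < j₂ ∧ 0 < σ ∧ ∀ X : ℝ, |j₁| ≤ X → |j₂| ≤ X → ∀ x ∈ Icc j₁ j₂,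
      σ ≤ ∑ K ∈ h.members X, contrib prof K x := by
  have hd := h.width_pos
  by_cases hcase : ∃ x₀ ∈ Ioo (0 : ℝ) 1, ∀ K ∈ 𝒞, pt m n x₀ (a + d) ∉ K
  · -- an uncovered point of the top line
    obtain ⟨x₀, hx₀, hout⟩ := hcase
    have hclosed : IsClosed (⋃ K ∈ (h.members 2 : Set 𝒞), (K : Set Plane)) := by
      apply Set.Finite.isClosed_biUnion (Finset.finite_toSet _)
      intro K _
      exact (h.body K K.2).1.isClosed
    have hmem : pt m n x₀ (a + d) ∈ (⋃ K ∈ (h.members 2 : Set 𝒞), (K : Set Plane))ᶜ := by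
      simp only [mem_compl_iff, mem_iUnion, not_exists]
      intro K _
      exact hout K K.2
    obtain ⟨ε, hε, hball⟩ := Metric.isOpen_iff.mp hclosed.isOpen_compl _ hmem
    set ρ := min (min (ε / 4) (1 / 2)) d with hρ
    have hρ0 : 0 < ρ := by
      simp only [hρ, lt_min_iff]
      exact ⟨⟨by linarith, by norm_num⟩, hd⟩
    have hρε : ρ ≤ ε / 4 := (min_le_left _ _).trans (min_le_left _ _)
    have hρ1 : ρ ≤ 1 / 2 := (min_le_left _ _).trans (min_le_right _ _)
    have hρd : ρ ≤ d := min_le_right _ _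
    refine ⟨x₀ - ρ, x₀ + ρ, (L - 1) * ρ, by linarith, mul_pos (by linarith) hρ0, ?_⟩
    intro X hX1 hX2 x hx
    have hxX : |x| ≤ X := by
      rw [abs_le] at *
      exact ⟨by linarith [hx.1], by linarith [hx.2]⟩
    have hx2 : |x| ≤ 2 := by
      rw [abs_le]
      exact ⟨by linarith [hx.1, hx₀.1], by linarith [hx.2, hx₀.2]⟩
    have hhi : ∀ K ∈ shadow h prof X x, (prof K).hi x ≤ a + d - ρ := by
      intro K hK
      have hK' := ((mem_shadow h prof).mp hK).2
      by_contra hcon
      push Not at hcon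
      have h1 := hi_le h hf prof x K hK'
      have h2 := (prof K).mem_hi x hK'
      have h3 : K ∈ h.members 2 := h.mem_members hf hx2 K h2
      have h4 : pt m n x ((prof K).hi x) ∈ Metric.ball (pt m n x₀ (a + d)) ε := by
        rw [Metric.mem_ball]
        have h5 := hf.dist_pt x ((prof K).hi x) x₀ (a + d)
        have h6 : (x - x₀) ^ 2 ≤ ρ ^ 2 := by
          apply sq_le_sq'
          · linarith [hx.1]
          · linarith [hx.2]
        have h7 : ((prof K).hi x - (a + d)) ^ 2 ≤ ρ ^ 2 := by
          apply sq_le_sq'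
          · linarith
          · linarith
        have h8 : dist (pt m n x ((prof K).hi x)) (pt m n x₀ (a + d)) ^ 2 < ε ^ 2 := by
          nlinarith
        exact lt_of_pow_lt_pow_left₀ 2 hε.le h8
      have := hball h4
      simp only [mem_compl_iff, mem_iUnion, not_exists] at this
      exact this K h3 h2
    rw [sum_contrib_eq]
    have h1 := pointwise h hf prof hxX (by linarith) hlong
    have h2 := sum_chord_le h hf prof hxX (a + d - ρ) (by linarith) (by linarith) hhi
    nlinarith
  · -- the top line is covered, so some body has a horizontal top side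
    push Not at hcase
    have hex : ∀ x : ℝ, ∃ K : Set Plane, x ∈ Ioo (0 : ℝ) 1 → K ∈ 𝒞 ∧ pt m n x (a + d) ∈ K := by
      intro x
      by_cases hx : x ∈ Ioo (0 : ℝ) 1
      · obtain ⟨K, hK, hK'⟩ := hcase x hx
        exact ⟨K, fun _ => ⟨hK, hK'⟩⟩
      · exact ⟨∅, fun hx' => absurd hx' hx⟩
    choose f hfK using hex
    have hmaps : MapsTo f (Ioo (0 : ℝ) 1) ((fun K : 𝒞 => (K : Set Plane)) '' (h.members 1)) := by
      intro x hx
      obtain ⟨h1, h2⟩ := hfK x hx
      refine ⟨⟨f x, h1⟩, ?_, rfl⟩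
      exact h.mem_members hf (by rw [abs_le]; exact ⟨by linarith [hx.1], hx.2.le⟩) ⟨f x, h1⟩ h2
    obtain ⟨u, hu, v, hv, huv, hfuv⟩ := (Set.Ioo_infinite (zero_lt_one (α := ℝ))).exists_ne_map_eq_of_mapsTo
      hmaps ((Finset.finite_toSet _).image _)
    have key : ∀ u v : ℝ, u < v → ∀ K₀ : 𝒞, pt m n u (a + d) ∈ (K₀ : Set Plane) →
        pt m n v (a + d) ∈ (K₀ : Set Plane) →
        ∃ j₁ j₂ σ : ℝ, j₁ < j₂ ∧ 0 < σ ∧ ∀ X : ℝ, |j₁| ≤ X → |j₂| ≤ X → ∀ x ∈ Icc j₁ j₂,
        σ ≤ ∑ K ∈ h.members X, contrib prof K x := by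
      intro u v huv K₀ hu hv
      have hu' := (prof K₀).ext u _ hu
      have hv' := (prof K₀).ext v _ hv
      have hmid : ∀ x ∈ Ioo u v, x ∈ Ioo ((prof K₀).c - (prof K₀).e) ((prof K₀).c + (prof K₀).e) ∧
          (prof K₀).hi x = a + d := by
        intro x hx
        have hx' : x ∈ Ioo ((prof K₀).c - (prof K₀).e) ((prof K₀).c + (prof K₀).e) :=
          ⟨hu'.1.trans_lt hx.1, hx.2.trans_le hv'.2⟩
        refine ⟨hx', le_antisymm (hi_le h hf prof x K₀ hx') ?_⟩
        have hconv := (h.body K₀ K₀.2).2.1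
        have hmem : pt m n x (a + d) ∈ (K₀ : Set Plane) := by
          have hvu : 0 < v - u := by linarith
          have := hconv hu hv (a := (v - x) / (v - u)) (b := (x - u) / (v - u))
            (div_nonneg (by linarith [hx.2]) hvu.le) (div_nonneg (by linarith [hx.1]) hvu.le)
            (by field_simp; ring)
          convert this using 1
          have e1 : (v - x) / (v - u) = 1 - (x - u) / (v - u) := by field_simp; ring
          have e2 : x = u + (x - u) / (v - u) * (v - u) := by field_simp; ring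
          rw [e1]
          set τ := (x - u) / (v - u)
          rw [e2]
          simp only [pt]
          module
        exact ((prof K₀).range x _ hmem hx').2
      set x₁ := (2 * u + v) / 3 with hx₁
      set x₂ := (u + 2 * v) / 3 with hx₂
      have h12 : x₁ < x₂ := by rw [hx₁, hx₂]; linarith
      have hm : ∀ x ∈ Icc x₁ x₂, x ∈ Ioo u v := by
        intro x hx
        exact ⟨by linarith [hx.1], by linarith [hx.2]⟩
      rcases lt_or_ge x₁ (prof K₀).c with hc | hc
      · set x₃ := min x₂ (prof K₀).c with hx₃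
        have h13 : x₁ < x₃ := lt_min h12 hc
        have h32 : x₃ ≤ x₂ := min_le_left _ _
        have h3c : x₃ ≤ (prof K₀).c := min_le_right _ _
        refine ⟨(x₁ + x₃) / 2, x₃, (x₃ - x₁) / 2, by linarith, by linarith, ?_⟩
        intro X hX1 hX2 x hx
        have hxX : |x| ≤ X := by
          rw [abs_le] at *
          exact ⟨by linarith [hx.1], by linarith [hx.2]⟩
        obtain ⟨hx1, hx2⟩ := hmid x (hm x ⟨by linarith [hx.1], by linarith [hx.2]⟩)
        obtain ⟨hy1, hy2⟩ := hmid x₁ (hm x₁ ⟨le_rfl, h12.le⟩)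
        obtain ⟨l, hl, hR⟩ := (prof K₀).reachL x₁ hy1 x hx1 (by linarith [hx.1])
          (by linarith [hx.2])
        have h1 := pointwise_save h hf prof (σ := (x₃ - x₁) / 2) hxX (by linarith) hlong K₀ hx1 hx2
          (by rw [hf.inner_n_pt]; exact hy2) hR (by linarith [hx.1])
        have h2 := sum_chord_le h hf prof hxX (a + d) (by linarith) le_rfl
          (fun K hK => hi_le h hf prof x K ((mem_shadow h prof).mp hK).2)
        rw [sum_contrib_eq]
        nlinarith
      · refine ⟨x₁, (x₁ + x₂) / 2, (x₂ - x₁) / 2, by linarith, by linarith, ?_⟩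
        intro X hX1 hX2 x hx
        have hxX : |x| ≤ X := by
          rw [abs_le] at *
          exact ⟨by linarith [hx.1], by linarith [hx.2]⟩
        obtain ⟨hx1, hx2⟩ := hmid x (hm x ⟨by linarith [hx.1], by linarith [hx.2]⟩)
        obtain ⟨hy1, hy2⟩ := hmid x₂ (hm x₂ ⟨h12.le, le_rfl⟩)
        obtain ⟨l, hl, hR⟩ := (prof K₀).reachR x₂ hy1 x hx1 (by linarith [hx.2])
          (by linarith [hx.1])
        have h1 := pointwise_save h hf prof (σ := (x₂ - x₁) / 2) hxX (by linarith) hlong K₀ hx1 hx2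
          (by rw [hf.inner_n_pt]; exact hy2) hR (by linarith [hx.2])
        have h2 := sum_chord_le h hf prof hxX (a + d) (by linarith) le_rfl
          (fun K hK => hi_le h hf prof x K ((mem_shadow h prof).mp hK).2)
        rw [sum_contrib_eq]
        nlinarith
    have hfu := hfK u hu
    have hfv := hfK v hv
    rcases lt_or_gt_of_ne huv with hlt | hlt
    · exact key u v hlt ⟨f u, hfu.1⟩ hfu.2 (by simpa [hfuv] using hfv.2)
    · exact key v u hlt ⟨f u, hfu.1⟩ (by simpa [hfuv] using hfv.2) hfu.2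

end Setup

end Run7.h520
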