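import Pool.Agent.Run7.h520.LowerB

/-!
# The averaging argument, part C: integration
-/

namespace Run7.h520

open Set MeasureTheory
open scoped ENNReal

section Setup

variable {𝒞 : Set (Set Plane)} {m n : Plane} {a d L W : ℝ}

theorem integral_Ioo_eq {f : ℝ → ℝ} {u v : ℝ} (huv : u ≤ v) :
    ∫ x in Ioo u v, f x = ∫ x in u..v, f x := by
  rw [intervalIntegral.integral_of_le huv, integral_Ioc_eq_integral_Ioo]

theorem Profile.cf_nonneg {K : Set Plane} (P : Profile m n L K) : ∀ t ∈ Icc 0 P.e, 0 ≤ P.cf t := by
  have h1 : ∀ t ∈ Ico 0 P.e, 0 ≤ P.cf t := by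
    intro t ht
    have hx : P.c + t ∈ Ioo (P.c - P.e) (P.c + P.e) := ⟨by linarith [ht.1, P.e_pos], by linarith [ht.2]⟩
    have h2 := P.chord _ hx
    have h3 := P.lt _ hx
    rw [add_sub_cancel_left, abs_of_nonneg ht.1] at h2
    linarith
  intro t ht
  have hcl : Icc 0 P.e ⊆ {t | 0 ≤ P.cf t} := by
    rw [← closure_Ico (ne_of_lt P.e_pos)]
    exact closure_minimal h1 (isClosed_le continuous_const P.cf_cont)
  exact hcl ht

theorem Profile.af_nonneg {K : Set Plane} (P : Profile m n L K) : ∀ t ∈ Icc 0 P.e, 0 ≤ P.af t := by
  have h1 : ∀ t ∈ Ico 0 P.e, 0 ≤ P.af t := by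
    intro t ht
    have hx : P.c + t ∈ Ioo (P.c - P.e) (P.c + P.e) := ⟨by linarith [ht.1, P.e_pos], by linarith [ht.2]⟩
    obtain ⟨l, hl, hR⟩ := P.reach _ hx
    have h3 := hR.nonneg
    rw [add_sub_cancel_left, abs_of_nonneg ht.1] at hl
    linarith
  intro t ht
  have hcl : Icc 0 P.e ⊆ {t | 0 ≤ P.af t} := by
    rw [← closure_Ico (ne_of_lt P.e_pos)]
    exact closure_minimal h1 (isClosed_le continuous_const P.af_cont)
  exact hcl ht

variable (h : IsLayer 𝒞 n a d) (hf : Frame m n) (prof : ∀ K : 𝒞, Profile m n L (K : Set Plane))

omit h hf in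
theorem contrib_integrable (X : ℝ) (K : 𝒞) :
    Integrable (fun x => bump (x / X) * contrib prof K x) := by
  have hc := bump_continuous
  have ha := (prof K).af_cont
  have hb := (prof K).cf_cont
  have h1 : (fun x => bump (x / X) * contrib prof K x) =
      indicator (Ioo ((prof K).c - (prof K).e) ((prof K).c + (prof K).e))
        (fun x => bump (x / X) *
          ((prof K).af |x - (prof K).c| - L * (prof K).cf |x - (prof K).c|)) := by
    funext x
    unfold contrib
    by_cases hx : x ∈ Ioo ((prof K).c - (prof K).e) ((prof K).c + (prof K).e)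
    · rw [indicator_of_mem hx, indicator_of_mem hx]
    · rw [indicator_of_notMem hx, indicator_of_notMem hx, mul_zero]
  rw [h1, integrable_indicator_iff measurableSet_Ioo]
  have h2 : IntegrableOn (fun x => bump (x / X) *
          ((prof K).af |x - (prof K).c| - L * (prof K).cf |x - (prof K).c|))
      (Icc ((prof K).c - (prof K).e) ((prof K).c + (prof K).e)) := by
    apply ContinuousOn.integrableOn_compact isCompact_Icc
    apply Continuous.continuousOn
    fun_prop
  exact h2.mono_set Ioo_subset_Icc_self

omit h hf in
theorem contrib_integral (X : ℝ) (K : 𝒞) :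
    ∫ x, bump (x / X) * contrib prof K x =
      ∫ x in ((prof K).c - (prof K).e)..((prof K).c + (prof K).e), bump (x / X) *
          ((prof K).af |x - (prof K).c| - L * (prof K).cf |x - (prof K).c|) := by
  have h1 : (fun x => bump (x / X) * contrib prof K x) =
      indicator (Ioo ((prof K).c - (prof K).e) ((prof K).c + (prof K).e))
        (fun x => bump (x / X) *
          ((prof K).af |x - (prof K).c| - L * (prof K).cf |x - (prof K).c|)) := by
    funext x
    unfold contrib
    by_cases hx : x ∈ Ioo ((prof K).c - (prof K).e) ((prof K).c + (prof K).e)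
    · rw [indicator_of_mem hx, indicator_of_mem hx]
    · rw [indicator_of_notMem hx, indicator_of_notMem hx, mul_zero]
  rw [h1, integral_indicator measurableSet_Ioo, integral_Ioo_eq]
  linarith [(prof K).e_pos]

omit h hf in
/-- The half area of a body as an integral of its chords. -/
theorem chord_integral (K : 𝒞) :
    ∫ x, indicator (Ioo ((prof K).c - (prof K).e) ((prof K).c + (prof K).e))
      (fun x => (prof K).cf |x - (prof K).c|) x = 2 * ∫ t in (0 : ℝ)..(prof K).e, (prof K).cf t := by
  have he := (prof K).e_pos
  have hb := (prof K).cf_cont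
  rw [integral_indicator measurableSet_Ioo, integral_Ioo_eq (by linarith)]
  have h1 := intervalIntegral.integral_comp_add_left (a := -(prof K).e) (b := (prof K).e)
      (fun x => (prof K).cf |x - (prof K).c|) (prof K).c
  simp only [add_sub_cancel_left] at h1
  have e1 : (prof K).c + -(prof K).e = (prof K).c - (prof K).e := by ring
  rw [e1] at h1
  rw [← h1]
  have hcont : Continuous (fun t : ℝ => (prof K).cf |t|) := by fun_prop
  have h2 : ∫ t in (-(prof K).e)..(prof K).e, (prof K).cf |t| =
      (∫ t in (-(prof K).e)..0, (prof K).cf |t|) + ∫ t in (0 : ℝ)..(prof K).e, (prof K).cf |t| :=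
    (intervalIntegral.integral_add_adjacent_intervals (hcont.intervalIntegrable _ _)
      (hcont.intervalIntegrable _ _)).symm
  have h3 : ∫ t in (-(prof K).e)..0, (prof K).cf |t| =
      ∫ t in (0 : ℝ)..(prof K).e, (prof K).cf |t| := by
    have := intervalIntegral.integral_comp_neg (a := 0) (b := (prof K).e)
      (fun t => (prof K).cf |t|)
    simp only [abs_neg, neg_zero] at this
    rw [this]
  have h4 : ∫ t in (0 : ℝ)..(prof K).e, (prof K).cf |t| = ∫ t in (0 : ℝ)..(prof K).e, (prof K).cf t := by
    apply intervalIntegral.integral_congr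
    intro t ht
    rw [uIcc_of_le he.le] at ht
    simp only
    rw [abs_of_nonneg ht.1]
  rw [h2, h3, h4]
  ring

include h hf

/-- The total half area of the members near the window. -/
theorem sum_area_le {X : ℝ} (hX : 0 < X) (hW0 : 0 < W) (hW : ∀ K, (prof K).e ≤ W)
    (M : Finset 𝒞)
    (hM : ∀ K ∈ M, (prof K).c - (prof K).e < X ∧ -X < (prof K).c + (prof K).e) :
    ∑ K ∈ M, ∫ t in (0 : ℝ)..(prof K).e, (prof K).cf t ≤ (X + 2 * W) * d := by
  classical
  have hd := h.width_pos
  set Y := X + 2 * W with hY
  have hYpos : 0 < Y := by linarith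
  have h1 : 2 * ∑ K ∈ M, ∫ t in (0 : ℝ)..(prof K).e, (prof K).cf t =
      ∫ x, ∑ K ∈ M, indicator (Ioo ((prof K).c - (prof K).e) ((prof K).c + (prof K).e))
      (fun x => (prof K).cf |x - (prof K).c|) x := by
    rw [integral_finset_sum, Finset.mul_sum]
    · exact Finset.sum_congr rfl fun K _ => (chord_integral prof K).symm
    · intro K _
      have hb := (prof K).cf_cont
      rw [integrable_indicator_iff measurableSet_Ioo]
      have h2 : IntegrableOn (fun x => (prof K).cf |x - (prof K).c|)
          (Icc ((prof K).c - (prof K).e) ((prof K).c + (prof K).e)) := by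
        apply ContinuousOn.integrableOn_compact isCompact_Icc
        apply Continuous.continuousOn
        fun_prop
      exact h2.mono_set Ioo_subset_Icc_self
  have h2 : ∫ x, ∑ K ∈ M, indicator (Ioo ((prof K).c - (prof K).e) ((prof K).c + (prof K).e))
      (fun x => (prof K).cf |x - (prof K).c|) x ≤ ∫ x, indicator (Icc (-Y) Y) (fun _ => d) x := by
    apply integral_mono_of_nonneg
    · filter_upwards with x
      apply Finset.sum_nonneg
      intro K _
      apply indicator_nonneg
      intro y hy
      apply (prof K).cf_nonneg
      refine ⟨abs_nonneg _, ?_⟩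
      rw [abs_le]
      exact ⟨by linarith [hy.1], by linarith [hy.2]⟩
    · rw [integrable_indicator_iff measurableSet_Icc]
      exact integrableOn_const (by simp)
    · filter_upwards with x
      by_cases hx : x ∈ Icc (-Y) Y
      · rw [indicator_of_mem hx]
        have hxY : |x| ≤ Y := abs_le.mpr hx
        have h3 : ∑ K ∈ M, indicator (Ioo ((prof K).c - (prof K).e) ((prof K).c + (prof K).e))
            (fun x => (prof K).cf |x - (prof K).c|) x ≤
            ∑ K ∈ shadow h prof Y x, ((prof K).hi x - (prof K).lo x) := by
          have e1 : ∑ K ∈ M, indicator (Ioo ((prof K).c - (prof K).e) ((prof K).c + (prof K).e))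
              (fun x => (prof K).cf |x - (prof K).c|) x =
              ∑ K ∈ M.filter
                (fun K => x ∈ Ioo ((prof K).c - (prof K).e) ((prof K).c + (prof K).e)),
                ((prof K).hi x - (prof K).lo x) := by
            rw [Finset.sum_filter]
            apply Finset.sum_congr rfl
            intro K _
            rw [indicator_apply]
            split_ifs with hK
            · rw [(prof K).chord x hK]
            · rfl
          rw [e1]
          apply Finset.sum_le_sum_of_subset_of_nonneg
          · intro K hK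
            rw [Finset.mem_filter] at hK
            exact (mem_shadow' h hf prof hxY).mpr hK.2
          · intro K hK _
            have := (prof K).lt x ((mem_shadow h prof).mp hK).2
            linarith
        have h4 := sum_chord_le h hf prof hxY (a + d) (by linarith) le_rfl
          (fun K hK => hi_le h hf prof x K ((mem_shadow h prof).mp hK).2)
        linarith
      · rw [indicator_of_notMem hx]
        apply le_of_eq
        apply Finset.sum_eq_zero
        intro K hK
        rw [indicator_of_notMem]
        intro hxK
        apply hx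
        have h5 := hM K hK
        have h6 := hW K
        exact ⟨by linarith [hxK.1, h5.2], by linarith [hxK.2, h5.1]⟩
  have h3 : ∫ x, indicator (Icc (-Y) Y) (fun _ => d) x = 2 * (Y * d) := by
    rw [integral_indicator measurableSet_Icc, setIntegral_const]
    simp only [smul_eq_mul, measureReal_def, Real.volume_Icc]
    rw [ENNReal.toReal_ofReal (by linarith)]
    ring
  rw [h3] at h2
  linarith

/-- Upper bound for the weighted integral. -/
theorem integral_upper {X : ℝ} (hW0 : 0 < W) (hWX : W ≤ X) (hL : 0 ≤ L)
    (hW : ∀ K, (prof K).e ≤ W) :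
    ∫ x, bump (x / X) * ∑ K ∈ h.members X, contrib prof K x ≤
      36 * (W / X) ^ 2 * (L * ((X + 2 * W) * d)) := by
  classical
  have hX : 0 < X := by linarith
  have h1 : ∫ x, bump (x / X) * ∑ K ∈ h.members X, contrib prof K x =
      ∑ K ∈ h.members X, ∫ x, bump (x / X) * contrib prof K x := by
    rw [← integral_finset_sum _ (fun K _ => contrib_integrable prof X K)]
    congr 1
    funext x
    rw [Finset.mul_sum]
  rw [h1]
  set M := (h.members X).filter
    (fun K => (prof K).c - (prof K).e < X ∧ -X < (prof K).c + (prof K).e) with hM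
  have h2 : ∑ K ∈ h.members X, ∫ x, bump (x / X) * contrib prof K x =
      ∑ K ∈ M, ∫ x, bump (x / X) * contrib prof K x := by
    symm
    apply Finset.sum_subset (Finset.filter_subset _ _)
    intro K hK hKM
    have hK2 : ¬ ((prof K).c - (prof K).e < X ∧ -X < (prof K).c + (prof K).e) := by
      intro hcon
      exact hKM (Finset.mem_filter.mpr ⟨hK, hcon⟩)
    have : (fun x => bump (x / X) * contrib prof K x) = fun _ => 0 := by
      funext x
      by_cases hx : x ∈ Ioo ((prof K).c - (prof K).e) ((prof K).c + (prof K).e)
      · have hb : bump (x / X) = 0 := by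
          apply bump_eq_zero
          rw [abs_div, abs_of_pos hX, le_div_iff₀ hX, one_mul]
          by_contra hcon
          push Not at hcon
          rw [abs_lt] at hcon
          apply hK2
          exact ⟨by linarith [hx.1, hcon.2], by linarith [hx.2, hcon.1]⟩
        rw [hb, zero_mul]
      · unfold contrib
        rw [indicator_of_notMem hx, mul_zero]
    rw [this]
    simp
  rw [h2]
  have h3 : ∀ K ∈ M, ∫ x, bump (x / X) * contrib prof K x ≤
      36 * (W / X) ^ 2 * (L * ∫ t in (0 : ℝ)..(prof K).e, (prof K).cf t) := by
    intro K _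
    rw [contrib_integral]
    exact body_estimate (prof K).af_cont (prof K).cf_cont (prof K).e_pos (hW K) hWX hL
      (prof K).af_nonneg (prof K).cf_nonneg (prof K).bound
  refine (Finset.sum_le_sum h3).trans ?_
  rw [← Finset.mul_sum, ← Finset.mul_sum]
  apply mul_le_mul_of_nonneg_left _ (by positivity)
  apply mul_le_mul_of_nonneg_left _ hL
  exact sum_area_le h hf prof hX hW0 hW M (fun K hK => (Finset.mem_filter.mp hK).2)

/-- The main lower bound: the crossing length is less than `L d`. -/
theorem crossingLength_lt (hL : 1 < L) (hW : ∀ K, (prof K).e ≤ W) :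
    crossingLength 𝒞 n a d < ENNReal.ofReal (L * d) := by
  by_contra hcon
  push Not at hcon
  have hd := h.width_pos
  obtain ⟨j₁, j₂, σ, hj, hσ, hgap⟩ := exists_gap h hf prof hL hcon
  set W' := max W 1 with hW'
  have hW'0 : 0 < W' := lt_of_lt_of_le one_pos (le_max_right _ _)
  have hW'e : ∀ K, (prof K).e ≤ W' := fun K => (hW K).trans (le_max_left _ _)
  set D := (j₂ - j₁) * (σ / 2) with hD
  have hDpos : 0 < D := mul_pos (by linarith) (by linarith)
  set X := max (max (2 * W') (max (2 * |j₁|) (2 * |j₂|))) (144 * W' ^ 2 * L * d / D) with hXdef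
  have hX1 : 2 * W' ≤ X := (le_max_left _ _).trans (le_max_left _ _)
  have hX2 : 2 * |j₁| ≤ X := ((le_max_left _ _).trans (le_max_right _ _)).trans (le_max_left _ _)
  have hX3 : 2 * |j₂| ≤ X := ((le_max_right _ _).trans (le_max_right _ _)).trans (le_max_left _ _)
  have hX4 : 144 * W' ^ 2 * L * d / D ≤ X := le_max_right _ _
  have hX0 : 0 < X := by linarith
  have hupper := integral_upper h hf prof (X := X) hW'0 (by linarith) (by linarith) hW'e
  have hlower : D ≤ ∫ x, bump (x / X) * ∑ K ∈ h.members X, contrib prof K x := by
    have e1 : D = ∫ x, indicator (Icc j₁ j₂) (fun _ => σ / 2) x := by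
      rw [integral_indicator measurableSet_Icc, setIntegral_const]
      simp only [smul_eq_mul, measureReal_def, Real.volume_Icc]
      rw [ENNReal.toReal_ofReal (by linarith)]
    rw [e1]
    apply integral_mono
    · rw [integrable_indicator_iff measurableSet_Icc]
      exact integrableOn_const (by simp)
    · have : (fun x => bump (x / X) * ∑ K ∈ h.members X, contrib prof K x) =
          fun x => ∑ K ∈ h.members X, bump (x / X) * contrib prof K x := by
        funext x
        rw [Finset.mul_sum]
      rw [this]
      exact integrable_finset_sum _ (fun K _ => contrib_integrable prof X K)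
    · intro x
      simp only
      by_cases hx : x ∈ Icc j₁ j₂
      · rw [indicator_of_mem hx]
        have h1 := hgap X (by linarith [abs_nonneg j₁]) (by linarith [abs_nonneg j₂]) x hx
        have hxX : |x / X| ≤ 1 / 2 := by
          rw [abs_div, abs_of_pos hX0, div_le_iff₀ hX0]
          have : |x| ≤ max |j₁| |j₂| := abs_le_max_abs_abs hx.1 hx.2
          rcases max_cases |j₁| |j₂| with hm | hm <;> linarith
        have h2 := bump_half hxX
        nlinarith
      · rw [indicator_of_notMem hx]
        by_cases hxX : |x| ≤ X
        · exact mul_nonneg (bump_nonneg _) (sum_contrib_nonneg h hf prof hxX hL hcon)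
        · push Not at hxX
          rw [bump_eq_zero]
          · simp
          · rw [abs_div, abs_of_pos hX0, le_div_iff₀ hX0, one_mul]
            exact hxX.le
  have h3 := hlower.trans hupper
  -- numerical contradiction
  have hX2' : X ^ 2 * (36 * (W' / X) ^ 2 * (L * ((X + 2 * W') * d))) =
      36 * W' ^ 2 * L * d * (X + 2 * W') := by
    field_simp
  have h4 : D * X ^ 2 ≤ 36 * W' ^ 2 * L * d * (X + 2 * W') := by
    rw [← hX2']
    nlinarith [mul_le_mul_of_nonneg_left h3 (sq_nonneg X)]
  have h5 : 144 * W' ^ 2 * L * d ≤ D * X := by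
    rw [div_le_iff₀ hDpos] at hX4
    linarith
  have hpos : 0 < 36 * W' ^ 2 * L * d := by
    have : 0 < L := by linarith
    positivity
  have h6 : 36 * W' ^ 2 * L * d * (X + 2 * W') ≤ 36 * W' ^ 2 * L * d * (2 * X) :=
    mul_le_mul_of_nonneg_left (by linarith) hpos.le
  nlinarith

end Setup

end Run7.h520
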