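import Pool.Agent.Run7.h520.Defs

/-!
# Polygonal paths and curves
-/

namespace Run7.h520

open Set
open scoped ENNReal

/-- There is a polygonal path inside `F` from `p` to `q` of length `l`. -/
inductive Reach (F : Set Plane) : Plane → Plane → ℝ → Prop
  | refl {p : Plane} (hp : p ∈ F) : Reach F p p 0
  | step {p q r : Plane} {l : ℝ} : Reach F p q l → segment ℝ q r ⊆ F →
      Reach F p r (l + dist q r)

namespace Reach

variable {F G : Set Plane} {p q r : Plane} {l l' : ℝ}

theorem mono (h : Reach F p q l) (hFG : F ⊆ G) : Reach G p q l := by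
  induction h with
  | refl hp => exact Reach.refl (hFG hp)
  | step _ hs ih => exact Reach.step ih (hs.trans hFG)

theorem trans (h : Reach F p q l) (h' : Reach F q r l') : Reach F p r (l + l') := by
  induction h' with
  | refl _ => simpa using h
  | step _ hs ih => rw [← add_assoc]; exact Reach.step ih hs

theorem of_segment (h : segment ℝ p q ⊆ F) : Reach F p q (dist p q) := by
  have := Reach.step (Reach.refl (h (left_mem_segment ℝ p q))) h
  simpa using this

theorem symm (h : Reach F p q l) : Reach F q p l := by
  induction h with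
  | refl hp => exact Reach.refl hp
  | @step q r l _ hs ih =>
    have h1 : Reach F r q (dist r q) := by
      apply of_segment
      rwa [segment_symm]
    have := h1.trans ih
    rwa [dist_comm, add_comm] at this

theorem nonneg (h : Reach F p q l) : 0 ≤ l := by
  induction h with
  | refl _ => exact le_rfl
  | step _ _ ih => exact add_nonneg ih dist_nonneg

theorem dist_le (h : Reach F p q l) : dist p q ≤ l := by
  induction h with
  | refl _ => simp
  | step _ _ ih => exact (dist_triangle _ _ _).trans (by linarith)

theorem left_mem (h : Reach F p q l) : p ∈ F := by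
  induction h with
  | refl hp => exact hp
  | step _ _ ih => exact ih

theorem right_mem (h : Reach F p q l) : q ∈ F := h.symm.left_mem

/-- A polygonal path is a curve. -/
theorem exists_curve_aux (h : Reach F p q l) :
    ∃ (T : ℝ) (γ : ℝ → Plane), 0 ≤ T ∧ ContinuousOn γ (Icc 0 T) ∧ γ 0 = p ∧ γ T = q ∧
      (∀ t ∈ Icc (0 : ℝ) T, γ t ∈ F) ∧ eVariationOn γ (Icc 0 T) ≤ ENNReal.ofReal l := by
  induction h with
  | @refl hp =>
    refine ⟨0, fun _ => p, le_rfl, continuousOn_const, rfl, rfl, fun _ _ => hp, ?_⟩
    rw [eVariationOn.constant_on]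
    · simp
    · rintro _ ⟨a, _, rfl⟩ _ ⟨b, _, rfl⟩
      rfl
  | @step q r l hpq hs ih =>
    obtain ⟨T, γ, hT, hc, h0, hT', hF, hv⟩ := ih
    set δ : ℝ → Plane := fun t => if t ≤ T then γ t else AffineMap.lineMap q r (t - T) with hδ
    have hδ1 : EqOn δ γ (Icc 0 T) := by
      intro t ht
      simp [hδ, ht.2]
    have hδ2 : EqOn δ (fun t => AffineMap.lineMap q r (t - T)) (Icc T (T + 1)) := by
      intro t ht
      rcases eq_or_lt_of_le ht.1 with h | h
      · subst h
        simp [hδ, hT']
      · simp [hδ, not_le.mpr h]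
    have hline : Continuous (fun t : ℝ => (AffineMap.lineMap q r (t - T) : Plane)) := by
      have : Continuous (fun t : ℝ => (AffineMap.lineMap q r t : Plane)) :=
        AffineMap.lineMap_continuous
      exact this.comp (continuous_id.sub continuous_const)
    refine ⟨T + 1, δ, by linarith, ?_, ?_, ?_, ?_, ?_⟩
    · have hunion : Icc 0 (T + 1) = Icc 0 T ∪ Icc T (T + 1) :=
        (Icc_union_Icc_eq_Icc hT (by linarith)).symm
      rw [hunion]
      apply ContinuousOn.union_of_isClosed
      · exact hc.congr hδ1
      · exact hline.continuousOn.congr hδ2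
      · exact isClosed_Icc
      · exact isClosed_Icc
    · have : δ 0 = γ 0 := hδ1 ⟨le_rfl, hT⟩
      rw [this, h0]
    · have : δ (T + 1) = AffineMap.lineMap q r (T + 1 - T) := hδ2 ⟨by linarith, le_rfl⟩
      rw [this]
      simp
    · intro t ht
      rcases le_total t T with h | h
      · rw [hδ1 ⟨ht.1, h⟩]
        exact hF t ⟨ht.1, h⟩
      · rw [hδ2 ⟨h, ht.2⟩]
        apply hs
        rw [segment_eq_image_lineMap]
        exact ⟨t - T, ⟨by linarith, by linarith [ht.2]⟩, rfl⟩
    · have h1 : eVariationOn δ (Icc 0 T) = eVariationOn γ (Icc 0 T) :=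
        eVariationOn.eq_of_eqOn hδ1
      have h2 : eVariationOn δ (Icc T (T + 1)) ≤ ENNReal.ofReal (dist q r) := by
        rw [eVariationOn.eq_of_eqOn hδ2]
        have hL : LipschitzOnWith (nndist q r) (fun t : ℝ => (AffineMap.lineMap q r (t - T) : Plane))
            univ := by
          apply LipschitzWith.lipschitzOnWith
          apply LipschitzWith.of_dist_le_mul
          intro x y
          rw [dist_lineMap_lineMap, coe_nndist, mul_comm]
          simp [Real.dist_eq]
        have h3 := hL.comp_eVariationOn_le (g := (id : ℝ → ℝ)) (s := Icc T (T + 1))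
          (fun _ _ => mem_univ _)
        have h4 : eVariationOn (id : ℝ → ℝ) (Icc T (T + 1)) = ENNReal.ofReal 1 := by
          have h5 := MonotoneOn.eVariationOn_eq (f := (id : ℝ → ℝ)) (s := Icc T (T + 1))
            (a := T) (b := T + 1) (monotone_id.monotoneOn _) ⟨le_rfl, by linarith⟩
            ⟨by linarith, le_rfl⟩
          rw [inter_self] at h5
          rw [h5]
          congr 1
          simp
        rw [h4] at h3
        simp only [Function.comp_def, id] at h3
        refine h3.trans ?_
        rw [ENNReal.ofReal_one, mul_one]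
        rw [ENNReal.ofReal, dist_nndist, Real.toNNReal_coe]
      have h3 := eVariationOn.Icc_add_Icc δ (s := univ) hT (by linarith : T ≤ T + 1) (mem_univ _)
      simp only [univ_inter] at h3
      rw [← h3, h1]
      rw [ENNReal.ofReal_add hpq.nonneg dist_nonneg]
      exact add_le_add hv h2

/-- A polygonal path is a curve on `[0,1]`. -/
theorem exists_curve (h : Reach F p q l) :
    ∃ γ : ℝ → Plane, ContinuousOn γ (Icc 0 1) ∧ γ 0 = p ∧ γ 1 = q ∧
      (∀ t ∈ Icc (0 : ℝ) 1, γ t ∈ F) ∧ eVariationOn γ (Icc 0 1) ≤ ENNReal.ofReal l := by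
  obtain ⟨T, γ, hT, hc, h0, h1, hF, hv⟩ := h.exists_curve_aux
  have hmaps : MapsTo (fun t : ℝ => T * t) (Icc 0 1) (Icc 0 T) := by
    intro t ht
    exact ⟨mul_nonneg hT ht.1, by nlinarith [ht.2]⟩
  refine ⟨fun t => γ (T * t), ?_, by simp [h0], by simp [h1], fun t ht => hF _ (hmaps ht), ?_⟩
  · exact hc.comp (by fun_prop) hmaps
  · have hm : MonotoneOn (fun t : ℝ => T * t) (Icc 0 1) :=
      fun x _ y _ hxy => mul_le_mul_of_nonneg_left hxy hT
    have := eVariationOn.comp_le_of_monotoneOn γ (fun t : ℝ => T * t) hm hmaps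
    exact this.trans hv

end Reach

end Run7.h520
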