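import Pool.Agent.Run7.h520.Frame

/-!
# Geometry of parallelograms
-/

namespace Run7.h520

open Set

/-- `tau α β t = min 1 ((α - t) / β)` (and `1` if `β = 0`). -/
noncomputable def tau (α β t : ℝ) : ℝ := if β = 0 then 1 else min 1 ((α - t) / β)

theorem tau_continuous (α β : ℝ) : Continuous (tau α β) := by
  unfold tau
  split_ifs
  · exact continuous_const
  · fun_prop

theorem tau_le_one (α β t : ℝ) : tau α β t ≤ 1 := by
  unfold tau
  split_ifs
  · exact le_rfl
  · exact min_le_left _ _

theorem tau_eq_one {α β t : ℝ} (h2 : 0 ≤ β) (ht : t ≤ α - β) : tau α β t = 1 := by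
  unfold tau
  split_ifs with h
  · rfl
  · have hb : 0 < β := lt_of_le_of_ne h2 (Ne.symm h)
    apply min_eq_left
    rw [le_div_iff₀ hb]
    linarith

theorem tau_antitone {α β : ℝ} (h2 : 0 ≤ β) : Antitone (tau α β) := by
  intro s t hst
  unfold tau
  split_ifs with h
  · exact le_rfl
  · have hb : 0 < β := lt_of_le_of_ne h2 (Ne.symm h)
    apply min_le_min le_rfl
    exact div_le_div_of_nonneg_right (by linarith) hb.le

/-- For `t < α + β`, `tau > -1`. -/
theorem neg_one_lt_tau {α β t : ℝ} (h2 : 0 ≤ β) (ht : t < α + β) : -1 < tau α β t := by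
  unfold tau
  split_ifs with h
  · norm_num
  · have hb : 0 < β := lt_of_le_of_ne h2 (Ne.symm h)
    rw [lt_min_iff]
    refine ⟨by norm_num, ?_⟩
    rw [lt_div_iff₀ hb]
    linarith

/-- `β tau` is at most `α - t`, for `t < α + β`. -/
theorem mul_tau_le {α β t : ℝ} (h2 : 0 ≤ β) (ht : t < α + β) : β * tau α β t ≤ α - t := by
  unfold tau
  split_ifs with h
  · subst h
    linarith
  · have hb : 0 < β := lt_of_le_of_ne h2 (Ne.symm h)
    calc β * min 1 ((α - t) / β) ≤ β * ((α - t) / β) :=
          mul_le_mul_of_nonneg_left (min_le_right _ _) hb.le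
      _ = α - t := by field_simp

/-- Either `tau = 1` or `β tau = α - t`. -/
theorem tau_cases {α β t : ℝ} : tau α β t = 1 ∨ β * tau α β t = α - t := by
  unfold tau
  split_ifs with h
  · exact Or.inl rfl
  · rcases min_cases 1 ((α - t) / β) with h1 | h1
    · left; exact h1.1
    · right; rw [h1.1]; field_simp

/-- Comparison with `tau`. -/
theorem lt_tau_iff {α β t u : ℝ} (h2 : 0 ≤ β) (ht : t < α + β) :
    u < tau α β t ↔ u < 1 ∧ β * u < α - t := by
  unfold tau
  split_ifs with h
  · subst h
    constructor
    · intro hu; exact ⟨hu, by linarith⟩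
    · intro hu; exact hu.1
  · have hb : 0 < β := lt_of_le_of_ne h2 (Ne.symm h)
    rw [lt_min_iff, lt_div_iff₀ hb, mul_comm]

theorem le_tau_iff {α β t u : ℝ} (h2 : 0 ≤ β) (ht : t < α + β) :
    u ≤ tau α β t ↔ u ≤ 1 ∧ β * u ≤ α - t := by
  unfold tau
  split_ifs with h
  · subst h
    constructor
    · intro hu; exact ⟨hu, by linarith⟩
    · intro hu; exact hu.1
  · have hb : 0 < β := lt_of_le_of_ne h2 (Ne.symm h)
    rw [le_min_iff, le_div_iff₀ hb, mul_comm]

theorem integral_tau {α β : ℝ} (h2 : 0 ≤ β) (h3 : β ≤ α) :
    ∫ t in (0 : ℝ)..(α + β), tau α β t = α - β := by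
  by_cases h : β = 0
  · subst h
    simp [tau]
  · have hb : 0 < β := lt_of_le_of_ne h2 (Ne.symm h)
    have hc := tau_continuous α β
    have hsplit : ∫ t in (0 : ℝ)..(α + β), tau α β t =
        (∫ t in (0 : ℝ)..(α - β), tau α β t) + ∫ t in (α - β)..(α + β), tau α β t :=
      (intervalIntegral.integral_add_adjacent_intervals (hc.intervalIntegrable _ _)
        (hc.intervalIntegrable _ _)).symm
    have e1 : ∫ t in (0 : ℝ)..(α - β), tau α β t = ∫ t in (0 : ℝ)..(α - β), (1 : ℝ) := by
      apply intervalIntegral.integral_congr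
      intro t ht
      rw [uIcc_of_le (by linarith)] at ht
      exact tau_eq_one h2 ht.2
    have e2 : ∫ t in (α - β)..(α + β), tau α β t = ∫ t in (α - β)..(α + β), (α - t) / β := by
      apply intervalIntegral.integral_congr
      intro t ht
      rw [uIcc_of_le (by linarith)] at ht
      simp only [tau, if_neg h]
      apply min_eq_right
      rw [div_le_one hb]
      linarith [ht.1]
    have e3 : ∫ t in (α - β)..(α + β), (α - t) / β = 0 := by
      rw [intervalIntegral.integral_div, intervalIntegral.integral_sub, integral_id,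
        intervalIntegral.integral_const]
      · simp only [smul_eq_mul]
        field_simp
        ring
      · exact continuous_const.intervalIntegrable _ _
      · exact continuous_id.intervalIntegrable _ _
    rw [hsplit, e1, e2, e3, intervalIntegral.integral_const]
    simp

/-- The half perimeter function of a parallelogram, as a function of the distance of the line
from the centre. -/
noncomputable def pgramArc (a b α β t : ℝ) : ℝ :=
  a * (α + β - t) / α + b * (1 + tau α β t) + a * (α - t - β * tau α β t) / α

/-- The chord function of a parallelogram. -/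
noncomputable def pgramChord (α β κ t : ℝ) : ℝ := |κ| / α * (1 + tau α β t)

theorem pgramArc_continuous (a b α β : ℝ) : Continuous (pgramArc a b α β) := by
  have := tau_continuous α β
  unfold pgramArc
  fun_prop

theorem pgramChord_continuous (α β κ : ℝ) : Continuous (pgramChord α β κ) := by
  have := tau_continuous α β
  unfold pgramChord
  fun_prop

theorem integral_pgramChord {α β κ : ℝ} (h1 : 0 < α) (h2 : 0 ≤ β) (h3 : β ≤ α) :
    ∫ t in (0 : ℝ)..(α + β), pgramChord α β κ t = 2 * |κ| := by
  have hc := tau_continuous α β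
  unfold pgramChord
  rw [intervalIntegral.integral_const_mul, intervalIntegral.integral_add, integral_tau h2 h3,
    intervalIntegral.integral_const]
  · simp only [smul_eq_mul]
    field_simp
    ring
  · exact continuous_const.intervalIntegrable _ _
  · exact hc.intervalIntegrable _ _

theorem integral_pgramArc {a b α β : ℝ} (h1 : 0 < α) (h2 : 0 ≤ β) (h3 : β ≤ α) :
    ∫ t in (0 : ℝ)..(α + β), pgramArc a b α β t = 2 * α * b + a * (α ^ 2 + β ^ 2) / α := by
  have hc := tau_continuous α β
  have e : ∀ t, pgramArc a b α β t =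
      (a * (α + β) / α + b + a) + (-(2 * a / α)) * t + (b - a * β / α) * tau α β t := by
    intro t
    unfold pgramArc
    field_simp
    ring
  simp only [e]
  rw [intervalIntegral.integral_add, intervalIntegral.integral_add,
    intervalIntegral.integral_const, intervalIntegral.integral_const_mul,
    intervalIntegral.integral_const_mul, integral_id, integral_tau h2 h3]
  · simp only [smul_eq_mul]
    field_simp
    ring
  all_goals apply Continuous.intervalIntegrable; fun_prop

/-- Membership in the boundary of a parallelogram. -/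
theorem pgram_interior {m n c₀ A B : Plane} (hf : Frame m n)
    (hκ : (inner ℝ m A : ℝ) * inner ℝ n B - inner ℝ n A * inner ℝ m B ≠ 0) :
    interior (pgram c₀ A B) = {z | ∃ s t : ℝ, |s| < 1 ∧ |t| < 1 ∧ z = c₀ + s • A + t • B} := by
  set α : ℝ := inner ℝ m A with hα
  set α' : ℝ := inner ℝ n A with hα'
  set β : ℝ := inner ℝ m B with hβ
  set β' : ℝ := inner ℝ n B with hβ'
  set κ : ℝ := α * β' - α' * β with hκd
  let f : ℝ × ℝ ≃ₜ Plane :=
    { toFun := fun p => c₀ + p.1 • A + p.2 • B
      invFun := fun z => (((inner ℝ m (z - c₀) : ℝ) * β' - inner ℝ n (z - c₀) * β) / κ,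
        ((inner ℝ n (z - c₀) : ℝ) * α - inner ℝ m (z - c₀) * α') / κ)
      left_inv := by
        rintro ⟨s, t⟩
        have e : c₀ + s • A + t • B - c₀ = s • A + t • B := by abel
        simp only [e, inner_add_right, inner_smul_right, ← hα, ← hα', ← hβ, ← hβ']
        ext
        · simp only
          rw [div_eq_iff hκ, hκd]
          ring
        · simp only
          rw [div_eq_iff hκ, hκd]
          ring
      right_inv := by
        intro z
        simp only
        set x : ℝ := inner ℝ m (z - c₀) with hx
        set y : ℝ := inner ℝ n (z - c₀) with hy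
        have e1 : z - c₀ = x • m + y • n := hf.dec (z - c₀)
        have e2 : A = α • m + α' • n := hf.dec A
        have e3 : B = β • m + β' • n := hf.dec B
        have e4 : ((x * β' - y * β) / κ) • A + ((y * α - x * α') / κ) • B = x • m + y • n := by
          rw [e2, e3]
          have h1 : (x * β' - y * β) / κ * α + (y * α - x * α') / κ * β = x := by
            field_simp
            rw [hκd]; ring
          have h2 : (x * β' - y * β) / κ * α' + (y * α - x * α') / κ * β' = y := by
            field_simp
            rw [hκd]; ring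
          calc ((x * β' - y * β) / κ) • (α • m + α' • n) +
                ((y * α - x * α') / κ) • (β • m + β' • n)
              = ((x * β' - y * β) / κ * α + (y * α - x * α') / κ * β) • m +
                ((x * β' - y * β) / κ * α' + (y * α - x * α') / κ * β') • n := by module
            _ = x • m + y • n := by rw [h1, h2]
        rw [add_assoc, e4, ← e1]
        abel
      continuous_toFun := by fun_prop
      continuous_invFun := by fun_prop }
  have hbox : pgram c₀ A B = f '' (Icc (-1) 1 ×ˢ Icc (-1) 1) := by
    ext z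
    constructor
    · rintro ⟨s, t, hs, ht, rfl⟩
      exact ⟨(s, t), ⟨abs_le.mp hs, abs_le.mp ht⟩, rfl⟩
    · rintro ⟨⟨s, t⟩, ⟨hs, ht⟩, rfl⟩
      exact ⟨s, t, abs_le.mpr hs, abs_le.mpr ht, rfl⟩
  rw [hbox, ← f.image_interior, interior_prod_eq, interior_Icc]
  ext z
  constructor
  · rintro ⟨⟨s, t⟩, ⟨hs, ht⟩, rfl⟩
    exact ⟨s, t, abs_lt.mpr hs, abs_lt.mpr ht, rfl⟩
  · rintro ⟨s, t, hs, ht, rfl⟩
    exact ⟨(s, t), ⟨abs_lt.mp hs, abs_lt.mp ht⟩, rfl⟩

/-- Uniqueness of coordinates. -/
theorem coord_unique {m n A B : Plane}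
    (hκ : (inner ℝ m A : ℝ) * inner ℝ n B - inner ℝ n A * inner ℝ m B ≠ 0)
    {c₀ : Plane} {s t s' t' : ℝ} (h : c₀ + s • A + t • B = c₀ + s' • A + t' • B) :
    s = s' ∧ t = t' := by
  have h0 : (s - s') • A + (t - t') • B = 0 := by
    have : (s - s') • A + (t - t') • B = (c₀ + s • A + t • B) - (c₀ + s' • A + t' • B) := by module
    rw [this, h, sub_self]
  have h1 := congrArg (fun z => (inner ℝ m z : ℝ)) h0
  have h2 := congrArg (fun z => (inner ℝ n z : ℝ)) h0
  simp only [inner_add_right, inner_smul_right, inner_zero_right] at h1 h2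
  constructor
  · have : (s - s') * ((inner ℝ m A : ℝ) * inner ℝ n B - inner ℝ n A * inner ℝ m B) = 0 := by
      linear_combination (inner ℝ n B : ℝ) * h1 - (inner ℝ m B : ℝ) * h2
    rcases mul_eq_zero.mp this with h | h
    · linarith
    · exact absurd h hκ
  · have : (t - t') * ((inner ℝ m A : ℝ) * inner ℝ n B - inner ℝ n A * inner ℝ m B) = 0 := by
      linear_combination (inner ℝ m A : ℝ) * h2 - (inner ℝ n A : ℝ) * h1
    rcases mul_eq_zero.mp this with h | h
    · linarith
    · exact absurd h hκ

end Run7.h520
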