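import Pool.Agent.Run7.h520.PgramGeom
import Pool.Agent.Run7.h520.Frame

/-!
# The profile of a parallelogram
-/

namespace Run7.h520

open Set

/-- Data of a parallelogram in a frame. -/
structure PData (m n c₀ A B : Plane) (c cy α α' β β' κ : ℝ) : Prop where
  hf : Frame m n
  hc : inner ℝ m c₀ = c
  hcy : inner ℝ n c₀ = cy
  hα : inner ℝ m A = α
  hα' : inner ℝ n A = α'
  hβ : inner ℝ m B = β
  hβ' : inner ℝ n B = β'
  hκ : α * β' - α' * β = κ
  hκ0 : κ ≠ 0
  h1 : 0 < α
  h2 : 0 ≤ β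
  h3 : β ≤ α

/-- The height of the point with `B`-coordinate `t` on the line `x`. -/
noncomputable def yy (c cy α α' κ x t : ℝ) : ℝ := cy + (x - c) * α' / α + κ / α * t

namespace PData

variable {m n c₀ A B : Plane} {c cy α α' β β' κ : ℝ} (D : PData m n c₀ A B c cy α α' β β' κ)

include D

theorem pt_eq (x t : ℝ) : pt m n x (yy c cy α α' κ x t) =
    c₀ + ((x - c - β * t) / α) • A + t • B := by
  have hc := D.hf.eq_pt c₀
  have hA := D.hf.eq_pt A
  have hB := D.hf.eq_pt B
  rw [D.hc, D.hcy] at hc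
  rw [D.hα, D.hα'] at hA
  rw [D.hβ, D.hβ'] at hB
  have h0 : α ≠ 0 := D.h1.ne'
  have e1 : x = c + (x - c - β * t) / α * α + t * β := by field_simp; ring
  have e2 : yy c cy α α' κ x t = cy + (x - c - β * t) / α * α' + t * β' := by
    unfold yy
    rw [← D.hκ]
    field_simp
    ring
  rw [hc, hA, hB, e2]
  set s := (x - c - β * t) / α with hs
  rw [e1]
  simp only [pt]
  module

/-- Coordinates of a point on the line `x`. -/
theorem coord (x y : ℝ) {s t : ℝ} (h : pt m n x y = c₀ + s • A + t • B) :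
    y = yy c cy α α' κ x t ∧ s = (x - c - β * t) / α := by
  have h0 : α ≠ 0 := D.h1.ne'
  have h1 := congrArg (fun z => (inner ℝ m z : ℝ)) h
  have h2 := congrArg (fun z => (inner ℝ n z : ℝ)) h
  simp only [D.hf.inner_m_pt, D.hf.inner_n_pt, inner_add_right, inner_smul_right, D.hc, D.hcy,
    D.hα, D.hα', D.hβ, D.hβ'] at h1 h2
  have hs : s = (x - c - β * t) / α := by
    rw [eq_div_iff h0]
    linarith
  refine ⟨?_, hs⟩
  rw [h2, hs]
  unfold yy
  rw [← D.hκ]
  field_simp
  ring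

theorem hκ' : (inner ℝ m A : ℝ) * inner ℝ n B - inner ℝ n A * inner ℝ m B ≠ 0 := by
  rw [D.hα, D.hα', D.hβ, D.hβ', D.hκ]
  exact D.hκ0

theorem ofCoord (x y : ℝ) : pt m n x y =
    c₀ + ((x - c - β * ((y - cy - (x - c) * α' / α) * (α / κ))) / α) • A +
      ((y - cy - (x - c) * α' / α) * (α / κ)) • B := by
  rw [← D.pt_eq]
  congr 1
  unfold yy
  have h0 : α ≠ 0 := D.h1.ne'
  have h1 := D.hκ0
  field_simp
  ring

theorem mem_iff (x y : ℝ) : pt m n x y ∈ pgram c₀ A B ↔
    ∃ t : ℝ, |t| ≤ 1 ∧ |(x - c - β * t) / α| ≤ 1 ∧ y = yy c cy α α' κ x t := by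
  constructor
  · rintro ⟨s, t, hs, ht, he⟩
    obtain ⟨h1, h2⟩ := D.coord x y he
    exact ⟨t, ht, by rw [← h2]; exact hs, h1⟩
  · rintro ⟨t, ht, hs, rfl⟩
    exact ⟨_, t, hs, ht, D.pt_eq x t⟩

theorem mem_int_iff (x y : ℝ) : pt m n x y ∈ interior (pgram c₀ A B) ↔
    ∃ t : ℝ, |t| < 1 ∧ |(x - c - β * t) / α| < 1 ∧ y = yy c cy α α' κ x t := by
  rw [pgram_interior D.hf D.hκ']
  constructor
  · rintro ⟨s, t, hs, ht, he⟩
    obtain ⟨h1, h2⟩ := D.coord x y he
    exact ⟨t, ht, by rw [← h2]; exact hs, h1⟩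
  · rintro ⟨t, ht, hs, rfl⟩
    exact ⟨_, t, hs, ht, D.pt_eq x t⟩

/-- The open condition on the parameter. -/
theorem param_lt_iff {x : ℝ} (t : ℝ) :
    (|t| < 1 ∧ |(x - c - β * t) / α| < 1) ↔
      (x ∈ Ioo (c - (α + β)) (c + (α + β)) ∧ -tau α β (x - c) < t ∧ t < tau α β (c - x)) := by
  have h0 := D.h1
  rw [abs_div, abs_of_pos h0, div_lt_one h0, abs_lt, abs_lt]
  constructor
  · rintro ⟨⟨ht1, ht2⟩, hs1, hs2⟩
    have hb := D.h2
    have hx : x ∈ Ioo (c - (α + β)) (c + (α + β)) := ⟨by nlinarith, by nlinarith⟩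
    refine ⟨hx, ?_, ?_⟩
    · rw [neg_lt, lt_tau_iff D.h2 (by linarith [hx.2])]
      exact ⟨by linarith, by nlinarith⟩
    · rw [lt_tau_iff D.h2 (by linarith [hx.1])]
      exact ⟨by linarith, by nlinarith⟩
  · rintro ⟨hx, ht1, ht2⟩
    rw [neg_lt, lt_tau_iff D.h2 (by linarith [hx.2])] at ht1
    rw [lt_tau_iff D.h2 (by linarith [hx.1])] at ht2
    refine ⟨⟨by linarith, by linarith⟩, by nlinarith, by nlinarith⟩

/-- The closed condition on the parameter. -/
theorem param_le_iff {x : ℝ} (hx : x ∈ Ioo (c - (α + β)) (c + (α + β))) (t : ℝ) :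
    (|t| ≤ 1 ∧ |(x - c - β * t) / α| ≤ 1) ↔
      (-tau α β (x - c) ≤ t ∧ t ≤ tau α β (c - x)) := by
  have h0 := D.h1
  rw [abs_div, abs_of_pos h0, div_le_one h0, abs_le, abs_le]
  constructor
  · rintro ⟨⟨ht1, ht2⟩, hs1, hs2⟩
    constructor
    · rw [neg_le, le_tau_iff D.h2 (by linarith [hx.2])]
      exact ⟨by linarith, by nlinarith⟩
    · rw [le_tau_iff D.h2 (by linarith [hx.1])]
      exact ⟨by linarith, by nlinarith⟩
  · rintro ⟨ht1, ht2⟩
    rw [neg_le, le_tau_iff D.h2 (by linarith [hx.2])] at ht1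
    rw [le_tau_iff D.h2 (by linarith [hx.1])] at ht2
    refine ⟨⟨by linarith, by linarith⟩, by nlinarith, by nlinarith⟩

/-- A segment in the side `A`-direction of the boundary. -/
theorem segA {s s' t : ℝ} (hs : |s| ≤ 1) (hs' : |s'| ≤ 1) (ht : |t| ≤ 1)
    (hor : |t| = 1 ∨ (s = s' ∧ |s| = 1)) :
    segment ℝ (c₀ + s • A + t • B) (c₀ + s' • A + t • B) ⊆
      pgram c₀ A B \ interior (pgram c₀ A B) := by
  rintro _ ⟨a, b, ha, hb, hab, rfl⟩
  have e : a • (c₀ + s • A + t • B) + b • (c₀ + s' • A + t • B) =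
      c₀ + (a * s + b * s') • A + t • B := by
    have : a = 1 - b := by linarith
    subst this
    module
  rw [e]
  have hab' : |a * s + b * s'| ≤ 1 := by
    rw [abs_le] at *
    constructor <;> nlinarith [hs.1, hs.2, hs'.1, hs'.2]
  refine ⟨⟨_, _, hab', ht, rfl⟩, ?_⟩
  rw [pgram_interior D.hf D.hκ']
  rintro ⟨s₁, t₁, hs₁, ht₁, he⟩
  obtain ⟨h1, h2⟩ := coord_unique D.hκ' he
  rcases hor with h | ⟨h, h'⟩
  · rw [h2] at h; exact absurd h ht₁.ne
  · have : a * s + b * s' = s := by rw [← h]; rw [← add_mul, hab, one_mul]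
    rw [this] at h1
    rw [h1] at h'; exact absurd h' hs₁.ne

/-- A segment in the side `B`-direction of the boundary. -/
theorem segB {s t t' : ℝ} (hs : |s| = 1) (ht : |t| ≤ 1) (ht' : |t'| ≤ 1) :
    segment ℝ (c₀ + s • A + t • B) (c₀ + s • A + t' • B) ⊆
      pgram c₀ A B \ interior (pgram c₀ A B) := by
  rintro _ ⟨a, b, ha, hb, hab, rfl⟩
  have e : a • (c₀ + s • A + t • B) + b • (c₀ + s • A + t' • B) =
      c₀ + s • A + (a * t + b * t') • B := by
    have : a = 1 - b := by linarith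
    subst this
    module
  rw [e]
  have hab' : |a * t + b * t'| ≤ 1 := by
    rw [abs_le] at *
    constructor <;> nlinarith [ht.1, ht.2, ht'.1, ht'.2]
  refine ⟨⟨_, _, hs.le, hab', rfl⟩, ?_⟩
  rw [pgram_interior D.hf D.hκ']
  rintro ⟨s₁, t₁, hs₁, ht₁, he⟩
  obtain ⟨h1, h2⟩ := coord_unique D.hκ' he
  rw [h1] at hs; exact absurd hs hs₁.ne

/-- The walk from the point with parameter `tau` on the line `x ≤ c` to the left corner. -/
theorem walkU {x : ℝ} (hx : x ∈ Ioo (c - (α + β)) (c + (α + β))) :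
    Reach (pgram c₀ A B \ interior (pgram c₀ A B))
      (pt m n x (yy c cy α α' κ x (tau α β (c - x)))) (c₀ + (-1 : ℝ) • A + (-1 : ℝ) • B)
      (‖A‖ * ((x - c - β * tau α β (c - x)) / α + 1) + ‖B‖ * (tau α β (c - x) + 1)) ∧
    -1 ≤ (x - c - β * tau α β (c - x)) / α := by
  have h0 := D.h1
  set T := tau α β (c - x) with hT
  have hT1 : T ≤ 1 := tau_le_one _ _ _
  have hT2 : -1 < T := neg_one_lt_tau D.h2 (by linarith [hx.1])
  have hT3 : -tau α β (x - c) ≤ T := by
    have h5 : -1 < tau α β (x - c) := neg_one_lt_tau D.h2 (by linarith [hx.2])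
    rcases le_total x c with h | h
    · have : tau α β (x - c) = 1 := tau_eq_one D.h2 (by linarith [D.h3])
      rw [this]; linarith
    · have : T = 1 := tau_eq_one D.h2 (by linarith [D.h3])
      rw [this]; linarith
  obtain ⟨hT4, hs⟩ := (D.param_le_iff hx T).mpr ⟨hT3, le_rfl⟩
  set s := (x - c - β * T) / α with hsd
  have hs' := abs_le.mp hs
  refine ⟨?_, hs'.1⟩
  rw [D.pt_eq x T]
  have w1 : Reach (pgram c₀ A B \ interior (pgram c₀ A B)) (c₀ + s • A + T • B)
      (c₀ + (-1 : ℝ) • A + T • B) (dist (c₀ + s • A + T • B) (c₀ + (-1 : ℝ) • A + T • B)) := by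
    apply Reach.of_segment
    apply D.segA hs (by norm_num) hT4
    rcases tau_cases (α := α) (β := β) (t := c - x) with h | h
    · left; rw [hT, h]; norm_num
    · right
      have : s = -1 := by
        rw [hsd, ← hT] at *
        rw [div_eq_iff h0.ne']
        linarith
      rw [this]; norm_num
  have w2 : Reach (pgram c₀ A B \ interior (pgram c₀ A B)) (c₀ + (-1 : ℝ) • A + T • B)
      (c₀ + (-1 : ℝ) • A + (-1 : ℝ) • B)
      (dist (c₀ + (-1 : ℝ) • A + T • B) (c₀ + (-1 : ℝ) • A + (-1 : ℝ) • B)) := by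
    apply Reach.of_segment
    exact D.segB (by norm_num) hT4 (by norm_num)
  have w := w1.trans w2
  convert w using 1
  rw [dist_eq_norm, dist_eq_norm]
  have e1 : c₀ + s • A + T • B - (c₀ + (-1 : ℝ) • A + T • B) = (s + 1) • A := by module
  have e2 : c₀ + (-1 : ℝ) • A + T • B - (c₀ + (-1 : ℝ) • A + (-1 : ℝ) • B) = (T + 1) • B := by module
  rw [e1, e2, norm_smul, norm_smul, Real.norm_of_nonneg (by linarith),
    Real.norm_of_nonneg (by linarith)]
  ring

/-- The walk from the other point on the line `x ≤ c` to the left corner. -/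
theorem walkD {x : ℝ} (hx : x ∈ Ioo (c - (α + β)) (c + (α + β))) (hxc : x ≤ c) :
    Reach (pgram c₀ A B \ interior (pgram c₀ A B))
      (pt m n x (yy c cy α α' κ x (-tau α β (x - c)))) (c₀ + (-1 : ℝ) • A + (-1 : ℝ) • B)
      (‖A‖ * ((x - c + β) / α + 1)) := by
  have h0 := D.h1
  have hT : tau α β (x - c) = 1 := tau_eq_one D.h2 (by linarith [D.h3])
  rw [hT, D.pt_eq]
  have e0 : (x - c - β * -1) / α = (x - c + β) / α := by ring
  rw [e0]
  set s := (x - c + β) / α with hsd
  have hs1 : -1 ≤ s := by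
    rw [hsd, le_div_iff₀ h0]
    linarith [hx.1]
  have hs2 : s ≤ 1 := by
    rw [hsd, div_le_one h0]
    linarith [D.h3]
  have w1 : Reach (pgram c₀ A B \ interior (pgram c₀ A B)) (c₀ + s • A + (-1 : ℝ) • B)
      (c₀ + (-1 : ℝ) • A + (-1 : ℝ) • B)
      (dist (c₀ + s • A + (-1 : ℝ) • B) (c₀ + (-1 : ℝ) • A + (-1 : ℝ) • B)) := by
    apply Reach.of_segment
    apply D.segA (abs_le.mpr ⟨hs1, hs2⟩) (by norm_num) (by norm_num)
    left; norm_num
  convert w1 using 1
  rw [dist_eq_norm]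
  have e1 : c₀ + s • A + (-1 : ℝ) • B - (c₀ + (-1 : ℝ) • A + (-1 : ℝ) • B) = (s + 1) • A := by module
  rw [e1, norm_smul, Real.norm_of_nonneg (by linarith)]
  ring

theorem α_le : α ≤ ‖A‖ := by
  have := real_inner_le_norm m A
  rw [D.hα, D.hf.norm_m, one_mul] at this
  exact this

theorem β_le : β ≤ ‖B‖ := by
  have := real_inner_le_norm m B
  rw [D.hβ, D.hf.norm_m, one_mul] at this
  exact this

/-- Monotonicity of the walk lengths. -/
theorem lenU {x' x : ℝ} (hx' : x' ∈ Ioo (c - (α + β)) (c + (α + β)))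
    (hx : x ∈ Ioo (c - (α + β)) (c + (α + β))) (hxx : x' ≤ x) :
    ‖A‖ * ((x' - c - β * tau α β (c - x')) / α + 1) + ‖B‖ * (tau α β (c - x') + 1) + (x - x') ≤
      ‖A‖ * ((x - c - β * tau α β (c - x)) / α + 1) + ‖B‖ * (tau α β (c - x) + 1) := by
  have h0 := D.h1
  have hA := D.α_le
  have hB := D.β_le
  have hT : tau α β (c - x') ≤ tau α β (c - x) := tau_antitone D.h2 (by linarith)
  have hS : (x' - c - β * tau α β (c - x')) ≤ (x - c - β * tau α β (c - x)) := by
    rcases tau_cases (α := α) (β := β) (t := c - x') with h | h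
    · have h4 : tau α β (c - x) = 1 := le_antisymm (tau_le_one _ _ _) (by rw [h] at hT; exact hT)
      rw [h, h4]; linarith
    · have := mul_tau_le D.h2 (by linarith [hx.1] : c - x < α + β)
      linarith
  have e1 : (x - x') = ((x - c - β * tau α β (c - x)) - (x' - c - β * tau α β (c - x'))) +
      β * (tau α β (c - x) - tau α β (c - x')) := by ring
  set u' := (x' - c - β * tau α β (c - x'))
  set u := (x - c - β * tau α β (c - x))
  set T := tau α β (c - x)
  set T' := tau α β (c - x')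
  have h5 : (u - u') ≤ ‖A‖ * ((u - u') / α) := by
    rw [mul_div_assoc', le_div_iff₀ h0, mul_comm]
    exact mul_le_mul_of_nonneg_right hA (by linarith)
  have h6 : β * (T - T') ≤ ‖B‖ * (T - T') := mul_le_mul_of_nonneg_right hB (by linarith)
  have h7 : ‖A‖ * (u / α + 1) - ‖A‖ * (u' / α + 1) = ‖A‖ * ((u - u') / α) := by ring
  nlinarith

theorem lenD {x' x : ℝ} (hxx : x' ≤ x) :
    ‖A‖ * ((x' - c + β) / α + 1) + (x - x') ≤ ‖A‖ * ((x - c + β) / α + 1) := by
  have h0 := D.h1
  have hA := D.α_le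
  have h5 : (x - x') ≤ ‖A‖ * ((x - x') / α) := by
    rw [mul_div_assoc', le_div_iff₀ h0, mul_comm]
    exact mul_le_mul_of_nonneg_right hA (by linarith)
  have h7 : ‖A‖ * ((x - c + β) / α + 1) - ‖A‖ * ((x' - c + β) / α + 1) = ‖A‖ * ((x - x') / α) := by
    ring
  linarith

/-- The walk, first version. -/
theorem walkUD {x' x : ℝ} (hx' : x' ∈ Ioo (c - (α + β)) (c + (α + β)))
    (hx : x ∈ Ioo (c - (α + β)) (c + (α + β))) (hxx : x' ≤ x) (hxc : x ≤ c) :
    ∃ l ≤ pgramArc ‖A‖ ‖B‖ α β |x - c| - (x - x'),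
      Reach (pgram c₀ A B \ interior (pgram c₀ A B))
        (pt m n x' (yy c cy α α' κ x' (tau α β (c - x'))))
        (pt m n x (yy c cy α α' κ x (-tau α β (x - c)))) l := by
  refine ⟨_, ?_, (D.walkU hx').1.trans (D.walkD hx hxc).symm⟩
  have h1 := D.lenU hx' hx hxx
  have h2 : |x - c| = c - x := by rw [abs_sub_comm, abs_of_nonneg (by linarith)]
  rw [h2]
  unfold pgramArc
  have h0 : α ≠ 0 := D.h1.ne'
  have e : ‖A‖ * (α + β - (c - x)) / α + ‖B‖ * (1 + tau α β (c - x)) +
      ‖A‖ * (α - (c - x) - β * tau α β (c - x)) / α =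
      ‖A‖ * ((x - c - β * tau α β (c - x)) / α + 1) + ‖B‖ * (tau α β (c - x) + 1) +
      ‖A‖ * ((x - c + β) / α + 1) := by
    field_simp
    ring
  rw [e]
  linarith

/-- The walk, second version. -/
theorem walkDU {x' x : ℝ} (hx' : x' ∈ Ioo (c - (α + β)) (c + (α + β)))
    (hx : x ∈ Ioo (c - (α + β)) (c + (α + β))) (hxx : x' ≤ x) (hxc : x ≤ c) :
    ∃ l ≤ pgramArc ‖A‖ ‖B‖ α β |x - c| - (x - x'),
      Reach (pgram c₀ A B \ interior (pgram c₀ A B))
        (pt m n x' (yy c cy α α' κ x' (-tau α β (x' - c))))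
        (pt m n x (yy c cy α α' κ x (tau α β (c - x)))) l := by
  refine ⟨_, ?_, (D.walkD hx' (by linarith)).trans (D.walkU hx).1.symm⟩
  have h1 := D.lenD hxx
  have h2 : |x - c| = c - x := by rw [abs_sub_comm, abs_of_nonneg (by linarith)]
  rw [h2]
  unfold pgramArc
  have h0 : α ≠ 0 := D.h1.ne'
  have e : ‖A‖ * (α + β - (c - x)) / α + ‖B‖ * (1 + tau α β (c - x)) +
      ‖A‖ * (α - (c - x) - β * tau α β (c - x)) / α =
      ‖A‖ * ((x - c - β * tau α β (c - x)) / α + 1) + ‖B‖ * (tau α β (c - x) + 1) +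
      ‖A‖ * ((x - c + β) / α + 1) := by
    field_simp
    ring
  rw [e]
  linarith

/-- The mirrored data. -/
theorem mirror : PData (-m) n c₀ (-A) (-B) (-c) cy α (-α') β (-β') (-κ) := by
  refine ⟨D.hf.neg_left, ?_, D.hcy, ?_, ?_, ?_, ?_, ?_, neg_ne_zero.mpr D.hκ0, D.h1, D.h2, D.h3⟩
  · rw [inner_neg_left, D.hc]
  · rw [inner_neg_neg, D.hα]
  · rw [inner_neg_right, D.hα']
  · rw [inner_neg_neg, D.hβ]
  · rw [inner_neg_right, D.hβ']
  · rw [← D.hκ]; ring

omit D in
theorem pgram_neg (c₀ A B : Plane) : pgram c₀ (-A) (-B) = pgram c₀ A B := by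
  ext z
  constructor
  · rintro ⟨s, t, hs, ht, rfl⟩
    exact ⟨-s, -t, by rwa [abs_neg], by rwa [abs_neg], by module⟩
  · rintro ⟨s, t, hs, ht, rfl⟩
    exact ⟨-s, -t, by rwa [abs_neg], by rwa [abs_neg], by module⟩

omit D in
theorem pt_neg (m n : Plane) (x y : ℝ) : pt (-m) n (-x) y = pt m n x y := by
  simp [pt]

omit D in
theorem yy_mirror (x t : ℝ) : yy (-c) cy α (-α') (-κ) (-x) t = yy c cy α α' κ x (-t) := by
  unfold yy
  ring

/-- Right-hand version of the walk. -/
theorem walkUD' {x' x : ℝ} (hx' : x' ∈ Ioo (c - (α + β)) (c + (α + β)))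
    (hx : x ∈ Ioo (c - (α + β)) (c + (α + β))) (hxx : x ≤ x') (hxc : c ≤ x) :
    ∃ l ≤ pgramArc ‖A‖ ‖B‖ α β |x - c| - (x' - x),
      Reach (pgram c₀ A B \ interior (pgram c₀ A B))
        (pt m n x' (yy c cy α α' κ x' (tau α β (c - x'))))
        (pt m n x (yy c cy α α' κ x (-tau α β (x - c)))) l := by
  have h := D.mirror.walkDU (x' := -x') (x := -x) ⟨by linarith [hx'.2], by linarith [hx'.1]⟩
    ⟨by linarith [hx.2], by linarith [hx.1]⟩ (by linarith) (by linarith)
  obtain ⟨l, hl, hR⟩ := h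
  have e1 : |(-x) - (-c)| = |x - c| := by
    rw [show (-x) - (-c) = -(x - c) by ring, abs_neg]
  have e2 : (-x) - (-x') = x' - x := by ring
  have e3 : (-x') - (-c) = c - x' := by ring
  have e4 : (-c) - (-x) = x - c := by ring
  rw [norm_neg, norm_neg, e1, e2] at hl
  rw [pgram_neg, pt_neg, pt_neg, yy_mirror, yy_mirror, e3, e4, neg_neg] at hR
  exact ⟨l, hl, hR⟩

/-- Right-hand version of the walk. -/
theorem walkDU' {x' x : ℝ} (hx' : x' ∈ Ioo (c - (α + β)) (c + (α + β)))
    (hx : x ∈ Ioo (c - (α + β)) (c + (α + β))) (hxx : x ≤ x') (hxc : c ≤ x) :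
    ∃ l ≤ pgramArc ‖A‖ ‖B‖ α β |x - c| - (x' - x),
      Reach (pgram c₀ A B \ interior (pgram c₀ A B))
        (pt m n x' (yy c cy α α' κ x' (-tau α β (x' - c))))
        (pt m n x (yy c cy α α' κ x (tau α β (c - x)))) l := by
  have h := D.mirror.walkUD (x' := -x') (x := -x) ⟨by linarith [hx'.2], by linarith [hx'.1]⟩
    ⟨by linarith [hx.2], by linarith [hx.1]⟩ (by linarith) (by linarith)
  obtain ⟨l, hl, hR⟩ := h
  have e1 : |(-x) - (-c)| = |x - c| := by
    rw [show (-x) - (-c) = -(x - c) by ring, abs_neg]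
  have e2 : (-x) - (-x') = x' - x := by ring
  have e3 : (-c) - (-x') = x' - c := by ring
  have e4 : (-x) - (-c) = c - x := by ring
  rw [norm_neg, norm_neg, e1, e2] at hl
  rw [pgram_neg, pt_neg, pt_neg, yy_mirror, yy_mirror, e3, e4, neg_neg] at hR
  exact ⟨l, hl, hR⟩

/-- The sum of the two `tau`s. -/
theorem tau_sum (x : ℝ) : tau α β (c - x) + tau α β (x - c) = 1 + tau α β |x - c| := by
  rcases le_total x c with h | h
  · rw [abs_sub_comm, abs_of_nonneg (by linarith),
      tau_eq_one (α := α) (β := β) (t := x - c) D.h2 (by linarith [D.h3])]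
    ring
  · rw [abs_of_nonneg (by linarith),
      tau_eq_one (α := α) (β := β) (t := c - x) D.h2 (by linarith [D.h3])]

/-- The profile of a parallelogram. -/
theorem exists_profile {L : ℝ}
    (hL : 2 * α * ‖B‖ + ‖A‖ * (α ^ 2 + β ^ 2) / α ≤ L * (2 * |κ|)) :
    ∃ P : Profile m n L (pgram c₀ A B), P.e = α + β := by
  have h0 := D.h1
  have hb := D.h2
  have hk := D.hκ0
  have hchord : ∀ x : ℝ, |κ| / α * (tau α β (c - x) + tau α β (x - c)) =
      pgramChord α β κ |x - c| := by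
    intro x
    rw [D.tau_sum]
    rfl
  have hpos : ∀ x ∈ Ioo (c - (α + β)) (c + (α + β)),
      0 < tau α β (c - x) + tau α β (x - c) := by
    intro x hx
    rw [D.tau_sum]
    have := neg_one_lt_tau (α := α) (β := β) (t := |x - c|) D.h2
      (by rw [abs_lt]; exact ⟨by linarith [hx.1], by linarith [hx.2]⟩)
    linarith
  rcases lt_or_gt_of_ne hk with hneg | hpos'
  · -- κ < 0
    refine ⟨{ c := c, e := α + β,
              lo := fun x => yy c cy α α' κ x (tau α β (c - x)),
              hi := fun x => yy c cy α α' κ x (-tau α β (x - c)),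
              af := pgramArc ‖A‖ ‖B‖ α β, cf := pgramChord α β κ,
              e_pos := by linarith,
              af_cont := pgramArc_continuous _ _ _ _, cf_cont := pgramChord_continuous _ _ _,
              lt := ?_, chord := ?_, int_iff := ?_, ext := ?_, range := ?_, reachL := ?_,
              reachR := ?_, bound := ?_ }, rfl⟩
    · intro x hx
      have := hpos x hx
      have hk2 : κ / α < 0 := div_neg_of_neg_of_pos hneg h0
      unfold yy
      nlinarith
    · intro x _
      rw [← hchord x, abs_of_neg hneg]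
      unfold yy
      ring
    · intro x y
      rw [D.mem_int_iff]
      have hk2 : κ / α < 0 := div_neg_of_neg_of_pos hneg h0
      constructor
      · rintro ⟨t, ht1, ht2, rfl⟩
        obtain ⟨hx, h3, h4⟩ := (D.param_lt_iff t).mp ⟨ht1, ht2⟩
        refine ⟨hx, ?_, ?_⟩ <;> unfold yy <;> nlinarith
      · rintro ⟨hx, h3, h4⟩
        set t := (y - cy - (x - c) * α' / α) * (α / κ) with ht
        have hy : y = yy c cy α α' κ x t := by
          unfold yy
          rw [ht]
          field_simp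
          ring
        rw [hy] at h3 h4
        unfold yy at h3 h4
        have h5 : -tau α β (x - c) < t := by nlinarith
        have h6 : t < tau α β (c - x) := by nlinarith
        obtain ⟨h7, h8⟩ := (D.param_lt_iff t).mpr ⟨hx, h5, h6⟩
        exact ⟨t, h7, h8, hy⟩
    · intro x y hxy
      obtain ⟨t, ht, hs, _⟩ := (D.mem_iff x y).mp hxy
      rw [abs_div, abs_of_pos h0, div_le_one h0] at hs
      rw [abs_le] at hs ht
      exact ⟨by nlinarith, by nlinarith⟩
    · intro x y hxy hx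
      obtain ⟨t, ht, hs, rfl⟩ := (D.mem_iff x y).mp hxy
      obtain ⟨h3, h4⟩ := (D.param_le_iff hx t).mp ⟨ht, hs⟩
      have hk2 : κ / α < 0 := div_neg_of_neg_of_pos hneg h0
      constructor <;> unfold yy <;> nlinarith
    · intro x' hx' x hx hxx hxc
      exact D.walkDU hx' hx hxx hxc
    · intro x' hx' x hx hxx hxc
      exact D.walkDU' hx' hx hxx hxc
    · rw [integral_pgramArc h0 hb D.h3, integral_pgramChord h0 hb D.h3]
      exact hL
  · -- κ > 0
    refine ⟨{ c := c, e := α + β,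
              lo := fun x => yy c cy α α' κ x (-tau α β (x - c)),
              hi := fun x => yy c cy α α' κ x (tau α β (c - x)),
              af := pgramArc ‖A‖ ‖B‖ α β, cf := pgramChord α β κ,
              e_pos := by linarith,
              af_cont := pgramArc_continuous _ _ _ _, cf_cont := pgramChord_continuous _ _ _,
              lt := ?_, chord := ?_, int_iff := ?_, ext := ?_, range := ?_, reachL := ?_,
              reachR := ?_, bound := ?_ }, rfl⟩
    · intro x hx
      have := hpos x hx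
      have hk2 : 0 < κ / α := div_pos hpos' h0
      unfold yy
      nlinarith
    · intro x _
      rw [← hchord x, abs_of_pos hpos']
      unfold yy
      ring
    · intro x y
      rw [D.mem_int_iff]
      have hk2 : 0 < κ / α := div_pos hpos' h0
      constructor
      · rintro ⟨t, ht1, ht2, rfl⟩
        obtain ⟨hx, h3, h4⟩ := (D.param_lt_iff t).mp ⟨ht1, ht2⟩
        refine ⟨hx, ?_, ?_⟩ <;> unfold yy <;> nlinarith
      · rintro ⟨hx, h3, h4⟩
        set t := (y - cy - (x - c) * α' / α) * (α / κ) with ht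
        have hy : y = yy c cy α α' κ x t := by
          unfold yy
          rw [ht]
          field_simp
          ring
        rw [hy] at h3 h4
        unfold yy at h3 h4
        have h5 : -tau α β (x - c) < t := by nlinarith
        have h6 : t < tau α β (c - x) := by nlinarith
        obtain ⟨h7, h8⟩ := (D.param_lt_iff t).mpr ⟨hx, h5, h6⟩
        exact ⟨t, h7, h8, hy⟩
    · intro x y hxy
      obtain ⟨t, ht, hs, _⟩ := (D.mem_iff x y).mp hxy
      rw [abs_div, abs_of_pos h0, div_le_one h0] at hs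
      rw [abs_le] at hs ht
      exact ⟨by nlinarith, by nlinarith⟩
    · intro x y hxy hx
      obtain ⟨t, ht, hs, rfl⟩ := (D.mem_iff x y).mp hxy
      obtain ⟨h3, h4⟩ := (D.param_le_iff hx t).mp ⟨ht, hs⟩
      have hk2 : 0 < κ / α := div_pos hpos' h0
      constructor <;> unfold yy <;> nlinarith
    · intro x' hx' x hx hxx hxc
      exact D.walkUD hx' hx hxx hxc
    · intro x' hx' x hx hxx hxc
      exact D.walkUD' hx' hx hxx hxc
    · rw [integral_pgramArc h0 hb D.h3, integral_pgramChord h0 hb D.h3]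
      exact hL

end PData

end Run7.h520
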