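import Pool.Agent.Run7.h520.LowerC
import Pool.Agent.Run7.h520.PgramProfile
import Pool.Agent.Run7.h520.BrickLayer

/-!
# Every parallelogram has property (S)
-/

namespace Run7.h520

open Set
open scoped ENNReal

/-- The gradient equations. -/
def Gr (A B : Plane) (s : ℝ) (G : Plane) : Prop :=
  inner ℝ G A = -s * ‖A‖ ∧ inner ℝ G B = ‖B‖ + ‖A‖ * (1 - s ^ 2) / 2

/-- All gradients have length at most `L`. -/
def Bd (A B : Plane) (L : ℝ) : Prop := ∀ s : ℝ, |s| ≤ 1 → ∃ G, Gr A B s G ∧ ‖G‖ ≤ L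

theorem Bd.neg_left {A B : Plane} {L : ℝ} (h : Bd A B L) : Bd (-A) B L := by
  intro s hs
  obtain ⟨G, ⟨h1, h2⟩, h3⟩ := h (-s) (by rwa [abs_neg])
  refine ⟨G, ⟨?_, ?_⟩, h3⟩
  · rw [inner_neg_right, h1, norm_neg]; ring
  · rw [h2, norm_neg]; ring

theorem Bd.neg_right {A B : Plane} {L : ℝ} (h : Bd A B L) : Bd A (-B) L := by
  intro s hs
  obtain ⟨G, ⟨h1, h2⟩, h3⟩ := h (-s) (by rwa [abs_neg])
  refine ⟨-G, ⟨?_, ?_⟩, by rwa [norm_neg]⟩
  · rw [inner_neg_left, h1]; ring
  · rw [inner_neg_neg, h2, norm_neg]; ring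

theorem Bd.map {A B : Plane} {L : ℝ} (h : Bd A B L) {r : ℝ} (hr : 0 < r)
    (φ : Plane ≃ₗᵢ[ℝ] Plane) : Bd (r • φ A) (r • φ B) L := by
  intro s hs
  obtain ⟨G, ⟨h1, h2⟩, h3⟩ := h s hs
  refine ⟨φ G, ⟨?_, ?_⟩, by rwa [φ.norm_map]⟩
  · rw [inner_smul_right, φ.inner_map_map, h1, norm_smul, φ.norm_map, Real.norm_of_nonneg hr.le]
    ring
  · rw [inner_smul_right, φ.inner_map_map, h2, norm_smul, norm_smul, φ.norm_map, φ.norm_map,
      Real.norm_of_nonneg hr.le]
    ring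

theorem pgram_neg_left (c₀ A B : Plane) : pgram c₀ (-A) B = pgram c₀ A B := by
  ext z
  constructor
  · rintro ⟨s, t, hs, ht, rfl⟩
    exact ⟨-s, t, by rwa [abs_neg], ht, by module⟩
  · rintro ⟨s, t, hs, ht, rfl⟩
    exact ⟨-s, t, by rwa [abs_neg], ht, by module⟩

theorem pgram_neg_right (c₀ A B : Plane) : pgram c₀ A (-B) = pgram c₀ A B := by
  ext z
  constructor
  · rintro ⟨s, t, hs, ht, rfl⟩
    exact ⟨s, -t, hs, by rwa [abs_neg], by module⟩
  · rintro ⟨s, t, hs, ht, rfl⟩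
    exact ⟨s, -t, hs, by rwa [abs_neg], by module⟩

theorem pgram_swap (c₀ A B : Plane) : pgram c₀ B A = pgram c₀ A B := by
  ext z
  constructor
  · rintro ⟨s, t, hs, ht, rfl⟩
    exact ⟨t, s, ht, hs, by module⟩
  · rintro ⟨s, t, hs, ht, rfl⟩
    exact ⟨t, s, ht, hs, by module⟩

/-- The profile for a parallelogram in normal position. -/
theorem profile_core {m n c₀ A B : Plane} (hf : Frame m n) {L : ℝ}
    (hκ : (inner ℝ m A : ℝ) * inner ℝ n B - inner ℝ n A * inner ℝ m B ≠ 0)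
    (h2 : 0 ≤ (inner ℝ m B : ℝ)) (h3 : (inner ℝ m B : ℝ) ≤ inner ℝ m A) (hB : Bd A B L) :
    ∃ P : Profile m n L (pgram c₀ A B), P.e ≤ ‖A‖ + ‖B‖ := by
  set α : ℝ := inner ℝ m A with hα
  set α' : ℝ := inner ℝ n A with hα'
  set β : ℝ := inner ℝ m B with hβ
  set β' : ℝ := inner ℝ n B with hβ'
  set κ : ℝ := α * β' - α' * β with hκd
  have h1 : 0 < α := by
    rcases lt_or_eq_of_le (h2.trans h3) with h | h
    · exact h
    · exfalso
      apply hκ
      have hb : β = 0 := le_antisymm (by rw [h]; exact h3) h2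
      rw [hκd, ← h, hb]; ring
  have D : PData m n c₀ A B (inner ℝ m c₀) (inner ℝ n c₀) α α' β β' κ :=
    ⟨hf, rfl, rfl, rfl, rfl, rfl, rfl, rfl, hκ, h1, h2, h3⟩
  set s := β / α with hs
  have hs0 : 0 ≤ s := div_nonneg h2 h1.le
  have hs1 : s ≤ 1 := by rw [hs, div_le_one h1]; exact h3
  obtain ⟨G, ⟨hGA, hGB⟩, hGL⟩ := hB s (by rw [abs_of_nonneg hs0]; exact hs1)
  have hn : α • B - β • A = κ • n := by
    have e2 : A = α • m + α' • n := hf.dec A
    have e3 : B = β • m + β' • n := hf.dec B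
    rw [hκd]
    calc α • B - β • A = α • (β • m + β' • n) - β • (α • m + α' • n) := by rw [← e2, ← e3]
      _ = _ := by module
  have hGn : κ * inner ℝ G n = α * inner ℝ G B - β * inner ℝ G A := by
    rw [← inner_smul_right, ← hn, inner_sub_right, inner_smul_right, inner_smul_right]
  have hle : κ * inner ℝ G n ≤ |κ| * L := by
    calc κ * inner ℝ G n ≤ |κ * inner ℝ G n| := le_abs_self _
      _ = |κ| * |inner ℝ G n| := abs_mul _ _
      _ ≤ |κ| * L := by
          apply mul_le_mul_of_nonneg_left _ (abs_nonneg _)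
          have := abs_real_inner_le_norm G n
          rw [hf.norm_n, mul_one] at this
          exact this.trans hGL
  have hL : 2 * α * ‖B‖ + ‖A‖ * (α ^ 2 + β ^ 2) / α ≤ L * (2 * |κ|) := by
    have e : 2 * α * ‖B‖ + ‖A‖ * (α ^ 2 + β ^ 2) / α = 2 * (κ * inner ℝ G n) := by
      rw [hGn, hGA, hGB, hs]
      field_simp
      ring
    rw [e]
    linarith
  obtain ⟨P, hP⟩ := D.exists_profile hL
  refine ⟨P, ?_⟩
  rw [hP]
  exact add_le_add D.α_le D.β_le

/-- The profile for a parallelogram in general position. -/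
theorem profile_general {m n c₀ A B : Plane} (hf : Frame m n) {L : ℝ}
    (hκ : (inner ℝ m A : ℝ) * inner ℝ n B - inner ℝ n A * inner ℝ m B ≠ 0)
    (h1 : Bd A B L) (h2 : Bd B A L) :
    ∃ P : Profile m n L (pgram c₀ A B), P.e ≤ ‖A‖ + ‖B‖ := by
  have step : ∀ A B : Plane, (inner ℝ m A : ℝ) * inner ℝ n B - inner ℝ n A * inner ℝ m B ≠ 0 →
      Bd A B L → Bd B A L → 0 ≤ (inner ℝ m A : ℝ) → 0 ≤ (inner ℝ m B : ℝ) →
      ∃ P : Profile m n L (pgram c₀ A B), P.e ≤ ‖A‖ + ‖B‖ := by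
    intro A B hκ h1 h2 h3 h4
    rcases le_total (inner ℝ m B : ℝ) (inner ℝ m A) with h | h
    · exact profile_core hf hκ h4 h h1
    · have hκ' : (inner ℝ m B : ℝ) * inner ℝ n A - inner ℝ n B * inner ℝ m A ≠ 0 := by
        intro hcon
        apply hκ
        linarith
      obtain ⟨P, hP⟩ := profile_core (c₀ := c₀) hf hκ' h3 h h2
      rw [pgram_swap] at P
      have : ∃ P : Profile m n L (pgram c₀ B A), P.e ≤ ‖B‖ + ‖A‖ :=
        profile_core (c₀ := c₀) hf hκ' h3 h h2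
      rw [pgram_swap, add_comm] at this
      exact this
  have step2 : ∀ A B : Plane, (inner ℝ m A : ℝ) * inner ℝ n B - inner ℝ n A * inner ℝ m B ≠ 0 →
      Bd A B L → Bd B A L → 0 ≤ (inner ℝ m A : ℝ) →
      ∃ P : Profile m n L (pgram c₀ A B), P.e ≤ ‖A‖ + ‖B‖ := by
    intro A B hκ h1 h2 h3
    rcases le_total 0 (inner ℝ m B : ℝ) with h | h
    · exact step A B hκ h1 h2 h3 h
    · have := step A (-B) (by
        simp only [inner_neg_right]
        intro hcon; apply hκ; linarith) h1.neg_right h2.neg_left h3 (by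
        rw [inner_neg_right]; linarith)
      rwa [pgram_neg_right, norm_neg] at this
  rcases le_total 0 (inner ℝ m A : ℝ) with h | h
  · exact step2 A B hκ h1 h2 h
  · have := step2 (-A) B (by
      simp only [inner_neg_right]
      intro hcon; apply hκ; linarith) h1.neg_left h2.neg_right (by
      rw [inner_neg_right]; linarith)
    rwa [pgram_neg_left, norm_neg] at this

/-- The determinant is nonzero in every frame. -/
theorem det_ne_zero_of_indep {m n A B : Plane} (hf : Frame m n)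
    (h : LinearIndependent ℝ ![A, B]) :
    (inner ℝ m A : ℝ) * inner ℝ n B - inner ℝ n A * inner ℝ m B ≠ 0 := by
  intro hcon
  rw [LinearIndependent.pair_iff] at h
  set α : ℝ := inner ℝ m A with hα
  set α' : ℝ := inner ℝ n A with hα'
  set β : ℝ := inner ℝ m B with hβ
  set β' : ℝ := inner ℝ n B with hβ'
  have e2 : A = α • m + α' • n := hf.dec A
  have e3 : B = β • m + β' • n := hf.dec B
  have c1 : (-β) • A + α • B = 0 := by
    calc (-β) • A + α • B = (-β) • (α • m + α' • n) + α • (β • m + β' • n) := by rw [← e2, ← e3]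
      _ = (α * β' - α' * β) • n := by module
      _ = 0 := by rw [hcon, zero_smul]
  have c2 : (-β') • A + α' • B = 0 := by
    calc (-β') • A + α' • B = (-β') • (α • m + α' • n) + α' • (β • m + β' • n) := by
          rw [← e2, ← e3]
      _ = (-(α * β' - α' * β)) • m := by module
      _ = 0 := by rw [hcon, neg_zero, zero_smul]
  have d1 := h _ _ c1
  have d2 := h _ _ c2
  have hA : A = 0 := by
    rw [e2, d1.2, d2.2]; simp
  have := h 1 0 (by rw [hA]; simp)
  exact one_ne_zero this.1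

/-- Existence and continuity of the gradient. -/
theorem exists_grad {m n A B : Plane} (hf : Frame m n)
    (hκ : (inner ℝ m A : ℝ) * inner ℝ n B - inner ℝ n A * inner ℝ m B ≠ 0) :
    ∃ G : ℝ → Plane, Continuous G ∧ ∀ s, Gr A B s (G s) := by
  set α : ℝ := inner ℝ m A with hα
  set α' : ℝ := inner ℝ n A with hα'
  set β : ℝ := inner ℝ m B with hβ
  set β' : ℝ := inner ℝ n B with hβ'
  set κ : ℝ := α * β' - α' * β with hκd
  refine ⟨fun s => (((-s * ‖A‖) * β' - (‖B‖ + ‖A‖ * (1 - s ^ 2) / 2) * α') / κ) • m +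
    (((‖B‖ + ‖A‖ * (1 - s ^ 2) / 2) * α - (-s * ‖A‖) * β) / κ) • n, by fun_prop, ?_⟩
  intro s
  set p := -s * ‖A‖ with hp
  set q := ‖B‖ + ‖A‖ * (1 - s ^ 2) / 2 with hq
  have hi : ∀ z : Plane, (inner ℝ (((p * β' - q * α') / κ) • m + ((q * α - p * β) / κ) • n) z : ℝ) =
      ((p * β' - q * α') / κ) * inner ℝ m z + ((q * α - p * β) / κ) * inner ℝ n z := by
    intro z
    rw [inner_add_left, inner_smul_left, inner_smul_left]
    simp
  constructor
  · rw [hi, ← hα, ← hα']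
    field_simp
    rw [hκd]
    ring
  · rw [hi, ← hβ, ← hβ']
    field_simp
    rw [hκd]
    ring

/-- Comparison of permeabilities. -/
theorem exists_width {ℓ : ℝ≥0∞} {g d ρ c₀ : ℝ} (hg : 0 < g) (hd : 0 < d) (hρ : 0 ≤ ρ) (hc : 0 ≤ c₀)
    (hℓ : ℓ < ENNReal.ofReal (g * d)) :
    ∃ D : ℝ, 0 < D ∧ ρ ≤ D ∧ ∀ E : ℝ≥0∞, ENNReal.ofReal (g * (D - ρ) - c₀) ≤ E →
      ENNReal.ofReal D / E ≤ ENNReal.ofReal d / ℓ := by
  have hℓt : ℓ ≠ ⊤ := ne_top_of_lt hℓ
  set l := ℓ.toReal with hl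
  have hℓ' : ℓ = ENNReal.ofReal l := (ENNReal.ofReal_toReal hℓt).symm
  have hl0 : 0 ≤ l := ENNReal.toReal_nonneg
  have hlgd : l < g * d := by
    rw [hℓ', ENNReal.ofReal_lt_ofReal_iff (by positivity)] at hℓ
    exact hℓ
  have hgl : 0 < g * d - l := by linarith
  set D := ρ + c₀ / g + 1 + d * (g * ρ + c₀) / (g * d - l) with hD
  have h1 : 0 ≤ c₀ / g := by positivity
  have h2 : 0 ≤ d * (g * ρ + c₀) / (g * d - l) := by positivity
  have hDpos : 0 < D := by rw [hD]; positivity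
  refine ⟨D, hDpos, by linarith, ?_⟩
  intro E hE
  have hq : 0 < g * (D - ρ) - c₀ := by
    have : g * (D - ρ) - c₀ = g * 1 + g * (d * (g * ρ + c₀) / (g * d - l)) := by
      rw [hD]; field_simp; ring
    rw [this]
    positivity
  have h3 : ENNReal.ofReal D / E ≤ ENNReal.ofReal (D / (g * (D - ρ) - c₀)) := by
    rw [ENNReal.ofReal_div_of_pos hq]
    exact ENNReal.div_le_div_left hE _
  refine h3.trans ?_
  rcases eq_or_lt_of_le hl0 with h0 | h0
  · rw [hℓ', ← h0, ENNReal.ofReal_zero, ENNReal.div_zero]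
    · exact le_top
    · rw [Ne, ENNReal.ofReal_eq_zero]; linarith
  · rw [hℓ', ← ENNReal.ofReal_div_of_pos h0]
    apply ENNReal.ofReal_le_ofReal
    rw [div_le_div_iff₀ hq h0]
    have h4 : d * (g * ρ + c₀) ≤ D * (g * d - l) := by
      have : d * (g * ρ + c₀) / (g * d - l) ≤ D := by linarith
      rwa [div_le_iff₀ hgl] at this
    nlinarith

/-- Images of parallelograms under similarities. -/
theorem image_pgram (c A B v : Plane) (r : ℝ) (φ : Plane ≃ₗᵢ[ℝ] Plane) :
    (fun z => r • φ z + v) '' pgram c A B = pgram (r • φ c + v) (r • φ A) (r • φ B) := by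
  ext z
  constructor
  · rintro ⟨_, ⟨s, t, hs, ht, rfl⟩, rfl⟩
    refine ⟨s, t, hs, ht, ?_⟩
    simp only [map_add, map_smul]
    module
  · rintro ⟨s, t, hs, ht, rfl⟩
    refine ⟨c + s • A + t • B, ⟨s, t, hs, ht, rfl⟩, ?_⟩
    simp only [map_add, map_smul]
    module

/-- The core statement. -/
theorem propertyS_core {A B : Plane} (hind : LinearIndependent ℝ ![A, B]) (c : Plane) {s : ℝ}
    (hs : |s| ≤ 1) {G : Plane} (hG : Gr A B s G) (h1 : Bd A B ‖G‖) (h2 : Bd B A ‖G‖) :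
    PropertyS (pgram c A B) := by
  intro 𝒞 n a d hlay hsim
  obtain ⟨m, hf⟩ := exists_frame hlay.unit
  have hκ := det_ne_zero_of_indep hf hind
  have hB0 : 0 < ‖B‖ := by
    rw [norm_pos_iff]
    rintro rfl
    apply hκ
    simp
  have hA0 : 0 < ‖A‖ := by
    rw [norm_pos_iff]
    rintro rfl
    apply hκ
    simp
  -- `‖G‖ > 1`
  have hG1 : 1 < ‖G‖ := by
    obtain ⟨G', ⟨_, h4⟩, h5⟩ := h1 0 (by simp)
    have h6 := real_inner_le_norm G' B
    rw [h4] at h6
    have h7 : ‖G'‖ * ‖B‖ ≤ ‖G‖ * ‖B‖ := mul_le_mul_of_nonneg_right h5 hB0.le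
    by_contra hcon
    push Not at hcon
    have h8 : ‖G‖ * ‖B‖ ≤ 1 * ‖B‖ := mul_le_mul_of_nonneg_right hcon hB0.le
    nlinarith
  -- profiles
  have hbody := pgram_isConvexBody hf hκ c
  obtain ⟨p, hp⟩ := hbody.2.2
  obtain ⟨ρ₀, hρ₀, hball⟩ := Metric.isOpen_iff.mp isOpen_interior p hp
  set W := (2 * d / ρ₀) * (‖A‖ + ‖B‖) with hW
  have hprof : ∀ K : 𝒞, ∃ P : Profile m n ‖G‖ (K : Set Plane), P.e ≤ W := by
    rintro ⟨K, hK⟩
    obtain ⟨r, φ, v, hr, rfl⟩ := hsim K hK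
    simp only
    have hrd : r ≤ 2 * d / ρ₀ := by
      rw [le_div_iff₀ hρ₀]
      set w : Plane := (ρ₀ / 2) • φ.symm n with hw
      have hwn : ‖w‖ < ρ₀ := by
        rw [hw, norm_smul, φ.symm.norm_map, hlay.unit, Real.norm_of_nonneg (by linarith)]
        linarith
      have hm1 : p + w ∈ pgram c A B := interior_subset (hball (by
        rw [Metric.mem_ball, dist_eq_norm]; simpa using hwn))
      have hm2 : p ∈ pgram c A B := interior_subset hp
      have i1 := hlay.in_strip _ hK _ ⟨p + w, hm1, rfl⟩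
      have i2 := hlay.in_strip _ hK _ ⟨p, hm2, rfl⟩
      have e : (inner ℝ n (r • φ (p + w) + v) : ℝ) = inner ℝ n (r • φ p + v) + r * (ρ₀ / 2) := by
        rw [hw]
        simp only [map_add, map_smul, φ.apply_symm_apply, inner_add_right, inner_smul_right,
          smul_add, hf.nn]
        ring
      rw [e] at i1
      linarith [i1.2, i2.1]
    rw [image_pgram] at *
    have hind' : LinearIndependent ℝ ![r • φ A, r • φ B] := by
      rw [LinearIndependent.pair_iff] at hind ⊢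
      intro x y hxy
      have : φ (x • A + y • B) = 0 := by
        have e : r • φ (x • A + y • B) = 0 := by
          rw [← hxy]
          simp only [map_add, map_smul]
          module
        exact (smul_eq_zero.mp e).resolve_left hr.ne'
      rw [map_eq_zero_iff φ φ.injective] at this
      exact hind x y this
    have hκ' := det_ne_zero_of_indep hf hind'
    obtain ⟨P, hP⟩ := profile_general (c₀ := r • φ c + v) hf hκ' (h1.map hr φ) (h2.map hr φ)
    refine ⟨P, hP.trans ?_⟩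
    rw [norm_smul, norm_smul, φ.norm_map, φ.norm_map, Real.norm_of_nonneg hr.le, ← mul_add, hW]
    exact mul_le_mul_of_nonneg_right hrd (by positivity)
  choose prof hprofW using hprof
  have hlt := crossingLength_lt hlay hf prof hG1 hprofW
  -- the comparison layer
  obtain ⟨X, Y, C⟩ := exists_coord hf hκ
  obtain ⟨D, hD0, hD1, hD2⟩ := exists_width (ρ := 4 * (‖A‖ + ‖B‖)) (c₀ := 6 * ‖A‖)
    (by linarith : 0 < ‖G‖) hlay.width_pos (by positivity) (by positivity) hlt
  set n' : Plane := ‖G‖⁻¹ • G with hn'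
  have hGpos : 0 < ‖G‖ := by linarith
  have hn'1 : ‖n'‖ = 1 := by
    rw [hn', norm_smul, norm_inv, norm_norm]
    field_simp
  have hGn : G = ‖G‖ • n' := by
    rw [hn', smul_smul, mul_inv_cancel₀ hGpos.ne', one_smul]
  refine ⟨brickLayer A B s n' D, n', 0, D, brickLayer_isLayer C hf hκ hn'1 hD0, ?_, ?_⟩
  · rintro K ⟨j, k, rfl, _⟩
    refine ⟨centre A B s j k - c, ?_⟩
    ext z
    constructor
    · rintro ⟨x, y, hx, hy, rfl⟩
      exact ⟨c + x • A + y • B, ⟨x, y, hx, hy, rfl⟩, by module⟩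
    · rintro ⟨_, ⟨x, y, hx, hy, rfl⟩, rfl⟩
      exact ⟨x, y, hx, hy, by module⟩
  · exact hD2 _ (brickLayer_crossing C hf hκ hs hG.1 hG.2 hn'1 hGn hD1)

/-- **Every parallelogram has property (S).** -/
theorem pgram_propertyS {A B : Plane} (hind : LinearIndependent ℝ ![A, B]) (c : Plane) :
    PropertyS (pgram c A B) := by
  obtain ⟨m, hf⟩ := exists_frame (n := EuclideanSpace.single 0 1) (by simp)
  have hκ := det_ne_zero_of_indep hf hind
  have hκ' : (inner ℝ m B : ℝ) * inner ℝ (EuclideanSpace.single 0 1 : Plane) A -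
      inner ℝ (EuclideanSpace.single 0 1 : Plane) B * inner ℝ m A ≠ 0 := by
    intro hcon
    apply hκ
    linarith
  obtain ⟨G₁, hc1, hG1⟩ := exists_grad hf hκ
  obtain ⟨G₂, hc2, hG2⟩ := exists_grad hf hκ'
  obtain ⟨s₁, hs1, hmax1⟩ := isCompact_Icc.exists_isMaxOn (s := Icc (-1 : ℝ) 1) ⟨0, by simp⟩
    (hc1.norm.continuousOn)
  obtain ⟨s₂, hs2, hmax2⟩ := isCompact_Icc.exists_isMaxOn (s := Icc (-1 : ℝ) 1) ⟨0, by simp⟩
    (hc2.norm.continuousOn)
  have hb1 : Bd A B ‖G₁ s₁‖ := fun s hs => ⟨G₁ s, hG1 s, hmax1 (abs_le.mp hs)⟩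
  have hb2 : Bd B A ‖G₂ s₂‖ := fun s hs => ⟨G₂ s, hG2 s, hmax2 (abs_le.mp hs)⟩
  rcases le_total ‖G₂ s₂‖ ‖G₁ s₁‖ with h | h
  · exact propertyS_core hind c (abs_le.mpr hs1) (hG1 s₁) hb1
      (fun s hs => by
        obtain ⟨G, hG, hGL⟩ := hb2 s hs
        exact ⟨G, hG, hGL.trans h⟩)
  · have hind' : LinearIndependent ℝ ![B, A] := by
      rw [LinearIndependent.pair_iff] at hind ⊢
      intro x y hxy
      have := hind y x (by rw [← hxy]; abel)
      exact ⟨this.2, this.1⟩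
    rw [← pgram_swap]
    exact propertyS_core hind' c (abs_le.mpr hs2) (hG2 s₂) hb2
      (fun s hs => by
        obtain ⟨G, hG, hGL⟩ := hb1 s hs
        exact ⟨G, hG, hGL.trans h⟩)

end Run7.h520
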