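import Pool.Agent.Run7.h520.Paths

/-!
# Travelling along a line and walking around the obstacles
-/

namespace Run7.h520

open Set
open scoped ENNReal

/-- Travelling along a line `y ↦ P y` from `P y₂` to `P y₁`, walking around finitely many
obstacles with pairwise disjoint chords. -/
theorem line_travel {ι : Type*} [DecidableEq ι] (F : Set Plane) (P : ℝ → Plane)
    (hseg : ∀ y₁ y₂ : ℝ, y₁ ≤ y₂ → (∀ y ∈ Icc y₁ y₂, P y ∈ F) → Reach F (P y₂) (P y₁) (y₂ - y₁))
    (lo hi arc : ι → ℝ) (y₁ : ℝ) (S : Finset ι) :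
    ∀ y₂ : ℝ, y₁ ≤ y₂ → (∀ K ∈ S, lo K < hi K) →
      (∀ K ∈ S, ∀ K' ∈ S, K ≠ K' → hi K ≤ lo K' ∨ hi K' ≤ lo K) →
      (∀ K ∈ S, Reach F (P (hi K)) (P (lo K)) (arc K)) →
      (∀ K ∈ S, y₁ ≤ lo K ∧ hi K ≤ y₂) →
      (∀ y ∈ Icc y₁ y₂, P y ∉ F → ∃ K ∈ S, lo K < y ∧ y < hi K) →
      Reach F (P y₂) (P y₁) ((y₂ - y₁) + ∑ K ∈ S, (arc K - (hi K - lo K))) ∧
        ∑ K ∈ S, (hi K - lo K) ≤ y₂ - y₁ := by
  induction S using Finset.induction_on_max_value lo with
  | empty =>
    intro y₂ h12 _ _ _ _ hfree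
    refine ⟨?_, by simpa using h12⟩
    simp only [Finset.sum_empty, add_zero]
    apply hseg _ _ h12
    intro y hy
    by_contra hcon
    obtain ⟨K, hK, _⟩ := hfree y hy hcon
    simp at hK
  | insert a s ha hmax ih =>
    intro y₂ h12 hlt hdisj hreach hin hfree
    have hsa : ∀ K ∈ s, hi K ≤ lo a := by
      intro K hK
      have hne : K ≠ a := fun h => ha (h ▸ hK)
      rcases hdisj K (Finset.mem_insert_of_mem hK) a (Finset.mem_insert_self _ _) hne with h | h
      · exact h
      · have h1 := hmax K hK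
        have h2 := hlt a (Finset.mem_insert_self _ _)
        linarith
    have hina := hin a (Finset.mem_insert_self _ _)
    have hlta := hlt a (Finset.mem_insert_self _ _)
    obtain ⟨hR, hS⟩ := ih (lo a) hina.1
      (fun K hK => hlt K (Finset.mem_insert_of_mem hK))
      (fun K hK K' hK' h => hdisj K (Finset.mem_insert_of_mem hK) K'
        (Finset.mem_insert_of_mem hK') h)
      (fun K hK => hreach K (Finset.mem_insert_of_mem hK))
      (fun K hK => ⟨(hin K (Finset.mem_insert_of_mem hK)).1, hsa K hK⟩)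
      (by
        intro y hy hyF
        obtain ⟨K, hK, hK1, hK2⟩ := hfree y ⟨hy.1, by linarith [hy.2, hina.2]⟩ hyF
        rcases Finset.mem_insert.mp hK with rfl | hK
        · exact absurd hK1 (not_lt.mpr hy.2)
        · exact ⟨K, hK, hK1, hK2⟩)
    have htop : Reach F (P y₂) (P (hi a)) (y₂ - hi a) := by
      apply hseg _ _ hina.2
      intro y hy
      by_contra hcon
      obtain ⟨K, hK, hK1, hK2⟩ := hfree y ⟨by linarith [hy.1, hina.1], hy.2⟩ hcon
      rcases Finset.mem_insert.mp hK with rfl | hK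
      · exact absurd hK2 (not_lt.mpr hy.1)
      · have := hsa K hK
        linarith [hy.1]
    constructor
    · have h1 := (htop.trans (hreach a (Finset.mem_insert_self _ _))).trans hR
      rw [Finset.sum_insert ha]
      convert h1 using 1
      ring
    · rw [Finset.sum_insert ha]
      linarith

end Run7.h520
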